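import Mathlib

/-!
# Project GF (MP_973bc8_pr): the abstract structure

Test functions on the plane, the energy form, the eight directions with their reflections, and the structure
`Fld` which collects what the lattice part delivers to the continuum part: a positive normalised functional `L`
on an algebra of observables (an ultrafilter limit of averages over finite domains) and the field `X F` for
neutral test functions `F`.
-/

open MeasureTheory

namespace GF

/-- the plane -/
abbrev Pl := ℝ × ℝ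

/-- smooth functions with compact support -/
structure Cc (f : Pl → ℝ) : Prop where
  smooth : ContDiff ℝ (⊤ : ℕ∞) f
  supp : HasCompactSupport f

/-- neutral test functions -/
structure Ne (f : Pl → ℝ) : Prop extends Cc f where
  zero : ∫ z, f z = 0

/-- first derivatives -/
noncomputable def dx (f : Pl → ℝ) (z : Pl) : ℝ := fderiv ℝ f z (1, 0)

noncomputable def dy (f : Pl → ℝ) (z : Pl) : ℝ := fderiv ℝ f z (0, 1)

/-- Laplacian -/
noncomputable def lap (f : Pl → ℝ) (z : Pl) : ℝ := dx (dx f) z + dy (dy f) z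

/-- the form `⟨f, (-Δ)⁻¹ g⟩` of the whole plane, for neutral functions -/
noncomputable def energy2 (f g : Pl → ℝ) : ℝ :=
  ∫ x : Pl, ∫ y : Pl,
    f x * g y * (-(1 / (2 * Real.pi)) * Real.log (Real.sqrt ((x.1 - y.1) ^ 2 + (x.2 - y.2) ^ 2)))

/-- the norm: square root of the energy plus the `L¹` norm -/
noncomputable def nrm (f : Pl → ℝ) : ℝ := Real.sqrt (energy2 f f) + ∫ z, |f z|

/-- inner product of the plane -/
def ell (d z : Pl) : ℝ := d.1 * z.1 + d.2 * z.2

/-- the eight directions (not normalised) -/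
def Dir (d : Pl) : Prop :=
  d = (1, 0) ∨ d = (-1, 0) ∨ d = (0, 1) ∨ d = (0, -1) ∨ d = (1, 1) ∨ d = (-1, -1) ∨ d = (1, -1) ∨ d = (-1, 1)

/-- the reflection in the line `ell d z = s` -/
noncomputable def refl (d : Pl) (s : ℝ) (z : Pl) : Pl :=
  (z.1 - 2 * (ell d z - s) / (d.1 ^ 2 + d.2 ^ 2) * d.1,
    z.2 - 2 * (ell d z - s) / (d.1 ^ 2 + d.2 ^ 2) * d.2)

/-- reflected function -/
noncomputable def rf (d : Pl) (s : ℝ) (f : Pl → ℝ) : Pl → ℝ := fun z => f (refl d s z)

/-- a positive normalised functional on a solid algebra of functions -/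
structure Lim (I : Type) where
  /-- the observables (all moments are bounded) -/
  Ok : (I → ℝ) → Prop
  /-- the expectation -/
  L : (I → ℝ) → ℝ
  ok_const : ∀ c : ℝ, Ok (fun _ => c)
  ok_add : ∀ A B, Ok A → Ok B → Ok (fun i => A i + B i)
  ok_mul : ∀ A B, Ok A → Ok B → Ok (fun i => A i * B i)
  ok_of_abs_le : ∀ A B, (∀ i, |A i| ≤ |B i|) → Ok B → Ok A
  L_add : ∀ A B, Ok A → Ok B → L (fun i => A i + B i) = L A + L B
  L_smul : ∀ (c : ℝ) A, Ok A → L (fun i => c * A i) = c * L A
  L_mono : ∀ A B, Ok A → Ok B → (∀ i, A i ≤ B i) → L A ≤ L B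
  L_one : L (fun _ => 1) = 1

/-- what the lattice part delivers -/
structure Fld (I : Type) extends Lim I where
  /-- the field -/
  X : (Pl → ℝ) → I → ℝ
  /-- the constant of the two point function -/
  K : ℝ
  K_nonneg : 0 ≤ K
  X_add : ∀ f g, Ne f → Ne g → ∀ i, X (fun z => f z + g z) i = X f i + X g i
  X_smul : ∀ (c : ℝ) f, Ne f → ∀ i, X (fun z => c * f z) i = c * X f i
  ok_X : ∀ f, Ne f → Ok (X f)
  /-- two point function -/
  two : ∀ f g, Ne f → Ne g → L (fun i => X f i * X g i) = K * energy2 f g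
  /-- symmetry `X ↦ -X` -/
  odd : ∀ f, Ne f → L (fun i => Real.sin (X f i)) = 0
  /-- all moments are bounded by the norm -/
  moment : ∀ n : ℕ, ∃ C : ℝ, ∀ f, Ne f → L (fun i => |X f i| ^ n) ≤ C * nrm f ^ n
  /-- reflection positivity, Cauchy-Schwarz inequality across the line `ell d z = s` -/
  rp1 : ∀ (d : Pl) (s : ℝ) (f gm gp : Pl → ℝ), Dir d → Cc f → Cc gm → Cc gp →
    (∫ z, gm z) + (∫ z, gp z) = 0 →
    tsupport f ⊆ {z | ell d z < s} → tsupport gm ⊆ {z | ell d z < s} → tsupport gp ⊆ {z | s < ell d z} →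
    L (fun i => X (lap f) i * Real.sin (X (fun z => gm z + gp z) i)) ^ 2 ≤
      L (fun i => X (lap f) i * X (rf d s (lap f)) i * Real.cos (X (fun z => gm z - rf d s gm z) i))
  /-- reflection positivity and translation invariance: midpoint log-convexity in the position of the line -/
  rp2 : ∀ (d : Pl) (s t : ℝ) (f g : Pl → ℝ), Dir d → Cc f → Cc g → s ≤ t →
    tsupport f ⊆ {z | ell d z < s} → tsupport g ⊆ {z | ell d z < s} →
    L (fun i => X (lap f) i * X (rf d ((s + t) / 2) (lap f)) i *
        Real.cos (X (fun z => g z - rf d ((s + t) / 2) g z) i)) ^ 2 ≤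
      L (fun i => X (lap f) i * X (rf d s (lap f)) i * Real.cos (X (fun z => g z - rf d s g z) i)) *
      L (fun i => X (lap f) i * X (rf d t (lap f)) i * Real.cos (X (fun z => g z - rf d t g z) i))
  /-- midpoint inequality with rounding error -/
  mid : ∀ (n : ℕ) (F : Fin n → Pl → ℝ) (a b : Fin n → ℝ), (∀ j, Ne (F j)) →
    L (fun i => Real.exp (-(1 / 2) * ∑ j, (X (F j) i - a j) ^ 2)) *
      L (fun i => Real.exp (-(1 / 2) * ∑ j, (X (F j) i - b j) ^ 2)) ≤
    Real.exp (∑ j, (∫ z, |F j z|) ^ 2) *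
      L (fun i => Real.exp (-(1 / 2) * ∑ j, (X (F j) i - (a j + b j) / 2) ^ 2)) ^ 2

end GF
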