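import Pool.Agent.Helper27.GF.Ds

/-!
Rad (project GF, MP_973bc8_pr).  The characteristic function depends only on the energy.
-/

open MeasureTheory

namespace GF

variable {I : Type}

private lemma rad_cos_bound (x h : ℝ) :
    |Real.cos (x + h) - Real.cos x + h * Real.sin x| ≤ h ^ 2 := by
  have hd : ∀ z : ℝ, HasDerivAt (fun z => Real.cos (x + z) - Real.cos x + z * Real.sin x)
      (-Real.sin (x + z) + Real.sin x) z := by
    intro z
    have h1 : HasDerivAt (fun z => Real.cos (x + z)) (-Real.sin (x + z) * 1) z :=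
      (Real.hasDerivAt_cos (x + z)).comp z ((hasDerivAt_id z).const_add x)
    have h2 : HasDerivAt (fun z => z * Real.sin x) (1 * Real.sin x) z :=
      (hasDerivAt_id z).mul_const _
    have h3 := (h1.sub_const (Real.cos x)).fun_add h2
    rw [mul_one, one_mul] at h3
    exact h3
  have hb : ∀ z ∈ Set.uIcc (0 : ℝ) h,
      ‖deriv (fun z => Real.cos (x + z) - Real.cos x + z * Real.sin x) z‖ ≤ |h| := by
    intro z hz
    rw [(hd z).deriv, Real.norm_eq_abs]
    have h1 : |Real.sin x - Real.sin (x + z)| ≤ |x - (x + z)| := by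
      have := Real.lipschitzWith_sin.dist_le_mul x (x + z)
      rw [Real.dist_eq, Real.dist_eq] at this
      simpa using this
    have h2 : |x - (x + z)| = |z| := by
      rw [show x - (x + z) = -z by ring, abs_neg]
    have h3 : |z| ≤ |h| := by
      have := Set.abs_sub_left_of_mem_uIcc hz
      simpa using this
    rw [show -Real.sin (x + z) + Real.sin x = Real.sin x - Real.sin (x + z) by ring]
    linarith
  have h1 := Convex.norm_image_sub_le_of_norm_deriv_le (𝕜 := ℝ) (x := (0 : ℝ)) (y := h)
    (fun z _ => (hd z).differentiableAt) hb (convex_uIcc 0 h) Set.left_mem_uIcc Set.right_mem_uIcc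
  simp only [add_zero, sub_self, zero_mul, sub_zero, Real.norm_eq_abs] at h1
  calc |Real.cos (x + h) - Real.cos x + h * Real.sin x| ≤ |h| * |h| := by simpa using h1
    _ = h ^ 2 := by rw [← sq, sq_abs]

private lemma rad_lim (M : Lim I) {A B : I → ℝ} (hA : M.Ok A) (hB : M.Ok B)
    (h : ∀ t : ℝ, M.L (fun i => (-Real.sin t * A i + Real.cos t * B i) *
      Real.sin (Real.cos t * A i + Real.sin t * B i)) = 0) :
    M.L (fun i => Real.cos (A i)) = M.L (fun i => Real.cos (B i)) := by
  set phi : ℝ → ℝ := fun t => M.L (fun i => Real.cos (Real.cos t * A i + Real.sin t * B i)) with hphi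
  set W : I → ℝ := fun i => 2 * (A i ^ 2 + B i ^ 2) + (|A i| + |B i|) with hW
  have hWok : M.Ok W := M.ok_add _ _ (M.ok_smul 2 _ (M.ok_add _ _ (M.ok_pow A hA 2) (M.ok_pow B hB 2)))
    (M.ok_add _ _ (M.ok_abs A hA) (M.ok_abs B hB))
  have hcos : ∀ f : I → ℝ, M.Ok (fun i => Real.cos (f i)) := fun f =>
    M.ok_bdd _ 1 (fun i => Real.abs_cos_le_one _)
  have key : ∀ t s : ℝ, |phi (t + s) - phi t| ≤ s ^ 2 * M.L W := by
    intro t s
    set u : I → ℝ := fun i => Real.cos t * A i + Real.sin t * B i with hu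
    set v : I → ℝ := fun i => -Real.sin t * A i + Real.cos t * B i with hv
    have huok : M.Ok u := M.ok_add _ _ (M.ok_smul _ A hA) (M.ok_smul _ B hB)
    have hvok : M.Ok v := M.ok_add _ _ (M.ok_smul _ A hA) (M.ok_smul _ B hB)
    have hrot : ∀ i, Real.cos (t + s) * A i + Real.sin (t + s) * B i =
        u i + ((Real.cos s - 1) * u i + Real.sin s * v i) := by
      intro i
      simp only [hu, hv, Real.cos_add, Real.sin_add]
      ring
    have hvs : M.Ok (fun i => v i * Real.sin (u i)) :=
      M.ok_mul_bdd v _ hvok 1 (fun i => Real.abs_sin_le_one _)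
    have hL : phi (t + s) - phi t = M.L (fun i => (Real.cos (u i + ((Real.cos s - 1) * u i +
        Real.sin s * v i)) - Real.cos (u i)) + Real.sin s * (v i * Real.sin (u i))) := by
      rw [M.L_add _ _ (M.ok_sub _ _ (hcos _) (hcos _)) (M.ok_smul _ _ hvs),
        M.L_sub _ _ (hcos _) (hcos _), M.L_smul _ _ hvs, h t]
      simp only [hphi, hrot]
      ring
    have hcs : |Real.cos s - 1| ≤ s ^ 2 / 2 := by
      rw [abs_le]
      constructor
      · have := Real.one_sub_sq_div_two_le_cos (x := s)
        linarith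
      · have := Real.cos_le_one s
        have h2 := sq_nonneg s
        linarith
    have hcs2 : (Real.cos s - 1) ^ 2 ≤ s ^ 2 := by
      have h2 : |Real.cos s - 1| ≤ 2 := by
        rw [abs_le]
        constructor
        · have := Real.neg_one_le_cos s
          linarith
        · have := Real.cos_le_one s
          linarith
      calc (Real.cos s - 1) ^ 2 = |Real.cos s - 1| * |Real.cos s - 1| := by rw [← sq, sq_abs]
        _ ≤ 2 * (s ^ 2 / 2) := mul_le_mul h2 hcs (abs_nonneg _) (by norm_num)
        _ = s ^ 2 := by ring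
    have hss : Real.sin s ^ 2 ≤ s ^ 2 := by
      have := Real.abs_sin_le_abs (x := s)
      exact sq_le_sq.mpr this
    have huv : ∀ i, u i ^ 2 + v i ^ 2 = A i ^ 2 + B i ^ 2 := by
      intro i
      have := Real.sin_sq_add_cos_sq t
      simp only [hu, hv]
      linear_combination (A i ^ 2 + B i ^ 2) * this
    have hua : ∀ i, |u i| ≤ |A i| + |B i| := by
      intro i
      simp only [hu]
      refine (abs_add_le _ _).trans (add_le_add ?_ ?_)
      · rw [abs_mul]
        exact mul_le_of_le_one_left (abs_nonneg _) (Real.abs_cos_le_one _)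
      · rw [abs_mul]
        exact mul_le_of_le_one_left (abs_nonneg _) (Real.abs_sin_le_one _)
    rw [hL, ← M.L_smul _ _ hWok]
    refine M.abs_L_le_of_le _ _ (M.ok_smul _ _ hWok) (fun i => ?_)
    have e1 := rad_cos_bound (u i) ((Real.cos s - 1) * u i + Real.sin s * v i)
    have e2 : ((Real.cos s - 1) * u i + Real.sin s * v i) ^ 2 ≤ 2 * s ^ 2 * (A i ^ 2 + B i ^ 2) := by
      have h3 : ((Real.cos s - 1) * u i + Real.sin s * v i) ^ 2 ≤
          2 * ((Real.cos s - 1) ^ 2 * u i ^ 2) + 2 * (Real.sin s ^ 2 * v i ^ 2) := by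
        have := sq_nonneg ((Real.cos s - 1) * u i - Real.sin s * v i)
        nlinarith [this]
      have h4 : (Real.cos s - 1) ^ 2 * u i ^ 2 ≤ s ^ 2 * u i ^ 2 :=
        mul_le_mul_of_nonneg_right hcs2 (sq_nonneg _)
      have h5 : Real.sin s ^ 2 * v i ^ 2 ≤ s ^ 2 * v i ^ 2 :=
        mul_le_mul_of_nonneg_right hss (sq_nonneg _)
      have h6 := huv i
      calc _ ≤ 2 * (s ^ 2 * u i ^ 2) + 2 * (s ^ 2 * v i ^ 2) := by linarith
        _ = 2 * s ^ 2 * (u i ^ 2 + v i ^ 2) := by ring
        _ = _ := by rw [h6]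
    have e3 : |(Real.cos s - 1) * u i * Real.sin (u i)| ≤ s ^ 2 * (|A i| + |B i|) := by
      rw [abs_mul, abs_mul]
      have h3 : |Real.cos s - 1| * |u i| ≤ s ^ 2 / 2 * (|A i| + |B i|) :=
        mul_le_mul hcs (hua i) (abs_nonneg _) (by positivity)
      have h4 : |Real.cos s - 1| * |u i| * |Real.sin (u i)| ≤ |Real.cos s - 1| * |u i| :=
        mul_le_of_le_one_right (by positivity) (Real.abs_sin_le_one _)
      have h5 : 0 ≤ s ^ 2 * (|A i| + |B i|) := by positivity
      linarith
    have e4 : (Real.cos (u i + ((Real.cos s - 1) * u i + Real.sin s * v i)) - Real.cos (u i)) +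
        Real.sin s * (v i * Real.sin (u i)) =
        (Real.cos (u i + ((Real.cos s - 1) * u i + Real.sin s * v i)) - Real.cos (u i) +
          ((Real.cos s - 1) * u i + Real.sin s * v i) * Real.sin (u i)) -
          (Real.cos s - 1) * u i * Real.sin (u i) := by ring
    rw [e4]
    refine (abs_sub _ _).trans ?_
    simp only [hW]
    linarith
  have hder : ∀ t, HasDerivAt phi 0 t := by
    intro t
    rw [hasDerivAt_iff_isLittleO_nhds_zero]
    have h1 : (fun s : ℝ => phi (t + s) - phi t - s • (0 : ℝ)) =O[nhds 0] fun s : ℝ => s ^ 2 := by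
      refine Asymptotics.IsBigO.of_bound (M.L W) (Filter.Eventually.of_forall fun s => ?_)
      rw [smul_zero, sub_zero, Real.norm_eq_abs, Real.norm_eq_abs, abs_of_nonneg (sq_nonneg s),
        mul_comm]
      exact key t s
    exact h1.trans_isLittleO (Asymptotics.isLittleO_pow_id (by norm_num))
  have hc := is_const_of_deriv_eq_zero (fun t => (hder t).differentiableAt)
    (fun t => (hder t).deriv) 0 (Real.pi / 2)
  simpa [hphi] using hc

/-- Orthogonal case. `g t = cos t lap f1 + sin t lap f2 = lap (cos t f1 + sin t f2)`, `phi t = L (cos (X (g t)))`. `phi` is differentiable with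
`phi' t = -L (X (g' t) sin (X (g t)))`, `g' t = lap (-sin t f1 + cos t f2)` (`|cos (a + h) - cos a + h sin a| ≤ h²`-type estimates, `X (g (t+s)) = X (g t) + s X (g' t) + O(s²)(|X lap f1| + |X lap f2|)`),
and by `ds` this is `κ ∫ (-sin t f1 + cos t f2) (cos t lap f1 + sin t lap f2) = 0`, as `∫ f1 lap f1 = ∫ f2 lap f2`, `∫ f1 lap f2 = ∫ f2 lap f1 = 0`
(`int_lap_symm`). So `phi 0 = phi (π/2)`. -/
theorem rad_orth (M : Fld I) {f1 f2 : Pl → ℝ} (h1 : Cc f1) (h2 : Cc f2) (h12 : ∫ z, f1 z * lap f2 z = 0)
    (he : ∫ z, f1 z * lap f1 z = ∫ z, f2 z * lap f2 z) :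
    M.L (fun i => Real.cos (M.X (lap f1) i)) = M.L (fun i => Real.cos (M.X (lap f2) i)) := by
  refine rad_lim M.toLim (M.ok_X _ h1.ne_lap) (M.ok_X _ h2.ne_lap) (fun t => ?_)
  have hX : ∀ (a b : ℝ) (i : I), M.X (lap (fun z => a * f1 z + b * f2 z)) i =
      a * M.X (lap f1) i + b * M.X (lap f2) i := by
    intro a b i
    have e : lap (fun z => a * f1 z + b * f2 z) = fun z => a * lap f1 z + b * lap f2 z := by
      funext z
      rw [lap_add (h1.smul a).smooth (h2.smul b).smooth, lap_smul a h1.smooth, lap_smul b h2.smooth]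
    rw [e, M.X_add _ _ (h1.ne_lap.smul a) (h2.ne_lap.smul b) i, M.X_smul a _ h1.ne_lap,
      M.X_smul b _ h2.ne_lap]
  have hf : Cc (fun z => -Real.sin t * f1 z + Real.cos t * f2 z) := (h1.smul _).add (h2.smul _)
  have hG : Cc (fun z => Real.cos t * f1 z + Real.sin t * f2 z) := (h1.smul _).add (h2.smul _)
  obtain ⟨κ, hκ⟩ := ds M hG.ne_lap
  have h3 := hκ _ hf
  simp only [hX] at h3
  rw [h3]
  have h21 : ∫ z, f2 z * lap f1 z = 0 := by
    rw [int_lap_symm h2 h1.smooth]
    exact h12
  have i11 : Integrable (fun z => f1 z * lap f1 z) := (h1.mul h1.lap.smooth).integrable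
  have i12 : Integrable (fun z => f1 z * lap f2 z) := (h1.mul h2.lap.smooth).integrable
  have i21 : Integrable (fun z => f2 z * lap f1 z) := (h2.mul h1.lap.smooth).integrable
  have i22 : Integrable (fun z => f2 z * lap f2 z) := (h2.mul h2.lap.smooth).integrable
  have e : ∫ z, (-Real.sin t * f1 z + Real.cos t * f2 z) *
      lap (fun z => Real.cos t * f1 z + Real.sin t * f2 z) z = 0 := by
    have e1 : (fun z => (-Real.sin t * f1 z + Real.cos t * f2 z) *
        lap (fun z => Real.cos t * f1 z + Real.sin t * f2 z) z) = fun z =>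
        (((-Real.sin t * Real.cos t) * (f1 z * lap f1 z) + (-Real.sin t * Real.sin t) *
          (f1 z * lap f2 z)) + (Real.cos t * Real.cos t) * (f2 z * lap f1 z)) +
          (Real.cos t * Real.sin t) * (f2 z * lap f2 z) := by
      funext z
      rw [lap_add (h1.smul _).smooth (h2.smul _).smooth, lap_smul _ h1.smooth, lap_smul _ h2.smooth]
      ring
    have j1 : Integrable (fun z => (-Real.sin t * Real.cos t) * (f1 z * lap f1 z)) :=
      i11.const_mul _
    have j2 : Integrable (fun z => (-Real.sin t * Real.sin t) * (f1 z * lap f2 z)) :=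
      i12.const_mul _
    have j3 : Integrable (fun z => (Real.cos t * Real.cos t) * (f2 z * lap f1 z)) :=
      i21.const_mul _
    have j4 : Integrable (fun z => (Real.cos t * Real.sin t) * (f2 z * lap f2 z)) :=
      i22.const_mul _
    have j12 : Integrable (fun z => (-Real.sin t * Real.cos t) * (f1 z * lap f1 z) +
        (-Real.sin t * Real.sin t) * (f1 z * lap f2 z)) := j1.add j2
    have j123 : Integrable (fun z => ((-Real.sin t * Real.cos t) * (f1 z * lap f1 z) +
        (-Real.sin t * Real.sin t) * (f1 z * lap f2 z)) +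
        (Real.cos t * Real.cos t) * (f2 z * lap f1 z)) := j12.add j3
    rw [e1, integral_add j123 j4, integral_add j12 j3, integral_add j1 j2, integral_const_mul,
      integral_const_mul, integral_const_mul, integral_const_mul, h12, h21, he]
    ring
  rw [e, mul_zero]

/-- General case: if both vanish then both integrals are `0`. Otherwise let `b` be a nonzero test function with support disjoint from those of `f1, f2`
(`exists_bump` in a far box), `f3 = λ b` with `λ² ∫ b lap b = ∫ f1 lap f1` (both negative, `int_lap_neg`); `∫ f1 lap f3 = 0`, `∫ f2 lap f3 = 0` (disjoint supports): `rad_orth` twice. -/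
theorem rad (M : Fld I) {f1 f2 : Pl → ℝ} (h1 : Cc f1) (h2 : Cc f2)
    (he : ∫ z, f1 z * lap f1 z = ∫ z, f2 z * lap f2 z) :
    M.L (fun i => Real.cos (M.X (lap f1) i)) = M.L (fun i => Real.cos (M.X (lap f2) i)) := by
  have hz : ∀ f : Pl → ℝ, (¬ ∃ z, f z ≠ 0) → f = fun _ => 0 := by
    intro f hf
    funext z
    by_contra h
    exact hf ⟨z, h⟩
  by_cases hn1 : ∃ z, f1 z ≠ 0
  · have hneg : ∫ z, f1 z * lap f1 z < 0 := int_lap_neg h1 hn1
    obtain ⟨R1, _, hs1⟩ := h1.box
    obtain ⟨R2, _, hs2⟩ := h2.box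
    have hU : IsOpen {z : Pl | max R1 R2 < z.1} := isOpen_lt continuous_const continuous_fst
    obtain ⟨b, hb, _, hb1, hbs⟩ := exists_bump {z : Pl | max R1 R2 < z.1} hU
      ⟨(max R1 R2 + 1, 0), by simp only [Set.mem_ofPred_eq]; linarith⟩
    have hbn : ∃ z, b z ≠ 0 := by
      by_contra h
      rw [hz b h] at hb1
      simp at hb1
    have hbneg : ∫ z, b z * lap b z < 0 := int_lap_neg hb hbn
    have h3 : Cc (fun z => Real.sqrt ((∫ z, f1 z * lap f1 z) / ∫ z, b z * lap b z) * b z) :=
      hb.smul _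
    have hl3 : lap (fun z => Real.sqrt ((∫ z, f1 z * lap f1 z) / ∫ z, b z * lap b z) * b z) =
        fun z => Real.sqrt ((∫ z, f1 z * lap f1 z) / ∫ z, b z * lap b z) * lap b z :=
      funext fun z => lap_smul _ hb.smooth z
    have he3 : (∫ z, (fun z => Real.sqrt ((∫ z, f1 z * lap f1 z) / ∫ z, b z * lap b z) * b z) z *
        lap (fun z => Real.sqrt ((∫ z, f1 z * lap f1 z) / ∫ z, b z * lap b z) * b z) z) =
        ∫ z, f1 z * lap f1 z := by
      rw [hl3]
      have e : (fun z => (fun z => Real.sqrt ((∫ z, f1 z * lap f1 z) / ∫ z, b z * lap b z) * b z) z *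
          (fun z => Real.sqrt ((∫ z, f1 z * lap f1 z) / ∫ z, b z * lap b z) * lap b z) z) =
          fun z => (Real.sqrt ((∫ z, f1 z * lap f1 z) / ∫ z, b z * lap b z)) ^ 2 *
            (b z * lap b z) := by
        funext z
        ring
      rw [e, integral_const_mul, Real.sq_sqrt (div_nonneg_of_nonpos hneg.le hbneg.le)]
      field_simp [hbneg.ne]
    have hdis : ∀ (f : Pl → ℝ) (R : ℝ), R ≤ max R1 R2 → tsupport f ⊆ {z | |z.1| < R ∧ |z.2| < R} →
        ∫ z, f z * lap (fun z => Real.sqrt ((∫ z, f1 z * lap f1 z) / ∫ z, b z * lap b z) * b z) z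
          = 0 := by
      intro f R hR hf
      rw [hl3]
      refine integral_eq_zero_of_ae (Filter.Eventually.of_forall fun z => ?_)
      simp only [Pi.zero_apply]
      by_cases hfz : f z = 0
      · rw [hfz, zero_mul]
      · have m1 := (hf (subset_tsupport f hfz)).1
        have m2 : lap b z = 0 := by
          by_contra hb0
          have m3 : max R1 R2 < z.1 := hbs (tsupport_lap b (subset_tsupport _ hb0))
          have m4 := (abs_lt.1 m1).2
          linarith
        rw [m2, mul_zero, mul_zero]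
    rw [rad_orth M h1 h3 (hdis f1 R1 (le_max_left _ _) hs1) he3.symm,
      rad_orth M h2 h3 (hdis f2 R2 (le_max_right _ _) hs2) (he.symm.trans he3.symm)]
  · have e1 := hz f1 hn1
    by_cases hn2 : ∃ z, f2 z ≠ 0
    · exfalso
      have hneg := int_lap_neg h2 hn2
      rw [← he, e1] at hneg
      simp at hneg
    · rw [e1, hz f2 hn2]

/-- In terms of the energy (`energy2_lap`): there is a function `chi` with `L (cos (X (lap f))) = chi (energy2 (lap f) (lap f))`: `chi e = L (cos (X (lap f0)))` for some `f0` with this energy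
(choice). -/
theorem rad_fun (M : Fld I) : ∃ chi : ℝ → ℝ, ∀ f : Pl → ℝ, Cc f →
    M.L (fun i => Real.cos (M.X (lap f) i)) = chi (energy2 (lap f) (lap f)) := by
  classical
  refine ⟨fun e => if h : ∃ f0 : Pl → ℝ, Cc f0 ∧ energy2 (lap f0) (lap f0) = e then
    M.L (fun i => Real.cos (M.X (lap h.choose) i)) else 0, fun f hf => ?_⟩
  have h : ∃ f0 : Pl → ℝ, Cc f0 ∧ energy2 (lap f0) (lap f0) = energy2 (lap f) (lap f) :=
    ⟨f, hf, rfl⟩
  simp only [dif_pos h]
  refine rad M hf h.choose_spec.1 ?_
  have h1 := energy2_lap hf hf.lap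
  have h2 := energy2_lap h.choose_spec.1 h.choose_spec.1.lap
  have h3 := h.choose_spec.2
  linarith

end GF
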