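import Pool.Agent.Helper27.GF.Ax

/-!
Cal1 (project GF, MP_973bc8_pr).  Calculus of test functions: closure properties.
-/

open MeasureTheory Finset

namespace GF

lemma Cc.add {f g : Pl → ℝ} (hf : Cc f) (hg : Cc g) : Cc (fun z => f z + g z) :=
  ⟨hf.smooth.add hg.smooth, hf.supp.add hg.supp⟩

lemma Cc.smul (c : ℝ) {f : Pl → ℝ} (hf : Cc f) : Cc (fun z => c * f z) := by
  refine ⟨contDiff_const.mul hf.smooth, ?_⟩
  exact hf.supp.mono (fun x hx h => hx (by
    show c * f x = 0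
    rw [h, mul_zero]))

lemma Cc.neg {f : Pl → ℝ} (hf : Cc f) : Cc (fun z => -f z) := by
  have h := hf.smul (-1)
  simpa using h

lemma Cc.sub {f g : Pl → ℝ} (hf : Cc f) (hg : Cc g) : Cc (fun z => f z - g z) := by
  have h := hf.add hg.neg
  simpa [sub_eq_add_neg] using h

lemma Cc.zero : Cc (fun _ => (0 : ℝ)) := ⟨contDiff_const, HasCompactSupport.zero⟩

lemma Cc.sum {α : Type} (s : Finset α) (f : α → Pl → ℝ) (hf : ∀ a ∈ s, Cc (f a)) :
    Cc (fun z => ∑ a ∈ s, f a z) := by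
  classical
  induction s using Finset.induction_on with
  | empty => simpa using Cc.zero
  | insert a s ha ih =>
    have h := (hf a (Finset.mem_insert_self a s)).add
      (ih (fun i hi => hf i (Finset.mem_insert_of_mem hi)))
    simpa [Finset.sum_insert ha] using h

/-- product with a smooth function -/
lemma Cc.mul {f g : Pl → ℝ} (hf : Cc f) (hg : ContDiff ℝ (⊤ : ℕ∞) g) : Cc (fun z => f z * g z) :=
  ⟨hf.smooth.mul hg, hf.supp.mul_right⟩

/-- product of a smooth function with a test function -/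
lemma Cc.mul_left {f g : Pl → ℝ} (hf : Cc f) (hg : ContDiff ℝ (⊤ : ℕ∞) g) : Cc (fun z => g z * f z) :=
  ⟨hg.mul hf.smooth, hf.supp.mul_left⟩

lemma Cc.continuous {f : Pl → ℝ} (hf : Cc f) : Continuous f := hf.smooth.continuous

lemma Cc.integrable {f : Pl → ℝ} (hf : Cc f) : Integrable f :=
  hf.smooth.continuous.integrable_of_hasCompactSupport hf.supp

/-- bounded -/
lemma Cc.bdd {f : Pl → ℝ} (hf : Cc f) : ∃ C : ℝ, 0 ≤ C ∧ ∀ z, |f z| ≤ C := by
  obtain ⟨C, hC⟩ := hf.smooth.continuous.bounded_above_of_compact_support hf.supp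
  exact ⟨C, (abs_nonneg _).trans (hC 0), fun z => hC z⟩

/-- the support is contained in a box around `0` -/
lemma Cc.box {f : Pl → ℝ} (hf : Cc f) : ∃ R : ℝ, 0 < R ∧ tsupport f ⊆ {z | |z.1| < R ∧ |z.2| < R} := by
  have h : IsCompact (tsupport f) := hf.supp
  obtain ⟨R, hR⟩ := h.isBounded.subset_ball (0 : Pl)
  refine ⟨max R 1, by positivity, fun z hz => ?_⟩
  have h1 := hR hz
  rw [Metric.mem_ball, dist_zero_right, Prod.norm_def, max_lt_iff, Real.norm_eq_abs,
    Real.norm_eq_abs] at h1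
  exact ⟨h1.1.trans_le (le_max_left _ _), h1.2.trans_le (le_max_left _ _)⟩

lemma smooth_dx {f : Pl → ℝ} (hf : ContDiff ℝ (⊤ : ℕ∞) f) : ContDiff ℝ (⊤ : ℕ∞) (dx f) := by
  have h1 : ContDiff ℝ (⊤ : ℕ∞) (fderiv ℝ f) := hf.fderiv_right (by simp)
  exact h1.clm_apply contDiff_const

lemma smooth_dy {f : Pl → ℝ} (hf : ContDiff ℝ (⊤ : ℕ∞) f) : ContDiff ℝ (⊤ : ℕ∞) (dy f) := by
  have h1 : ContDiff ℝ (⊤ : ℕ∞) (fderiv ℝ f) := hf.fderiv_right (by simp)
  exact h1.clm_apply contDiff_const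

lemma smooth_lap {f : Pl → ℝ} (hf : ContDiff ℝ (⊤ : ℕ∞) f) : ContDiff ℝ (⊤ : ℕ∞) (lap f) :=
  (smooth_dx (smooth_dx hf)).add (smooth_dy (smooth_dy hf))

lemma tsupport_dx (f : Pl → ℝ) : tsupport (dx f) ⊆ tsupport f :=
  tsupport_fderiv_apply_subset ℝ (f := f) ((1, 0) : ℝ × ℝ)

lemma tsupport_dy (f : Pl → ℝ) : tsupport (dy f) ⊆ tsupport f :=
  tsupport_fderiv_apply_subset ℝ (f := f) ((0, 1) : ℝ × ℝ)

lemma tsupport_lap (f : Pl → ℝ) : tsupport (lap f) ⊆ tsupport f := by
  have h1 : tsupport (lap f) ⊆ tsupport (dx (dx f)) ∪ tsupport (dy (dy f)) :=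
    tsupport_add (dx (dx f)) (dy (dy f))
  refine h1.trans (Set.union_subset ?_ ?_)
  · exact (tsupport_dx _).trans (tsupport_dx f)
  · exact (tsupport_dy _).trans (tsupport_dy f)

lemma Cc.dx {f : Pl → ℝ} (hf : Cc f) : Cc (dx f) :=
  ⟨smooth_dx hf.smooth, hf.supp.of_isClosed_subset (isClosed_tsupport _) (tsupport_dx f)⟩

lemma Cc.dy {f : Pl → ℝ} (hf : Cc f) : Cc (dy f) :=
  ⟨smooth_dy hf.smooth, hf.supp.of_isClosed_subset (isClosed_tsupport _) (tsupport_dy f)⟩

lemma Cc.lap {f : Pl → ℝ} (hf : Cc f) : Cc (lap f) :=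
  ⟨smooth_lap hf.smooth, hf.supp.of_isClosed_subset (isClosed_tsupport _) (tsupport_lap f)⟩

/-- `∫ dx f = 0` (`integral_fderiv_apply_eq_zero` or similar; or Fubini and the fundamental theorem) -/
lemma Cc.int_dx {f : Pl → ℝ} (hf : Cc f) : ∫ z, GF.dx f z = 0 := by
  have h := integral_mul_fderiv_eq_neg_fderiv_mul_of_integrable (μ := (volume : Measure (ℝ × ℝ)))
    (f := fun _ : ℝ × ℝ => (1 : ℝ)) (g := f) (v := ((1, 0) : ℝ × ℝ))
    (by simp) (by simpa using (show Integrable (fun x => fderiv ℝ f x ((1, 0) : ℝ × ℝ)) volume from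
      hf.dx.integrable)) (by simpa using hf.integrable)
    (fun x _ => differentiableAt_const _) (fun x _ => hf.smooth.differentiable (by simp) x)
  simpa [GF.dx] using h

lemma Cc.int_dy {f : Pl → ℝ} (hf : Cc f) : ∫ z, GF.dy f z = 0 := by
  have h := integral_mul_fderiv_eq_neg_fderiv_mul_of_integrable (μ := (volume : Measure (ℝ × ℝ)))
    (f := fun _ : ℝ × ℝ => (1 : ℝ)) (g := f) (v := ((0, 1) : ℝ × ℝ))
    (by simp) (by simpa using (show Integrable (fun x => fderiv ℝ f x ((0, 1) : ℝ × ℝ)) volume from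
      hf.dy.integrable)) (by simpa using hf.integrable)
    (fun x _ => differentiableAt_const _) (fun x _ => hf.smooth.differentiable (by simp) x)
  simpa [GF.dy] using h

lemma Cc.ne_dx {f : Pl → ℝ} (hf : Cc f) : Ne (GF.dx f) := ⟨hf.dx, hf.int_dx⟩

lemma Cc.ne_dy {f : Pl → ℝ} (hf : Cc f) : Ne (GF.dy f) := ⟨hf.dy, hf.int_dy⟩

lemma Cc.ne_lap {f : Pl → ℝ} (hf : Cc f) : Ne (GF.lap f) := by
  refine ⟨hf.lap, ?_⟩
  have h1 : ∫ x, GF.lap f x = (∫ x, GF.dx (GF.dx f) x) + ∫ x, GF.dy (GF.dy f) x :=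
    integral_add hf.dx.dx.integrable hf.dy.dy.integrable
  rw [h1, hf.dx.int_dx, hf.dy.int_dy, add_zero]

lemma Ne.add {f g : Pl → ℝ} (hf : Ne f) (hg : Ne g) : Ne (fun z => f z + g z) := by
  refine ⟨hf.toCc.add hg.toCc, ?_⟩
  rw [integral_add hf.toCc.integrable hg.toCc.integrable, hf.zero, hg.zero, add_zero]

lemma Ne.smul (c : ℝ) {f : Pl → ℝ} (hf : Ne f) : Ne (fun z => c * f z) := by
  refine ⟨hf.toCc.smul c, ?_⟩
  rw [integral_const_mul, hf.zero, mul_zero]

lemma Ne.neg {f : Pl → ℝ} (hf : Ne f) : Ne (fun z => -f z) := by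
  refine ⟨hf.toCc.neg, ?_⟩
  rw [integral_neg, hf.zero, neg_zero]

lemma Ne.sub {f g : Pl → ℝ} (hf : Ne f) (hg : Ne g) : Ne (fun z => f z - g z) := by
  refine ⟨hf.toCc.sub hg.toCc, ?_⟩
  rw [integral_sub hf.toCc.integrable hg.toCc.integrable, hf.zero, hg.zero, sub_zero]

lemma Ne.sum {α : Type} (s : Finset α) (f : α → Pl → ℝ) (hf : ∀ a ∈ s, Ne (f a)) :
    Ne (fun z => ∑ a ∈ s, f a z) := by
  refine ⟨Cc.sum s f (fun a ha => (hf a ha).toCc), ?_⟩
  rw [integral_finsetSum s (fun a ha => (hf a ha).toCc.integrable)]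
  exact Finset.sum_eq_zero (fun a ha => (hf a ha).zero)

/-- neutralised function -/
lemma Cc.neutral {f k : Pl → ℝ} (hf : Cc f) (hk : Cc k) (h1 : ∫ z, k z = 1) :
    Ne (fun z => f z - (∫ w, f w) * k z) := by
  refine ⟨hf.sub (hk.smul _), ?_⟩
  rw [integral_sub hf.integrable (hk.smul _).integrable, integral_const_mul, h1, mul_one, sub_self]

/-! ### rules for the first derivatives -/

lemma dx_add {f g : Pl → ℝ} (hf : ContDiff ℝ (⊤ : ℕ∞) f) (hg : ContDiff ℝ (⊤ : ℕ∞) g) (z : Pl) :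
    dx (fun z => f z + g z) z = dx f z + dx g z := by
  have h1 : DifferentiableAt ℝ f z := hf.differentiable (by simp) z
  have h2 : DifferentiableAt ℝ g z := hg.differentiable (by simp) z
  simp only [GF.dx]
  rw [fderiv_fun_add h1 h2]
  rfl

lemma dy_add {f g : Pl → ℝ} (hf : ContDiff ℝ (⊤ : ℕ∞) f) (hg : ContDiff ℝ (⊤ : ℕ∞) g) (z : Pl) :
    dy (fun z => f z + g z) z = dy f z + dy g z := by
  have h1 : DifferentiableAt ℝ f z := hf.differentiable (by simp) z
  have h2 : DifferentiableAt ℝ g z := hg.differentiable (by simp) z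
  simp only [GF.dy]
  rw [fderiv_fun_add h1 h2]
  rfl

lemma dx_smul (c : ℝ) {f : Pl → ℝ} (hf : ContDiff ℝ (⊤ : ℕ∞) f) (z : Pl) :
    dx (fun z => c * f z) z = c * dx f z := by
  have h1 : DifferentiableAt ℝ f z := hf.differentiable (by simp) z
  simp only [GF.dx]
  rw [fderiv_const_mul h1 c]
  rfl

lemma dy_smul (c : ℝ) {f : Pl → ℝ} (hf : ContDiff ℝ (⊤ : ℕ∞) f) (z : Pl) :
    dy (fun z => c * f z) z = c * dy f z := by
  have h1 : DifferentiableAt ℝ f z := hf.differentiable (by simp) z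
  simp only [GF.dy]
  rw [fderiv_const_mul h1 c]
  rfl

lemma dx_mul {f g : Pl → ℝ} (hf : ContDiff ℝ (⊤ : ℕ∞) f) (hg : ContDiff ℝ (⊤ : ℕ∞) g) (z : Pl) :
    dx (fun z => f z * g z) z = f z * dx g z + g z * dx f z := by
  have h1 : DifferentiableAt ℝ f z := hf.differentiable (by simp) z
  have h2 : DifferentiableAt ℝ g z := hg.differentiable (by simp) z
  simp only [GF.dx]
  rw [fderiv_fun_mul h1 h2]
  simp

lemma dy_mul {f g : Pl → ℝ} (hf : ContDiff ℝ (⊤ : ℕ∞) f) (hg : ContDiff ℝ (⊤ : ℕ∞) g) (z : Pl) :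
    dy (fun z => f z * g z) z = f z * dy g z + g z * dy f z := by
  have h1 : DifferentiableAt ℝ f z := hf.differentiable (by simp) z
  have h2 : DifferentiableAt ℝ g z := hg.differentiable (by simp) z
  simp only [GF.dy]
  rw [fderiv_fun_mul h1 h2]
  simp

lemma dx_congr {f g : Pl → ℝ} {z : Pl} (h : f =ᶠ[nhds z] g) : dx f z = dx g z := by
  unfold dx; rw [h.fderiv_eq]

lemma dy_congr {f g : Pl → ℝ} {z : Pl} (h : f =ᶠ[nhds z] g) : dy f z = dy g z := by
  unfold dy; rw [h.fderiv_eq]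

/-- locality of the Laplacian -/
lemma lap_congr {f g : Pl → ℝ} {z : Pl} (h : f =ᶠ[nhds z] g) : lap f z = lap g z := by
  have h1 : dx f =ᶠ[nhds z] dx g := by
    have := h.fderiv (𝕜 := ℝ)
    exact this.mono fun y hy => by unfold GF.dx; rw [hy]
  have h2 : dy f =ᶠ[nhds z] dy g := by
    have := h.fderiv (𝕜 := ℝ)
    exact this.mono fun y hy => by unfold GF.dy; rw [hy]
  unfold GF.lap
  rw [dx_congr h1, dy_congr h2]

lemma lap_add {f g : Pl → ℝ} (hf : ContDiff ℝ (⊤ : ℕ∞) f) (hg : ContDiff ℝ (⊤ : ℕ∞) g) (z : Pl) :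
    lap (fun z => f z + g z) z = lap f z + lap g z := by
  have e1 : dx (fun z => f z + g z) = fun z => dx f z + dx g z := funext (dx_add hf hg)
  have e2 : dy (fun z => f z + g z) = fun z => dy f z + dy g z := funext (dy_add hf hg)
  unfold GF.lap
  rw [e1, e2, dx_add (smooth_dx hf) (smooth_dx hg), dy_add (smooth_dy hf) (smooth_dy hg)]
  ring

lemma lap_smul (c : ℝ) {f : Pl → ℝ} (hf : ContDiff ℝ (⊤ : ℕ∞) f) (z : Pl) :
    lap (fun z => c * f z) z = c * lap f z := by
  have e1 : dx (fun z => c * f z) = fun z => c * dx f z := funext (dx_smul c hf)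
  have e2 : dy (fun z => c * f z) = fun z => c * dy f z := funext (dy_smul c hf)
  unfold GF.lap
  rw [e1, e2, dx_smul c (smooth_dx hf), dy_smul c (smooth_dy hf)]
  ring

lemma lap_sub {f g : Pl → ℝ} (hf : ContDiff ℝ (⊤ : ℕ∞) f) (hg : ContDiff ℝ (⊤ : ℕ∞) g) (z : Pl) :
    lap (fun z => f z - g z) z = lap f z - lap g z := by
  have e : (fun z => f z - g z) = fun z => f z + (-1) * g z := by
    funext z; ring
  have hg' : ContDiff ℝ (⊤ : ℕ∞) (fun z => (-1 : ℝ) * g z) := contDiff_const.mul hg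
  rw [e, lap_add hf hg', lap_smul (-1) hg]
  ring

lemma lap_const (c : ℝ) (z : Pl) : lap (fun _ => c) z = 0 := by
  have e1 : dx (fun _ => c) = fun _ => 0 := by
    funext z; unfold GF.dx; simp
  have e2 : dy (fun _ => c) = fun _ => 0 := by
    funext z; unfold GF.dy; simp
  unfold GF.lap
  rw [e1, e2]
  unfold GF.dx GF.dy
  simp

lemma lap_sum {α : Type} (s : Finset α) (f : α → Pl → ℝ) (hf : ∀ a ∈ s, ContDiff ℝ (⊤ : ℕ∞) (f a)) (z : Pl) :
    lap (fun z => ∑ a ∈ s, f a z) z = ∑ a ∈ s, lap (f a) z := by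
  classical
  induction s using Finset.induction_on with
  | empty => simpa using lap_const 0 z
  | insert a s ha ih =>
    have h1 : ∀ i ∈ s, ContDiff ℝ (⊤ : ℕ∞) (f i) := fun i hi => hf i (Finset.mem_insert_of_mem hi)
    have h2 : ContDiff ℝ (⊤ : ℕ∞) (fun z => ∑ a ∈ s, f a z) := ContDiff.sum h1
    have e : (fun z => ∑ a ∈ insert a s, f a z) = fun z => f a z + ∑ a ∈ s, f a z := by
      funext z; rw [Finset.sum_insert ha]
    rw [e, lap_add (hf a (Finset.mem_insert_self a s)) h2, ih h1, Finset.sum_insert ha]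

/-- product rule -/
lemma lap_mul {f g : Pl → ℝ} (hf : ContDiff ℝ (⊤ : ℕ∞) f) (hg : ContDiff ℝ (⊤ : ℕ∞) g) (z : Pl) :
    lap (fun z => f z * g z) z = f z * lap g z + g z * lap f z + 2 * (dx f z * dx g z + dy f z * dy g z) := by
  have hf1 := smooth_dx hf
  have hf2 := smooth_dy hf
  have hg1 := smooth_dx hg
  have hg2 := smooth_dy hg
  have e1 : dx (fun z => f z * g z) = fun z => f z * dx g z + g z * dx f z := funext (dx_mul hf hg)
  have e2 : dy (fun z => f z * g z) = fun z => f z * dy g z + g z * dy f z := funext (dy_mul hf hg)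
  unfold GF.lap
  rw [e1, e2, dx_add (hf.mul hg1) (hg.mul hf1), dy_add (hf.mul hg2) (hg.mul hf2),
    dx_mul hf hg1, dx_mul hg hf1, dy_mul hf hg2, dy_mul hg hf2]
  ring

lemma dx_dy_comm {f : Pl → ℝ} (hf : ContDiff ℝ (⊤ : ℕ∞) f) (z : Pl) : dx (dy f) z = dy (dx f) z := by
  have hd : DifferentiableAt ℝ (fderiv ℝ f) z :=
    (hf.fderiv_right (m := (⊤ : ℕ∞)) (by simp)).differentiable (by simp) z
  have h1 : dx (dy f) z = fderiv ℝ (fderiv ℝ f) z (1, 0) (0, 1) := by
    have e : dy f = fun y => fderiv ℝ f y (0, 1) := rfl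
    unfold GF.dx
    rw [e, fderiv_clm_apply hd (differentiableAt_const _)]
    simp
  have h2 : dy (dx f) z = fderiv ℝ (fderiv ℝ f) z (0, 1) (1, 0) := by
    have e : dx f = fun y => fderiv ℝ f y (1, 0) := rfl
    unfold GF.dy
    rw [e, fderiv_clm_apply hd (differentiableAt_const _)]
    simp
  have h3 : IsSymmSndFDerivAt ℝ f z :=
    (hf.contDiffAt (x := z)).isSymmSndFDerivAt (by
      simp only [minSmoothness_of_isRCLikeNormedField]
      exact WithTop.coe_le_coe.2 (le_top : (2 : ℕ∞) ≤ ⊤))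
  rw [h1, h2]
  exact h3 _ _

/-- derivatives in the two coordinates as one-dimensional derivatives -/
lemma dx_eq_deriv {f : Pl → ℝ} (hf : ContDiff ℝ (⊤ : ℕ∞) f) (z : Pl) :
    dx f z = deriv (fun t => f (t, z.2)) z.1 := by
  have h1 : HasFDerivAt f (fderiv ℝ f z) z := (hf.differentiable (by simp) z).hasFDerivAt
  have h2 : HasDerivAt (fun t : ℝ => ((t, z.2) : ℝ × ℝ)) (1, 0) z.1 :=
    (hasDerivAt_id z.1).prodMk (hasDerivAt_const z.1 z.2)
  have h3 : HasDerivAt (fun t => f (t, z.2)) (fderiv ℝ f z (1, 0)) z.1 :=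
    HasFDerivAt.comp_hasDerivAt (f := fun t : ℝ => ((t, z.2) : ℝ × ℝ)) z.1 h1 h2
  exact h3.deriv.symm

lemma dy_eq_deriv {f : Pl → ℝ} (hf : ContDiff ℝ (⊤ : ℕ∞) f) (z : Pl) :
    dy f z = deriv (fun t => f (z.1, t)) z.2 := by
  have h1 : HasFDerivAt f (fderiv ℝ f z) z := (hf.differentiable (by simp) z).hasFDerivAt
  have h2 : HasDerivAt (fun t : ℝ => ((z.1, t) : ℝ × ℝ)) (0, 1) z.2 :=
    (hasDerivAt_const z.2 z.1).prodMk (hasDerivAt_id z.2)
  have h3 : HasDerivAt (fun t => f (z.1, t)) (fderiv ℝ f z (0, 1)) z.2 :=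
    HasFDerivAt.comp_hasDerivAt (f := fun t : ℝ => ((z.1, t) : ℝ × ℝ)) z.2 h1 h2
  exact h3.deriv.symm

lemma dx_scale (r : ℝ) (c : Pl) {f : Pl → ℝ} (hf : ContDiff ℝ (⊤ : ℕ∞) f) (z : Pl) :
    dx (fun z => f ((z.1 - c.1) / r, (z.2 - c.2) / r)) z = dx f ((z.1 - c.1) / r, (z.2 - c.2) / r) / r := by
  set w : Pl := ((z.1 - c.1) / r, (z.2 - c.2) / r) with hw
  have h1 : HasFDerivAt f (fderiv ℝ f w) w := (hf.differentiable (by simp) w).hasFDerivAt
  have h2 : HasDerivAt (fun t : ℝ => (((t - c.1) / r, (z.2 - c.2) / r) : ℝ × ℝ)) (1 / r, 0) z.1 :=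
    (((hasDerivAt_id z.1).sub_const c.1).div_const r).prodMk (hasDerivAt_const z.1 _)
  have h3 : HasDerivAt (fun t => f (((t - c.1) / r, (z.2 - c.2) / r) : ℝ × ℝ))
      (fderiv ℝ f w (1 / r, 0)) z.1 :=
    HasFDerivAt.comp_hasDerivAt (f := fun t : ℝ => (((t - c.1) / r, (z.2 - c.2) / r) : ℝ × ℝ))
      z.1 h1 h2
  have hs : ContDiff ℝ (⊤ : ℕ∞) (fun z : Pl => f ((z.1 - c.1) / r, (z.2 - c.2) / r)) :=
    hf.comp (((contDiff_fst.sub contDiff_const).div_const r).prodMk
      ((contDiff_snd.sub contDiff_const).div_const r))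
  rw [dx_eq_deriv hs, h3.deriv]
  have e : ((1 / r, 0) : ℝ × ℝ) = (1 / r) • ((1, 0) : ℝ × ℝ) := by simp
  rw [e, map_smul]
  unfold GF.dx
  rw [smul_eq_mul]
  ring

lemma dy_scale (r : ℝ) (c : Pl) {f : Pl → ℝ} (hf : ContDiff ℝ (⊤ : ℕ∞) f) (z : Pl) :
    dy (fun z => f ((z.1 - c.1) / r, (z.2 - c.2) / r)) z = dy f ((z.1 - c.1) / r, (z.2 - c.2) / r) / r := by
  set w : Pl := ((z.1 - c.1) / r, (z.2 - c.2) / r) with hw
  have h1 : HasFDerivAt f (fderiv ℝ f w) w := (hf.differentiable (by simp) w).hasFDerivAt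
  have h2 : HasDerivAt (fun t : ℝ => (((z.1 - c.1) / r, (t - c.2) / r) : ℝ × ℝ)) (0, 1 / r) z.2 :=
    (hasDerivAt_const z.2 _).prodMk (((hasDerivAt_id z.2).sub_const c.2).div_const r)
  have h3 : HasDerivAt (fun t => f (((z.1 - c.1) / r, (t - c.2) / r) : ℝ × ℝ))
      (fderiv ℝ f w (0, 1 / r)) z.2 :=
    HasFDerivAt.comp_hasDerivAt (f := fun t : ℝ => (((z.1 - c.1) / r, (t - c.2) / r) : ℝ × ℝ))
      z.2 h1 h2
  have hs : ContDiff ℝ (⊤ : ℕ∞) (fun z : Pl => f ((z.1 - c.1) / r, (z.2 - c.2) / r)) :=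
    hf.comp (((contDiff_fst.sub contDiff_const).div_const r).prodMk
      ((contDiff_snd.sub contDiff_const).div_const r))
  rw [dy_eq_deriv hs, h3.deriv]
  have e : ((0, 1 / r) : ℝ × ℝ) = (1 / r) • ((0, 1) : ℝ × ℝ) := by simp
  rw [e, map_smul]
  unfold GF.dy
  rw [smul_eq_mul]
  ring

/-- scaling and translation -/
lemma lap_scale (r : ℝ) (hr : r ≠ 0) (c : Pl) {f : Pl → ℝ} (hf : ContDiff ℝ (⊤ : ℕ∞) f) (z : Pl) :
    lap (fun z => f ((z.1 - c.1) / r, (z.2 - c.2) / r)) z = lap f ((z.1 - c.1) / r, (z.2 - c.2) / r) / r ^ 2 := by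
  have hm : ContDiff ℝ (⊤ : ℕ∞) (fun z : Pl => (((z.1 - c.1) / r, (z.2 - c.2) / r) : ℝ × ℝ)) :=
    ((contDiff_fst.sub contDiff_const).div_const r).prodMk
      ((contDiff_snd.sub contDiff_const).div_const r)
  have e1 : dx (fun z => f ((z.1 - c.1) / r, (z.2 - c.2) / r)) =
      fun z => r⁻¹ * dx f ((z.1 - c.1) / r, (z.2 - c.2) / r) := by
    funext z; rw [dx_scale r c hf]; ring
  have e2 : dy (fun z => f ((z.1 - c.1) / r, (z.2 - c.2) / r)) =
      fun z => r⁻¹ * dy f ((z.1 - c.1) / r, (z.2 - c.2) / r) := by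
    funext z; rw [dy_scale r c hf]; ring
  unfold GF.lap
  rw [e1, e2, dx_smul r⁻¹ (f := fun z => dx f ((z.1 - c.1) / r, (z.2 - c.2) / r))
      ((smooth_dx hf).comp hm),
    dy_smul r⁻¹ (f := fun z => dy f ((z.1 - c.1) / r, (z.2 - c.2) / r)) ((smooth_dy hf).comp hm),
    dx_scale r c (smooth_dx hf), dy_scale r c (smooth_dy hf)]
  field_simp

/-! ### integration by parts -/

/-- `∫ grad f · grad g = - ∫ f lap g` -/
lemma int_grad_left {f g : Pl → ℝ} (hf : Cc f) (hg : ContDiff ℝ (⊤ : ℕ∞) g) :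
    ∫ z, (dx f z * dx g z + dy f z * dy g z) = - ∫ z, f z * lap g z := by
  have hi : ∀ {w : ℝ × ℝ → ℝ}, ContDiff ℝ (⊤ : ℕ∞) w → Integrable (fun x => f x * w x) := fun hw =>
    (hf.mul hw).integrable
  have h1 : ∫ x, dx f x * dx g x = - ∫ x, f x * dx (dx g) x := by
    have h := integral_mul_fderiv_eq_neg_fderiv_mul_of_integrable
      (μ := (volume : Measure (ℝ × ℝ)))
      (f := f) (g := dx g) (v := ((1, 0) : ℝ × ℝ))
      (hf.dx.mul (smooth_dx hg)).integrable (hi (smooth_dx (smooth_dx hg)))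
      (hi (smooth_dx hg)) (fun x _ => hf.smooth.differentiable (by simp) x)
      (fun x _ => (smooth_dx hg).differentiable (by simp) x)
    have h' : ∫ x, f x * dx (dx g) x = - ∫ x, dx f x * dx g x := h
    rw [h', neg_neg]
  have h2 : ∫ x, dy f x * dy g x = - ∫ x, f x * dy (dy g) x := by
    have h := integral_mul_fderiv_eq_neg_fderiv_mul_of_integrable
      (μ := (volume : Measure (ℝ × ℝ)))
      (f := f) (g := dy g) (v := ((0, 1) : ℝ × ℝ))
      (hf.dy.mul (smooth_dy hg)).integrable (hi (smooth_dy (smooth_dy hg)))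
      (hi (smooth_dy hg)) (fun x _ => hf.smooth.differentiable (by simp) x)
      (fun x _ => (smooth_dy hg).differentiable (by simp) x)
    have h' : ∫ x, f x * dy (dy g) x = - ∫ x, dy f x * dy g x := h
    rw [h', neg_neg]
  have h4 : ∫ x, f x * lap g x = (∫ x, f x * dx (dx g) x) + ∫ x, f x * dy (dy g) x := by
    rw [← integral_add (hi (smooth_dx (smooth_dx hg))) (hi (smooth_dy (smooth_dy hg)))]
    congr 1
    funext x
    unfold GF.lap
    ring
  rw [integral_add (hf.dx.mul (smooth_dx hg)).integrable (hf.dy.mul (smooth_dy hg)).integrable,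
    h4, h1, h2]
  ring

lemma int_grad_right {f g : Pl → ℝ} (hf : Cc f) (hg : ContDiff ℝ (⊤ : ℕ∞) g) :
    ∫ z, (dx f z * dx g z + dy f z * dy g z) = - ∫ z, g z * lap f z := by
  have h1 : ∫ x, dx f x * dx g x = - ∫ x, dx (dx f) x * g x := by
    exact integral_mul_fderiv_eq_neg_fderiv_mul_of_integrable
      (μ := (volume : Measure (ℝ × ℝ)))
      (f := dx f) (g := g) (v := ((1, 0) : ℝ × ℝ))
      (hf.dx.dx.mul hg).integrable (hf.dx.mul (smooth_dx hg)).integrable
      (hf.dx.mul hg).integrable (fun x _ => hf.dx.smooth.differentiable (by simp) x)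
      (fun x _ => hg.differentiable (by simp) x)
  have h2 : ∫ x, dy f x * dy g x = - ∫ x, dy (dy f) x * g x := by
    exact integral_mul_fderiv_eq_neg_fderiv_mul_of_integrable
      (μ := (volume : Measure (ℝ × ℝ)))
      (f := dy f) (g := g) (v := ((0, 1) : ℝ × ℝ))
      (hf.dy.dy.mul hg).integrable (hf.dy.mul (smooth_dy hg)).integrable
      (hf.dy.mul hg).integrable (fun x _ => hf.dy.smooth.differentiable (by simp) x)
      (fun x _ => hg.differentiable (by simp) x)
  have h4 : ∫ x, g x * lap f x = (∫ x, dx (dx f) x * g x) + ∫ x, dy (dy f) x * g x := by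
    rw [← integral_add (hf.dx.dx.mul hg).integrable (hf.dy.dy.mul hg).integrable]
    congr 1
    funext x
    unfold GF.lap
    ring
  rw [integral_add (hf.dx.mul (smooth_dx hg)).integrable (hf.dy.mul (smooth_dy hg)).integrable,
    h4, h1, h2]
  ring

/-- `∫ f lap g = ∫ g lap f` -/
lemma int_lap_symm {f g : Pl → ℝ} (hf : Cc f) (hg : ContDiff ℝ (⊤ : ℕ∞) g) :
    ∫ z, f z * lap g z = ∫ z, g z * lap f z := by
  have h1 := int_grad_left hf hg
  have h2 := int_grad_right hf hg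
  linarith

/-- the energy of the gradient is positive -/
lemma int_grad_pos {f : Pl → ℝ} (hf : Cc f) (h : ∃ z, f z ≠ 0) :
    0 < ∫ z, (dx f z * dx f z + dy f z * dy f z) := by
  have h0' : 0 ≤ ∫ z, (dx f z * dx f z + dy f z * dy f z) :=
    integral_nonneg fun x => add_nonneg (mul_self_nonneg _) (mul_self_nonneg _)
  rcases h0'.lt_or_eq with h0 | h0
  · exact h0
  exfalso
  have hc : Continuous (fun x => dx f x * dx f x + dy f x * dy f x) :=
    ((hf.dx.mul hf.dx.smooth).add (hf.dy.mul hf.dy.smooth)).continuous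
  have hi : Integrable (fun x => dx f x * dx f x + dy f x * dy f x) :=
    ((hf.dx.mul hf.dx.smooth).add (hf.dy.mul hf.dy.smooth)).integrable
  have hz : (fun x => dx f x * dx f x + dy f x * dy f x) =ᵐ[volume] 0 :=
    (integral_eq_zero_iff_of_nonneg
      (fun x => add_nonneg (mul_self_nonneg _) (mul_self_nonneg _)) hi).1 h0.symm
  have hz' : (fun x => dx f x * dx f x + dy f x * dy f x) = 0 :=
    (hc.ae_eq_iff_eq volume continuous_zero).1 hz
  have hf' : ∀ x, fderiv ℝ f x = 0 := by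
    intro x
    have h1 : dx f x * dx f x + dy f x * dy f x = 0 := congrFun hz' x
    have h2 : dx f x = 0 := by nlinarith [mul_self_nonneg (dx f x), mul_self_nonneg (dy f x)]
    have h3 : dy f x = 0 := by nlinarith [mul_self_nonneg (dx f x), mul_self_nonneg (dy f x)]
    ext
    · simpa [GF.dx] using h2
    · simpa [GF.dy] using h3
  have hconst : ∀ x y, f x = f y :=
    is_const_of_fderiv_eq_zero (hf.smooth.differentiable (by simp)) hf'
  obtain ⟨w, hw⟩ := h
  have hu1 : ∀ x, f x ≠ 0 := by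
    intro x hx
    apply hw
    rw [hconst w x, hx]
  have hs : tsupport f = Set.univ := by
    apply Set.eq_univ_of_forall
    intro x
    exact subset_tsupport f (hu1 x)
  have hcomp : IsCompact (Set.univ : Set (ℝ × ℝ)) := by
    rw [← hs]
    exact hf.supp
  exact noncompact_univ (ℝ × ℝ) hcomp

/-- `∫ f lap f < 0` for a nonzero test function (`= - ∫ |grad f|²`; a function with zero gradient and compact support vanishes) -/
lemma int_lap_neg {f : Pl → ℝ} (hf : Cc f) (h : ∃ z, f z ≠ 0) : ∫ z, f z * lap f z < 0 := by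
  have h1 := int_grad_left hf hf.smooth
  have h2 := int_grad_pos hf h
  linarith

/-! ### reflections -/

lemma ell_refl {d : Pl} (hd : Dir d) (s : ℝ) (z : Pl) : ell d (refl d s z) = 2 * s - ell d z := by
  rcases hd with rfl | rfl | rfl | rfl | rfl | rfl | rfl | rfl <;>
    (simp only [ell, refl]; ring)

lemma refl_refl {d : Pl} (hd : Dir d) (s : ℝ) (z : Pl) : refl d s (refl d s z) = z := by
  rcases hd with rfl | rfl | rfl | rfl | rfl | rfl | rfl | rfl <;>
    (apply Prod.ext <;> simp only [ell, refl] <;> ring)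

lemma smooth_refl (d : Pl) (s : ℝ) : ContDiff ℝ (⊤ : ℕ∞) (refl d s) := by
  have h1 : ContDiff ℝ (⊤ : ℕ∞) (fun z : Pl => ell d z) := by
    unfold ell
    exact (contDiff_const.mul contDiff_fst).add (contDiff_const.mul contDiff_snd)
  have h2 : ContDiff ℝ (⊤ : ℕ∞) (fun z : Pl => 2 * (ell d z - s) / (d.1 ^ 2 + d.2 ^ 2)) :=
    (contDiff_const.mul (h1.sub contDiff_const)).div_const _
  exact (contDiff_fst.sub (h2.mul contDiff_const)).prodMk
    (contDiff_snd.sub (h2.mul contDiff_const))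

/-- the reflection as a homeomorphism -/
noncomputable def reflHomeo {d : Pl} (hd : Dir d) (s : ℝ) : Pl ≃ₜ Pl where
  toFun := refl d s
  invFun := refl d s
  left_inv := refl_refl hd s
  right_inv := refl_refl hd s
  continuous_toFun := (smooth_refl d s).continuous
  continuous_invFun := (smooth_refl d s).continuous

lemma Cc.rf {f : Pl → ℝ} (hf : Cc f) {d : Pl} (hd : Dir d) (s : ℝ) : Cc (rf d s f) :=
  ⟨hf.smooth.comp (smooth_refl d s), hf.supp.comp_homeomorph (reflHomeo hd s)⟩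

lemma tsupport_rf (f : Pl → ℝ) {d : Pl} (hd : Dir d) (s : ℝ) :
    tsupport (rf d s f) ⊆ {z | refl d s z ∈ tsupport f} := by
  apply closure_minimal
  · intro z hz
    exact subset_tsupport f hz
  · exact (isClosed_tsupport f).preimage (smooth_refl d s).continuous

/-- reflections preserve the measure -/
lemma refl_mp {d : Pl} (hd : Dir d) (s : ℝ) :
    MeasurePreserving (refl d s) (volume : Measure Pl) volume := by
  have hx : ∀ c : ℝ, MeasurePreserving (fun z : Pl => (c - z.1, z.2)) volume volume := fun c =>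
    (Measure.measurePreserving_sub_left (volume : Measure ℝ) c).prod (MeasurePreserving.id _)
  have hy : ∀ c : ℝ, MeasurePreserving (fun z : Pl => (z.1, c - z.2)) volume volume := fun c =>
    (MeasurePreserving.id _).prod (Measure.measurePreserving_sub_left (volume : Measure ℝ) c)
  have hp : ∀ c : ℝ, MeasurePreserving (fun z : Pl => (z.1, z.2 + c)) volume volume := fun c =>
    (MeasurePreserving.id _).prod (measurePreserving_add_right (volume : Measure ℝ) c)
  have hq : ∀ c : ℝ, MeasurePreserving (fun z : Pl => (z.1 + c, z.2)) volume volume := fun c =>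
    (measurePreserving_add_right (volume : Measure ℝ) c).prod (MeasurePreserving.id _)
  have hs : MeasurePreserving (fun z : Pl => (z.2, z.1)) volume volume :=
    Measure.measurePreserving_swap
  rcases hd with rfl | rfl | rfl | rfl | rfl | rfl | rfl | rfl
  · convert hx (2 * s) using 1
    funext z
    apply Prod.ext <;> simp only [ell, refl] <;> ring
  · convert hx (- 2 * s) using 1
    funext z
    apply Prod.ext <;> simp only [ell, refl] <;> ring
  · convert hy (2 * s) using 1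
    funext z
    apply Prod.ext <;> simp only [ell, refl] <;> ring
  · convert hy (- 2 * s) using 1
    funext z
    apply Prod.ext <;> simp only [ell, refl] <;> ring
  · convert (hx s).comp ((hy s).comp hs) using 1
    funext z
    apply Prod.ext <;> simp only [ell, refl, Function.comp] <;> ring
  · convert (hx (-s)).comp ((hy (-s)).comp hs) using 1
    funext z
    apply Prod.ext <;> simp only [ell, refl, Function.comp] <;> ring
  · convert (hq s).comp ((hp (-s)).comp hs) using 1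
    funext z
    apply Prod.ext <;> simp only [ell, refl, Function.comp] <;> ring
  · convert (hq (-s)).comp ((hp s).comp hs) using 1
    funext z
    apply Prod.ext <;> simp only [ell, refl, Function.comp] <;> ring

/-- reflections preserve the measure -/
lemma int_rf (f : Pl → ℝ) {d : Pl} (hd : Dir d) (s : ℝ) : ∫ z, rf d s f z = ∫ z, f z :=
  (refl_mp hd s).integral_comp (reflHomeo hd s).measurableEmbedding f

end GF
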