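import Pool.Agent.Helper27.GF.Ax

/-!
Lm (project GF, MP_973bc8_pr).  Elementary lemmas on the structure `Lim`.
-/

open Finset

namespace GF

variable {I : Type}

namespace Lim

variable (M : Lim I)

lemma ok_smul (c : ℝ) (A : I → ℝ) (hA : M.Ok A) : M.Ok (fun i => c * A i) :=
  M.ok_mul _ _ (M.ok_const c) hA

lemma ok_neg (A : I → ℝ) (hA : M.Ok A) : M.Ok (fun i => -A i) :=
  M.ok_of_abs_le _ A (fun i => (abs_neg (A i)).le) hA

lemma ok_sub (A B : I → ℝ) (hA : M.Ok A) (hB : M.Ok B) : M.Ok (fun i => A i - B i) := by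
  have h := M.ok_add A (fun i => -B i) hA (M.ok_neg B hB)
  simpa only [sub_eq_add_neg] using h

lemma ok_abs (A : I → ℝ) (hA : M.Ok A) : M.Ok (fun i => |A i|) :=
  M.ok_of_abs_le _ A (fun i => (abs_abs (A i)).le) hA

lemma ok_pow (A : I → ℝ) (hA : M.Ok A) (n : ℕ) : M.Ok (fun i => A i ^ n) := by
  induction n with
  | zero =>
    simp only [pow_zero]
    exact M.ok_const 1
  | succ n ih =>
    simp only [pow_succ]
    exact M.ok_mul _ _ ih hA

lemma ok_bdd (A : I → ℝ) (c : ℝ) (h : ∀ i, |A i| ≤ c) : M.Ok A :=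
  M.ok_of_abs_le A (fun _ => c) (fun i => (h i).trans (le_abs_self c)) (M.ok_const c)

lemma ok_sum {α : Type} (s : Finset α) (A : α → I → ℝ) (hA : ∀ a ∈ s, M.Ok (A a)) :
    M.Ok (fun i => ∑ a ∈ s, A a i) := by
  classical
  induction s using Finset.induction_on with
  | empty =>
    simp only [Finset.sum_empty]
    exact M.ok_const 0
  | insert a s ha ih =>
    simp only [Finset.sum_insert ha]
    exact M.ok_add _ _ (hA a (Finset.mem_insert_self a s))
      (ih fun b hb => hA b (Finset.mem_insert_of_mem hb))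

lemma ok_prod {α : Type} (s : Finset α) (A : α → I → ℝ) (hA : ∀ a ∈ s, M.Ok (A a)) :
    M.Ok (fun i => ∏ a ∈ s, A a i) := by
  classical
  induction s using Finset.induction_on with
  | empty =>
    simp only [Finset.prod_empty]
    exact M.ok_const 1
  | insert a s ha ih =>
    simp only [Finset.prod_insert ha]
    exact M.ok_mul _ _ (hA a (Finset.mem_insert_self a s))
      (ih fun b hb => hA b (Finset.mem_insert_of_mem hb))

/-- product with a bounded function -/
lemma ok_mul_bdd (A B : I → ℝ) (hA : M.Ok A) (c : ℝ) (h : ∀ i, |B i| ≤ c) : M.Ok (fun i => A i * B i) :=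
  M.ok_mul _ _ hA (M.ok_bdd B c h)

lemma L_zero : M.L (fun _ => 0) = 0 := by
  have h := M.L_smul 0 (fun _ => 1) (M.ok_const 1)
  simpa using h

lemma L_const (c : ℝ) : M.L (fun _ => c) = c := by
  have h := M.L_smul c (fun _ => 1) (M.ok_const 1)
  rw [M.L_one] at h
  simpa using h

lemma L_neg (A : I → ℝ) (hA : M.Ok A) : M.L (fun i => -A i) = -M.L A := by
  have h := M.L_smul (-1) A hA
  simpa using h

lemma L_sub (A B : I → ℝ) (hA : M.Ok A) (hB : M.Ok B) : M.L (fun i => A i - B i) = M.L A - M.L B := by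
  have h := M.L_add A (fun i => -B i) hA (M.ok_neg B hB)
  rw [M.L_neg B hB] at h
  simpa only [sub_eq_add_neg] using h

lemma L_sum {α : Type} (s : Finset α) (A : α → I → ℝ) (hA : ∀ a ∈ s, M.Ok (A a)) :
    M.L (fun i => ∑ a ∈ s, A a i) = ∑ a ∈ s, M.L (A a) := by
  classical
  induction s using Finset.induction_on with
  | empty =>
    simp only [Finset.sum_empty]
    exact M.L_zero
  | insert a s ha ih =>
    simp only [Finset.sum_insert ha]
    have hs : ∀ b ∈ s, M.Ok (A b) := fun b hb => hA b (Finset.mem_insert_of_mem hb)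
    rw [M.L_add _ _ (hA a (Finset.mem_insert_self a s)) (M.ok_sum s A hs), ih hs]

lemma L_nonneg (A : I → ℝ) (hA : M.Ok A) (h : ∀ i, 0 ≤ A i) : 0 ≤ M.L A := by
  have h1 := M.L_mono (fun _ => 0) A (M.ok_const 0) hA h
  rwa [M.L_zero] at h1

lemma abs_L_le (A : I → ℝ) (hA : M.Ok A) : |M.L A| ≤ M.L (fun i => |A i|) := by
  rw [abs_le]
  constructor
  · have h := M.L_mono (fun i => -|A i|) A (M.ok_neg _ (M.ok_abs A hA)) hA (fun i => neg_abs_le (A i))
    rwa [M.L_neg _ (M.ok_abs A hA)] at h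
  · exact M.L_mono A (fun i => |A i|) hA (M.ok_abs A hA) (fun i => le_abs_self (A i))

/-- `|L A| ≤ L B` for `|A| ≤ B` -/
lemma abs_L_le_of_le (A B : I → ℝ) (hB : M.Ok B) (h : ∀ i, |A i| ≤ B i) : |M.L A| ≤ M.L B := by
  have hA : M.Ok A := M.ok_of_abs_le A B (fun i => (h i).trans (le_abs_self _)) hB
  exact (M.abs_L_le A hA).trans (M.L_mono _ _ (M.ok_abs A hA) hB h)

/-- Cauchy-Schwarz: the quadratic polynomial `L ((A + t B)²) ≥ 0` in `t`. -/
lemma cs (A B : I → ℝ) (hA : M.Ok A) (hB : M.Ok B) :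
    M.L (fun i => A i * B i) ^ 2 ≤ M.L (fun i => A i ^ 2) * M.L (fun i => B i ^ 2) := by
  have hAB := M.ok_mul A B hA hB
  have hA2 := M.ok_pow A hA 2
  have hB2 := M.ok_pow B hB 2
  have key : ∀ t : ℝ, 0 ≤ M.L (fun i => B i ^ 2) * (t * t) + 2 * M.L (fun i => A i * B i) * t +
      M.L (fun i => A i ^ 2) := by
    intro t
    have h1 : M.Ok (fun i => (A i + t * B i) ^ 2) :=
      M.ok_pow _ (M.ok_add A _ hA (M.ok_smul t B hB)) 2
    have h2 := M.L_nonneg _ h1 (fun i => sq_nonneg _)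
    have h3 : (fun i => (A i + t * B i) ^ 2) =
        fun i => A i ^ 2 + ((2 * t) * (A i * B i) + (t * t) * B i ^ 2) := by
      funext i
      ring
    rw [h3, M.L_add _ _ hA2 (M.ok_add _ _ (M.ok_smul (2 * t) _ hAB) (M.ok_smul (t * t) _ hB2)),
      M.L_add _ _ (M.ok_smul (2 * t) _ hAB) (M.ok_smul (t * t) _ hB2),
      M.L_smul (2 * t) _ hAB, M.L_smul (t * t) _ hB2] at h2
    linarith
  have hd := discrim_le_zero key
  unfold discrim at hd
  nlinarith

lemma abs_L_mul_le (A B : I → ℝ) (hA : M.Ok A) (hB : M.Ok B) :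
    |M.L (fun i => A i * B i)| ≤ Real.sqrt (M.L (fun i => A i ^ 2)) * Real.sqrt (M.L (fun i => B i ^ 2)) := by
  have h1 : 0 ≤ M.L (fun i => A i ^ 2) := M.L_nonneg _ (M.ok_pow A hA 2) (fun i => sq_nonneg _)
  rw [← Real.sqrt_mul h1]
  exact Real.abs_le_sqrt (M.cs A B hA hB)

lemma L_abs_le_sqrt (A : I → ℝ) (hA : M.Ok A) :
    M.L (fun i => |A i|) ≤ Real.sqrt (M.L (fun i => A i ^ 2)) := by
  have h := M.abs_L_mul_le (fun i => |A i|) (fun _ => 1) (M.ok_abs A hA) (M.ok_const 1)
  simp only [mul_one, sq_abs, one_pow, M.L_one, Real.sqrt_one] at h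
  exact (le_abs_self _).trans h

/-- Taylor estimate for the sine. -/
private lemma sin_taylor (b u : ℝ) :
    |Real.sin (b + u) - Real.sin b - u * Real.cos b| ≤ 2 * u ^ 2 := by
  have hsq : |u| ^ 2 = u ^ 2 := sq_abs u
  rcases le_or_gt |u| 1 with hu | hu
  · have h1 : Real.sin (b + u) - Real.sin b - u * Real.cos b =
        Real.sin b * (Real.cos u - 1) + Real.cos b * (Real.sin u - u) := by
      rw [Real.sin_add]
      ring
    have hc1 : Real.cos u ≤ 1 := Real.cos_le_one u
    have hc2 : 1 - u ^ 2 / 2 ≤ Real.cos u := Real.one_sub_sq_div_two_le_cos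
    have h2 : |Real.cos u - 1| ≤ u ^ 2 / 2 := by
      rw [abs_le]
      constructor <;> linarith
    have h3 : |Real.sin u - u| ≤ u ^ 2 := by
      have h4 := Real.sin_bound hu
      have h5 : |u| ^ 3 ≤ |u| ^ 2 := pow_le_pow_of_le_one (abs_nonneg u) hu (by norm_num)
      have h6 : |u| ^ 5 ≤ |u| ^ 2 := pow_le_pow_of_le_one (abs_nonneg u) hu (by norm_num)
      have h9 : Real.sin u - u = (Real.sin u - (u - u ^ 3 / 6)) + (-(u ^ 3 / 6)) := by ring
      have h10 : |-(u ^ 3 / 6)| = |u| ^ 3 / 6 := by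
        rw [abs_neg, abs_div, abs_pow]
        norm_num
      have h11 := abs_add_le (Real.sin u - (u - u ^ 3 / 6)) (-(u ^ 3 / 6))
      rw [← h9, h10] at h11
      have h12 : 0 ≤ |u| ^ 2 := by positivity
      linarith
    have h13 : |Real.sin b| ≤ 1 := Real.abs_sin_le_one b
    have h14 : |Real.cos b| ≤ 1 := Real.abs_cos_le_one b
    rw [h1]
    refine (abs_add_le _ _).trans ?_
    rw [abs_mul, abs_mul]
    have h15 : |Real.sin b| * |Real.cos u - 1| ≤ 1 * (u ^ 2 / 2) :=
      mul_le_mul h13 h2 (abs_nonneg _) zero_le_one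
    have h16 : |Real.cos b| * |Real.sin u - u| ≤ 1 * u ^ 2 :=
      mul_le_mul h14 h3 (abs_nonneg _) zero_le_one
    have h17 : 0 ≤ u ^ 2 := sq_nonneg u
    linarith
  · have h1 : |Real.sin (b + u) - Real.sin b| ≤ |u| := by
      have := Real.abs_sin_sub_sin_le (b + u) b
      rwa [add_sub_cancel_left] at this
    have h2 : |u * Real.cos b| ≤ |u| := by
      rw [abs_mul]
      have := Real.abs_cos_le_one b
      have h3 := abs_nonneg u
      nlinarith
    have h3 : |u| ≤ |u| ^ 2 := by nlinarith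
    have h4 : |Real.sin (b + u) - Real.sin b - u * Real.cos b| ≤
        |Real.sin (b + u) - Real.sin b| + |u * Real.cos b| := abs_sub _ _
    linarith

/-- Derivative at `0`: `|sin (b + t c) - sin b - t c cos b| ≤ t² c²`, so
`|t| |L (A C cos B)| ≤ t² L (|A| C²)` for all `t`. -/
lemma deriv_sin (A B C : I → ℝ) (hA : M.Ok A) (hC : M.Ok C)
    (h : ∀ t : ℝ, M.L (fun i => A i * Real.sin (B i + t * C i)) = 0) :
    M.L (fun i => A i * C i * Real.cos (B i)) = 0 := by
  have hAC := M.ok_mul A C hA hC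
  have hok : M.Ok (fun i => A i * C i * Real.cos (B i)) :=
    M.ok_mul_bdd _ _ hAC 1 (fun i => Real.abs_cos_le_one _)
  have hs : ∀ t : ℝ, M.Ok (fun i => A i * Real.sin (B i + t * C i)) := fun t =>
    M.ok_mul_bdd _ _ hA 1 (fun i => Real.abs_sin_le_one _)
  have hs0 : M.Ok (fun i => A i * Real.sin (B i)) :=
    M.ok_mul_bdd _ _ hA 1 (fun i => Real.abs_sin_le_one _)
  have h0 : M.L (fun i => A i * Real.sin (B i)) = 0 := by
    have := h 0
    simpa only [zero_mul, add_zero] using this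
  have hD : M.Ok (fun i => |A i| * C i ^ 2) := M.ok_mul _ _ (M.ok_abs A hA) (M.ok_pow C hC 2)
  have hD0 : 0 ≤ M.L (fun i => |A i| * C i ^ 2) :=
    M.L_nonneg _ hD (fun i => mul_nonneg (abs_nonneg _) (sq_nonneg _))
  have key : ∀ t : ℝ, 0 < t →
      |M.L (fun i => A i * C i * Real.cos (B i))| ≤ 2 * t * M.L (fun i => |A i| * C i ^ 2) := by
    intro t ht
    have h1 : (fun i => t * (A i * C i * Real.cos (B i))) =
        fun i => (A i * Real.sin (B i + t * C i) - A i * Real.sin (B i)) -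
          A i * (Real.sin (B i + t * C i) - Real.sin (B i) - t * C i * Real.cos (B i)) := by
      funext i
      ring
    have hE : M.Ok (fun i => 2 * t ^ 2 * (|A i| * C i ^ 2)) := M.ok_smul _ _ hD
    have hle : ∀ i, |A i * (Real.sin (B i + t * C i) - Real.sin (B i) - t * C i * Real.cos (B i))| ≤
        2 * t ^ 2 * (|A i| * C i ^ 2) := by
      intro i
      rw [abs_mul]
      have h2 := sin_taylor (B i) (t * C i)
      have h3 : |A i| * |Real.sin (B i + t * C i) - Real.sin (B i) - t * C i * Real.cos (B i)| ≤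
          |A i| * (2 * (t * C i) ^ 2) := mul_le_mul_of_nonneg_left h2 (abs_nonneg _)
      refine h3.trans (le_of_eq ?_)
      ring
    have hF : M.Ok (fun i =>
        A i * (Real.sin (B i + t * C i) - Real.sin (B i) - t * C i * Real.cos (B i))) :=
      M.ok_of_abs_le _ _ (fun i => (hle i).trans (le_abs_self _)) hE
    have h2 : t * M.L (fun i => A i * C i * Real.cos (B i)) =
        -M.L (fun i =>
          A i * (Real.sin (B i + t * C i) - Real.sin (B i) - t * C i * Real.cos (B i))) := by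
      rw [← M.L_smul t _ hok, h1, M.L_sub _ _ (M.ok_sub _ _ (hs t) hs0) hF,
        M.L_sub _ _ (hs t) hs0, h t, h0]
      ring
    have h3 := M.abs_L_le_of_le _ _ hE hle
    rw [M.L_smul _ _ hD] at h3
    have h4 : t * |M.L (fun i => A i * C i * Real.cos (B i))| ≤
        2 * t ^ 2 * M.L (fun i => |A i| * C i ^ 2) := by
      have h5 : t * |M.L (fun i => A i * C i * Real.cos (B i))| =
          |t * M.L (fun i => A i * C i * Real.cos (B i))| := by
        rw [abs_mul, abs_of_pos ht]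
      rw [h5, h2, abs_neg]
      exact h3
    have h6 : 2 * t ^ 2 * M.L (fun i => |A i| * C i ^ 2) =
        t * (2 * t * M.L (fun i => |A i| * C i ^ 2)) := by ring
    rw [h6] at h4
    exact le_of_mul_le_mul_left h4 ht
  rw [← abs_eq_zero]
  refine le_antisymm ?_ (abs_nonneg _)
  refine le_of_forall_pos_le_add fun ε hε => ?_
  set D := M.L (fun i => |A i| * C i ^ 2) with hDdef
  have h1 := key (ε / (2 * (D + 1))) (by positivity)
  refine h1.trans ?_
  have h2 : 2 * (ε / (2 * (D + 1))) * D = ε * (D / (D + 1)) := by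
    field_simp
  rw [h2, zero_add]
  have h3 : D / (D + 1) ≤ 1 := by
    rw [div_le_one (by linarith)]
    linarith
  nlinarith

end Lim

end GF
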