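import Pool.Agent.Helper27.GF.Cal1

/-!
Cal2 (project GF, MP_973bc8_pr).  Boxes, bumps, cutoffs, partition of unity, neutral functions in a box.
-/

open MeasureTheory Finset

namespace GF

/-- open box with centre `c` and half side `r` -/
def bx (c : Pl) (r : ℝ) : Set Pl := {z | |z.1 - c.1| < r ∧ |z.2 - c.2| < r}

/-- open rectangle -/
def rect (a b c d : ℝ) : Set Pl := {z | a < z.1 ∧ z.1 < b ∧ c < z.2 ∧ z.2 < d}

/-- cutoff function (`exists_contDiff_tsupport_subset` and friends, or `IsCompact.exists_...`); `psi = 1` on an open set containing `K` -/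
theorem exists_cutoff (K U : Set Pl) (hK : IsCompact K) (hU : IsOpen U) (hKU : K ⊆ U) :
    ∃ psi : Pl → ℝ, Cc psi ∧ (∀ z, 0 ≤ psi z ∧ psi z ≤ 1) ∧ tsupport psi ⊆ U ∧
      ∃ W : Set Pl, IsOpen W ∧ K ⊆ W ∧ ∀ z ∈ W, psi z = 1 := by
  obtain ⟨L, hLc, hKL, hLU⟩ := exists_compact_between hK hU hKU
  obtain ⟨M, hMc, hLM, hMU⟩ := exists_compact_between hLc hU hLU
  obtain ⟨f, hf1, hf2, hf3, hf4⟩ := exists_contMDiff_support_eq_eq_one_iff (modelWithCornersSelf ℝ Pl)
    (n := (⊤ : ℕ∞)) (s := interior M) (t := L) isOpen_interior hLc.isClosed hLM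
  have hr : ∀ z, 0 ≤ f z ∧ f z ≤ 1 := fun z => hf2 ⟨z, rfl⟩
  have hM : tsupport f ⊆ M := by
    apply closure_minimal _ hMc.isClosed
    rw [hf3]
    exact interior_subset
  exact ⟨f, ⟨hf1.contDiff, hMc.of_isClosed_subset (isClosed_tsupport _) hM⟩, hr, hM.trans hMU,
    interior L, isOpen_interior, hKL, fun z hz => (hf4 z).1 (interior_subset hz)⟩

/-- a bump of integral one in an open set -/
theorem exists_bump (U : Set Pl) (hU : IsOpen U) (hne : U.Nonempty) :
    ∃ k : Pl → ℝ, Cc k ∧ (∀ z, 0 ≤ k z) ∧ ∫ z, k z = 1 ∧ tsupport k ⊆ U := by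
  obtain ⟨p, hp⟩ := hne
  obtain ⟨psi, h1, h2, h3, W, hW, hpW, hW1⟩ := exists_cutoff {p} U isCompact_singleton hU
    (Set.singleton_subset_iff.2 hp)
  have hpos : 0 < ∫ z, psi z := by
    rw [integral_pos_iff_support_of_nonneg (fun z => (h2 z).1) h1.integrable]
    exact (h1.continuous.isOpen_support).measure_pos volume ⟨p, by
      show psi p ≠ 0
      rw [hW1 p (hpW rfl)]
      exact one_ne_zero⟩
  refine ⟨fun z => (∫ z, psi z)⁻¹ * psi z, h1.smul _, fun z =>
    mul_nonneg (inv_nonneg.2 hpos.le) (h2 z).1, ?_, ?_⟩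
  · rw [integral_const_mul, inv_mul_cancel₀ hpos.ne']
  · refine (closure_mono ?_).trans h3
    intro z hz
    exact right_ne_zero_of_mul hz

/-- a smooth step: `0` for `x ≤ 0`, `1` for `x ≥ 1`, monotone (`Real.smoothTransition`) -/
noncomputable def stp (x : ℝ) : ℝ := Real.smoothTransition x

/-- one dimensional partition function: support in `[-1, 1]` -/
noncomputable def th1 (x : ℝ) : ℝ := stp (x + 1) - stp x

/-- two dimensional partition function at scale `r` with index `q` -/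
noncomputable def th (r : ℝ) (q : ℤ × ℤ) (z : Pl) : ℝ := th1 (z.1 / r - q.1) * th1 (z.2 / r - q.2)

/-- centre of the cell -/
noncomputable def ctr (r : ℝ) (q : ℤ × ℤ) : Pl := (r * q.1, r * q.2)

lemma th1_smooth : ContDiff ℝ (⊤ : ℕ∞) th1 := by
  unfold th1 stp
  exact (Real.smoothTransition.contDiff.comp (contDiff_id.add contDiff_const)).sub
    Real.smoothTransition.contDiff

lemma th1_nonneg (x : ℝ) : 0 ≤ th1 x :=
  sub_nonneg.2 (Real.smoothTransition.monotone (by linarith))

lemma th1_le_one (x : ℝ) : th1 x ≤ 1 := by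
  have h1 := Real.smoothTransition.le_one (x + 1)
  have h2 := Real.smoothTransition.nonneg x
  unfold th1 stp
  linarith

lemma th1_zero {x : ℝ} (h : 1 ≤ |x|) : th1 x = 0 := by
  unfold th1 stp
  rcases le_abs.1 h with h1 | h1
  · rw [Real.smoothTransition.one_of_one_le (by linarith), Real.smoothTransition.one_of_one_le h1,
      sub_self]
  · rw [Real.smoothTransition.zero_of_nonpos (by linarith),
      Real.smoothTransition.zero_of_nonpos (by linarith), sub_self]

lemma th1_sum (N : ℕ) {x : ℝ} (hx : |x| ≤ N) :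
    ∑ k ∈ Finset.Icc (-(N : ℤ)) N, th1 (x - k) = 1 := by
  have key : ∀ n : ℕ, ∑ k ∈ Finset.Icc (-(N : ℤ)) (-(N : ℤ) + n), th1 (x - k) =
      stp (x + N + 1) - stp (x + N - n) := by
    intro n
    induction n with
    | zero =>
      rw [Nat.cast_zero, add_zero, Finset.Icc_self, Finset.sum_singleton]
      unfold th1
      push_cast
      rw [sub_zero, sub_neg_eq_add]
    | succ n ih =>
      have e : Finset.Icc (-(N : ℤ)) (-(N : ℤ) + ((n + 1 : ℕ) : ℤ)) =
          insert (-(N : ℤ) + ((n + 1 : ℕ) : ℤ)) (Finset.Icc (-(N : ℤ)) (-(N : ℤ) + n)) := by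
        ext k
        simp only [Finset.mem_Icc, Finset.mem_insert]
        push_cast
        omega
      rw [e, Finset.sum_insert (by simp), ih]
      unfold th1
      push_cast
      have e1 : x - (-(N : ℝ) + ((n : ℝ) + 1)) + 1 = x + N - n := by ring
      have e2 : x - (-(N : ℝ) + ((n : ℝ) + 1)) = x + N - (n + 1) := by ring
      rw [e1, e2]
      ring
  have h := key (2 * N)
  have e : -(N : ℤ) + ((2 * N : ℕ) : ℤ) = N := by push_cast; ring
  rw [e] at h
  have h1 := abs_le.1 hx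
  have h2 : stp (x + N + 1) = 1 := Real.smoothTransition.one_of_one_le (by linarith)
  have h3 : stp (x + N - ((2 * N : ℕ) : ℝ)) = 0 := Real.smoothTransition.zero_of_nonpos (by
    push_cast
    linarith)
  rw [h, h2, h3, sub_zero]

lemma th_smooth (r : ℝ) (q : ℤ × ℤ) : ContDiff ℝ (⊤ : ℕ∞) (th r q) :=
  (th1_smooth.comp ((contDiff_fst.div_const r).sub contDiff_const)).mul
    (th1_smooth.comp ((contDiff_snd.div_const r).sub contDiff_const))

lemma th_nonneg (r : ℝ) (q : ℤ × ℤ) (z : Pl) : 0 ≤ th r q z :=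
  mul_nonneg (th1_nonneg _) (th1_nonneg _)

lemma th_le_one (r : ℝ) (q : ℤ × ℤ) (z : Pl) : th r q z ≤ 1 :=
  mul_le_one₀ (th1_le_one _) (th1_nonneg _) (th1_le_one _)

/-- the support in a closed box -/
lemma th_supp' (r : ℝ) (hr : 0 < r) (q : ℤ × ℤ) :
    tsupport (th r q) ⊆ {z | |z.1 - (ctr r q).1| ≤ r ∧ |z.2 - (ctr r q).2| ≤ r} := by
  apply closure_minimal
  · intro z hz
    have h1 : th1 (z.1 / r - q.1) ≠ 0 := left_ne_zero_of_mul hz
    have h2 : th1 (z.2 / r - q.2) ≠ 0 := right_ne_zero_of_mul hz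
    have h3 : |z.1 / r - q.1| < 1 := by
      by_contra h
      exact h1 (th1_zero (not_lt.1 h))
    have h4 : |z.2 / r - q.2| < 1 := by
      by_contra h
      exact h2 (th1_zero (not_lt.1 h))
    have e1 : z.1 - (ctr r q).1 = r * (z.1 / r - q.1) := by
      simp only [ctr]
      field_simp
    have e2 : z.2 - (ctr r q).2 = r * (z.2 / r - q.2) := by
      simp only [ctr]
      field_simp
    constructor
    · rw [e1, abs_mul, abs_of_pos hr]
      nlinarith
    · rw [e2, abs_mul, abs_of_pos hr]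
      nlinarith
  · have h1 : Continuous (fun z : Pl => |z.1 - (ctr r q).1|) :=
      (continuous_fst.sub continuous_const).abs
    have h2 : Continuous (fun z : Pl => |z.2 - (ctr r q).2|) :=
      (continuous_snd.sub continuous_const).abs
    exact (isClosed_le h1 continuous_const).inter (isClosed_le h2 continuous_const)

lemma th_supp (r : ℝ) (hr : 0 < r) (q : ℤ × ℤ) : tsupport (th r q) ⊆ bx (ctr r q) (2 * r) := by
  intro z hz
  have h := th_supp' r hr q hz
  exact ⟨by linarith [h.1], by linarith [h.2]⟩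

lemma isCompact_cbox (c : Pl) (r : ℝ) : IsCompact {z : Pl | |z.1 - c.1| ≤ r ∧ |z.2 - c.2| ≤ r} := by
  have e : {z : Pl | |z.1 - c.1| ≤ r ∧ |z.2 - c.2| ≤ r} =
      Set.Icc (c.1 - r) (c.1 + r) ×ˢ Set.Icc (c.2 - r) (c.2 + r) := by
    ext z
    simp only [Set.mem_ofPred_eq, Set.mem_prod, Set.mem_Icc, abs_le]
    constructor
    · rintro ⟨⟨h1, h2⟩, h3, h4⟩
      exact ⟨⟨by linarith, by linarith⟩, by linarith, by linarith⟩
    · rintro ⟨⟨h1, h2⟩, h3, h4⟩
      exact ⟨⟨by linarith, by linarith⟩, by linarith, by linarith⟩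
  rw [e]
  exact isCompact_Icc.prod isCompact_Icc

lemma th_cc (r : ℝ) (hr : 0 < r) (q : ℤ × ℤ) : Cc (th r q) :=
  ⟨th_smooth r q, (isCompact_cbox _ _).of_isClosed_subset (isClosed_tsupport _) (th_supp' r hr q)⟩

/-- Telescoping: for `|x| ≤ R`, `N ≥ R / r + 1`: `∑_{m = -N}^{N} th1 (x / r - m) = stp (x/r + N + 1) - stp (x/r - N) = 1`. -/
theorem th_sum (R r : ℝ) (hr : 0 < r) (N : ℕ) (hN : R / r + 1 ≤ N) (z : Pl) (hz : |z.1| ≤ R ∧ |z.2| ≤ R) :
    ∑ q ∈ (Icc (-(N : ℤ)) N) ×ˢ (Icc (-(N : ℤ)) N), th r q z = 1 := by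
  have h1 : |z.1 / r| ≤ N := by
    rw [abs_div, abs_of_pos hr]
    have := (div_le_div_iff_of_pos_right hr).2 hz.1
    linarith
  have h2 : |z.2 / r| ≤ N := by
    rw [abs_div, abs_of_pos hr]
    have := (div_le_div_iff_of_pos_right hr).2 hz.2
    linarith
  rw [Finset.sum_product]
  have e : ∀ a ∈ Finset.Icc (-(N : ℤ)) N, ∑ b ∈ Finset.Icc (-(N : ℤ)) N, th r (a, b) z =
      th1 (z.1 / r - a) := by
    intro a _
    unfold th
    simp only
    rw [← Finset.mul_sum, th1_sum N h2, mul_one]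
  rw [Finset.sum_congr rfl e, th1_sum N h1]

/-- derivatives of the partition functions: `th r q z = th 1 (0,0) (z / r - q)`, `lap_scale` and the same for `dx`, `dy`; `th 1 (0,0)` has
compact support -/
theorem th_bound : ∃ C : ℝ, 0 ≤ C ∧ ∀ (r : ℝ), 0 < r → ∀ (q : ℤ × ℤ) (z : Pl),
    |dx (th r q) z| ≤ C / r ∧ |dy (th r q) z| ≤ C / r ∧ |lap (th r q) z| ≤ C / r ^ 2 := by
  have h0 : Cc (th 1 (0, 0)) := th_cc 1 one_pos (0, 0)
  obtain ⟨C1, h1, h1'⟩ := h0.dx.bdd
  obtain ⟨C2, h2, h2'⟩ := h0.dy.bdd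
  obtain ⟨C3, h3, h3'⟩ := h0.lap.bdd
  refine ⟨C1 + C2 + C3, by positivity, fun r hr q z => ?_⟩
  have e : th r q = fun z => th 1 (0, 0) ((z.1 - (ctr r q).1) / r, (z.2 - (ctr r q).2) / r) := by
    funext z
    have e1 : (z.1 - r * q.1) / r = z.1 / r - q.1 := by field_simp
    have e2 : (z.2 - r * q.2) / r = z.2 / r - q.2 := by field_simp
    simp only [th, ctr, e1, e2, div_one, Int.cast_zero, sub_zero]
  rw [e, dx_scale r (ctr r q) h0.smooth, dy_scale r (ctr r q) h0.smooth,
    lap_scale r hr.ne' (ctr r q) h0.smooth, abs_div, abs_div, abs_div, abs_of_pos hr,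
    abs_of_pos (pow_pos hr 2)]
  refine ⟨?_, ?_, ?_⟩
  · exact (div_le_div_iff_of_pos_right hr).2 ((h1' _).trans (by linarith))
  · exact (div_le_div_iff_of_pos_right hr).2 ((h2' _).trans (by linarith))
  · exact (div_le_div_iff_of_pos_right (pow_pos hr 2)).2 ((h3' _).trans (by linarith))

/-- The number of cells: with `N = ⌈R / r⌉ + 1` the index set has `(2 N + 1)²` elements, at most `(2 R / r + 5)² ≤ (2 R + 5)² / r²` for `r ≤ 1`. -/
theorem cell_count (R r : ℝ) (hR : 0 ≤ R) (hr : 0 < r) (hr1 : r ≤ 1) : ∃ N : ℕ, R / r + 1 ≤ N ∧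
    (((Icc (-(N : ℤ)) N) ×ˢ (Icc (-(N : ℤ)) N)).card : ℝ) ≤ (2 * R + 7) ^ 2 / r ^ 2 := by
  refine ⟨⌈R / r + 1⌉₊, Nat.le_ceil _, ?_⟩
  set N := ⌈R / r + 1⌉₊ with hN
  have h0 : 0 ≤ R / r + 1 := by positivity
  have h1 : (N : ℝ) < R / r + 1 + 1 := Nat.ceil_lt_add_one h0
  rw [Finset.card_product, Int.card_Icc]
  have e : ((N : ℤ) + 1 - -(N : ℤ)).toNat = 2 * N + 1 := by omega
  rw [e, ← div_pow]
  push_cast
  have h2 : (2 * (N : ℝ) + 1) ≤ (2 * R + 7) / r := by
    rw [le_div_iff₀ hr]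
    have h3 : (N : ℝ) * r < R + 2 * r := by
      have := mul_lt_mul_of_pos_right h1 hr
      have e2 : (R / r + 1 + 1) * r = R + 2 * r := by field_simp; ring
      linarith
    nlinarith
  have h4 : (0 : ℝ) ≤ 2 * (N : ℝ) + 1 := by positivity
  nlinarith

/-- Lipschitz bound of a test function -/
lemma Cc.lip {f : Pl → ℝ} (hf : Cc f) : ∃ C : ℝ, 0 ≤ C ∧ ∀ z w : Pl, |f z - f w| ≤ C * (|z.1 - w.1| + |z.2 - w.2|) := by
  have h1 : Continuous (fderiv ℝ f) := hf.smooth.continuous_fderiv (by simp)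
  obtain ⟨C, hC⟩ := h1.bounded_above_of_compact_support (hf.supp.fderiv (𝕜 := ℝ))
  have hC0 : 0 ≤ C := (norm_nonneg _).trans (hC 0)
  refine ⟨C, hC0, fun z w => ?_⟩
  have h2 := Convex.norm_image_sub_le_of_norm_fderiv_le (𝕜 := ℝ) (f := f) (s := Set.univ) (C := C)
    (x := w) (y := z) (fun x _ => hf.smooth.differentiable (by simp) x) (fun x _ => hC x)
    convex_univ (Set.mem_univ _) (Set.mem_univ _)
  have h3 : ‖z - w‖ ≤ |z.1 - w.1| + |z.2 - w.2| := by
    rw [Prod.norm_def, Real.norm_eq_abs, Real.norm_eq_abs, Prod.fst_sub, Prod.snd_sub]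
    exact max_le (le_add_of_nonneg_right (abs_nonneg _)) (le_add_of_nonneg_left (abs_nonneg _))
  rw [Real.norm_eq_abs] at h2
  exact h2.trans (mul_le_mul_of_nonneg_left h3 hC0)

/-- integral of a bounded function supported in a set -/
lemma int_abs_le_of_supp {f : Pl → ℝ} (S : Set Pl) (A V : ℝ) (hA0 : 0 ≤ A) (hV : 0 ≤ V)
    (hA : ∀ z, |f z| ≤ A) (hS : ∀ z, f z ≠ 0 → z ∈ S) (hV' : volume S ≤ ENNReal.ofReal V) :
    ∫ z, |f z| ≤ A * V := by
  have hfin : volume S < ⊤ := hV'.trans_lt ENNReal.ofReal_lt_top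
  have e : ∫ z, |f z| = ∫ z in S, |f z| := by
    symm
    apply setIntegral_eq_integral_of_forall_compl_eq_zero
    intro z hz
    rw [abs_eq_zero]
    by_contra h
    exact hz (hS z h)
  rw [e]
  have h1 := norm_setIntegral_le_of_norm_le_const (μ := (volume : Measure Pl)) (s := S)
    (f := fun z => |f z|) (C := A) hfin (fun z _ => by
      rw [Real.norm_eq_abs, abs_abs]
      exact hA z)
  have h2 : (volume : Measure Pl).real S ≤ V := ENNReal.toReal_le_of_le_ofReal hV hV'
  exact (le_abs_self _).trans (h1.trans (mul_le_mul_of_nonneg_left h2 hA0))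

lemma vol_box (c : Pl) (r : ℝ) (hr : 0 ≤ r) : volume (bx c r) ≤ ENNReal.ofReal (4 * r ^ 2) := by
  have e : bx c r ⊆ Set.Icc (c.1 - r) (c.1 + r) ×ˢ Set.Icc (c.2 - r) (c.2 + r) := by
    intro z hz
    have h1 := abs_lt.1 hz.1
    have h2 := abs_lt.1 hz.2
    exact ⟨⟨by linarith [h1.1], by linarith [h1.2]⟩, by linarith [h2.1], by linarith [h2.2]⟩
  refine (measure_mono e).trans ?_
  rw [Measure.volume_eq_prod, Measure.prod_prod, Real.volume_Icc, Real.volume_Icc,
    ← ENNReal.ofReal_mul (by linarith)]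
  apply ENNReal.ofReal_le_ofReal
  nlinarith

/-- integral of a bounded function supported in a box -/
lemma int_abs_box {f : Pl → ℝ} (hf : Cc f) (c : Pl) (r A : ℝ) (hr : 0 ≤ r) (hA : ∀ z, |f z| ≤ A)
    (hs : tsupport f ⊆ bx c r) : ∫ z, |f z| ≤ 4 * r ^ 2 * A := by
  have hA0 : 0 ≤ A := (abs_nonneg _).trans (hA 0)
  have h := int_abs_le_of_supp (bx c r) A (4 * r ^ 2) hA0 (by positivity) hA
    (fun z hz => hs (subset_tsupport f hz)) (vol_box c r hr)
  linarith

lemma vol_strip {d : Pl} (hd : Dir d) (c η R : ℝ) (hη : 0 ≤ η) (hR : 0 ≤ R) :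
    volume ({z : Pl | |ell d z - c| < η} ∩ {z : Pl | |z.1| ≤ R ∧ |z.2| ≤ R}) ≤
      ENNReal.ofReal (4 * R * η) := by
  have hT : MeasurableSet ({z : Pl | |ell d z - c| < η} ∩ {z : Pl | |z.1| ≤ R ∧ |z.2| ≤ R}) := by
    apply MeasurableSet.inter
    · apply measurableSet_lt _ measurable_const
      unfold ell
      fun_prop
    · exact ((isClosed_le (continuous_fst (X := ℝ) (Y := ℝ)).abs continuous_const).inter
        (isClosed_le (continuous_snd (X := ℝ) (Y := ℝ)).abs continuous_const)).measurableSet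
  set T : Set Pl := {z : Pl | |ell d z - c| < η} ∩ {z : Pl | |z.1| ≤ R ∧ |z.2| ≤ R} with hTd
  have hlen : ∀ p : ℝ, volume (Set.Icc (p - η) (p + η)) = ENNReal.ofReal (2 * η) := by
    intro p
    rw [Real.volume_Icc]
    congr 1
    ring
  have hbound : ∫⁻ _ in Set.Icc (-R) R, ENNReal.ofReal (2 * η) = ENNReal.ofReal (4 * R * η) := by
    rw [setLIntegral_const, Real.volume_Icc, ← ENNReal.ofReal_mul (by positivity)]
    congr 1
    ring
  -- slices
  by_cases h1 : d.1 = 1 ∨ d.1 = -1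
  · -- slices for fixed second coordinate
    have hs : ∀ y : ℝ, volume ((fun x => ((x, y) : Pl)) ⁻¹' T) ≤
        Set.indicator (Set.Icc (-R) R) (fun _ => ENNReal.ofReal (2 * η)) y := by
      intro y
      by_cases hy : y ∈ Set.Icc (-R) R
      · rw [Set.indicator_of_mem hy, ← hlen (d.1 * (c - d.2 * y))]
        apply measure_mono
        intro x hx
        have h2 : |d.1 * x + d.2 * y - c| < η := hx.1
        rw [abs_lt] at h2
        rcases h1 with h1 | h1 <;> rw [h1] at h2 ⊢ <;> constructor <;> linarith [h2.1, h2.2]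
      · rw [Set.indicator_of_notMem hy]
        have : (fun x => ((x, y) : Pl)) ⁻¹' T = ∅ := by
          rw [Set.eq_empty_iff_forall_notMem]
          intro x hx
          exact hy (abs_le.1 hx.2.2)
        rw [this, measure_empty]
    calc volume T = ∫⁻ y, volume ((fun x => ((x, y) : Pl)) ⁻¹' T) := by
          rw [Measure.volume_eq_prod, Measure.prod_apply_symm hT]
      _ ≤ ∫⁻ y, Set.indicator (Set.Icc (-R) R) (fun _ => ENNReal.ofReal (2 * η)) y :=
          lintegral_mono hs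
      _ = ENNReal.ofReal (4 * R * η) := by
          rw [lintegral_indicator measurableSet_Icc, hbound]
  · have h2 : d.2 = 1 ∨ d.2 = -1 := by
      rcases hd with rfl | rfl | rfl | rfl | rfl | rfl | rfl | rfl <;> simp_all
    have hs : ∀ x : ℝ, volume (Prod.mk x ⁻¹' T) ≤
        Set.indicator (Set.Icc (-R) R) (fun _ => ENNReal.ofReal (2 * η)) x := by
      intro x
      by_cases hx : x ∈ Set.Icc (-R) R
      · rw [Set.indicator_of_mem hx, ← hlen (d.2 * (c - d.1 * x))]
        apply measure_mono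
        intro y hy
        have h3 : |d.1 * x + d.2 * y - c| < η := hy.1
        rw [abs_lt] at h3
        rcases h2 with h2 | h2 <;> rw [h2] at h3 ⊢ <;> constructor <;> linarith [h3.1, h3.2]
      · rw [Set.indicator_of_notMem hx]
        have : Prod.mk x ⁻¹' T = ∅ := by
          rw [Set.eq_empty_iff_forall_notMem]
          intro y hy
          exact hx (abs_le.1 hy.2.1)
        rw [this, measure_empty]
    calc volume T = ∫⁻ x, volume (Prod.mk x ⁻¹' T) := by
          rw [Measure.volume_eq_prod, Measure.prod_apply hT]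
      _ ≤ ∫⁻ x, Set.indicator (Set.Icc (-R) R) (fun _ => ENNReal.ofReal (2 * η)) x :=
          lintegral_mono hs
      _ = ENNReal.ofReal (4 * R * η) := by
          rw [lintegral_indicator measurableSet_Icc, hbound]

lemma smooth_int_Iic {f : Pl → ℝ} (hf : Cc f) :
    ContDiff ℝ (⊤ : ℕ∞) (fun z : Pl => ∫ t in Set.Iic z.2, f (z.1, t)) := by
  have hk : IsCompact (Prod.snd '' tsupport f) :=
    (show IsCompact (tsupport f) from hf.supp).image continuous_snd
  have h := contDiffOn_convolution_right_with_param (𝕜 := ℝ) (μ := (volume : Measure ℝ)) (n := ⊤)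
    (ContinuousLinearMap.mul ℝ ℝ) (f := Set.indicator (Set.Ici (0 : ℝ)) (fun _ => (1 : ℝ)))
    (g := fun (x y : ℝ) => f (x, y)) (s := Set.univ) (k := Prod.snd '' tsupport f) isOpen_univ hk
    (fun p x _ hx => by
      by_contra h
      exact hx ⟨(p, x), subset_tsupport f h, rfl⟩)
    ((locallyIntegrable_const (1 : ℝ)).indicator measurableSet_Ici)
    hf.smooth.contDiffOn
  rw [Set.univ_prod_univ, contDiffOn_univ] at h
  convert h using 1
  funext z
  rw [convolution_def]
  have e := integral_sub_left_eq_self (Set.indicator (Set.Iic z.2) (fun t => f (z.1, t)))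
    (volume : Measure ℝ) z.2
  rw [← integral_indicator measurableSet_Iic, ← e]
  congr 1
  funext t
  by_cases ht : 0 ≤ t
  · rw [Set.indicator_of_mem (show z.2 - t ∈ Set.Iic z.2 from by simp [ht]),
      Set.indicator_of_mem (show t ∈ Set.Ici (0 : ℝ) from ht)]
    simp
  · rw [Set.indicator_of_notMem (show z.2 - t ∉ Set.Iic z.2 from by
        simp only [Set.mem_Iic, not_le]; linarith [not_le.1 ht]),
      Set.indicator_of_notMem (show t ∉ Set.Ici (0 : ℝ) from ht)]
    simp

lemma int_low {g : ℝ → ℝ} {p q y : ℝ} (hg : ∀ t, g t ≠ 0 → p < t ∧ t < q) (hy : y ≤ p) :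
    ∫ t in p..y, g t = 0 := by
  have e : ∫ t in p..y, g t = ∫ t in p..y, (0 : ℝ) := by
    apply intervalIntegral.integral_congr
    intro t ht
    rw [Set.uIcc_of_ge hy] at ht
    by_contra h
    exact absurd (hg t h).1 (not_lt.2 ht.2)
  rw [e]
  simp

lemma int_high {g : ℝ → ℝ} {p q y : ℝ} (hg : ∀ t, g t ≠ 0 → p < t ∧ t < q) (hy : q ≤ y) :
    ∫ t in p..y, g t = ∫ t, g t :=
  intervalIntegral.integral_eq_integral_of_support_subset
    (fun t ht => ⟨(hg t ht).1, (hg t ht).2.le.trans hy⟩)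

lemma smooth_prim {g : ℝ → ℝ} (hg : ContDiff ℝ (⊤ : ℕ∞) g) (p : ℝ) :
    ContDiff ℝ (⊤ : ℕ∞) (fun y => ∫ t in p..y, g t) := by
  have h : ∀ y, HasDerivAt (fun y => ∫ t in p..y, g t) (g y) y := fun y =>
    intervalIntegral.integral_hasDerivAt_right (hg.continuous.intervalIntegrable _ _)
      (hg.continuous.stronglyMeasurableAtFilter _ _) hg.continuous.continuousAt
  rw [contDiff_infty_iff_deriv]
  refine ⟨fun y => (h y).differentiableAt, ?_⟩
  rw [show deriv (fun y => ∫ t in p..y, g t) = g from funext fun y => (h y).deriv]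
  exact hg

lemma cc_of_box {u : Pl → ℝ} (hu : ContDiff ℝ (⊤ : ℕ∞) u) {a b c d a1 b1 c1 d1 : ℝ}
    (ha : a < a1) (hb : b1 < b) (hc : c < c1) (hd : d1 < d)
    (h : ∀ z, u z ≠ 0 → (a1 ≤ z.1 ∧ z.1 ≤ b1) ∧ (c1 ≤ z.2 ∧ z.2 ≤ d1)) :
    Cc u ∧ tsupport u ⊆ rect a b c d := by
  have h1 : tsupport u ⊆ Set.Icc a1 b1 ×ˢ Set.Icc c1 d1 := by
    apply closure_minimal _ (isClosed_Icc.prod isClosed_Icc)
    intro z hz
    exact h z hz
  refine ⟨⟨hu, (isCompact_Icc.prod isCompact_Icc).of_isClosed_subset (isClosed_tsupport _) h1⟩, ?_⟩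
  intro z hz
  have h2 := h1 hz
  exact ⟨ha.trans_le h2.1.1, h2.1.2.trans_lt hb, hc.trans_le h2.2.1, h2.2.2.trans_lt hd⟩

/-- Decomposition of a neutral function in a rectangle. Choose `k` smooth on `ℝ` with compact support in `(c, d)` and `∫ k = 1`. Let
`m x = ∫ f (x, y) dy`, `b (x, y) = ∫_{-∞}^y (f (x, t) - m x * k t) dt`, `a (x, y) = (∫_{-∞}^x m) * k y`. Then `dy b = f - m k`, `dx a = m k`; both are
smooth with support in the rectangle (`∫ (f (x, t) - m x k t) dt = 0`, `∫ m = 0`). -/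
theorem neutral_decomp (a b c d : ℝ) (f : Pl → ℝ) (hf : Ne f) (hs : tsupport f ⊆ rect a b c d) :
    ∃ u v : Pl → ℝ, Cc u ∧ Cc v ∧ tsupport u ⊆ rect a b c d ∧ tsupport v ⊆ rect a b c d ∧
      ∀ z, f z = dx u z + dy v z := by
  by_cases h0 : f = fun _ => 0
  · refine ⟨fun _ => 0, fun _ => 0, Cc.zero, Cc.zero, ?_, ?_, fun z => ?_⟩
    · rw [show tsupport (fun _ : Pl => (0 : ℝ)) = ∅ from tsupport_eq_empty_iff.2 rfl]
      exact Set.empty_subset _
    · rw [show tsupport (fun _ : Pl => (0 : ℝ)) = ∅ from tsupport_eq_empty_iff.2 rfl]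
      exact Set.empty_subset _
    · rw [h0]; unfold dx dy; simp
  have hK : IsCompact (tsupport f) := hf.supp
  have hne : (tsupport f).Nonempty := by
    rw [Set.nonempty_iff_ne_empty]
    intro h
    exact h0 (tsupport_eq_empty_iff.1 h)
  obtain ⟨z1, hz1, hz1'⟩ := hK.exists_isMinOn hne continuous_fst.continuousOn
  obtain ⟨z2, hz2, hz2'⟩ := hK.exists_isMaxOn hne continuous_fst.continuousOn
  obtain ⟨z3, hz3, hz3'⟩ := hK.exists_isMinOn hne continuous_snd.continuousOn
  obtain ⟨z4, hz4, hz4'⟩ := hK.exists_isMaxOn hne continuous_snd.continuousOn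
  have hcd : c < d := (hs hz3).2.2.1.trans (hs hz3).2.2.2
  obtain ⟨a1, ha1, ha1'⟩ := exists_between (hs hz1).1
  obtain ⟨b1, hb1', hb1⟩ := exists_between (hs hz2).2.1
  obtain ⟨c1, hc1, hc1'⟩ := exists_between (lt_min (hs hz3).2.2.1 (show c < c + (d - c) / 4 by linarith))
  obtain ⟨d1, hd1', hd1⟩ := exists_between (max_lt (hs hz4).2.2.2 (show d - (d - c) / 4 < d by linarith))
  rw [lt_min_iff] at hc1'
  rw [max_lt_iff] at hd1'
  have hfs : ∀ z, f z ≠ 0 → (a1 < z.1 ∧ z.1 < b1) ∧ (c1 < z.2 ∧ z.2 < d1) := by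
    intro z hz
    have hz' := subset_tsupport f hz
    exact ⟨⟨ha1'.trans_le (hz1' hz'), (hz2' hz').trans_lt hb1'⟩,
      ⟨hc1'.1.trans_le (hz3' hz'), (hz4' hz').trans_lt hd1'.1⟩⟩
  -- the bump in the second variable
  let bmp : ContDiffBump ((c + d) / 2 : ℝ) := ⟨(d - c) / 8, (d - c) / 4, by linarith, by linarith⟩
  set k : ℝ → ℝ := bmp.normed volume with hkdef
  have hk1 : ContDiff ℝ (⊤ : ℕ∞) k := bmp.contDiff_normed
  have hk2 : ∫ t, k t = 1 := bmp.integral_normed
  have hk3 : ∀ t, k t ≠ 0 → c1 < t ∧ t < d1 := by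
    intro t ht
    have h1 : t ∈ Function.support k := ht
    rw [hkdef, bmp.support_normed_eq, Real.ball_eq_Ioo] at h1
    have h2 : (c + d) / 2 - (d - c) / 4 < t := h1.1
    have h3 : t < (c + d) / 2 + (d - c) / 4 := h1.2
    exact ⟨by linarith [hc1'.2], by linarith [hd1'.2]⟩
  have hfx : ∀ x t, f (x, t) ≠ 0 → c1 < t ∧ t < d1 := fun x t h => (hfs (x, t) h).2
  have hcont : ∀ x, Continuous (fun t => f (x, t)) := fun x =>
    hf.smooth.continuous.comp (continuous_const.prodMk continuous_id)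
  have hintx : ∀ x, Integrable (fun t => f (x, t)) := fun x => by
    apply (hcont x).integrable_of_hasCompactSupport
    apply HasCompactSupport.of_support_subset_isCompact (isCompact_Icc (a := c1) (b := d1))
    intro t ht
    exact ⟨(hfx x t ht).1.le, (hfx x t ht).2.le⟩
  -- primitive in the second variable
  set B : Pl → ℝ := fun z => ∫ t in c1..z.2, f (z.1, t) with hB
  have hBs : ContDiff ℝ (⊤ : ℕ∞) B := by
    convert smooth_int_Iic hf.toCc using 1
    funext z
    have h1 := intervalIntegral.integral_Iic_sub_Iic (μ := (volume : Measure ℝ))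
      (f := fun t => f (z.1, t)) (a := c1) (b := z.2) (hintx z.1).integrableOn
      (hintx z.1).integrableOn
    have h2 : ∫ t in Set.Iic c1, f (z.1, t) = 0 := by
      apply setIntegral_eq_zero_of_forall_eq_zero
      intro t ht
      by_contra h
      exact absurd (hfx z.1 t h).1 (not_lt.2 ht)
    rw [hB]
    show ∫ t in c1..z.2, f (z.1, t) = _
    rw [← h1, h2, sub_zero]
  set m : ℝ → ℝ := fun x => B (x, d1) with hm
  have hms : ContDiff ℝ (⊤ : ℕ∞) m := hBs.comp (contDiff_id.prodMk contDiff_const)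
  have hmx : ∀ x, m x = ∫ t, f (x, t) := fun x => int_high (hfx x) le_rfl
  have hm0 : ∀ x, m x ≠ 0 → a1 < x ∧ x < b1 := by
    intro x hx
    by_contra h
    apply hx
    rw [hmx]
    have : (fun t => f (x, t)) = fun _ => 0 := by
      funext t
      by_contra h2
      exact h (hfs (x, t) h2).1
    rw [this]
    simp
  set M : ℝ → ℝ := fun x => ∫ t in a1..x, m t with hM
  have hMs : ContDiff ℝ (⊤ : ℕ∞) M := smooth_prim hms a1
  set Kk : ℝ → ℝ := fun y => ∫ t in c1..y, k t with hKk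
  have hKs : ContDiff ℝ (⊤ : ℕ∞) Kk := smooth_prim hk1 c1
  have hMz : ∀ x, M x ≠ 0 → a1 ≤ x ∧ x ≤ b1 := by
    intro x hx
    by_contra h
    apply hx
    rw [not_and_or, not_le, not_le] at h
    rcases h with h | h
    · exact int_low hm0 h.le
    · have e1 : M x = ∫ t, m t := int_high hm0 h.le
      have e2 : ∫ z, f z = ∫ x, ∫ t, f (x, t) := by
        rw [Measure.volume_eq_prod]
        exact integral_prod _ (by
          rw [← Measure.volume_eq_prod]
          exact hf.toCc.integrable)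
      rw [e1, show (fun t => m t) = fun x => ∫ t, f (x, t) from funext hmx, ← e2, hf.zero]
  set u : Pl → ℝ := fun z => M z.1 * k z.2 with hu
  set v : Pl → ℝ := fun z => B z - m z.1 * Kk z.2 with hv
  have hus : ContDiff ℝ (⊤ : ℕ∞) u := (hMs.comp contDiff_fst).mul (hk1.comp contDiff_snd)
  have hvs : ContDiff ℝ (⊤ : ℕ∞) v :=
    hBs.sub ((hms.comp contDiff_fst).mul (hKs.comp contDiff_snd))
  have hu0 := cc_of_box hus ha1 hb1 hc1 hd1 (fun z hz => by
    have h1 : M z.1 ≠ 0 := left_ne_zero_of_mul hz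
    have h2 : k z.2 ≠ 0 := right_ne_zero_of_mul hz
    exact ⟨hMz _ h1, (hk3 _ h2).1.le, (hk3 _ h2).2.le⟩)
  have hv0 := cc_of_box hvs ha1 hb1 hc1 hd1 (fun z hz => by
    constructor
    · by_contra h
      apply hz
      have h1 : ∀ t, f (z.1, t) = 0 := by
        intro t
        by_contra h2
        exact h ⟨(hfs (z.1, t) h2).1.1.le, (hfs (z.1, t) h2).1.2.le⟩
      have h2 : B z = 0 := by
        show ∫ t in c1..z.2, f (z.1, t) = 0
        simp [h1]
      have h3 : m z.1 = 0 := by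
        show ∫ t in c1..d1, f (z.1, t) = 0
        simp [h1]
      show B z - m z.1 * Kk z.2 = 0
      rw [h2, h3]
      ring
    · by_contra h
      apply hz
      show B z - m z.1 * Kk z.2 = 0
      rw [not_and_or, not_le, not_le] at h
      rcases h with h | h
      · have h2 : B z = 0 := int_low (hfx z.1) h.le
        have h3 : Kk z.2 = 0 := int_low hk3 h.le
        rw [h2, h3]
        ring
      · have h2 : B z = m z.1 := by
          rw [hmx]
          exact int_high (hfx z.1) h.le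
        have h3 : Kk z.2 = 1 := by
          rw [← hk2]
          exact int_high hk3 h.le
        rw [h2, h3]
        ring)
  refine ⟨u, v, hu0.1, hv0.1, hu0.2, hv0.2, fun z => ?_⟩
  rw [dx_eq_deriv hus, dy_eq_deriv hvs]
  have d1' : HasDerivAt (fun t => u (t, z.2)) (m z.1 * k z.2) z.1 := by
    have : HasDerivAt M (m z.1) z.1 :=
      intervalIntegral.integral_hasDerivAt_right (hms.continuous.intervalIntegrable _ _)
        (hms.continuous.stronglyMeasurableAtFilter _ _) hms.continuous.continuousAt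
    exact this.mul_const (k z.2)
  have d2' : HasDerivAt (fun t => v (z.1, t)) (f (z.1, z.2) - m z.1 * k z.2) z.2 := by
    have h1 : HasDerivAt Kk (k z.2) z.2 :=
      intervalIntegral.integral_hasDerivAt_right (hk1.continuous.intervalIntegrable _ _)
        (hk1.continuous.stronglyMeasurableAtFilter _ _) hk1.continuous.continuousAt
    have h2 : HasDerivAt (fun y => ∫ t in c1..y, f (z.1, t)) (f (z.1, z.2)) z.2 :=
      intervalIntegral.integral_hasDerivAt_right ((hcont z.1).intervalIntegrable _ _)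
        ((hcont z.1).stronglyMeasurableAtFilter _ _) (hcont z.1).continuousAt
    exact h2.sub (h1.const_mul (m z.1))
  rw [d1'.deriv, d2'.deriv]
  ring

/-- mass of a thin strip: for `d` one of the eight directions one coordinate has coefficient `±1`, so for fixed other coordinate the set
`|ell d z - c| < η` is an interval of length `≤ 2 η` -/
theorem strip_mass {f : Pl → ℝ} (hf : Cc f) {d : Pl} (hd : Dir d) (c : ℝ) :
    ∃ C : ℝ, 0 ≤ C ∧ ∀ η : ℝ, 0 < η → ∫ z in {z : Pl | |ell d z - c| < η}, |f z| ≤ C * η := by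
  obtain ⟨A, hA0, hA⟩ := hf.bdd
  obtain ⟨R, hR, hRs⟩ := hf.box
  refine ⟨A * (4 * R), by positivity, fun η hη => ?_⟩
  have hm : MeasurableSet {z : Pl | |ell d z - c| < η} := by
    apply measurableSet_lt _ measurable_const
    unfold ell
    fun_prop
  have e : ∫ z in {z : Pl | |ell d z - c| < η}, |f z| =
      ∫ z, |Set.indicator {z : Pl | |ell d z - c| < η} f z| := by
    rw [← integral_indicator hm]
    congr 1
    funext z
    rw [Set.indicator_apply, Set.indicator_apply]
    split_ifs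
    · rfl
    · rw [abs_zero]
  rw [e]
  have h := int_abs_le_of_supp (f := Set.indicator {z : Pl | |ell d z - c| < η} f)
    ({z : Pl | |ell d z - c| < η} ∩ {z : Pl | |z.1| ≤ R ∧ |z.2| ≤ R}) A (4 * R * η) hA0
    (by positivity) (fun z => by
      rw [Set.indicator_apply]
      split_ifs
      · exact hA z
      · rw [abs_zero]; exact hA0) (fun z hz => by
      rw [Set.indicator_apply] at hz
      split_ifs at hz with h1
      · have h2 := hRs (subset_tsupport f hz)
        exact ⟨h1, h2.1.le, h2.2.le⟩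
      · exact absurd rfl hz) (vol_strip hd c η R hη.le hR.le)
  linarith

end GF
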