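import Pool.Agent.Helper27.GF.M4

/-!
M5 (project GF, MP_973bc8_pr).  Consequences of the midpoint inequality: Gaussian weights, tails, moments.
-/

open Finset Real RP4

namespace GF

/-- linear functional with finitely supported weights -/
noncomputable def lin (s : Finset V) (w : V → ℝ) (h : V → ℤ) : ℝ := ∑ x ∈ s, w x * (h x : ℝ)

private theorem mid_gauss_lin_add (s : Finset V) (w : V → ℝ) (h h' u v : V → ℤ) (H : ∀ x, u x + v x = h x + h' x) :
    lin s w u + lin s w v = lin s w h + lin s w h' := by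
  unfold lin
  rw [← Finset.sum_add_distrib, ← Finset.sum_add_distrib]
  refine Finset.sum_congr rfl fun x _ => ?_
  have h1 : ((u x : ℤ) : ℝ) + v x = (h x : ℝ) + h' x := by exact_mod_cast H x
  rw [← mul_add, ← mul_add, h1]

private theorem mid_gauss_lin_sub (s : Finset V) (w : V → ℝ) (u v : V → ℤ) (H : ∀ x, |v x - u x| ≤ 2) :
    |lin s w v - lin s w u| ≤ 2 * ∑ x ∈ s, |w x| := by
  unfold lin
  rw [← Finset.sum_sub_distrib, Finset.mul_sum]
  refine (Finset.abs_sum_le_sum_abs _ _).trans (Finset.sum_le_sum fun x _ => ?_)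
  have h1 : |(v x : ℝ) - u x| ≤ 2 := by exact_mod_cast H x
  rw [← mul_sub, abs_mul, mul_comm]
  exact mul_le_mul_of_nonneg_right h1 (abs_nonneg _)

private theorem mid_gauss_div (S : Finset (V → ℤ)) (A B : (V → ℤ) → ℝ) (R : ℝ)
    (h : (∑ g ∈ S, A g) * ∑ g ∈ S, B g ≤ R) : avg S A * avg S B ≤ R / (S.card : ℝ) ^ 2 := by
  unfold avg
  rw [div_mul_div_comm, ← pow_two]
  exact div_le_div_of_nonneg_right h (by positivity)

/-- `mid_om` with `F h = exp (-(1/2) ∑ j (lin s (w j) h - a j)^2)`, `G` the same with `b`, and `H = K = exp ((1/2) ∑ c_j²) * exp (-(1/2) ∑ j (lin - (a j + b j)/2)^2)`,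
`c_j = ∑ |w j x|`. For `u + w = h + h'`, `|w - u| ≤ 2`: `x = lin h, y = lin h', U = lin u, W = lin w` satisfy `U + W = x + y` and `|W - U| ≤ 2 c`, so with `m = (a+b)/2`
`(U - m)² + (W - m)² = (U + W - 2m)²/2 + (U - W)²/2 ≤ (x - a + y - b)²/2 + 2c² ≤ (x-a)² + (y-b)² + 2c²`. -/
theorem mid_gauss (D : Finset V) (s : Finset V) (n : ℕ) (w : Fin n → V → ℝ) (a b : Fin n → ℝ) :
    avg (Om D) (fun h => exp (-(1 / 2) * ∑ j, (lin s (w j) h - a j) ^ 2)) *
      avg (Om D) (fun h => exp (-(1 / 2) * ∑ j, (lin s (w j) h - b j) ^ 2)) ≤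
    exp (∑ j, (∑ x ∈ s, |w j x|) ^ 2) *
      avg (Om D) (fun h => exp (-(1 / 2) * ∑ j, (lin s (w j) h - (a j + b j) / 2) ^ 2)) ^ 2 := by
  have key := mid_om D
    (fun h => exp (-(1 / 2) * ∑ j, (lin s (w j) h - a j) ^ 2))
    (fun h => exp (-(1 / 2) * ∑ j, (lin s (w j) h - b j) ^ 2))
    (fun h => exp ((1 / 2) * ∑ j, (∑ x ∈ s, |w j x|) ^ 2) * exp (-(1 / 2) * ∑ j, (lin s (w j) h - (a j + b j) / 2) ^ 2))
    (fun h => exp ((1 / 2) * ∑ j, (∑ x ∈ s, |w j x|) ^ 2) * exp (-(1 / 2) * ∑ j, (lin s (w j) h - (a j + b j) / 2) ^ 2))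
    (fun h => (exp_pos _).le) (fun h => (exp_pos _).le) (fun h => by positivity) (fun h => by positivity) ?_
  · refine (mid_gauss_div (Om D) _ _ _ key).trans (le_of_eq ?_)
    rw [← Finset.mul_sum]
    unfold avg
    rw [div_pow, ← mul_div_assoc]
    congr 1
    have e : exp (∑ j, (∑ x ∈ s, |w j x|) ^ 2) =
        exp ((1 / 2) * ∑ j, (∑ x ∈ s, |w j x|) ^ 2) * exp ((1 / 2) * ∑ j, (∑ x ∈ s, |w j x|) ^ 2) := by
      rw [← exp_add]
      congr 1
      ring
    rw [e]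
    ring
  · intro h _ h' _ u _ v _ hs hd
    show exp (-(1 / 2) * ∑ j, (lin s (w j) h - a j) ^ 2) * exp (-(1 / 2) * ∑ j, (lin s (w j) h' - b j) ^ 2) ≤
      exp ((1 / 2) * ∑ j, (∑ x ∈ s, |w j x|) ^ 2) * exp (-(1 / 2) * ∑ j, (lin s (w j) u - (a j + b j) / 2) ^ 2) *
      (exp ((1 / 2) * ∑ j, (∑ x ∈ s, |w j x|) ^ 2) * exp (-(1 / 2) * ∑ j, (lin s (w j) v - (a j + b j) / 2) ^ 2))
    rw [← exp_add, ← exp_add, ← exp_add, ← exp_add]
    refine exp_le_exp.2 ?_
    have hj : ∑ j, ((lin s (w j) u - (a j + b j) / 2) ^ 2 + (lin s (w j) v - (a j + b j) / 2) ^ 2) ≤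
        ∑ j, ((lin s (w j) h - a j) ^ 2 + (lin s (w j) h' - b j) ^ 2 + 2 * (∑ x ∈ s, |w j x|) ^ 2) := by
      refine Finset.sum_le_sum fun j _ => ?_
      have e1 := mid_gauss_lin_add s (w j) h h' u v hs
      have e2 := mid_gauss_lin_sub s (w j) u v hd
      have e3 : (lin s (w j) v - lin s (w j) u) ^ 2 ≤ (2 * ∑ x ∈ s, |w j x|) ^ 2 := by
        rw [← sq_abs]
        exact pow_le_pow_left₀ (abs_nonneg _) e2 2
      have e4 : lin s (w j) v = lin s (w j) h + lin s (w j) h' - lin s (w j) u := by linarith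
      have e5 : 0 ≤ (lin s (w j) h - a j - (lin s (w j) h' - b j)) ^ 2 := sq_nonneg _
      rw [e4] at e3 ⊢
      nlinarith [e3, e5]
    rw [Finset.sum_add_distrib, Finset.sum_add_distrib, Finset.sum_add_distrib, ← Finset.mul_sum] at hj
    linarith

open Classical in
/-- probability of `t ≤ lin` -/
noncomputable def tl (D s : Finset V) (w : V → ℝ) (t : ℝ) : ℝ := avg (Om D) (fun h => if t ≤ lin s w h then 1 else 0)

open Classical in
/-- `mid_om` with `F = 1{2 t + 2 c + r ≤ lin}`, `G = 1{-r ≤ lin}` (`c = ∑ |w x|`), `H = K = 1{t ≤ lin}`: `U + W = x + y ≥ 2t + 2c` and `|U - W| ≤ 2c`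
give `U, W ≥ t`. -/
theorem tail_step (D s : Finset V) (w : V → ℝ) (t r : ℝ) :
    tl D s w (2 * t + 2 * (∑ x ∈ s, |w x|) + r) * avg (Om D) (fun h => if -r ≤ lin s w h then 1 else 0) ≤
      tl D s w t ^ 2 := by
  have key := mid_om D
    (fun h => if 2 * t + 2 * (∑ x ∈ s, |w x|) + r ≤ lin s w h then 1 else 0)
    (fun h => if -r ≤ lin s w h then 1 else 0)
    (fun h => if t ≤ lin s w h then 1 else 0)
    (fun h => if t ≤ lin s w h then 1 else 0)
    (fun h => by positivity) (fun h => by positivity) (fun h => by positivity) (fun h => by positivity) ?_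
  · refine (mid_gauss_div (Om D) _ _ _ key).trans (le_of_eq ?_)
    unfold tl avg
    rw [div_pow, pow_two (∑ g ∈ Om D, _)]
  · intro h _ h' _ u _ v _ hs hd
    have e1 := mid_gauss_lin_add s w h h' u v hs
    have e2 := abs_le.1 (mid_gauss_lin_sub s w u v hd)
    show (if 2 * t + 2 * (∑ x ∈ s, |w x|) + r ≤ lin s w h then (1 : ℝ) else 0) *
      (if -r ≤ lin s w h' then (1 : ℝ) else 0) ≤
      (if t ≤ lin s w u then (1 : ℝ) else 0) * (if t ≤ lin s w v then (1 : ℝ) else 0)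
    by_cases h1 : 2 * t + 2 * (∑ x ∈ s, |w x|) + r ≤ lin s w h
    · by_cases h2 : -r ≤ lin s w h'
      · rw [if_pos h1, if_pos h2, if_pos (by linarith [e2.1, e2.2]), if_pos (by linarith [e2.1, e2.2])]
      · rw [if_neg h2, mul_zero]
        positivity
    · rw [if_neg h1, zero_mul]
      positivity

private theorem tail_pow_mono {S : Finset (V → ℤ)} {F G : (V → ℤ) → ℝ} (h : ∀ g ∈ S, F g ≤ G g) :
    avg S F ≤ avg S G := by
  unfold avg
  exact div_le_div_of_nonneg_right (Finset.sum_le_sum h) (Nat.cast_nonneg _)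

private theorem tail_pow_anti (D s : Finset V) (w : V → ℝ) {t t' : ℝ} (h : t ≤ t') :
    tl D s w t' ≤ tl D s w t := by
  refine tail_pow_mono fun g _ => ?_
  show (if t' ≤ lin s w g then (1 : ℝ) else 0) ≤ if t ≤ lin s w g then 1 else 0
  by_cases h1 : t' ≤ lin s w g
  · rw [if_pos h1, if_pos (h.trans h1)]
  · rw [if_neg h1]
    positivity

private theorem tail_pow_sq (S : Finset (V → ℤ)) (F : (V → ℤ) → ℝ) (T : ℝ) (hT : 0 < T)
    (h2 : 2 * Real.sqrt (avg S (fun h => F h ^ 2)) ≤ T) : avg S (fun h => F h ^ 2 / T ^ 2) ≤ 1 / 4 := by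
  have h0 : 0 ≤ avg S (fun h => F h ^ 2) := by
    unfold avg
    positivity
  have h1 : avg S (fun h => F h ^ 2 / T ^ 2) = avg S (fun h => F h ^ 2) / T ^ 2 := by
    unfold avg
    rw [← Finset.sum_div]
    ring
  have h3 : (2 * Real.sqrt (avg S (fun h => F h ^ 2))) ^ 2 ≤ T ^ 2 :=
    pow_le_pow_left₀ (by positivity) h2 2
  rw [mul_pow, Real.sq_sqrt h0] at h3
  rw [h1, div_le_iff₀ (by positivity)]
  linarith

/-- With `sg² = avg (Om D) (lin²)`, `c = ∑ |w|` and `T = 2 sg + c + e` (`e > 0`, to avoid division by zero). Chebyshev: `P(|lin| ≥ 2 sg + e) ≤ 1/4`.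
`tail_step` with `r = T`: `P(-T ≤ lin) ≥ 3/4`, so `q t := (4/3) tl t` satisfies `q (2 t + 3 T) ≤ q(t)²` (`2 c + r ≤ 3 T`; `tl` is antitone), i.e. with `t = 3 T u - 3 T`:
`q (3T (2u) - 3T) ≤ q (3 T u - 3 T)²`. At `u = 4/3`: `q (T) ≤ (4/3)(1/4) = 1/3`. Hence by induction `tl (3 T (4/3) 2^k - 3 T) ≤ (1/3)^(2^k)`, so
`tl (4 T 2^k) ≤ (1/3)^(2^k)`. -/
theorem tail_pow (D s : Finset V) (w : V → ℝ) (e : ℝ) (he : 0 < e) (hD : (Om D).Nonempty) (k : ℕ) :
    tl D s w (4 * (2 * Real.sqrt (avg (Om D) (fun h => lin s w h ^ 2)) + (∑ x ∈ s, |w x|) + e) * 2 ^ k) ≤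
      (1 / 3) ^ (2 ^ k) := by
  classical
  have hsg : 0 ≤ Real.sqrt (avg (Om D) (fun h => lin s w h ^ 2)) := Real.sqrt_nonneg _
  have hc : 0 ≤ ∑ x ∈ s, |w x| := Finset.sum_nonneg fun x _ => abs_nonneg _
  obtain ⟨T, hTdef⟩ : ∃ T, T = 2 * Real.sqrt (avg (Om D) (fun h => lin s w h ^ 2)) + (∑ x ∈ s, |w x|) + e :=
    ⟨_, rfl⟩
  rw [← hTdef]
  have hT : 0 < T := by rw [hTdef]; positivity
  have h14 := tail_pow_sq (Om D) (fun h => lin s w h) T hT (by rw [hTdef]; linarith)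
  have hT2 : 0 < T ^ 2 := by positivity
  have hcard : (0 : ℝ) < (Om D).card := by exact_mod_cast hD.card_pos
  -- the start
  have hstart : tl D s w T ≤ 1 / 4 := by
    refine le_trans (tail_pow_mono fun g _ => ?_) h14
    show (if T ≤ lin s w g then (1 : ℝ) else 0) ≤ lin s w g ^ 2 / T ^ 2
    by_cases h1 : T ≤ lin s w g
    · rw [if_pos h1, le_div_iff₀ hT2, one_mul]
      exact pow_le_pow_left₀ hT.le h1 2
    · rw [if_neg h1]
      positivity
  -- the other side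
  have hside : 3 / 4 ≤ avg (Om D) (fun h => if -T ≤ lin s w h then (1 : ℝ) else 0) := by
    have e1 : avg (Om D) (fun h => 1 - lin s w h ^ 2 / T ^ 2) =
        1 - avg (Om D) (fun h => lin s w h ^ 2 / T ^ 2) := by
      unfold avg
      rw [Finset.sum_sub_distrib, sub_div, Finset.sum_const, nsmul_eq_mul, mul_one, div_self hcard.ne']
    have e2 : avg (Om D) (fun h => 1 - lin s w h ^ 2 / T ^ 2) ≤
        avg (Om D) (fun h => if -T ≤ lin s w h then (1 : ℝ) else 0) := by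
      refine tail_pow_mono fun g _ => ?_
      show 1 - lin s w g ^ 2 / T ^ 2 ≤ if -T ≤ lin s w g then (1 : ℝ) else 0
      by_cases h1 : -T ≤ lin s w g
      · rw [if_pos h1]
        have : 0 ≤ lin s w g ^ 2 / T ^ 2 := by positivity
        linarith
      · rw [if_neg h1]
        have h3 : T ^ 2 ≤ lin s w g ^ 2 := by
          have : T ≤ -lin s w g := by linarith
          nlinarith
        have h4 : 1 ≤ lin s w g ^ 2 / T ^ 2 := by
          rw [le_div_iff₀ hT2, one_mul]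
          exact h3
        linarith
    linarith
  -- the recursion
  have hrec : ∀ t : ℝ, 4 / 3 * tl D s w (2 * t + 3 * T) ≤ (4 / 3 * tl D s w t) ^ 2 := by
    intro t
    have e1 := tail_step D s w t T
    have e2 : tl D s w (2 * t + 3 * T) ≤ tl D s w (2 * t + 2 * (∑ x ∈ s, |w x|) + T) :=
      tail_pow_anti D s w (by rw [hTdef]; linarith)
    have e3 : 0 ≤ tl D s w (2 * t + 2 * (∑ x ∈ s, |w x|) + T) := by
      unfold tl avg
      positivity
    have e4 : tl D s w (2 * t + 2 * (∑ x ∈ s, |w x|) + T) * (3 / 4) ≤ tl D s w t ^ 2 :=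
      (mul_le_mul_of_nonneg_left hside e3).trans e1
    nlinarith
  have hind : ∀ k : ℕ, 4 / 3 * tl D s w (T * (4 * 2 ^ k - 3)) ≤ (1 / 3) ^ (2 ^ k) := by
    intro k
    induction k with
    | zero =>
      have e1 : T * (4 * 2 ^ 0 - 3) = T := by ring
      rw [e1]
      norm_num
      linarith
    | succ k ih =>
      have e1 : T * (4 * 2 ^ (k + 1) - 3) = 2 * (T * (4 * 2 ^ k - 3)) + 3 * T := by ring
      have e2 : 0 ≤ 4 / 3 * tl D s w (T * (4 * 2 ^ k - 3)) := by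
        unfold tl avg
        positivity
      rw [e1]
      refine (hrec _).trans ?_
      calc (4 / 3 * tl D s w (T * (4 * 2 ^ k - 3))) ^ 2 ≤ ((1 / 3) ^ (2 ^ k)) ^ 2 :=
            pow_le_pow_left₀ e2 ih 2
        _ = (1 / 3) ^ (2 ^ (k + 1)) := by rw [← pow_mul, pow_succ]
  have e5 : tl D s w (4 * T * 2 ^ k) ≤ tl D s w (T * (4 * 2 ^ k - 3)) :=
    tail_pow_anti D s w (by nlinarith)
  have e6 := hind k
  have e7 : 0 ≤ tl D s w (T * (4 * 2 ^ k - 3)) := by
    unfold tl avg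
    positivity
  linarith

private theorem moments_pt (n : ℕ) {a y : ℝ} (ha : 0 < a) (hy : 0 ≤ y) (N : ℕ) (hN : y < a * 2 ^ N) :
    y ^ n ≤ (2 * a) ^ n + ∑ k ∈ Finset.range N, (2 * a * 2 ^ k) ^ n * (if a * 2 ^ k ≤ y then (1 : ℝ) else 0) := by
  induction N with
  | zero =>
    rw [Finset.sum_range_zero, add_zero]
    refine pow_le_pow_left₀ hy ?_ n
    rw [pow_zero, mul_one] at hN
    linarith
  | succ N ih =>
    rw [Finset.sum_range_succ]
    by_cases h : y < a * 2 ^ N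
    · have h1 := ih h
      have h2 : 0 ≤ (2 * a * 2 ^ N) ^ n * (if a * 2 ^ N ≤ y then (1 : ℝ) else 0) := by positivity
      linarith
    · rw [not_lt] at h
      rw [if_pos h, mul_one]
      have h1 : y ^ n ≤ (2 * a * 2 ^ N) ^ n := by
        refine pow_le_pow_left₀ hy ?_ n
        rw [pow_succ] at hN
        linarith
      have h2 : 0 ≤ (2 * a) ^ n := by positivity
      have h3 : 0 ≤ ∑ k ∈ Finset.range N, (2 * a * 2 ^ k) ^ n * (if a * 2 ^ k ≤ y then (1 : ℝ) else 0) :=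
        Finset.sum_nonneg fun k _ => by positivity
      linarith

private theorem moments_neg (s : Finset V) (w : V → ℝ) (h : V → ℤ) :
    lin s (fun x => -w x) h = -lin s w h := by
  unfold lin
  rw [← Finset.sum_neg_distrib]
  exact Finset.sum_congr rfl fun x _ => by ring

private theorem moments_two (D s : Finset V) (w : V → ℝ) (e : ℝ) (he : 0 < e) (hD : (Om D).Nonempty) (k : ℕ) :
    avg (Om D) (fun h => if 4 * (2 * Real.sqrt (avg (Om D) (fun h => lin s w h ^ 2)) + (∑ x ∈ s, |w x|) + e) * 2 ^ k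
      ≤ |lin s w h| then (1 : ℝ) else 0) ≤ 2 * (1 / 3) ^ (2 ^ k) := by
  classical
  have h1 := tail_pow D s w e he hD k
  have h2 := tail_pow D s (fun x => -w x) e he hD k
  have e1 : (fun h => lin s (fun x => -w x) h ^ 2) = fun h => lin s w h ^ 2 := by
    funext h
    rw [moments_neg, neg_sq]
  have e2 : (∑ x ∈ s, |(fun x => -w x) x|) = ∑ x ∈ s, |w x| :=
    Finset.sum_congr rfl fun x _ => abs_neg _
  rw [e1, e2] at h2
  obtain ⟨b, hb⟩ : ∃ b, b = 4 * (2 * Real.sqrt (avg (Om D) (fun h => lin s w h ^ 2)) + (∑ x ∈ s, |w x|) + e) * 2 ^ k :=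
    ⟨_, rfl⟩
  rw [← hb] at h1 h2 ⊢
  have h3 : avg (Om D) (fun h => if b ≤ |lin s w h| then (1 : ℝ) else 0) ≤
      tl D s w b + tl D s (fun x => -w x) b := by
    unfold tl
    have e3 : ∀ F G : (V → ℤ) → ℝ, avg (Om D) F + avg (Om D) G = avg (Om D) (fun h => F h + G h) := by
      intro F G
      unfold avg
      rw [Finset.sum_add_distrib, add_div]
    rw [e3]
    refine tail_pow_mono fun g _ => ?_
    show (if b ≤ |lin s w g| then (1 : ℝ) else 0) ≤
      (if b ≤ lin s w g then 1 else 0) + if b ≤ lin s (fun x => -w x) g then 1 else 0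
    rw [moments_neg]
    by_cases h4 : b ≤ |lin s w g|
    · rw [if_pos h4]
      rcases le_abs.1 h4 with h5 | h5
      · rw [if_pos h5]
        have : (0 : ℝ) ≤ if b ≤ -lin s w g then 1 else 0 := by positivity
        linarith
      · rw [if_pos h5]
        have : (0 : ℝ) ≤ if b ≤ lin s w g then 1 else 0 := by positivity
        linarith
    · rw [if_neg h4]
      positivity
  linarith

/-- Moments. Let `T` be as in `tail_pow` (for `e → 0`: prove the bound with `T + e` in place of the sum for every `e > 0` and let `e → 0`).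
By `tail_pow` for `w` and `-w`: `P(|lin| ≥ 4 T 2^k) ≤ 2 (1/3)^(2^k)`. So `E |lin|^n ≤ (8 T)^n + ∑_{k ≥ 0} (8 T 2^k)^n P(|lin| ≥ 4 T 2^k) ≤ T^n * (8^n + 2 * 8^n * ∑_k (2^k)^n (1/3)^(2^k))` (finite sum: `|lin|` is
bounded on the finite set `Om D`; pointwise `|y|^n ≤ (8T)^n + ∑_{k < N} (8 T 2^k)^n 1{|y| ≥ 4 T 2^k}` for `|y| ≤ 4 T 2^N`), and the series converges
(`(2^k)^n (1/3)^(2^k)` is dominated by `C_n 2^(-k)`; e.g. `m^(n+1) (1/3)^m` is bounded). -/
theorem moments (n : ℕ) : ∃ C : ℝ, 0 ≤ C ∧ ∀ (D s : Finset V) (w : V → ℝ), (Om D).Nonempty →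
    avg (Om D) (fun h => |lin s w h| ^ n) ≤
      C * (Real.sqrt (avg (Om D) (fun h => lin s w h ^ 2)) + ∑ x ∈ s, |w x|) ^ n := by
  classical
  have hsum : Summable fun k : ℕ => (((2 ^ k : ℕ) : ℝ)) ^ n * (1 / 3 : ℝ) ^ (2 ^ k) :=
    (summable_pow_mul_geometric_of_norm_lt_one n (r := (1 / 3 : ℝ)) (by norm_num)).comp_injective
      (Nat.pow_right_injective le_rfl)
  obtain ⟨A, hA⟩ : ∃ A, A = ∑' k : ℕ, (((2 ^ k : ℕ) : ℝ)) ^ n * (1 / 3 : ℝ) ^ (2 ^ k) := ⟨_, rfl⟩
  have hA0 : 0 ≤ A := by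
    rw [hA]
    exact tsum_nonneg fun k => by positivity
  refine ⟨24 ^ n * (1 + 2 * A), by positivity, fun D s w hD => ?_⟩
  have hsg : 0 ≤ Real.sqrt (avg (Om D) (fun h => lin s w h ^ 2)) := Real.sqrt_nonneg _
  have hc : 0 ≤ ∑ x ∈ s, |w x| := Finset.sum_nonneg fun x _ => abs_nonneg _
  have hcard : (0 : ℝ) < (Om D).card := by exact_mod_cast hD.card_pos
  obtain ⟨e, he⟩ : ∃ e, e = Real.sqrt (avg (Om D) (fun h => lin s w h ^ 2)) + ∑ x ∈ s, |w x| := ⟨_, rfl⟩
  rw [← he]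
  rcases (show 0 ≤ e by rw [he]; positivity).eq_or_lt with h0 | hpos
  · -- all the weights vanish
    have hc0 : ∑ x ∈ s, |w x| = 0 := by linarith
    have hw : ∀ x ∈ s, w x = 0 := fun x hx =>
      abs_eq_zero.1 ((Finset.sum_eq_zero_iff_of_nonneg fun x _ => abs_nonneg _).1 hc0 x hx)
    have hlin : ∀ h, lin s w h = 0 := fun h => by
      unfold lin
      exact Finset.sum_eq_zero fun x hx => by rw [hw x hx, zero_mul]
    have e1 : avg (Om D) (fun h => |lin s w h| ^ n) = 0 ^ n := by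
      have e0 : (fun h => |lin s w h| ^ n) = fun _ : V → ℤ => (0 : ℝ) ^ n := by
        funext h
        rw [hlin h, abs_zero]
      rw [e0]
      unfold avg
      rw [Finset.sum_const, nsmul_eq_mul, mul_div_cancel_left₀ _ hcard.ne']
    rw [e1, ← h0]
    have e2 : (1 : ℝ) ≤ 24 ^ n * (1 + 2 * A) := by
      have : (1 : ℝ) ≤ 24 ^ n := one_le_pow₀ (by norm_num)
      nlinarith
    have e3 : (0 : ℝ) ≤ 0 ^ n := by positivity
    nlinarith
  · obtain ⟨a, ha⟩ : ∃ a, a = 4 * (2 * Real.sqrt (avg (Om D) (fun h => lin s w h ^ 2)) + (∑ x ∈ s, |w x|) + e) :=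
      ⟨_, rfl⟩
    have ha0 : 0 < a := by rw [ha]; positivity
    have ha1 : 2 * a ≤ 24 * e := by rw [ha]; linarith
    obtain ⟨N, hN⟩ := pow_unbounded_of_one_lt ((∑ h ∈ Om D, |lin s w h|) / a) (one_lt_two (α := ℝ))
    rw [div_lt_iff₀ ha0] at hN
    have hpt : ∀ h ∈ Om D, |lin s w h| ^ n ≤ (2 * a) ^ n +
        ∑ k ∈ Finset.range N, (2 * a * 2 ^ k) ^ n * (if a * 2 ^ k ≤ |lin s w h| then (1 : ℝ) else 0) := by
      intro h hh
      refine moments_pt n ha0 (abs_nonneg _) N ?_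
      rw [mul_comm]
      exact (Finset.single_le_sum (f := fun h => |lin s w h|) (fun _ _ => abs_nonneg _) hh).trans_lt hN
    have e1 : avg (Om D) (fun h => (2 * a) ^ n +
        ∑ k ∈ Finset.range N, (2 * a * 2 ^ k) ^ n * (if a * 2 ^ k ≤ |lin s w h| then (1 : ℝ) else 0)) =
        (2 * a) ^ n + ∑ k ∈ Finset.range N, (2 * a * 2 ^ k) ^ n *
          avg (Om D) (fun h => if a * 2 ^ k ≤ |lin s w h| then (1 : ℝ) else 0) := by
      unfold avg
      rw [Finset.sum_add_distrib, Finset.sum_comm, add_div, Finset.sum_const, nsmul_eq_mul,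
        mul_div_cancel_left₀ _ hcard.ne', Finset.sum_div]
      congr 1
      refine Finset.sum_congr rfl fun k _ => ?_
      rw [← Finset.mul_sum, mul_div_assoc]
    have e2 : ∑ k ∈ Finset.range N, (2 * a * 2 ^ k) ^ n *
          avg (Om D) (fun h => if a * 2 ^ k ≤ |lin s w h| then (1 : ℝ) else 0) ≤ (2 * a) ^ n * (2 * A) := by
      have e3 : ∀ k ∈ Finset.range N, (2 * a * 2 ^ k) ^ n *
          avg (Om D) (fun h => if a * 2 ^ k ≤ |lin s w h| then (1 : ℝ) else 0) ≤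
          (2 * a) ^ n * (2 * ((((2 ^ k : ℕ) : ℝ)) ^ n * (1 / 3 : ℝ) ^ (2 ^ k))) := by
        intro k _
        have h1 := moments_two D s w e hpos hD k
        rw [← ha] at h1
        have h2 : (0 : ℝ) ≤ (2 * a * 2 ^ k) ^ n := by positivity
        refine (mul_le_mul_of_nonneg_left h1 h2).trans (le_of_eq ?_)
        rw [mul_pow (2 * a)]
        push_cast
        ring
      refine (Finset.sum_le_sum e3).trans ?_
      rw [← Finset.mul_sum, ← Finset.mul_sum]
      have h3 : ∑ k ∈ Finset.range N, (((2 ^ k : ℕ) : ℝ)) ^ n * (1 / 3 : ℝ) ^ (2 ^ k) ≤ A := by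
        rw [hA]
        exact hsum.sum_le_tsum _ fun k _ => by positivity
      have h4 : (0 : ℝ) ≤ (2 * a) ^ n := by positivity
      exact mul_le_mul_of_nonneg_left (by linarith) h4
    have e4 : (2 * a) ^ n ≤ 24 ^ n * e ^ n := by
      rw [← mul_pow]
      exact pow_le_pow_left₀ (by positivity) ha1 n
    calc avg (Om D) (fun h => |lin s w h| ^ n) ≤ (2 * a) ^ n + (2 * a) ^ n * (2 * A) := by
          refine (tail_pow_mono hpt).trans ?_
          rw [e1]
          linarith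
      _ = (2 * a) ^ n * (1 + 2 * A) := by ring
      _ ≤ 24 ^ n * e ^ n * (1 + 2 * A) := mul_le_mul_of_nonneg_right e4 (by positivity)
      _ = 24 ^ n * (1 + 2 * A) * e ^ n := by ring

end GF
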