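import Pool.Agent.Helper27.GF.Mv3

/-!
Ct1 (project GF, MP_973bc8_pr).  The contact form: definitions, linearity, locality.
-/

open MeasureTheory Finset

namespace GF

variable {I : Type}

/-- `L (X (lap f) X F cos (X γ))` -/
noncomputable def BB (M : Fld I) (γ f F : Pl → ℝ) : ℝ :=
  M.L (fun i => M.X (lap f) i * M.X F i * Real.cos (M.X γ i))

/-- the same for a function `F` which is not neutral: the charge is put on `k` -/
noncomputable def bt (M : Fld I) (γ k f F : Pl → ℝ) : ℝ := BB M γ f (fun z => F z - (∫ w, F w) * k z)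

lemma BB_ok (M : Fld I) {γ f F : Pl → ℝ} (hf : Cc f) (hF : Ne F) :
    M.Ok (fun i => M.X (lap f) i * M.X F i * Real.cos (M.X γ i)) :=
  M.ok_mul_bdd _ _ (M.ok_mul _ _ (M.ok_X _ hf.ne_lap) (M.ok_X _ hF)) 1
    fun _ => Real.abs_cos_le_one _

lemma BB_add_left (M : Fld I) {γ f g F : Pl → ℝ} (hf : Cc f) (hg : Cc g) (hF : Ne F) :
    BB M γ (fun z => f z + g z) F = BB M γ f F + BB M γ g F := by
  have e : lap (fun z => f z + g z) = fun z => lap f z + lap g z :=
    funext fun z => lap_add hf.smooth hg.smooth z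
  unfold BB
  rw [← M.L_add _ _ (BB_ok M hf hF) (BB_ok M hg hF), e]
  congr 1
  funext i
  rw [M.X_add _ _ hf.ne_lap hg.ne_lap i]
  ring

lemma BB_smul_left (M : Fld I) {γ f F : Pl → ℝ} (c : ℝ) (hf : Cc f) (hF : Ne F) :
    BB M γ (fun z => c * f z) F = c * BB M γ f F := by
  have e : lap (fun z => c * f z) = fun z => c * lap f z :=
    funext fun z => lap_smul c hf.smooth z
  unfold BB
  rw [← M.L_smul c _ (BB_ok M hf hF), e]
  congr 1
  funext i
  rw [M.X_smul c _ hf.ne_lap i]
  ring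

lemma BB_add_right (M : Fld I) {γ f F G : Pl → ℝ} (hf : Cc f) (hF : Ne F) (hG : Ne G) :
    BB M γ f (fun z => F z + G z) = BB M γ f F + BB M γ f G := by
  unfold BB
  rw [← M.L_add _ _ (BB_ok M hf hF) (BB_ok M hf hG)]
  congr 1
  funext i
  rw [M.X_add _ _ hF hG i]
  ring

lemma BB_smul_right (M : Fld I) {γ f F : Pl → ℝ} (c : ℝ) (hf : Cc f) (hF : Ne F) :
    BB M γ f (fun z => c * F z) = c * BB M γ f F := by
  unfold BB
  rw [← M.L_smul c _ (BB_ok M hf hF)]
  congr 1
  funext i
  rw [M.X_smul c _ hF i]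
  ring

lemma BB_symm (M : Fld I) (γ f g : Pl → ℝ) : BB M γ f (lap g) = BB M γ g (lap f) := by
  unfold BB
  congr 1
  funext i
  rw [mul_comm (M.X (lap f) i)]

/-- Locality: `f` has its support off the supports of `F` and of `γ`: `deriv_sin` and `loc_zero` for the neutral functions `γ + t F`. -/
theorem BB_loc (M : Fld I) {γ f F : Pl → ℝ} (hγ : Ne γ) (hf : Cc f) (hF : Ne F) (h1 : Disjoint (tsupport f) (tsupport F))
    (h2 : Disjoint (tsupport f) (tsupport γ)) : BB M γ f F = 0 := by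
  refine M.deriv_sin _ _ _ (M.ok_X _ hf.ne_lap) (M.ok_X _ hF) fun t => ?_
  have hn : Ne (fun z => γ z + t * F z) := hγ.add (hF.smul t)
  have hs : tsupport (fun z => γ z + t * F z) ⊆ tsupport γ ∪ tsupport F := by
    refine closure_minimal (fun z hz => ?_) ((isClosed_tsupport _).union (isClosed_tsupport _))
    by_contra h
    rw [Set.mem_union, not_or] at h
    apply hz
    change γ z + t * F z = 0
    rw [image_eq_zero_of_notMem_tsupport h.1, image_eq_zero_of_notMem_tsupport h.2]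
    ring
  have h3 := loc_zero M hf hn ((Disjoint.union_right h2 h1).mono_right hs)
  refine Eq.trans ?_ h3
  congr 1
  funext i
  rw [M.X_add _ _ hγ (hF.smul t) i, M.X_smul t _ hF i]

/-- `hol2` with `B = cos` -/
theorem BB_bound (M : Fld I) : ∃ C : ℝ, 0 ≤ C ∧ ∀ γ f F : Pl → ℝ, Cc f → Ne F → |BB M γ f F| ≤ C * nrm (lap f) * nrm F := by
  obtain ⟨C, hC0, hC⟩ := M.hol2
  exact ⟨C, hC0, fun γ f F hf hF => hC _ _ _ hf.ne_lap hF fun i => Real.abs_cos_le_one _⟩

lemma bt_add_left (M : Fld I) {γ k f g F : Pl → ℝ} (hk : Cc k) (hk1 : ∫ z, k z = 1) (hf : Cc f) (hg : Cc g) (hF : Cc F) :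
    bt M γ k (fun z => f z + g z) F = bt M γ k f F + bt M γ k g F := by
  unfold bt
  exact BB_add_left M hf hg (hF.neutral hk hk1)

lemma bt_smul_left (M : Fld I) {γ k f F : Pl → ℝ} (c : ℝ) (hk : Cc k) (hk1 : ∫ z, k z = 1) (hf : Cc f) (hF : Cc F) :
    bt M γ k (fun z => c * f z) F = c * bt M γ k f F := by
  unfold bt
  exact BB_smul_left M c hf (hF.neutral hk hk1)

lemma bt_sum_left {α : Type} (M : Fld I) (s : Finset α) {γ k F : Pl → ℝ} (f : α → Pl → ℝ) (hk : Cc k) (hk1 : ∫ z, k z = 1)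
    (hf : ∀ a ∈ s, Cc (f a)) (hF : Cc F) :
    bt M γ k (fun z => ∑ a ∈ s, f a z) F = ∑ a ∈ s, bt M γ k (f a) F := by
  classical
  induction s using Finset.induction_on with
  | empty =>
    have h := bt_smul_left M (γ := γ) (f := fun _ => (0 : ℝ)) 0 hk hk1 Cc.zero hF
    simpa using h
  | insert a s ha ih =>
    have h1 := bt_add_left M (γ := γ) hk hk1 (hf a (Finset.mem_insert_self a s))
      (Cc.sum s f fun i hi => hf i (Finset.mem_insert_of_mem hi)) hF
    rw [ih fun i hi => hf i (Finset.mem_insert_of_mem hi)] at h1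
    rw [Finset.sum_insert ha, ← h1]
    congr 1
    funext z
    rw [Finset.sum_insert ha]

lemma bt_add_right (M : Fld I) {γ k f F G : Pl → ℝ} (hk : Cc k) (hk1 : ∫ z, k z = 1) (hf : Cc f) (hF : Cc F) (hG : Cc G) :
    bt M γ k f (fun z => F z + G z) = bt M γ k f F + bt M γ k f G := by
  unfold bt
  rw [← BB_add_right M hf (hF.neutral hk hk1) (hG.neutral hk hk1)]
  congr 1
  funext z
  rw [integral_add hF.integrable hG.integrable]
  ring

lemma bt_smul_right (M : Fld I) {γ k f F : Pl → ℝ} (c : ℝ) (hk : Cc k) (hk1 : ∫ z, k z = 1) (hf : Cc f) (hF : Cc F) :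
    bt M γ k f (fun z => c * F z) = c * bt M γ k f F := by
  unfold bt
  rw [← BB_smul_right M c hf (hF.neutral hk hk1)]
  congr 1
  funext z
  rw [integral_const_mul]
  ring

/-- for neutral `F` nothing changes -/
lemma bt_ne (M : Fld I) {γ k f F : Pl → ℝ} (hF : Ne F) : bt M γ k f F = BB M γ f F := by
  unfold bt
  congr 1
  funext z
  rw [hF.zero]
  ring

lemma bt_lap_symm (M : Fld I) {γ k f g : Pl → ℝ} (hf : Cc f) (hg : Cc g) : bt M γ k f (lap g) = bt M γ k g (lap f) := by
  rw [bt_ne M hg.ne_lap, bt_ne M hf.ne_lap, BB_symm]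

/-- locality: `BB_loc` for `F - (∫ F) k`, whose support is in the union of the supports of `F` and `k` -/
theorem bt_loc (M : Fld I) {γ k f F : Pl → ℝ} (hγ : Ne γ) (hk : Cc k) (hk1 : ∫ z, k z = 1) (hf : Cc f) (hF : Cc F)
    (h1 : Disjoint (tsupport f) (tsupport F)) (h2 : Disjoint (tsupport f) (tsupport γ))
    (h3 : Disjoint (tsupport f) (tsupport k)) : bt M γ k f F = 0 := by
  have hs : tsupport (fun z => F z - (∫ w, F w) * k z) ⊆ tsupport F ∪ tsupport k := by
    refine closure_minimal (fun z hz => ?_) ((isClosed_tsupport _).union (isClosed_tsupport _))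
    by_contra h
    rw [Set.mem_union, not_or] at h
    apply hz
    change F z - (∫ w, F w) * k z = 0
    rw [image_eq_zero_of_notMem_tsupport h.1, image_eq_zero_of_notMem_tsupport h.2]
    ring
  unfold bt
  exact BB_loc M hγ hf (hF.neutral hk hk1) ((Disjoint.union_right h1 h3).mono_right hs) h2

/-- only the values of `F` near the support of `f` matter -/
theorem bt_congr (M : Fld I) {γ k f F G : Pl → ℝ} (hγ : Ne γ) (hk : Cc k) (hk1 : ∫ z, k z = 1) (hf : Cc f) (hF : Cc F)
    (hG : Cc G) (W : Set Pl) (hW : IsOpen W) (hfW : tsupport f ⊆ W) (h : ∀ z ∈ W, F z = G z)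
    (h2 : Disjoint (tsupport f) (tsupport γ)) (h3 : Disjoint (tsupport f) (tsupport k)) :
    bt M γ k f F = bt M γ k f G := by
  have hH : Cc (fun z => F z - G z) := hF.sub hG
  have h4 : Disjoint (tsupport f) (tsupport (fun z => F z - G z)) := by
    have h5 : tsupport (fun z => F z - G z) ⊆ Wᶜ := by
      refine closure_minimal (fun z hz => ?_) hW.isClosed_compl
      intro hzW
      apply hz
      change F z - G z = 0
      rw [h z hzW, sub_self]
    exact (Set.disjoint_left.2 fun z hz hz' => h5 hz' (hfW hz))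
  have h6 := bt_loc M hγ hk hk1 hf hH h4 h2 h3
  have h7 := bt_add_right M (γ := γ) hk hk1 hf hG hH
  rw [h6, add_zero] at h7
  rw [← h7]
  congr 1
  funext z
  ring

end GF
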