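import Pool.Agent.Helper27.GF.Ct1

/-!
Ct2 (project GF, MP_973bc8_pr).  The contact form depends only on the product.
-/

open MeasureTheory Finset

namespace GF

variable {I : Type}

private lemma ct2a_zero (M : Fld I) {γ k G : Pl → ℝ} (hk : Cc k) (hk1 : ∫ z, k z = 1) (hG : Cc G) :
    bt M γ k (fun _ => (0 : ℝ)) G = 0 := by
  have h := bt_smul_left M (γ := γ) (f := fun _ => (0 : ℝ)) 0 hk hk1 Cc.zero hG
  simpa using h

private lemma ct2a_split (M : Fld I) {γ k f F psi : Pl → ℝ} (hk : Cc k) (hk1 : ∫ z, k z = 1)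
    (hf : Cc f) (hF : Cc F) (hpsi : Cc psi) (r : ℝ) (q : ℤ × ℤ) (a : ℝ) :
    bt M γ k (fun z => f z * th r q z) F - bt M γ k (fun z => f z * F z * th r q z) psi =
      bt M γ k (fun z => f z * th r q z) (fun z => F z - a * psi z) -
        bt M γ k (fun z => f z * (F z - a) * th r q z) psi := by
  have hu1 : Cc (fun z => f z * th r q z) := hf.mul (th_smooth r q)
  have hu3 : Cc (fun z => f z * F z * th r q z) := (hf.mul hF.smooth).mul (th_smooth r q)
  have e1 : bt M γ k (fun z => f z * th r q z) (fun z => F z - a * psi z) =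
      bt M γ k (fun z => f z * th r q z) F + -a * bt M γ k (fun z => f z * th r q z) psi := by
    rw [← bt_smul_right M (-a) hk hk1 hu1 hpsi, ← bt_add_right M hk hk1 hu1 hF (hpsi.smul (-a))]
    congr 1
    funext z
    ring
  have e2 : bt M γ k (fun z => f z * (F z - a) * th r q z) psi =
      bt M γ k (fun z => f z * F z * th r q z) psi +
        -a * bt M γ k (fun z => f z * th r q z) psi := by
    rw [← bt_smul_left M (-a) hk hk1 hu1 hpsi, ← bt_add_left M hk hk1 hu3 (hu1.smul (-a)) hpsi]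
    congr 1
    funext z
    ring
  rw [e1, e2]
  ring

private lemma ct2a_chi {ch : Pl → ℝ} (hch : Cc ch) (c : Pl) (r : ℝ) :
    ContDiff ℝ (⊤ : ℕ∞) (fun z : Pl => ch ((z.1 - c.1) / r, (z.2 - c.2) / r)) := by
  have h : ContDiff ℝ (⊤ : ℕ∞) (fun z : Pl => (((z.1 - c.1) / r, (z.2 - c.2) / r) : Pl)) := by
    fun_prop
  exact hch.smooth.comp h

private lemma ct2a_chi_supp {ch : Pl → ℝ} (hs : tsupport ch ⊆ bx 0 4) (c : Pl) (r : ℝ)
    (hr : 0 < r) : tsupport (fun z : Pl => ch ((z.1 - c.1) / r, (z.2 - c.2) / r)) ⊆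
      bx c (4 * r) := by
  have h : Continuous (fun z : Pl => (((z.1 - c.1) / r, (z.2 - c.2) / r) : Pl)) := by
    fun_prop
  have h1 : tsupport (fun z : Pl => ch ((z.1 - c.1) / r, (z.2 - c.2) / r)) ⊆
      (fun z : Pl => (((z.1 - c.1) / r, (z.2 - c.2) / r) : Pl)) ⁻¹' tsupport ch := by
    refine closure_minimal (fun z hz => subset_tsupport ch hz) ((isClosed_tsupport ch).preimage h)
  intro z hz
  have h2 := hs (h1 hz)
  simp only [bx, Set.mem_ofPred_eq, Prod.fst_zero, Prod.snd_zero, sub_zero] at h2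
  rw [abs_div, abs_div, abs_of_pos hr, div_lt_iff₀ hr, div_lt_iff₀ hr] at h2
  exact h2

private lemma ct2a_open {W1 : Set Pl} (hW1 : IsOpen W1) (c : Pl) (r : ℝ) :
    IsOpen {z : Pl | (((z.1 - c.1) / r, (z.2 - c.2) / r) : Pl) ∈ W1} := by
  have h : Continuous (fun z : Pl => (((z.1 - c.1) / r, (z.2 - c.2) / r) : Pl)) := by
    fun_prop
  exact hW1.preimage h

private lemma ct2a_in {W1 : Set Pl} (h1 : Set.Icc ((-3, -3) : Pl) (3, 3) ⊆ W1) (c : Pl) (r : ℝ)
    (hr : 0 < r) {z : Pl} (hz : z ∈ bx c (2 * r)) :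
    (((z.1 - c.1) / r, (z.2 - c.2) / r) : Pl) ∈ W1 := by
  obtain ⟨a1, a2⟩ := hz
  have b1 := abs_lt.1 a1
  have b2 := abs_lt.1 a2
  refine h1 ⟨⟨?_, ?_⟩, ⟨?_, ?_⟩⟩
  · show (-3 : ℝ) ≤ (z.1 - c.1) / r
    rw [le_div_iff₀ hr]
    linarith [b1.1]
  · show (-3 : ℝ) ≤ (z.2 - c.2) / r
    rw [le_div_iff₀ hr]
    linarith [b2.1]
  · show (z.1 - c.1) / r ≤ (3 : ℝ)
    rw [div_le_iff₀ hr]
    linarith [b1.2]
  · show (z.2 - c.2) / r ≤ (3 : ℝ)
    rw [div_le_iff₀ hr]
    linarith [b2.2]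

/-- if the cell meets the support of `f` then the box `bx c (4 r)` is inside `W` and bounded -/
private lemma ct2a_box {f : Pl → ℝ} {W : Set Pl} {δ R : ℝ}
    (hδ : Metric.thickening δ (tsupport f) ⊆ W) (hR : tsupport f ⊆ {z | |z.1| < R ∧ |z.2| < R})
    {r : ℝ} (hr : 0 < r) (hr1 : r ≤ 1) (hrδ : 8 * r ≤ δ) (c z0 : Pl) (hz0 : z0 ∈ tsupport f)
    (hz1 : z0 ∈ bx c (2 * r)) : bx c (4 * r) ⊆ W ∧ bx c (4 * r) ⊆ bx 0 (R + 6) := by
  obtain ⟨a1, a2⟩ := hz1
  have a1' := abs_lt.1 a1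
  have a2' := abs_lt.1 a2
  refine ⟨fun z hz => hδ ?_, fun z hz => ?_⟩
  · obtain ⟨b1, b2⟩ := hz
    have b1' := abs_lt.1 b1
    have b2' := abs_lt.1 b2
    rw [Metric.mem_thickening_iff]
    refine ⟨z0, hz0, ?_⟩
    rw [Prod.dist_eq, Real.dist_eq, Real.dist_eq, max_lt_iff, abs_lt, abs_lt]
    refine ⟨⟨?_, ?_⟩, ⟨?_, ?_⟩⟩ <;> linarith [a1'.1, a1'.2, a2'.1, a2'.2, b1'.1, b1'.2, b2'.1, b2'.2]
  · obtain ⟨b1, b2⟩ := hz
    have b1' := abs_lt.1 b1
    have b2' := abs_lt.1 b2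
    obtain ⟨c1, c2⟩ := hR hz0
    have c1' := abs_lt.1 c1
    have c2' := abs_lt.1 c2
    show |z.1 - (0 : Pl).1| < R + 6 ∧ |z.2 - (0 : Pl).2| < R + 6
    rw [Prod.fst_zero, Prod.snd_zero, sub_zero, sub_zero, abs_lt, abs_lt]
    refine ⟨⟨?_, ?_⟩, ⟨?_, ?_⟩⟩ <;>
      linarith [a1'.1, a1'.2, a2'.1, a2'.2, b1'.1, b1'.2, b2'.1, b2'.2, c1'.1, c1'.2, c2'.1, c2'.2]

private lemma ct2a_pow1 (A r : ℝ) (hA : 0 ≤ A) (hr : 0 ≤ r) :
    (A * r ^ 3) ^ (7 / 8 : ℝ) = A ^ (7 / 8 : ℝ) * r ^ (21 / 8 : ℝ) := by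
  rw [Real.mul_rpow hA (by positivity), ← Real.rpow_natCast, ← Real.rpow_mul hr]
  norm_num

private lemma ct2a_pow2 (A r : ℝ) (hA : 0 ≤ A) (hr : 0 < r) (hr1 : r ≤ 1) :
    r * (A * r ^ 2) ^ (7 / 8 : ℝ) ≤ A ^ (7 / 8 : ℝ) * r ^ (21 / 8 : ℝ) := by
  rw [Real.mul_rpow hA (by positivity), ← Real.rpow_natCast, ← Real.rpow_mul hr.le]
  have h1 : r * (A ^ (7 / 8 : ℝ) * r ^ (((2 : ℕ) : ℝ) * (7 / 8))) =
      A ^ (7 / 8 : ℝ) * r ^ (11 / 4 : ℝ) := by
    have h2 : r ^ (11 / 4 : ℝ) = r * r ^ (((2 : ℕ) : ℝ) * (7 / 8)) := by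
      rw [show (11 / 4 : ℝ) = 1 + ((2 : ℕ) : ℝ) * (7 / 8) by norm_num, Real.rpow_add hr,
        Real.rpow_one]
    rw [h2]
    ring
  rw [h1]
  exact mul_le_mul_of_nonneg_left
    (Real.rpow_le_rpow_of_exponent_ge hr hr1 (by norm_num)) (by positivity)

private lemma ct2a_disj {f g u : Pl → ℝ} (hu : tsupport u ⊆ tsupport f)
    (h : Disjoint (tsupport f) (tsupport g)) : Disjoint (tsupport u) (tsupport g) :=
  h.mono_left hu

private lemma ct2a_one (M : Fld I) {γ k u F : Pl → ℝ} {ch : Pl → ℝ} (hγ : Ne γ) (hk : Cc k)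
    (hk1 : ∫ z, k z = 1) (hu : Cc u) (hG : Cc F) (hch : Cc ch) {W1 : Set Pl}
    (hW1 : IsOpen W1) (h1 : Set.Icc ((-3, -3) : Pl) (3, 3) ⊆ W1) (h1c : ∀ z ∈ W1, ch z = 1)
    (c : Pl) (r : ℝ) (hr : 0 < r) (hus : tsupport u ⊆ bx c (2 * r))
    (h2 : Disjoint (tsupport u) (tsupport γ)) (h3 : Disjoint (tsupport u) (tsupport k)) :
    bt M γ k u F = bt M γ k u (fun z => F z * ch ((z.1 - c.1) / r, (z.2 - c.2) / r)) := by
  refine bt_congr M hγ hk hk1 hu hG (hG.mul (ct2a_chi hch c r))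
    {z : Pl | (((z.1 - c.1) / r, (z.2 - c.2) / r) : Pl) ∈ W1} (ct2a_open hW1 c r)
    (fun z hz => ct2a_in h1 c r hr (hus hz)) (fun z hz => ?_) h2 h3
  have h4 : ch ((z.1 - c.1) / r, (z.2 - c.2) / r) = 1 := h1c _ hz
  rw [h4, mul_one]

/-- The estimate on one cell. `c = ctr r q`; `ch` is a fixed cutoff at scale one, `chi z = ch ((z - c) / r)` is `1` on `bx c (3 r)` and has its support in
`bx c (4 r)`. If `f th_q` vanishes identically both sides are `0` (as functions). Otherwise, for small `r`, `bx c (4 r) ⊆ W` (`W` contains a neighbourhood of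
`tsupport f`, compactness) and so `psi = 1` there. With `u1 = f th_q`, `u2 = f (F - F c) th_q`:
`bt u1 F - bt (f F th_q) psi = bt u1 (F - F c psi) - bt u2 psi`, and by `bt_congr` `bt u1 (F - F c psi) = bt u1 ((F - F c psi) chi)`,
`bt u2 psi = bt u2 (psi chi)`. Now `|(F - F c psi) chi| ≤ C r` (on `bx c (4 r)`, `psi = 1`), so its `L¹` norm is `≤ C r³` and the norm of the neutralised
function is `≤ C (r³)^(7/8)` (`nrm_neutral`), `nrm (lap u1) ≤ C` (`nrm_cell`); `nrm (lap u2) ≤ C r` (`nrm_cell2`) and the neutralised `psi chi` has norm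
`≤ C (r²)^(7/8)`. Use `BB_bound`. Total `≤ C (r^(21/8) + r^(11/4)) ≤ C r^(21/8)`. -/
theorem cell_est (M : Fld I) {γ k f F psi : Pl → ℝ} (hγ : Ne γ) (hk : Cc k) (hk1 : ∫ z, k z = 1) (hf : Cc f) (hF : Cc F)
    (hpsi : Cc psi) (W : Set Pl) (hW : IsOpen W) (hfW : tsupport f ⊆ W) (hpW : ∀ z ∈ W, psi z = 1)
    (h2 : Disjoint (tsupport f) (tsupport γ)) (h3 : Disjoint (tsupport f) (tsupport k)) :
    ∃ C r0 : ℝ, 0 ≤ C ∧ 0 < r0 ∧ ∀ r : ℝ, 0 < r → r < r0 → ∀ q : ℤ × ℤ,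
      |bt M γ k (fun z => f z * th r q z) F - bt M γ k (fun z => f z * F z * th r q z) psi| ≤ C * r ^ (21 / 8 : ℝ) := by
  obtain ⟨ch, hch, hch01, hchs, W1, hW1, hKW1, hch1⟩ :=
    exists_cutoff (Set.Icc ((-3, -3) : Pl) (3, 3)) (bx 0 4) isCompact_Icc
      (by
        have : bx 0 4 = {z : Pl | |z.1 - (0 : Pl).1| < 4} ∩ {z : Pl | |z.2 - (0 : Pl).2| < 4} := rfl
        rw [this]
        exact (isOpen_lt (by fun_prop) continuous_const).inter
          (isOpen_lt (by fun_prop) continuous_const))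
      (by
        rintro z ⟨⟨a1, a2⟩, ⟨b1, b2⟩⟩
        have a1' : (-3 : ℝ) ≤ z.1 := a1
        have a2' : (-3 : ℝ) ≤ z.2 := a2
        have b1' : z.1 ≤ (3 : ℝ) := b1
        have b2' : z.2 ≤ (3 : ℝ) := b2
        show |z.1 - (0 : Pl).1| < 4 ∧ |z.2 - (0 : Pl).2| < 4
        rw [Prod.fst_zero, Prod.snd_zero, sub_zero, sub_zero, abs_lt, abs_lt]
        exact ⟨⟨by linarith, by linarith⟩, ⟨by linarith, by linarith⟩⟩)
  obtain ⟨δ, hδ0, hδ⟩ := IsCompact.exists_thickening_subset_open (s := tsupport f) hf.supp hW hfW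
  obtain ⟨R, hR0, hR⟩ := hf.box
  obtain ⟨Lp, hL0, hL⟩ := hF.lip
  obtain ⟨P, hP0, hP⟩ := hpsi.bdd
  obtain ⟨C0, hC00, hC0⟩ := BB_bound M
  obtain ⟨Cn, hCn0, hCn⟩ := nrm_cell hf
  obtain ⟨Cm, hCm0, hCm⟩ := nrm_cell2 hf hF
  obtain ⟨C1, hC10, hC1⟩ := nrm_neutral (R + 6) (8 * Lp) (by linarith) (by positivity) k hk hk1
  obtain ⟨C2, hC20, hC2⟩ := nrm_neutral (R + 6) P (by linarith) hP0 k hk hk1
  refine ⟨C0 * Cn * (C1 * (512 * Lp) ^ (7 / 8 : ℝ)) + C0 * Cm * (C2 * (64 * P) ^ (7 / 8 : ℝ)),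
    min 1 (δ / 8), by positivity, lt_min one_pos (by positivity), fun r hr hr0 q => ?_⟩
  have hr1 : r ≤ 1 := (hr0.le).trans (min_le_left _ _)
  have hrδ : 8 * r ≤ δ := by
    have := (hr0.le).trans (min_le_right _ _)
    linarith
  have hpos : 0 ≤ r ^ (21 / 8 : ℝ) := by positivity
  by_cases h0 : ∃ z, f z * th r q z ≠ 0
  · obtain ⟨z0, hz⟩ := h0
    have hz0 : z0 ∈ tsupport f := subset_tsupport f (left_ne_zero_of_mul hz)
    have hz1 : z0 ∈ bx (ctr r q) (2 * r) :=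
      th_supp r hr q (subset_tsupport _ (right_ne_zero_of_mul hz))
    obtain ⟨hbW, hb0⟩ := ct2a_box hδ hR hr hr1 hrδ (ctr r q) z0 hz0 hz1
    have hu1 : Cc (fun z => f z * th r q z) := hf.mul (th_smooth r q)
    have hgF : Cc (fun z => f z * (F z - F (ctr r q))) :=
      hf.mul (hF.smooth.sub contDiff_const)
    have hu2 : Cc (fun z => f z * (F z - F (ctr r q)) * th r q z) := hgF.mul (th_smooth r q)
    have s1 : tsupport (fun z => f z * th r q z) ⊆ bx (ctr r q) (2 * r) :=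
      (closure_mono (Function.support_mul_subset_right f (th r q))).trans (th_supp r hr q)
    have s2 : tsupport (fun z => f z * (F z - F (ctr r q)) * th r q z) ⊆ bx (ctr r q) (2 * r) :=
      (closure_mono (Function.support_mul_subset_right
        (fun z => f z * (F z - F (ctr r q))) (th r q))).trans (th_supp r hr q)
    have t1 : tsupport (fun z => f z * th r q z) ⊆ tsupport f :=
      closure_mono (Function.support_mul_subset_left f (th r q))
    have t2 : tsupport (fun z => f z * (F z - F (ctr r q)) * th r q z) ⊆ tsupport f := by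
      refine closure_mono fun z hz h => hz ?_
      change f z * (F z - F (ctr r q)) * th r q z = 0
      rw [h, zero_mul, zero_mul]
    have hG0 : Cc (fun z => F z - F (ctr r q) * psi z) := hF.sub (hpsi.smul _)
    rw [ct2a_split M hk hk1 hf hF hpsi r q (F (ctr r q)),
      ct2a_one M hγ hk hk1 hu1 hG0 hch hW1 hKW1 hch1 (ctr r q) r hr s1
        (ct2a_disj t1 h2) (ct2a_disj t1 h3),
      ct2a_one M hγ hk hk1 hu2 hpsi hch hW1 hKW1 hch1 (ctr r q) r hr s2
        (ct2a_disj t2 h2) (ct2a_disj t2 h3)]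
    have hG1 : Cc (fun z => (F z - F (ctr r q) * psi z) *
        ch ((z.1 - (ctr r q).1) / r, (z.2 - (ctr r q).2) / r)) :=
      hG0.mul (ct2a_chi hch (ctr r q) r)
    have hG2 : Cc (fun z => psi z * ch ((z.1 - (ctr r q).1) / r, (z.2 - (ctr r q).2) / r)) :=
      hpsi.mul (ct2a_chi hch (ctr r q) r)
    have hcs := ct2a_chi_supp hchs (ctr r q) r hr
    have g1s : tsupport (fun z => (F z - F (ctr r q) * psi z) *
        ch ((z.1 - (ctr r q).1) / r, (z.2 - (ctr r q).2) / r)) ⊆ bx (ctr r q) (4 * r) :=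
      (closure_mono (Function.support_mul_subset_right _ _)).trans hcs
    have g2s : tsupport (fun z => psi z *
        ch ((z.1 - (ctr r q).1) / r, (z.2 - (ctr r q).2) / r)) ⊆ bx (ctr r q) (4 * r) :=
      (closure_mono (Function.support_mul_subset_right _ _)).trans hcs
    have hch1' : ∀ w : Pl, |ch w| ≤ 1 := fun w => by
      rw [abs_of_nonneg (hch01 w).1]
      exact (hch01 w).2
    have b1 : ∀ z, |(F z - F (ctr r q) * psi z) *
        ch ((z.1 - (ctr r q).1) / r, (z.2 - (ctr r q).2) / r)| ≤ 8 * Lp * r := by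
      intro z
      by_cases hz : z ∈ bx (ctr r q) (4 * r)
      · rw [hpW z (hbW hz), mul_one, abs_mul]
        have e1 : |F z - F (ctr r q)| ≤ 8 * Lp * r := by
          refine (hL z (ctr r q)).trans ?_
          obtain ⟨c1, c2⟩ := hz
          nlinarith
        calc |F z - F (ctr r q)| * |ch ((z.1 - (ctr r q).1) / r, (z.2 - (ctr r q).2) / r)|
            ≤ (8 * Lp * r) * 1 :=
              mul_le_mul e1 (hch1' _) (abs_nonneg _) (by positivity)
          _ = 8 * Lp * r := mul_one _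
      · have e2 : ch ((z.1 - (ctr r q).1) / r, (z.2 - (ctr r q).2) / r) = 0 := by
          by_contra h
          exact hz (hcs (subset_tsupport
            (fun z : Pl => ch ((z.1 - (ctr r q).1) / r, (z.2 - (ctr r q).2) / r)) h))
        rw [e2, mul_zero, abs_zero]
        positivity
    have b2 : ∀ z, |psi z * ch ((z.1 - (ctr r q).1) / r, (z.2 - (ctr r q).2) / r)| ≤ P := by
      intro z
      rw [abs_mul]
      calc |psi z| * |ch ((z.1 - (ctr r q).1) / r, (z.2 - (ctr r q).2) / r)| ≤ P * 1 :=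
            mul_le_mul (hP z) (hch1' _) (abs_nonneg _) hP0
        _ = P := mul_one _
    have i1 := int_abs_box hG1 (ctr r q) (4 * r) (8 * Lp * r) (by positivity) b1 g1s
    have i2 := int_abs_box hG2 (ctr r q) (4 * r) P (by positivity) b2 g2s
    have n1 := hC1 _ hG1 (g1s.trans hb0) fun z => (b1 z).trans (by nlinarith)
    have n2 := hC2 _ hG2 (g2s.trans hb0) b2
    have i1' : (∫ z, |(F z - F (ctr r q) * psi z) *
        ch ((z.1 - (ctr r q).1) / r, (z.2 - (ctr r q).2) / r)|) ^ (7 / 8 : ℝ) ≤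
        (512 * Lp) ^ (7 / 8 : ℝ) * r ^ (21 / 8 : ℝ) := by
      rw [← ct2a_pow1 (512 * Lp) r (by positivity) hr.le]
      refine Real.rpow_le_rpow (integral_nonneg fun z => abs_nonneg _) (i1.trans (le_of_eq ?_))
        (by norm_num)
      ring
    have i2' : r * (∫ z, |psi z *
        ch ((z.1 - (ctr r q).1) / r, (z.2 - (ctr r q).2) / r)|) ^ (7 / 8 : ℝ) ≤
        (64 * P) ^ (7 / 8 : ℝ) * r ^ (21 / 8 : ℝ) := by
      refine le_trans ?_ (ct2a_pow2 (64 * P) r (by positivity) hr hr1)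
      refine mul_le_mul_of_nonneg_left ?_ hr.le
      refine Real.rpow_le_rpow (integral_nonneg fun z => abs_nonneg _) (i2.trans (le_of_eq ?_))
        (by norm_num)
      ring
    have m1 := hC0 γ _ _ hu1 (hG1.neutral hk hk1)
    have m2 := hC0 γ _ _ hu2 (hG2.neutral hk hk1)
    have k1 := hCn r hr hr1 q
    have k2 := hCm r hr hr1 q
    refine (abs_sub _ _).trans ?_
    rw [add_mul]
    refine add_le_add ?_ ?_
    · refine m1.trans ?_
      calc C0 * nrm (lap (fun z => f z * th r q z)) * nrm _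
          ≤ C0 * Cn * (C1 * ((512 * Lp) ^ (7 / 8 : ℝ) * r ^ (21 / 8 : ℝ))) := by
            refine mul_le_mul (mul_le_mul_of_nonneg_left k1 hC00)
              (n1.trans (mul_le_mul_of_nonneg_left i1' hC10)) ?_ (by positivity)
            exact add_nonneg (Real.sqrt_nonneg _) (integral_nonneg fun z => abs_nonneg _)
        _ = C0 * Cn * (C1 * (512 * Lp) ^ (7 / 8 : ℝ)) * r ^ (21 / 8 : ℝ) := by ring
    · refine m2.trans ?_
      have n2' : nrm (fun z => psi z * ch ((z.1 - (ctr r q).1) / r, (z.2 - (ctr r q).2) / r) -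
          (∫ w, psi w * ch ((w.1 - (ctr r q).1) / r, (w.2 - (ctr r q).2) / r)) * k z) ≤
          C2 * (∫ z, |psi z *
            ch ((z.1 - (ctr r q).1) / r, (z.2 - (ctr r q).2) / r)|) ^ (7 / 8 : ℝ) := n2
      calc C0 * nrm (lap (fun z => f z * (F z - F (ctr r q)) * th r q z)) * nrm _
          ≤ C0 * (Cm * r) * (C2 * (∫ z, |psi z *
            ch ((z.1 - (ctr r q).1) / r, (z.2 - (ctr r q).2) / r)|) ^ (7 / 8 : ℝ)) := by
            refine mul_le_mul (mul_le_mul_of_nonneg_left k2 hC00) n2' ?_ (by positivity)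
            exact add_nonneg (Real.sqrt_nonneg _) (integral_nonneg fun z => abs_nonneg _)
        _ = C0 * Cm * (C2 * (r * (∫ z, |psi z *
            ch ((z.1 - (ctr r q).1) / r, (z.2 - (ctr r q).2) / r)|) ^ (7 / 8 : ℝ))) := by ring
        _ ≤ C0 * Cm * (C2 * ((64 * P) ^ (7 / 8 : ℝ) * r ^ (21 / 8 : ℝ))) := by
            refine mul_le_mul_of_nonneg_left (mul_le_mul_of_nonneg_left i2' hC20) (by positivity)
        _ = C0 * Cm * (C2 * (64 * P) ^ (7 / 8 : ℝ)) * r ^ (21 / 8 : ℝ) := by ring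
  · push Not at h0
    have e1 : (fun z => f z * th r q z) = fun _ => (0 : ℝ) := funext h0
    have e2 : (fun z => f z * F z * th r q z) = fun _ => (0 : ℝ) := by
      funext z
      have := h0 z
      calc f z * F z * th r q z = F z * (f z * th r q z) := by ring
        _ = 0 := by rw [this, mul_zero]
    rw [e1, e2, ct2a_zero M hk hk1 hF, ct2a_zero M hk hk1 hpsi, sub_zero, abs_zero]
    positivity

private lemma PP_sum {f G : Pl → ℝ} {R r : ℝ} (hs : tsupport f ⊆ {z | |z.1| < R ∧ |z.2| < R})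
    (hr : 0 < r) {N : ℕ} (hN : R / r + 1 ≤ N) (hG : ∀ z, f z = 0 → G z = 0) :
    G = fun z => ∑ q ∈ (Icc (-(N : ℤ)) N) ×ˢ (Icc (-(N : ℤ)) N), G z * th r q z := by
  funext z
  rw [← Finset.mul_sum]
  by_cases hz : f z = 0
  · rw [hG z hz, zero_mul]
  · have h1 := hs (subset_tsupport f hz)
    rw [th_sum R r hr N hN z ⟨h1.1.le, h1.2.le⟩, mul_one]

/-- Product property. For small `r` and `N` as in `cell_count` (`tsupport f ⊆ bx 0 R`): `f = ∑_q f th_q`, `f F = ∑_q f F th_q` (`th_sum`), `bt_sum_left`,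
`cell_est`: the difference is at most `(C / r²) * C r^(21/8)`, which tends to `0`. -/
theorem prod_prop (M : Fld I) {γ k f F psi : Pl → ℝ} (hγ : Ne γ) (hk : Cc k) (hk1 : ∫ z, k z = 1) (hf : Cc f) (hF : Cc F)
    (hpsi : Cc psi) (W : Set Pl) (hW : IsOpen W) (hfW : tsupport f ⊆ W) (hpW : ∀ z ∈ W, psi z = 1)
    (h2 : Disjoint (tsupport f) (tsupport γ)) (h3 : Disjoint (tsupport f) (tsupport k)) :
    bt M γ k f F = bt M γ k (fun z => f z * F z) psi := by
  obtain ⟨C, r0, hC, hr0, hcell⟩ := cell_est M hγ hk hk1 hf hF hpsi W hW hfW hpW h2 h3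
  obtain ⟨R, hR, hs⟩ := hf.box
  have key : ∀ r : ℝ, 0 < r → r < min r0 1 →
      |bt M γ k f F - bt M γ k (fun z => f z * F z) psi| ≤ (2 * R + 7) ^ 2 * C * r ^ (5 / 8 : ℝ) := by
    intro r hr hr1
    obtain ⟨N, hN, hcard⟩ := cell_count R r hR.le hr (hr1.le.trans (min_le_right _ _))
    set S := (Icc (-(N : ℤ)) N) ×ˢ (Icc (-(N : ℤ)) N) with hS
    have e1 : bt M γ k f F = ∑ q ∈ S, bt M γ k (fun z => f z * th r q z) F := by
      rw [← bt_sum_left M S (fun q z => f z * th r q z) hk hk1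
        (fun q _ => hf.mul (th_smooth r q)) hF]
      congr 1
      exact PP_sum hs hr hN fun z hz => hz
    have e2 : bt M γ k (fun z => f z * F z) psi =
        ∑ q ∈ S, bt M γ k (fun z => f z * F z * th r q z) psi := by
      rw [← bt_sum_left M S (fun q z => f z * F z * th r q z) hk hk1
        (fun q _ => (hf.mul hF.smooth).mul (th_smooth r q)) hpsi]
      congr 1
      exact PP_sum (f := f) (G := fun z => f z * F z) hs hr hN fun z hz => by rw [hz, zero_mul]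
    rw [e1, e2, ← Finset.sum_sub_distrib]
    have e3 : r ^ (21 / 8 : ℝ) = r ^ 2 * r ^ (5 / 8 : ℝ) := by
      rw [← Real.rpow_natCast r 2, ← Real.rpow_add hr]
      norm_num
    calc |∑ q ∈ S, (bt M γ k (fun z => f z * th r q z) F -
          bt M γ k (fun z => f z * F z * th r q z) psi)|
        ≤ ∑ q ∈ S, |bt M γ k (fun z => f z * th r q z) F -
          bt M γ k (fun z => f z * F z * th r q z) psi| := Finset.abs_sum_le_sum_abs _ _
      _ ≤ ∑ _q ∈ S, C * r ^ (21 / 8 : ℝ) :=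
          Finset.sum_le_sum fun q _ => hcell r hr (lt_of_lt_of_le hr1 (min_le_left _ _)) q
      _ = (S.card : ℝ) * (C * r ^ (21 / 8 : ℝ)) := by rw [Finset.sum_const, nsmul_eq_mul]
      _ ≤ (2 * R + 7) ^ 2 / r ^ 2 * (C * r ^ (21 / 8 : ℝ)) :=
          mul_le_mul_of_nonneg_right hcard (mul_nonneg hC (Real.rpow_nonneg hr.le _))
      _ = (2 * R + 7) ^ 2 * C * r ^ (5 / 8 : ℝ) := by
          rw [e3]
          field_simp
  have hlim : Filter.Tendsto (fun r : ℝ => (2 * R + 7) ^ 2 * C * r ^ (5 / 8 : ℝ))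
      (nhdsWithin 0 (Set.Ioi 0)) (nhds 0) := by
    have h1 : Filter.Tendsto (fun r : ℝ => r ^ (5 / 8 : ℝ)) (nhds 0) (nhds ((0 : ℝ) ^ (5 / 8 : ℝ))) :=
      (Real.continuousAt_rpow_const 0 (5 / 8) (Or.inr (by norm_num))).tendsto
    rw [Real.zero_rpow (by norm_num)] at h1
    have h4 := (h1.const_mul ((2 * R + 7) ^ 2 * C)).mono_left
      (nhdsWithin_le_nhds (s := Set.Ioi (0 : ℝ)))
    rwa [mul_zero] at h4
  have hle : |bt M γ k f F - bt M γ k (fun z => f z * F z) psi| ≤ 0 := by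
    refine ge_of_tendsto hlim ?_
    have hmem : Set.Ioo (0 : ℝ) (min r0 1) ∈ nhdsWithin (0 : ℝ) (Set.Ioi 0) :=
      Ioo_mem_nhdsGT (lt_min hr0 one_pos)
    filter_upwards [hmem] with r hr
    exact key r hr.1 hr.2
  have h5 := abs_nonpos_iff.1 hle
  linarith

end GF
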