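import Pool.Agent.Helper27.GF.Ct2

/-!
Ct3 (project GF, MP_973bc8_pr).  The contact constant.
-/

open MeasureTheory Finset

namespace GF

variable {I : Type}

private lemma lap_congr_on {W : Set Pl} (hW : IsOpen W) {f h : Pl → ℝ} (e : ∀ z ∈ W, f z = h z) :
    ∀ z ∈ W, lap f z = lap h z := by
  have key : ∀ (a b : Pl → ℝ) (v : Pl), (∀ z ∈ W, a z = b z) → ∀ z ∈ W, fderiv ℝ a z v = fderiv ℝ b z v := by
    intro a b v hab z hz
    have h1 : a =ᶠ[nhds z] b := by
      filter_upwards [hW.mem_nhds hz] with w hw using hab w hw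
    rw [h1.fderiv_eq]
  intro z hz
  have h1 := key (dx f) (dx h) (1, 0) (fun w hw => key f h (1, 0) e w hw) z hz
  have h2 := key (dy f) (dy h) (0, 1) (fun w hw => key f h (0, 1) e w hw) z hz
  show fderiv ℝ (dx f) z (1, 0) + fderiv ℝ (dy f) z (0, 1) = fderiv ℝ (dx h) z (1, 0) + fderiv ℝ (dy h) z (0, 1)
  rw [h1, h2]

/-- the common part of `mu_dx` and `mu_dy`: `e` is a smooth harmonic function -/
private lemma mu_aux (M : Fld I) {γ k psi : Pl → ℝ} (hγ : Ne γ) (hk : Cc k) (hk1 : ∫ z, k z = 1) (hpsi : Cc psi)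
    (U : Set Pl) (hU : IsOpen U) (hp : ∀ z ∈ U, psi z = 1) (h2 : Disjoint U (tsupport γ)) (h3 : Disjoint U (tsupport k))
    {g : Pl → ℝ} (hg : Cc g) (hs : tsupport g ⊆ U) {e : Pl → ℝ} (he : ContDiff ℝ (⊤ : ℕ∞) e) (hl : ∀ z, lap e z = 0) :
    bt M γ k (fun z => dx g z * dx e z + dy g z * dy e z) psi = 0 := by
  obtain ⟨p, hpc, -, hpU, W, hW, hgW, hpW⟩ := exists_cutoff (tsupport g) U hg.supp hU hs
  have hG : Cc (fun z => g z * e z) := hg.mul he
  have hP : Cc (fun z => p z * e z) := hpc.mul he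
  have hlG := hG.ne_lap.toCc
  have hlg := hg.ne_lap.toCc
  have hlp := hpc.ne_lap.toCc
  have hlP := hP.ne_lap.toCc
  have hz : ∀ f : Pl → ℝ, (∀ z ∈ W, f z = 0) → Disjoint (tsupport g) (tsupport f) := by
    intro f hf
    have h1 : tsupport f ⊆ Wᶜ := by
      refine closure_minimal ?_ hW.isClosed_compl
      intro z hz hzW
      exact hz (hf z hzW)
    exact Set.disjoint_of_subset hgW h1 disjoint_compl_right
  have hsG : tsupport (fun z => g z * e z) ⊆ tsupport g := tsupport_mul_subset_left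
  have hsP : tsupport (fun z => p z * e z) ⊆ U := (tsupport_mul_subset_left (f := p) (g := e)).trans hpU
  have hc0 : ∀ (c : ℝ) (z : Pl), lap (fun _ => c) z = 0 := by
    intro c z
    have h1 : dx (fun _ : Pl => c) = fun _ => 0 := by
      funext w; simp [dx]
    have h2 : dy (fun _ : Pl => c) = fun _ => 0 := by
      funext w; simp [dy]
    simp [lap, h1, h2, dx, dy]
  have s1 : bt M γ k (fun z => p z * lap (fun w => g w * e w) z) psi = 0 := by
    rw [← prod_prop M hγ hk hk1 hpc hlG hpsi U hU hpU hp (h2.mono_left hpU) (h3.mono_left hpU),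
      bt_lap_symm M hpc hG]
    refine bt_loc M hγ hk hk1 hG hlp ?_ (h2.mono_left (hsG.trans hs)) (h3.mono_left (hsG.trans hs))
    refine (hz (lap p) ?_).mono_left hsG
    intro z hzW
    rw [lap_congr_on hW (h := fun _ => 1) hpW z hzW, hc0]
  have s2 : bt M γ k (fun z => p z * e z * lap g z) psi = 0 := by
    rw [← prod_prop M hγ hk hk1 hP hlg hpsi U hU hsP hp (h2.mono_left hsP) (h3.mono_left hsP),
      bt_lap_symm M hP hg]
    refine bt_loc M hγ hk hk1 hg hlP ?_ (h2.mono_left hs) (h3.mono_left hs)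
    refine hz (lap (fun z => p z * e z)) ?_
    intro z hzW
    rw [lap_congr_on hW (h := e) (fun w hw => by rw [hpW w hw, one_mul]) z hzW, hl]
  have hfun : (fun z => dx g z * dx e z + dy g z * dy e z) =
      fun z => (1 / 2) * (p z * lap (fun w => g w * e w) z + (-1) * (p z * e z * lap g z)) := by
    funext z
    by_cases hzW : z ∈ W
    · rw [hpW z hzW, lap_mul hg.smooth he z, hl z]
      ring
    · have hzg : z ∉ tsupport g := fun h => hzW (hgW h)
      have e1 : dx g z = 0 := image_eq_zero_of_notMem_tsupport (fun h => hzg (tsupport_dx g h))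
      have e2 : dy g z = 0 := image_eq_zero_of_notMem_tsupport (fun h => hzg (tsupport_dy g h))
      have e3 : lap g z = 0 := image_eq_zero_of_notMem_tsupport (fun h => hzg (tsupport_lap g h))
      have e4 : lap (fun w => g w * e w) z = 0 :=
        image_eq_zero_of_notMem_tsupport (fun h => hzg (hsG (tsupport_lap _ h)))
      rw [e1, e2, e3, e4]
      ring
  have c1 : Cc (fun z => p z * lap (fun w => g w * e w) z) := hpc.mul hlG.smooth
  have c2 : Cc (fun z => p z * e z * lap g z) := hP.mul hlg.smooth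
  rw [hfun, bt_smul_left M (1 / 2) hk hk1 (c1.add (c2.smul (-1))) hpsi,
    bt_add_left M hk hk1 c1 (c2.smul (-1)) hpsi, bt_smul_left M (-1) hk hk1 c2 hpsi, s1, s2]
  ring

/-- `mu g = bt g psi`. For `g` a test function in the open set `U` (off `γ` and `k`), `psi = 1` on `U`: let `p` be a cutoff with support in `U` which is `1` near
`tsupport g` (`exists_cutoff`), and `G` smooth. By `prod_prop` (with `f = p`, resp. `f = p x`) and `bt_congr`:
`bt (p * lap (x g)) psi = bt p (lap (x g)) = bt (x g) (lap p) = 0` (`bt_lap_symm`, `bt_loc`: `lap p = 0` near `tsupport g`), and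
`bt (x p * lap g) psi = bt (x p) (lap g) = bt g (lap (x p)) = 0` (`lap (x p) = 0` near `tsupport g`). As `p * lap (x g) = lap (x g)`, `x p lap g = x lap g` and
`lap (x g) = x lap g + 2 dx g` (`lap_mul`), `2 bt (dx g) psi = 0`. The same for `y`. -/
theorem mu_dx (M : Fld I) {γ k psi : Pl → ℝ} (hγ : Ne γ) (hk : Cc k) (hk1 : ∫ z, k z = 1) (hpsi : Cc psi)
    (U : Set Pl) (hU : IsOpen U) (hp : ∀ z ∈ U, psi z = 1) (h2 : Disjoint U (tsupport γ)) (h3 : Disjoint U (tsupport k))
    {g : Pl → ℝ} (hg : Cc g) (hs : tsupport g ⊆ U) : bt M γ k (dx g) psi = 0 := by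
  have ex : ∀ z, dx (fun w : Pl => w.1) z = 1 := by
    intro z
    have h1 : HasFDerivAt (fun w : Pl => w.1) (ContinuousLinearMap.fst ℝ ℝ ℝ) z := hasFDerivAt_fst
    rw [dx, h1.fderiv]
    rfl
  have ey : ∀ z, dy (fun w : Pl => w.1) z = 0 := by
    intro z
    have h1 : HasFDerivAt (fun w : Pl => w.1) (ContinuousLinearMap.fst ℝ ℝ ℝ) z := hasFDerivAt_fst
    rw [dy, h1.fderiv]
    rfl
  have el : ∀ z, lap (fun w : Pl => w.1) z = 0 := by
    intro z
    have h1 : dx (fun w : Pl => w.1) = fun _ => 1 := funext ex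
    have h2 : dy (fun w : Pl => w.1) = fun _ => 0 := funext ey
    simp [lap, h1, h2, dx, dy]
  have h := mu_aux M hγ hk hk1 hpsi U hU hp h2 h3 hg hs (e := fun w => w.1) contDiff_fst el
  have h4 : (fun z => dx g z * dx (fun w : Pl => w.1) z + dy g z * dy (fun w : Pl => w.1) z) = dx g := by
    funext z
    rw [ex, ey]
    ring
  rwa [h4] at h

theorem mu_dy (M : Fld I) {γ k psi : Pl → ℝ} (hγ : Ne γ) (hk : Cc k) (hk1 : ∫ z, k z = 1) (hpsi : Cc psi)
    (U : Set Pl) (hU : IsOpen U) (hp : ∀ z ∈ U, psi z = 1) (h2 : Disjoint U (tsupport γ)) (h3 : Disjoint U (tsupport k))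
    {g : Pl → ℝ} (hg : Cc g) (hs : tsupport g ⊆ U) : bt M γ k (dy g) psi = 0 := by
  have ex : ∀ z, dx (fun w : Pl => w.2) z = 0 := by
    intro z
    have h1 : HasFDerivAt (fun w : Pl => w.2) (ContinuousLinearMap.snd ℝ ℝ ℝ) z := hasFDerivAt_snd
    rw [dx, h1.fderiv]
    rfl
  have ey : ∀ z, dy (fun w : Pl => w.2) z = 1 := by
    intro z
    have h1 : HasFDerivAt (fun w : Pl => w.2) (ContinuousLinearMap.snd ℝ ℝ ℝ) z := hasFDerivAt_snd
    rw [dy, h1.fderiv]
    rfl
  have el : ∀ z, lap (fun w : Pl => w.2) z = 0 := by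
    intro z
    have h1 : dx (fun w : Pl => w.2) = fun _ => 0 := funext ex
    have h2 : dy (fun w : Pl => w.2) = fun _ => 1 := funext ey
    simp [lap, h1, h2, dx, dy]
  have h := mu_aux M hγ hk hk1 hpsi U hU hp h2 h3 hg hs (e := fun w => w.2) contDiff_snd el
  have h4 : (fun z => dx g z * dx (fun w : Pl => w.2) z + dy g z * dy (fun w : Pl => w.2) z) = dy g := by
    funext z
    rw [ex, ey]
    ring
  rwa [h4] at h

/-- The contact constant in a rectangle `U = rect a b c d` off `γ`. Take `k` a bump in `bx (b + 2, 0) 1` (disjoint from `U`), `psi` a cutoff which is `1` on a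
neighbourhood of the closed rectangle, `k0` a bump in `U` (`exists_bump`). For `h` a test function in `U`, `h - (∫ h) k0` is neutral, so by `neutral_decomp`, `mu_dx`,
`mu_dy`: `bt h psi = (∫ h) bt k0 psi`. For neutral `F` and `f` in `U`: `BB f F = bt f F = bt (f F) psi = (∫ f F) bt k0 psi` (`prod_prop` with `W = U`). -/
theorem contact (M : Fld I) {γ : Pl → ℝ} (hγ : Ne γ) (a b c d : ℝ) (hab : a < b) (hcd : c < d)
    (h : Disjoint (rect a b c d) (tsupport γ)) :
    ∃ κ : ℝ, ∀ f F : Pl → ℝ, Cc f → tsupport f ⊆ rect a b c d → Ne F → BB M γ f F = -κ * ∫ z, f z * F z := by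
  have hbxo : IsOpen (bx (b + 2, 0) 1) := by
    unfold bx
    exact (isOpen_lt (continuous_fst.sub continuous_const).abs continuous_const).inter
      (isOpen_lt (continuous_snd.sub continuous_const).abs continuous_const)
  have hUo : IsOpen (rect a b c d) := by
    unfold rect
    exact (isOpen_lt continuous_const continuous_fst).inter ((isOpen_lt continuous_fst continuous_const).inter
      ((isOpen_lt continuous_const continuous_snd).inter (isOpen_lt continuous_snd continuous_const)))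
  obtain ⟨k, hk, -, hk1, hks⟩ := exists_bump (bx (b + 2, 0) 1) hbxo ⟨(b + 2, 0), by simp [bx]⟩
  obtain ⟨k0, hk0, -, hk01, hk0s⟩ := exists_bump (rect a b c d) hUo
    ⟨((a + b) / 2, (c + d) / 2), by
      refine ⟨?_, ?_, ?_, ?_⟩ <;> simp only <;> linarith⟩
  obtain ⟨psi, hpsi, -, -, W, -, hW2, hW3⟩ := exists_cutoff (Set.Icc a b ×ˢ Set.Icc c d) Set.univ
    (isCompact_Icc.prod isCompact_Icc) isOpen_univ (Set.subset_univ _)
  have hp : ∀ z ∈ rect a b c d, psi z = 1 := by
    intro z hz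
    obtain ⟨z1, z2, z3, z4⟩ := hz
    exact hW3 z (hW2 ⟨⟨z1.le, z2.le⟩, ⟨z3.le, z4.le⟩⟩)
  have hUk : Disjoint (rect a b c d) (tsupport k) := by
    rw [Set.disjoint_left]
    intro z hz hzk
    obtain ⟨z1, z2, z3, z4⟩ := hz
    have h1 := hks hzk
    have h2 := (abs_lt.1 h1.1).1
    simp only at h2
    linarith
  have hA : ∀ g : Pl → ℝ, Cc g → tsupport g ⊆ rect a b c d → bt M γ k g psi = (∫ z, g z) * bt M γ k k0 psi := by
    intro g hg hgs
    have hc : Cc (fun z => (-(∫ w, g w)) * k0 z) := hk0.smul _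
    have hn : Ne (fun z => g z + (-(∫ w, g w)) * k0 z) := by
      refine ⟨hg.add hc, ?_⟩
      rw [integral_add hg.integrable hc.integrable, integral_const_mul, hk01]
      ring
    have hns : tsupport (fun z => g z + (-(∫ w, g w)) * k0 z) ⊆ rect a b c d := by
      have h1 : tsupport (fun z => g z + (-(∫ w, g w)) * k0 z) ⊆ tsupport g ∪ tsupport k0 := by
        refine closure_minimal (fun z hz => ?_) ((isClosed_tsupport _).union (isClosed_tsupport _))
        by_contra h0
        rw [Set.mem_union, not_or] at h0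
        apply hz
        change g z + (-(∫ w, g w)) * k0 z = 0
        rw [image_eq_zero_of_notMem_tsupport h0.1, image_eq_zero_of_notMem_tsupport h0.2]
        ring
      exact h1.trans (Set.union_subset hgs hk0s)
    obtain ⟨u, v, hu, hv, hus, hvs, huv⟩ := neutral_decomp a b c d _ hn hns
    have e1 : bt M γ k (fun z => g z + (-(∫ w, g w)) * k0 z) psi =
        bt M γ k g psi + (-(∫ w, g w)) * bt M γ k k0 psi := by
      rw [bt_add_left M hk hk1 hg hc hpsi, bt_smul_left M _ hk hk1 hk0 hpsi]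
    have e2 : bt M γ k (fun z => g z + (-(∫ w, g w)) * k0 z) psi = 0 := by
      have e3 : (fun z => g z + (-(∫ w, g w)) * k0 z) = fun z => dx u z + dy v z := funext huv
      rw [e3, bt_add_left M hk hk1 hu.dx hv.dy hpsi,
        mu_dx M hγ hk hk1 hpsi _ hUo hp h hUk hu hus, mu_dy M hγ hk hk1 hpsi _ hUo hp h hUk hv hvs, add_zero]
    rw [e1] at e2
    linarith
  refine ⟨-bt M γ k k0 psi, fun f F hf hfs hF => ?_⟩
  have e1 : BB M γ f F = bt M γ k f F := (bt_ne M hF).symm
  have hfF : Cc (fun z => f z * F z) := hf.mul hF.smooth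
  have hfFs : tsupport (fun z => f z * F z) ⊆ rect a b c d := (tsupport_mul_subset_left (f := f) (g := F)).trans hfs
  rw [e1, prod_prop M hγ hk hk1 hf hF.toCc hpsi _ hUo hfs hp (h.mono_left hfs) (hUk.mono_left hfs), hA _ hfF hfFs]
  ring

/-- The predicate: `κ` is the contact constant of `γ` in the set `U`. -/
def CC (M : Fld I) (γ : Pl → ℝ) (U : Set Pl) (κ : ℝ) : Prop :=
  ∀ f F : Pl → ℝ, Cc f → tsupport f ⊆ U → Ne F → BB M γ f F = -κ * ∫ z, f z * F z

lemma CC.mono {M : Fld I} {γ : Pl → ℝ} {U U' : Set Pl} {κ : ℝ} (h : CC M γ U' κ) (hU : U ⊆ U') : CC M γ U κ :=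
  fun f F hf hs hF => h f F hf (hs.trans hU) hF

private lemma isOpen_rect_aux80 (a b c d : ℝ) : IsOpen (rect a b c d) := by
  have h1 : IsOpen {z : Pl | a < z.1} := isOpen_lt continuous_const continuous_fst
  have h2 : IsOpen {z : Pl | z.1 < b} := isOpen_lt continuous_fst continuous_const
  have h3 : IsOpen {z : Pl | c < z.2} := isOpen_lt continuous_const continuous_snd
  have h4 : IsOpen {z : Pl | z.2 < d} := isOpen_lt continuous_snd continuous_const
  exact h1.inter (h2.inter (h3.inter h4))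

/-- Uniqueness: `f` a bump in `U` (`exists_bump`), `F = lap f`, `∫ f lap f < 0` (`int_lap_neg`). -/
theorem CC.unique {M : Fld I} {γ : Pl → ℝ} {U : Set Pl} {κ κ' : ℝ} (hU : IsOpen U) (hne : U.Nonempty)
    (h : CC M γ U κ) (h' : CC M γ U κ') : κ = κ' := by
  obtain ⟨f, hf, -, hint, hs⟩ := exists_bump U hU hne
  have hne0 : ∃ z, f z ≠ 0 := by
    by_contra hcon
    push Not at hcon
    have h0 : ∫ z, f z = 0 := by simp [hcon]
    rw [hint] at h0
    exact one_ne_zero h0
  have hneg := int_lap_neg hf hne0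
  have h1 := h f (lap f) hf hs hf.ne_lap
  have h2 := h' f (lap f) hf hs hf.ne_lap
  rw [h1] at h2
  have h3 : (κ - κ') * ∫ z, f z * lap f z = 0 := by linarith
  rcases mul_eq_zero.mp h3 with h4 | h4
  · linarith
  · exact absurd h4 hneg.ne

/-- The upper half plane: if `tsupport γ` is in `{z.2 < R}` there is one constant for `{R < z.2}`: the rectangles `rect (-A) A R (R + A)`, `A > 0`, increase, so they have the
same constant (`contact`, `CC.mono`, `CC.unique`), and every compact subset of the half plane is contained in one of them. -/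
theorem contact_up (M : Fld I) {γ : Pl → ℝ} (hγ : Ne γ) (R : ℝ) (h : tsupport γ ⊆ {z | z.2 < R}) :
    ∃ κ : ℝ, CC M γ {z | R < z.2} κ := by
  have hdis : ∀ A : ℝ, Disjoint (rect (-A) A R (R + A)) (tsupport γ) := by
    intro A
    rw [Set.disjoint_left]
    intro z hz hz2
    have h1 : z.2 < R := h hz2
    have h2 : R < z.2 := hz.2.2.1
    linarith
  have hc : ∀ n : ℕ, ∃ κ : ℝ, CC M γ (rect (-((n : ℝ) + 1)) ((n : ℝ) + 1) R (R + ((n : ℝ) + 1))) κ := by
    intro n
    have hn : (0 : ℝ) < (n : ℝ) + 1 := by positivity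
    exact contact M hγ _ _ _ _ (by linarith) (by linarith) (hdis _)
  choose κ hκ using hc
  have hsame : ∀ n : ℕ, κ n = κ 0 := by
    intro n
    have hn : (0 : ℝ) ≤ (n : ℝ) := by positivity
    have hsub : rect (-1) 1 R (R + 1) ⊆ rect (-((n : ℝ) + 1)) ((n : ℝ) + 1) R (R + ((n : ℝ) + 1)) := by
      intro z hz
      obtain ⟨z1, z2, z3, z4⟩ := hz
      exact ⟨by linarith, by linarith, z3, by linarith⟩
    have hsub0 : rect (-1) 1 R (R + 1) ⊆ rect (-(((0 : ℕ) : ℝ) + 1)) (((0 : ℕ) : ℝ) + 1) R (R + (((0 : ℕ) : ℝ) + 1)) := by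
      intro z hz
      obtain ⟨z1, z2, z3, z4⟩ := hz
      refine ⟨?_, ?_, z3, ?_⟩ <;> simp <;> linarith
    exact CC.unique (isOpen_rect_aux80 (-1) 1 R (R + 1)) ⟨(0, R + 1 / 2), by
      refine ⟨?_, ?_, ?_, ?_⟩ <;> simp <;> norm_num⟩ ((hκ n).mono hsub) ((hκ 0).mono hsub0)
  refine ⟨κ 0, ?_⟩
  intro f F hf hs hF
  obtain ⟨Rf, hRf, hbox⟩ := hf.box
  obtain ⟨n, hn⟩ := exists_nat_gt (Rf + |R|)
  rw [← hsame n]
  refine hκ n f F hf ?_ hF
  intro z hz
  have h1 := hbox hz
  have h2 : R < z.2 := hs hz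
  have h3 := abs_lt.mp h1.1
  have h4 := abs_lt.mp h1.2
  have h5 := abs_nonneg R
  have h6 := neg_abs_le R
  exact ⟨by linarith [h3.1], by linarith [h3.2], h2, by linarith [h4.2]⟩

/-- A rectangle which reaches the upper half plane has the same constant: `contact` for `rect a b c d`, and both constants agree on `rect a b (max c R) d`. -/
theorem contact_tall (M : Fld I) {γ : Pl → ℝ} (hγ : Ne γ) (R : ℝ) (κ : ℝ) (hκ : CC M γ {z | R < z.2} κ)
    (a b c d : ℝ) (hab : a < b) (hcd : c < d) (hd : R < d) (h : Disjoint (rect a b c d) (tsupport γ)) :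
    CC M γ (rect a b c d) κ := by
  obtain ⟨κ', hκ0⟩ := contact M hγ a b c d hab hcd h
  have hκ' : CC M γ (rect a b c d) κ' := hκ0
  have hm : max c R < d := max_lt hcd hd
  have hsub1 : rect a b (max c R) d ⊆ rect a b c d := by
    intro z hz
    obtain ⟨z1, z2, z3, z4⟩ := hz
    exact ⟨z1, z2, lt_of_le_of_lt (le_max_left _ _) z3, z4⟩
  have hsub2 : rect a b (max c R) d ⊆ {z | R < z.2} := by
    intro z hz
    exact lt_of_le_of_lt (le_max_right _ _) hz.2.2.1
  have hnem : (rect a b (max c R) d).Nonempty :=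
    ⟨((a + b) / 2, (max c R + d) / 2), by
      refine ⟨?_, ?_, ?_, ?_⟩ <;> simp only [] <;> linarith⟩
  have he := CC.unique (isOpen_rect_aux80 a b (max c R) d) hnem (hκ'.mono hsub1) (hκ.mono hsub2)
  rw [← he]
  exact hκ'

/-- Comparison of constants. For `b z = b0 ((z - c)/r)` with `tsupport b ⊆ U`, `E = -∫ b0 lap b0 > 0`: `(κ - κ') E = BB γ b (lap b) - BB γ' b (lap b)
= L (X (lap b) X (lap b) (cos (X γ) - cos (X γ')))`, and `|cos (X γ) - cos (X γ')| ≤ |X (γ - γ')|`: `hol3'` and `scaled_bump`.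
`C` does not depend on `U, γ, γ', c, r`. -/
theorem CC_compare (M : Fld I) : ∃ C : ℝ, 0 ≤ C ∧ ∀ (γ γ' : Pl → ℝ) (κ κ' : ℝ) (c : Pl) (r : ℝ), Ne γ → Ne γ' → 0 < r →
    CC M γ (bx c r) κ → CC M γ' (bx c r) κ' → |κ - κ'| ≤ C * nrm (fun z => γ z - γ' z) := by
  have hopen : IsOpen (bx 0 1) := by
    have c1 : Continuous fun z : Pl => |z.1 - (0 : Pl).1| := by fun_prop
    have c2 : Continuous fun z : Pl => |z.2 - (0 : Pl).2| := by fun_prop
    exact (isOpen_lt c1 continuous_const).inter (isOpen_lt c2 continuous_const)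
  obtain ⟨b0, hb0, -, hb1, hbs⟩ := exists_bump (bx 0 1) hopen ⟨0, by simp [bx]⟩
  have hE : ∫ z, b0 z * lap b0 z < 0 := by
    refine int_lap_neg hb0 ?_
    by_contra hcon
    push Not at hcon
    have h1 : ∫ z, b0 z = 0 := by simp [hcon]
    rw [h1] at hb1
    exact zero_ne_one hb1
  obtain ⟨C1, hC1, hsc⟩ := scaled_bump hb0 hbs
  obtain ⟨C2, hC2, hhol⟩ := M.hol3'
  refine ⟨C2 * C1 * C1 / (-∫ z, b0 z * lap b0 z), by
    refine div_nonneg (mul_nonneg (mul_nonneg hC2 hC1) hC1) ?_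
    linarith, fun γ γ' κ κ' c r hγ hγ' hr h h' => ?_⟩
  obtain ⟨hbc, hbt, hbi, hbn⟩ := hsc c r hr
  set b : Pl → ℝ := fun z => b0 ((z.1 - c.1) / r, (z.2 - c.2) / r) with hbdef
  set E : ℝ := ∫ z, b0 z * lap b0 z with hEdef
  have hlb : Ne (lap b) := hbc.ne_lap
  have e1 : BB M γ b (lap b) = -κ * E := by
    rw [h b (lap b) hbc hbt hlb]
    exact congrArg (fun t => -κ * t) hbi
  have e2 : BB M γ' b (lap b) = -κ' * E := by
    rw [h' b (lap b) hbc hbt hlb]
    exact congrArg (fun t => -κ' * t) hbi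
  have hd : Ne (fun z => γ z - γ' z) := hγ.sub hγ'
  have e3 : M.L (fun i => M.X (lap b) i * M.X (lap b) i *
      (Real.cos (M.X γ i) - Real.cos (M.X γ' i))) = BB M γ b (lap b) - BB M γ' b (lap b) := by
    have h4 := M.L_sub _ _ (BB_ok M (γ := γ) hbc hlb) (BB_ok M (γ := γ') hbc hlb)
    refine Eq.trans ?_ h4
    congr 1
    funext i
    ring
  have h5 := hhol (lap b) (lap b) (fun z => γ z - γ' z)
    (fun i => Real.cos (M.X γ i) - Real.cos (M.X γ' i)) hlb hlb hd (fun i => by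
      rw [M.X_sub γ γ' hγ hγ' i]
      exact Real.abs_cos_sub_cos_le _ _)
  rw [e3, e1, e2] at h5
  have h6 : -κ * E - -κ' * E = (κ - κ') * (-E) := by ring
  have hE' : 0 < -E := by linarith
  rw [h6, abs_mul, abs_of_pos hE'] at h5
  have hn0 : 0 ≤ nrm (fun z => γ z - γ' z) := Fld.nrm_nonneg _
  have hb0' : 0 ≤ nrm (lap b) := Fld.nrm_nonneg _
  have h7 : C2 * nrm (lap b) * nrm (lap b) * nrm (fun z => γ z - γ' z) ≤
      C2 * C1 * C1 * nrm (fun z => γ z - γ' z) := by
    gcongr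
  rw [div_mul_eq_mul_div, le_div_iff₀ hE']
  exact h5.trans h7

end GF
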