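import Pool.Agent.Helper27.GF.Ct3

/-!
Ds (project GF, MP_973bc8_pr).  The Dyson-Schwinger equation for the exponentials of the field.
-/

open MeasureTheory Finset

namespace GF

variable {I : Type}

private lemma D1_disj {U : Set Pl} (hU : IsOpen U) {f : Pl → ℝ} (h : ∀ z ∈ U, f z = 0) :
    Disjoint U (tsupport f) :=
  Disjoint.closure_right (Set.disjoint_left.2 fun z hz hs => hs (h z hz)) hU

private lemma D1_bx_open (c : Pl) (s : ℝ) : IsOpen (bx c s) := by
  have h : bx c s = {z : Pl | |z.1 - c.1| < s} ∩ {z : Pl | |z.2 - c.2| < s} := rfl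
  rw [h]
  exact (isOpen_lt (by fun_prop) continuous_const).inter (isOpen_lt (by fun_prop) continuous_const)

private lemma D1_rect_open (a b c d : ℝ) : IsOpen (rect a b c d) := by
  have h : rect a b c d = {z : Pl | a < z.1} ∩ ({z : Pl | z.1 < b} ∩ ({z : Pl | c < z.2} ∩
      {z : Pl | z.2 < d})) := rfl
  rw [h]
  exact (isOpen_lt continuous_const (by fun_prop)).inter
    ((isOpen_lt (by fun_prop) continuous_const).inter
      ((isOpen_lt continuous_const (by fun_prop)).inter (isOpen_lt (by fun_prop) continuous_const)))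

private lemma D1_strip {G : Pl → ℝ} (hG : Cc G) (c : Pl) (r R A : ℝ) (hr : 0 < r) (hR : 0 < R)
    (_hA : 0 ≤ A) (hb : ∀ z, |G z| ≤ A) (hs : ∀ z, G z ≠ 0 → |z.1 - c.1| < 7 * r ∧ |z.2| < R) :
    ∫ z, |G z| ≤ 28 * R * A * r := by
  set S : Set Pl := Set.Ioo (c.1 - 7 * r) (c.1 + 7 * r) ×ˢ Set.Ioo (-R) R with hS
  have hSm : MeasurableSet S := measurableSet_Ioo.prod measurableSet_Ioo
  have hvol : (volume : Measure Pl).real S = 14 * r * (2 * R) := by
    rw [measureReal_def, hS, Measure.volume_eq_prod, Measure.prod_prod, Real.volume_Ioo,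
      Real.volume_Ioo, ENNReal.toReal_mul, ENNReal.toReal_ofReal (by linarith),
      ENNReal.toReal_ofReal (by linarith)]
    ring
  have hfin : (volume : Measure Pl) S ≠ ⊤ := by
    rw [hS, Measure.volume_eq_prod, Measure.prod_prod, Real.volume_Ioo, Real.volume_Ioo]
    exact ENNReal.mul_ne_top ENNReal.ofReal_ne_top ENNReal.ofReal_ne_top
  have h1 : ∫ z, |G z| ≤ ∫ z, S.indicator (fun _ => A) z := by
    refine integral_mono hG.integrable.abs ?_ fun z => ?_
    · rw [integrable_indicator_iff hSm]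
      exact integrableOn_const hfin
    · by_cases hz : z ∈ S
      · rw [Set.indicator_of_mem hz]
        exact hb z
      · rw [Set.indicator_of_notMem hz]
        have h0 : G z = 0 := by
          by_contra hne
          obtain ⟨e1, e2⟩ := hs z hne
          rw [abs_lt] at e1 e2
          exact hz ⟨⟨by linarith [e1.1], by linarith [e1.2]⟩, e2⟩
        show |G z| ≤ 0
        rw [h0, abs_zero]
  rw [integral_indicator hSm, setIntegral_const, hvol, smul_eq_mul] at h1
  linarith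

private lemma D1_pow (A r : ℝ) (n : ℕ) (hA : 0 ≤ A) (hr : 0 ≤ r) :
    (A * r ^ n) ^ (7 / 8 : ℝ) = A ^ (7 / 8 : ℝ) * r ^ ((n : ℝ) * (7 / 8)) := by
  rw [Real.mul_rpow hA (by positivity), ← Real.rpow_natCast, ← Real.rpow_mul hr]

private lemma D1_stp0 {x : ℝ} (h : x ≤ 0) : stp x = 0 := Real.smoothTransition.zero_of_nonpos h

private lemma D1_stp1 {x : ℝ} (h : 1 ≤ x) : stp x = 1 := Real.smoothTransition.one_of_one_le h

private lemma D1_stpn (x : ℝ) : 0 ≤ stp x := Real.smoothTransition.nonneg x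

private lemma D1_stpl (x : ℝ) : stp x ≤ 1 := Real.smoothTransition.le_one x

/-- the strip function of one variable -/
private lemma D1_tau1 (x : ℝ) : 0 ≤ stp (x + 6) - stp (x - 5) ∧ stp (x + 6) - stp (x - 5) ≤ 1 := by
  have h1 := D1_stpn (x - 5)
  have h2 := D1_stpl (x + 6)
  have h3 := D1_stpl (x - 5)
  have h4 := D1_stpn (x + 6)
  by_cases h : x ≤ 5
  · rw [D1_stp0 (show x - 5 ≤ 0 by linarith), sub_zero]
    exact ⟨h4, h2⟩
  · rw [D1_stp1 (show 1 ≤ x + 6 by linarith)]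
    exact ⟨by linarith, by linarith⟩

private lemma D1_stp_smooth : ContDiff ℝ (⊤ : ℕ∞) stp := Real.smoothTransition.contDiff

/-- The cut functions of one cell. `g` neutral with support in `bx 0 R`, `k` a bump in `bx (4 R + 20, 0) 1`. For `r < 1` and a cell with centre
`c = ctr r q ∈ bx 0 (R + 3)`, there are
`n` (near part): `n = g chi - (∫ g chi) k` with `chi z = ch ((z - c)/r)`, `chi = 1` on `bx c (4 r)`, support in `bx c (5 r)`;
`γ = g - n` (vanishes on `bx c (4 r)`), and `γt = g (1 - tau) + (∫ g tau) k` with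
`tau z = (stp ((z.1 - c.1)/r + 6) - stp ((z.1 - c.1)/r - 5)) * stp ((z.2 - c.2)/r + 6)`, which is `1` for `|z.1 - c.1| ≤ 5 r`, `z.2 ≥ c.2 - 5 r`; so `γt`
vanishes on `rect (c.1 - 4r) (c.1 + 4r) (c.2 - 4r) (R + 10)`.
Norms: `n` has `nrm ≤ C (r²)^(7/8)`, `g - γt` and `γ - γt` have `nrm ≤ C r^(7/8)`: they are neutralised functions (`nrm_neutral`) bounded by a constant with
`L¹` norm `≤ C r²` resp. `C r` and support in `bx 0 (R + ..)` (`g - γt = g tau - (∫ g tau) k`, `γ - γt = g (tau - chi) - (∫ g (tau - chi)) k`). -/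
theorem ds_cut {g : Pl → ℝ} (hg : Ne g) (R : ℝ) (hR : 0 < R) (hs : tsupport g ⊆ bx 0 R) :
    ∃ C : ℝ, 0 ≤ C ∧ ∀ r : ℝ, 0 < r → r < 1 → ∀ c : Pl, c ∈ bx 0 (R + 3) →
      ∃ n γ γt : Pl → ℝ, Ne n ∧ Ne γ ∧ Ne γt ∧ (∀ z, g z = γ z + n z) ∧ (∀ z ∈ bx c (4 * r), n z = g z) ∧
        Disjoint (bx c (4 * r)) (tsupport γ) ∧
        Disjoint (rect (c.1 - 4 * r) (c.1 + 4 * r) (c.2 - 4 * r) (R + 10)) (tsupport γt) ∧
        tsupport γt ⊆ {z | z.2 < R + 1} ∧
        nrm n ≤ C * r ^ (7 / 4 : ℝ) ∧ nrm (fun z => g z - γt z) ≤ C * r ^ (7 / 8 : ℝ) ∧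
        nrm (fun z => γ z - γt z) ≤ C * r ^ (7 / 8 : ℝ) := by
  obtain ⟨k, hk, hk0, hk1, hks⟩ := exists_bump (bx ((4 * R + 20, 0) : Pl) 1) (D1_bx_open _ _)
    ⟨(4 * R + 20, 0), by
      refine ⟨?_, ?_⟩ <;> simp⟩
  obtain ⟨ch, hch, hch01, hchs, W1, hW1, hKW1, hch1⟩ :=
    exists_cutoff (Set.Icc ((-4, -4) : Pl) (4, 4)) (bx 0 5) isCompact_Icc (D1_bx_open _ _)
      (by
        rintro z ⟨⟨a1, a2⟩, ⟨b1, b2⟩⟩
        have a1' : (-4 : ℝ) ≤ z.1 := a1
        have a2' : (-4 : ℝ) ≤ z.2 := a2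
        have b1' : z.1 ≤ (4 : ℝ) := b1
        have b2' : z.2 ≤ (4 : ℝ) := b2
        show |z.1 - (0 : Pl).1| < 5 ∧ |z.2 - (0 : Pl).2| < 5
        rw [Prod.fst_zero, Prod.snd_zero, sub_zero, sub_zero, abs_lt, abs_lt]
        exact ⟨⟨by linarith, by linarith⟩, ⟨by linarith, by linarith⟩⟩)
  obtain ⟨A, hA0, hA⟩ := hg.toCc.bdd
  obtain ⟨C1, hC10, hC1⟩ := nrm_neutral R A hR.le hA0 k hk hk1
  have hkz : ∀ z : Pl, z.1 < 4 * R + 19 → k z = 0 := by
    intro z hz
    apply image_eq_zero_of_notMem_tsupport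
    intro h
    have h1 := (abs_lt.1 (hks h).1).1
    have h2 : -1 < z.1 - (4 * R + 20) := h1
    linarith
  refine ⟨C1 * (100 * A) ^ (7 / 8 : ℝ) + C1 * (28 * R * A) ^ (7 / 8 : ℝ), by positivity,
    fun r hr hr1 c hc => ?_⟩
  have hc1 := abs_lt.1 hc.1
  have hc2 := abs_lt.1 hc.2
  rw [Prod.fst_zero, sub_zero] at hc1
  rw [Prod.snd_zero, sub_zero] at hc2
  have hp1 : 0 ≤ r ^ (7 / 8 : ℝ) := Real.rpow_nonneg hr.le _
  have hp2 : 0 ≤ r ^ (7 / 4 : ℝ) := Real.rpow_nonneg hr.le _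
  -- the two cutoffs
  set chi : Pl → ℝ := fun z => ch ((z.1 - c.1) / r, (z.2 - c.2) / r) with hchi
  set tau : Pl → ℝ := fun z => (stp ((z.1 - c.1) / r + 6) - stp ((z.1 - c.1) / r - 5)) *
    stp ((z.2 - c.2) / r + 6) with htau
  have chiS : ContDiff ℝ (⊤ : ℕ∞) chi := by
    have h : ContDiff ℝ (⊤ : ℕ∞) (fun z : Pl => (((z.1 - c.1) / r, (z.2 - c.2) / r) : Pl)) := by
      fun_prop
    exact hch.smooth.comp h
  have tauS : ContDiff ℝ (⊤ : ℕ∞) tau := by
    have h1 : ContDiff ℝ (⊤ : ℕ∞) (fun z : Pl => (z.1 - c.1) / r + 6) := by fun_prop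
    have h2 : ContDiff ℝ (⊤ : ℕ∞) (fun z : Pl => (z.1 - c.1) / r - 5) := by fun_prop
    have h3 : ContDiff ℝ (⊤ : ℕ∞) (fun z : Pl => (z.2 - c.2) / r + 6) := by fun_prop
    exact ((D1_stp_smooth.comp h1).sub (D1_stp_smooth.comp h2)).mul (D1_stp_smooth.comp h3)
  have chi01 : ∀ z, 0 ≤ chi z ∧ chi z ≤ 1 := fun z => hch01 _
  have tau01 : ∀ z, 0 ≤ tau z ∧ tau z ≤ 1 := by
    intro z
    have h1 := D1_tau1 ((z.1 - c.1) / r)
    have h2 := D1_stpn ((z.2 - c.2) / r + 6)
    have h3 := D1_stpl ((z.2 - c.2) / r + 6)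
    exact ⟨mul_nonneg h1.1 h2, mul_le_one₀ h1.2 h2 h3⟩
  have chi1 : ∀ z ∈ bx c (4 * r), chi z = 1 := by
    intro z hz
    have b1 := abs_lt.1 hz.1
    have b2 := abs_lt.1 hz.2
    refine hch1 _ (hKW1 ⟨⟨?_, ?_⟩, ⟨?_, ?_⟩⟩)
    · show (-4 : ℝ) ≤ (z.1 - c.1) / r
      rw [le_div_iff₀ hr]
      linarith [b1.1]
    · show (-4 : ℝ) ≤ (z.2 - c.2) / r
      rw [le_div_iff₀ hr]
      linarith [b2.1]
    · show (z.1 - c.1) / r ≤ (4 : ℝ)
      rw [div_le_iff₀ hr]
      linarith [b1.2]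
    · show (z.2 - c.2) / r ≤ (4 : ℝ)
      rw [div_le_iff₀ hr]
      linarith [b2.2]
  have chiT : tsupport chi ⊆ bx c (5 * r) := by
    have h : Continuous (fun z : Pl => (((z.1 - c.1) / r, (z.2 - c.2) / r) : Pl)) := by
      fun_prop
    have h1 : tsupport chi ⊆
        (fun z : Pl => (((z.1 - c.1) / r, (z.2 - c.2) / r) : Pl)) ⁻¹' tsupport ch :=
      closure_minimal (fun z hz => subset_tsupport ch hz) ((isClosed_tsupport ch).preimage h)
    intro z hz
    have h2 := hchs (h1 hz)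
    simp only [bx, Set.mem_ofPred_eq, Prod.fst_zero, Prod.snd_zero, sub_zero] at h2
    rw [abs_div, abs_div, abs_of_pos hr, div_lt_iff₀ hr, div_lt_iff₀ hr] at h2
    exact h2
  have tau1 : ∀ z ∈ rect (c.1 - 4 * r) (c.1 + 4 * r) (c.2 - 4 * r) (R + 10), tau z = 1 := by
    rintro z ⟨b1, b2, b3, b4⟩
    have e1 : -4 < (z.1 - c.1) / r := by
      rw [lt_div_iff₀ hr]
      linarith
    have e2 : (z.1 - c.1) / r < 4 := by
      rw [div_lt_iff₀ hr]
      linarith
    have e3 : -4 < (z.2 - c.2) / r := by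
      rw [lt_div_iff₀ hr]
      linarith
    show (stp ((z.1 - c.1) / r + 6) - stp ((z.1 - c.1) / r - 5)) * stp ((z.2 - c.2) / r + 6) = 1
    rw [D1_stp1 (by linarith : 1 ≤ (z.1 - c.1) / r + 6),
      D1_stp0 (by linarith : (z.1 - c.1) / r - 5 ≤ 0),
      D1_stp1 (by linarith : 1 ≤ (z.2 - c.2) / r + 6)]
    norm_num
  have tau0 : ∀ z, tau z ≠ 0 → |z.1 - c.1| < 7 * r := by
    intro z hz
    by_contra hlt
    apply hz
    show (stp ((z.1 - c.1) / r + 6) - stp ((z.1 - c.1) / r - 5)) * stp ((z.2 - c.2) / r + 6) = 0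
    rw [not_lt, le_abs] at hlt
    rcases hlt with h | h
    · have e1 : 7 ≤ (z.1 - c.1) / r := by
        rw [le_div_iff₀ hr]
        exact h
      rw [D1_stp1 (by linarith : 1 ≤ (z.1 - c.1) / r + 6),
        D1_stp1 (by linarith : 1 ≤ (z.1 - c.1) / r - 5), sub_self, zero_mul]
    · have e1 : (z.1 - c.1) / r ≤ -7 := by
        rw [div_le_iff₀ hr]
        linarith
      rw [D1_stp0 (by linarith : (z.1 - c.1) / r + 6 ≤ 0),
        D1_stp0 (by linarith : (z.1 - c.1) / r - 5 ≤ 0), sub_self, zero_mul]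
  have chi0 : ∀ z, chi z ≠ 0 → |z.1 - c.1| < 7 * r := by
    intro z hz
    have h1 := (chiT (subset_tsupport chi hz)).1
    linarith
  have gsupp : ∀ z, g z ≠ 0 → z ∈ bx 0 R := fun z hz => hs (subset_tsupport g hz)
  -- general facts on products with `g`
  have prodT : ∀ f : Pl → ℝ, tsupport (fun z => g z * f z) ⊆ bx 0 R := fun f =>
    (closure_mono (Function.support_mul_subset_left g f)).trans hs
  have prodA : ∀ f : Pl → ℝ, (∀ z, |f z| ≤ 1) → ∀ z, |g z * f z| ≤ A := by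
    intro f hf z
    rw [abs_mul]
    calc |g z| * |f z| ≤ A * 1 := mul_le_mul (hA z) (hf z) (abs_nonneg _) hA0
      _ = A := mul_one A
  have strip : ∀ f : Pl → ℝ, ContDiff ℝ (⊤ : ℕ∞) f → (∀ z, |f z| ≤ 1) →
      (∀ z, f z ≠ 0 → |z.1 - c.1| < 7 * r) →
      nrm (fun z => g z * f z - (∫ w, g w * f w) * k z) ≤
        C1 * (28 * R * A) ^ (7 / 8 : ℝ) * r ^ (7 / 8 : ℝ) := by
    intro f hfS hf1 hf2
    have hG : Cc (fun z => g z * f z) := hg.toCc.mul hfS
    refine (hC1 _ hG (prodT f) (prodA f hf1)).trans ?_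
    have h1 : ∫ z, |g z * f z| ≤ 28 * R * A * r := by
      refine D1_strip hG c r R A hr hR hA0 (prodA f hf1) fun z hz => ?_
      refine ⟨hf2 z (right_ne_zero_of_mul hz), ?_⟩
      have h2 := (gsupp z (left_ne_zero_of_mul hz)).2
      rwa [Prod.snd_zero, sub_zero] at h2
    rw [mul_assoc, ← Real.mul_rpow (by positivity) hr.le]
    exact mul_le_mul_of_nonneg_left
      (Real.rpow_le_rpow (integral_nonneg fun z => abs_nonneg _) h1 (by norm_num)) hC10
  have hGn : Cc (fun z => g z * chi z) := hg.toCc.mul chiS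
  have hGt : Cc (fun z => g z * tau z) := hg.toCc.mul tauS
  have hn : Ne (fun z => g z * chi z - (∫ w, g w * chi w) * k z) := hGn.neutral hk hk1
  have ht : Ne (fun z => g z * tau z - (∫ w, g w * tau w) * k z) := hGt.neutral hk hk1
  refine ⟨fun z => g z * chi z - (∫ w, g w * chi w) * k z,
    fun z => g z - (g z * chi z - (∫ w, g w * chi w) * k z),
    fun z => g z - (g z * tau z - (∫ w, g w * tau w) * k z), hn, hg.sub hn, hg.sub ht,
    fun z => by ring, fun z hz => ?_, D1_disj (D1_bx_open _ _) fun z hz => ?_,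
    D1_disj (D1_rect_open _ _ _ _) fun z hz => ?_, ?_, ?_, ?_, ?_⟩
  · have b1 := (abs_lt.1 hz.1).2
    show g z * chi z - (∫ w, g w * chi w) * k z = g z
    rw [chi1 z hz, hkz z (by linarith [hc1.2])]
    ring
  · have b1 := (abs_lt.1 hz.1).2
    show g z - (g z * chi z - (∫ w, g w * chi w) * k z) = 0
    rw [chi1 z hz, hkz z (by linarith [hc1.2])]
    ring
  · have b1 := hz.2.1
    show g z - (g z * tau z - (∫ w, g w * tau w) * k z) = 0
    rw [tau1 z hz, hkz z (by linarith [hc1.2])]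
    ring
  · have h1 : tsupport (fun z => g z - (g z * tau z - (∫ w, g w * tau w) * k z)) ⊆
        tsupport g ∪ tsupport k := by
      refine closure_minimal (fun z hz => ?_) ((isClosed_tsupport _).union (isClosed_tsupport _))
      by_contra h
      rw [Set.mem_union, not_or] at h
      apply hz
      show g z - (g z * tau z - (∫ w, g w * tau w) * k z) = 0
      rw [image_eq_zero_of_notMem_tsupport h.1, image_eq_zero_of_notMem_tsupport h.2]
      ring
    refine h1.trans (Set.union_subset (fun z hz => ?_) fun z hz => ?_)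
    · have h2 := (abs_lt.1 (hs hz).2).2
      rw [Prod.snd_zero, sub_zero] at h2
      show z.2 < R + 1
      linarith
    · have h2 := (abs_lt.1 (hks hz).2).2
      have h3 : z.2 - 0 < 1 := h2
      show z.2 < R + 1
      linarith
  · refine (hC1 _ hGn (prodT chi) (prodA chi fun z => ?_)).trans ?_
    · rw [abs_of_nonneg (chi01 z).1]
      exact (chi01 z).2
    · have h1 : ∫ z, |g z * chi z| ≤ (100 * A) * r ^ 2 := by
        refine (int_abs_box hGn c (5 * r) A (by positivity) (prodA chi fun z => ?_)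
          ((closure_mono (Function.support_mul_subset_right g chi)).trans chiT)).trans
          (le_of_eq (by ring))
        rw [abs_of_nonneg (chi01 z).1]
        exact (chi01 z).2
      have h2 : (∫ z, |g z * chi z|) ^ (7 / 8 : ℝ) ≤
          (100 * A) ^ (7 / 8 : ℝ) * r ^ (7 / 4 : ℝ) := by
        refine (Real.rpow_le_rpow (integral_nonneg fun z => abs_nonneg _) h1
          (by norm_num)).trans (le_of_eq ?_)
        rw [D1_pow (100 * A) r 2 (by positivity) hr.le]
        norm_num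
      calc C1 * (∫ z, |g z * chi z|) ^ (7 / 8 : ℝ)
          ≤ C1 * ((100 * A) ^ (7 / 8 : ℝ) * r ^ (7 / 4 : ℝ)) := mul_le_mul_of_nonneg_left h2 hC10
        _ ≤ (C1 * (100 * A) ^ (7 / 8 : ℝ) + C1 * (28 * R * A) ^ (7 / 8 : ℝ)) * r ^ (7 / 4 : ℝ) := by
            have h3 : 0 ≤ C1 * (28 * R * A) ^ (7 / 8 : ℝ) := by positivity
            nlinarith
  · have e : (fun z => g z - (fun z => g z - (g z * tau z - (∫ w, g w * tau w) * k z)) z) =
        fun z => g z * tau z - (∫ w, g w * tau w) * k z := by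
      funext z
      simp only
      ring
    rw [e]
    refine (strip tau tauS (fun z => ?_) tau0).trans ?_
    · rw [abs_of_nonneg (tau01 z).1]
      exact (tau01 z).2
    · refine mul_le_mul_of_nonneg_right ?_ hp1
      have h3 : 0 ≤ C1 * (100 * A) ^ (7 / 8 : ℝ) := by positivity
      linarith
  · have hint : (∫ w, g w * (tau w - chi w)) = (∫ w, g w * tau w) - ∫ w, g w * chi w := by
      rw [← integral_sub hGt.integrable hGn.integrable]
      refine integral_congr_ae (Filter.Eventually.of_forall fun w => ?_)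
      show g w * (tau w - chi w) = g w * tau w - g w * chi w
      ring
    have e : (fun z => (fun z => g z - (g z * chi z - (∫ w, g w * chi w) * k z)) z -
        (fun z => g z - (g z * tau z - (∫ w, g w * tau w) * k z)) z) =
        fun z => g z * (tau z - chi z) - (∫ w, g w * (tau w - chi w)) * k z := by
      rw [hint]
      funext z
      simp only
      ring
    rw [e]
    refine (strip (fun z => tau z - chi z) (tauS.sub chiS) (fun z => ?_) fun z hz => ?_).trans ?_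
    · rw [abs_le]
      exact ⟨by linarith [(tau01 z).1, (chi01 z).2], by linarith [(tau01 z).2, (chi01 z).1]⟩
    · by_cases h0 : tau z = 0
      · refine chi0 z fun h1 => hz ?_
        show tau z - chi z = 0
        rw [h0, h1, sub_zero]
      · exact tau0 z h0
    · refine mul_le_mul_of_nonneg_right ?_ hp1
      have h3 : 0 ≤ C1 * (100 * A) ^ (7 / 8 : ℝ) := by positivity
      linarith

private lemma DC_sin (a b : ℝ) : |Real.sin (a + b) - Real.sin a - b * Real.cos a| ≤ b ^ 2 := by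
  have h := Convex.norm_image_sub_le_of_norm_hasDerivWithin_le
    (f := fun x : ℝ => Real.sin (a + x) - x * Real.cos a)
    (f' := fun x : ℝ => Real.cos (a + x) - Real.cos a) (C := |b|) (s := Set.Icc (-|b|) |b|)
    (x := 0) (y := b) ?_ ?_ (convex_Icc _ _) ?_ ?_
  · simp only [add_zero, zero_mul, sub_zero, Real.norm_eq_abs, abs_mul_abs_self] at h
    have e : Real.sin (a + b) - b * Real.cos a - Real.sin a =
        Real.sin (a + b) - Real.sin a - b * Real.cos a := by ring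
    rw [e] at h
    calc _ ≤ b * b := h
      _ = b ^ 2 := by ring
  · intro x _
    refine HasDerivAt.hasDerivWithinAt ?_
    have h1 : HasDerivAt (fun x : ℝ => Real.sin (a + x)) (Real.cos (a + x) * 1) x :=
      ((hasDerivAt_id x).const_add a).sin
    have h2 : HasDerivAt (fun x : ℝ => x * Real.cos a) (1 * Real.cos a) x :=
      (hasDerivAt_id x).mul_const _
    have h3 := h1.sub h2
    simp only [mul_one, one_mul] at h3
    exact h3
  · intro x hx
    rw [Real.norm_eq_abs]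
    refine (Real.abs_cos_sub_cos_le _ _).trans ?_
    rw [add_sub_cancel_left]
    exact abs_le.2 hx
  · exact ⟨by simp, by simp⟩
  · exact ⟨neg_abs_le b, le_abs_self b⟩

private lemma DC_rect (c : Pl) (s : ℝ) : rect (c.1 - s) (c.1 + s) (c.2 - s) (c.2 + s) = bx c s := by
  ext z
  constructor
  · rintro ⟨h1, h2, h3, h4⟩
    exact ⟨abs_lt.2 ⟨by linarith, by linarith⟩, abs_lt.2 ⟨by linarith, by linarith⟩⟩
  · rintro ⟨h1, h2⟩
    rw [abs_lt] at h1 h2
    exact ⟨by linarith [h1.1], by linarith [h1.2], by linarith [h2.1], by linarith [h2.2]⟩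

private lemma DC_bx (c : Pl) {s t : ℝ} (h : s ≤ t) : bx c s ⊆ bx c t :=
  fun _ hz => ⟨lt_of_lt_of_le hz.1 h, lt_of_lt_of_le hz.2 h⟩

private lemma DC_lap0 : lap (fun _ : Pl => (0 : ℝ)) = fun _ => 0 := by
  have h1 : dx (fun _ : Pl => (0 : ℝ)) = fun _ => 0 := by
    funext z
    simp [dx]
  have h2 : dy (fun _ : Pl => (0 : ℝ)) = fun _ => 0 := by
    funext z
    simp [dy]
  funext z
  simp only [lap, h1, h2, add_zero]

private lemma DC_far {f : Pl → ℝ} (R : ℝ) (hfs : tsupport f ⊆ bx 0 R) (r : ℝ) (hr : 0 < r) (hr1 : r < 1)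
    (q : ℤ × ℤ) (hc : ctr r q ∉ bx 0 (R + 3)) : (fun z => f z * th r q z) = fun _ => 0 := by
  funext z
  by_contra hne
  have hf : f z ≠ 0 := fun h => hne (by simp [h])
  have ht : th r q z ≠ 0 := fun h => hne (by simp [h])
  have h1 := hfs (subset_tsupport f hf)
  have h2 := th_supp r hr q (subset_tsupport (th r q) ht)
  refine hc ⟨?_, ?_⟩
  · have a1 := h1.1
    have a2 := h2.1
    rw [abs_lt] at a1 a2 ⊢
    exact ⟨by linarith [a1.1, a2.2], by linarith [a1.2, a2.1]⟩
  · have a1 := h1.2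
    have a2 := h2.2
    rw [abs_lt] at a1 a2 ⊢
    exact ⟨by linarith [a1.1, a2.2], by linarith [a1.2, a2.1]⟩

private lemma DC_pow (r : ℝ) (hr : 0 < r) : r ^ (7 / 4 : ℝ) * r ^ (7 / 4 : ℝ) = r ^ (7 / 2 : ℝ) := by
  rw [← Real.rpow_add hr]
  norm_num

private lemma DC_main (M : Fld I) {u g n γ : Pl → ℝ} (hu : Cc u) (hγ : Ne γ) (hn : Ne n)
    (hgn : ∀ z, g z = γ z + n z) (hd : Disjoint (tsupport u) (tsupport γ)) :
    M.L (fun i => M.X (lap u) i * Real.sin (M.X g i)) = BB M γ u n +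
      M.L (fun i => M.X (lap u) i * (Real.sin (M.X γ i + M.X n i) - Real.sin (M.X γ i) -
        M.X n i * Real.cos (M.X γ i))) := by
  have hg : g = fun z => γ z + n z := funext hgn
  have hX : ∀ i, M.X g i = M.X γ i + M.X n i := by
    intro i
    rw [hg]
    exact M.X_add γ n hγ hn i
  have ok0 : M.Ok (M.X (lap u)) := M.ok_X _ hu.ne_lap
  have ok1 : M.Ok (fun i => M.X (lap u) i * Real.sin (M.X γ i)) :=
    M.ok_mul_bdd _ _ ok0 1 fun i => Real.abs_sin_le_one _
  have ok2 : M.Ok (fun i => M.X (lap u) i * M.X n i * Real.cos (M.X γ i)) := BB_ok M hu hn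
  have okn : M.Ok (M.X n) := M.ok_X _ hn
  have ok3 : M.Ok (fun i => M.X (lap u) i * (Real.sin (M.X γ i + M.X n i) - Real.sin (M.X γ i) -
      M.X n i * Real.cos (M.X γ i))) := by
    refine M.ok_mul _ _ ok0 (M.ok_of_abs_le _ (fun i => M.X n i * M.X n i) (fun i => ?_) (M.ok_mul _ _ okn okn))
    rw [abs_mul_self]
    exact (DC_sin _ _).trans (le_of_eq (by ring))
  have e : (fun i => M.X (lap u) i * Real.sin (M.X g i)) =
      fun i => (M.X (lap u) i * Real.sin (M.X γ i) + M.X (lap u) i * M.X n i * Real.cos (M.X γ i)) +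
        M.X (lap u) i * (Real.sin (M.X γ i + M.X n i) - Real.sin (M.X γ i) -
          M.X n i * Real.cos (M.X γ i)) := by
    funext i
    rw [hX i]
    ring
  rw [e, M.L_add _ _ (M.ok_add _ _ ok1 ok2) ok3, M.L_add _ _ ok1 ok2, loc_zero M hu hγ hd, zero_add]
  rfl

/-- One cell. `R` so large that `tsupport f`, `tsupport g ⊆ bx 0 R` and `R ≥ 1`; `κ` is the constant of `contact_up` for `g` and `{R + 1 < z.2}`. With `u = f th_q`
(zero unless the centre `c` is in `bx 0 (R + 3)`), `tsupport u ⊆ bx c (2 r)`: `sin (X g) = sin (X γ + X n)` and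
`|sin (a + b) - sin a - b cos a| ≤ b²`. `L (X (lap u) sin (X γ)) = 0` (`loc_zero`), `L (X (lap u) X n cos (X γ)) = BB γ u n = -κ1 ∫ u n = -κ1 ∫ u g`, where `κ1` is the constant of
`γ` in `bx c (3 r)` (a rectangle: `contact`), and `|L (X (lap u) B)| ≤ C nrm (lap u) (nrm n)²` for `|B| ≤ (X n)²` (`hol3`). Constants: `κ2` for `γt` in
`{R + 1 < z.2}` (`contact_up`), equal to the one in the tall rectangle (`contact_tall`), hence in `bx c (3 r)`; `|κ1 - κ2| ≤ C nrm (γ - γt)`,
`|κ2 - κ| ≤ C nrm (γt - g)` by `CC_compare` (in `bx c (3 r)` resp. in a box of the upper half plane). -/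
theorem ds_cell (M : Fld I) {f g : Pl → ℝ} (hf : Cc f) (hg : Ne g) (R : ℝ) (hR : 1 ≤ R) (hfs : tsupport f ⊆ bx 0 R)
    (hgs : tsupport g ⊆ bx 0 R) (κ : ℝ) (hκ : CC M g {z | R + 1 < z.2} κ) :
    ∃ C : ℝ, 0 ≤ C ∧ ∀ r : ℝ, 0 < r → r < 1 → ∀ q : ℤ × ℤ,
      |M.L (fun i => M.X (lap (fun z => f z * th r q z)) i * Real.sin (M.X g i)) + κ * ∫ z, f z * th r q z * g z| ≤
        C * r ^ (7 / 2 : ℝ) + C * r ^ (7 / 8 : ℝ) * ∫ z, |f z * th r q z * g z| := by
  obtain ⟨C1, hC1, hcut⟩ := ds_cut hg R (by linarith) hgs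
  obtain ⟨C2, hC2, hH⟩ := M.hol3
  obtain ⟨C3, hC3, hN⟩ := nrm_cell hf
  obtain ⟨C4, hC4, hCC⟩ := CC_compare M
  have hK1 : 0 ≤ C2 * C3 * (C1 * C1) := by positivity
  have hK2 : 0 ≤ 2 * (C4 * C1) := by positivity
  refine ⟨C2 * C3 * (C1 * C1) + 2 * (C4 * C1), add_nonneg hK1 hK2, fun r hr0 hr1 q => ?_⟩
  have hp1 : 0 ≤ r ^ (7 / 2 : ℝ) := Real.rpow_nonneg hr0.le _
  have hp2 : 0 ≤ r ^ (7 / 8 : ℝ) := Real.rpow_nonneg hr0.le _
  have hI : 0 ≤ ∫ z, |f z * th r q z * g z| := integral_nonneg fun z => abs_nonneg _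
  by_cases hc : ctr r q ∈ bx 0 (R + 3)
  · have hu : Cc (fun z => f z * th r q z) := hf.mul (th_smooth r q)
    have hus : tsupport (fun z => f z * th r q z) ⊆ bx (ctr r q) (2 * r) :=
      (tsupport_mul_subset_right (f := f) (g := th r q)).trans (th_supp r hr0 q)
    obtain ⟨n, γ, γt, hn, hγ, hγt, hgn, hng, hd1, hd2, hts, e1, e2, e3⟩ := hcut r hr0 hr1 _ hc
    generalize hcdef : ctr r q = c at *
    have hc1 := abs_lt.1 hc.1
    have hc2 := abs_lt.1 hc.2
    have hz1 : (0 : Pl).1 = 0 := rfl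
    have hz2 : (0 : Pl).2 = 0 := rfl
    rw [hz1] at hc1
    rw [hz2] at hc2
    -- the three constants
    obtain ⟨κ1, hκ1⟩ := contact M hγ (c.1 - 3 * r) (c.1 + 3 * r) (c.2 - 3 * r) (c.2 + 3 * r)
      (by linarith) (by linarith) (by
        rw [DC_rect]
        exact hd1.mono_left (DC_bx c (by linarith)))
    have hκ1' : CC M γ (bx c (3 * r)) κ1 := by
      rw [DC_rect] at hκ1
      exact hκ1
    obtain ⟨κt, hκt⟩ := contact_up M hγt (R + 1) hts
    have hκt' := contact_tall M hγt (R + 1) κt hκt (c.1 - 4 * r) (c.1 + 4 * r) (c.2 - 4 * r) (R + 10)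
      (by linarith) (by linarith [hc2.2]) (by linarith) hd2
    have hκt2 : CC M γt (bx c (3 * r)) κt := by
      refine hκt'.mono fun z hz => ?_
      have b1 := abs_lt.1 hz.1
      have b2 := abs_lt.1 hz.2
      exact ⟨by linarith [b1.1], by linarith [b1.2], by linarith [b2.1], by linarith [b2.2, hc2.2]⟩
    have hsub : bx ((0, R + 3) : Pl) 1 ⊆ {z | R + 1 < z.2} := by
      intro z hz
      have b2 := abs_lt.1 hz.2
      have b3 : -1 < z.2 - (R + 3) := b2.1
      show R + 1 < z.2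
      linarith
    have hA := hCC γ γt κ1 κt c (3 * r) hγ hγt (by linarith) hκ1' hκt2
    have hB := hCC g γt κ κt (0, R + 3) 1 hg hγt one_pos (hκ.mono hsub) (hκt.mono hsub)
    have hA' : |κ1 - κt| ≤ C4 * (C1 * r ^ (7 / 8 : ℝ)) := hA.trans (mul_le_mul_of_nonneg_left e3 hC4)
    have hB' : |κ - κt| ≤ C4 * (C1 * r ^ (7 / 8 : ℝ)) := hB.trans (mul_le_mul_of_nonneg_left e2 hC4)
    have hκκ : |κ - κ1| ≤ 2 * (C4 * C1) * r ^ (7 / 8 : ℝ) := by
      have e : κ - κ1 = (κ - κt) - (κ1 - κt) := by ring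
      rw [e]
      refine (abs_sub _ _).trans ?_
      linarith
    -- the main term
    have hmain := DC_main M hu hγ hn hgn (hd1.mono_left (hus.trans (DC_bx c (by linarith))))
    have hint : (∫ z, (fun z => f z * th r q z) z * n z) = ∫ z, f z * th r q z * g z := by
      refine integral_congr_ae (Filter.Eventually.of_forall fun z => ?_)
      by_cases hz : z ∈ bx c (4 * r)
      · simp only [hng z hz]
      · have h0 : f z * th r q z = 0 := by
          have := image_eq_zero_of_notMem_tsupport (f := fun z => f z * th r q z) (x := z)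
            fun h => hz (DC_bx c (by linarith) (hus h))
          exact this
        simp only [h0, zero_mul]
    have hBB : BB M γ (fun z => f z * th r q z) n = -κ1 * ∫ z, f z * th r q z * g z := by
      rw [hκ1' _ _ hu (hus.trans (DC_bx c (by linarith))) hn, hint]
    have herr := hH (lap (fun z => f z * th r q z)) n n
      (fun i => Real.sin (M.X γ i + M.X n i) - Real.sin (M.X γ i) - M.X n i * Real.cos (M.X γ i))
      hu.ne_lap hn hn (fun i => by
        rw [abs_mul_self]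
        exact (DC_sin _ _).trans (le_of_eq (by ring)))
    have hnn := Fld.nrm_nonneg n
    have herr' : |M.L (fun i => M.X (lap (fun z => f z * th r q z)) i *
        (Real.sin (M.X γ i + M.X n i) - Real.sin (M.X γ i) - M.X n i * Real.cos (M.X γ i)))| ≤
        C2 * C3 * (C1 * C1) * r ^ (7 / 2 : ℝ) := by
      refine herr.trans ?_
      have a1 : C2 * nrm (lap (fun z => f z * th r q z)) ≤ C2 * C3 :=
        mul_le_mul_of_nonneg_left (hN r hr0 hr1.le q) hC2
      have a2 : nrm n * nrm n ≤ (C1 * r ^ (7 / 4 : ℝ)) * (C1 * r ^ (7 / 4 : ℝ)) :=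
        mul_le_mul e1 e1 hnn (mul_nonneg hC1 (Real.rpow_nonneg hr0.le _))
      calc C2 * nrm (lap (fun z => f z * th r q z)) * nrm n * nrm n
          = C2 * nrm (lap (fun z => f z * th r q z)) * (nrm n * nrm n) := by ring
        _ ≤ C2 * C3 * ((C1 * r ^ (7 / 4 : ℝ)) * (C1 * r ^ (7 / 4 : ℝ))) :=
            mul_le_mul a1 a2 (mul_nonneg hnn hnn) (mul_nonneg hC2 hC3)
        _ = C2 * C3 * (C1 * C1) * (r ^ (7 / 4 : ℝ) * r ^ (7 / 4 : ℝ)) := by ring
        _ = C2 * C3 * (C1 * C1) * r ^ (7 / 2 : ℝ) := by rw [DC_pow r hr0]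
    rw [hmain, hBB]
    have e : -κ1 * (∫ z, f z * th r q z * g z) +
        M.L (fun i => M.X (lap (fun z => f z * th r q z)) i *
          (Real.sin (M.X γ i + M.X n i) - Real.sin (M.X γ i) - M.X n i * Real.cos (M.X γ i))) +
        κ * ∫ z, f z * th r q z * g z =
        M.L (fun i => M.X (lap (fun z => f z * th r q z)) i *
          (Real.sin (M.X γ i + M.X n i) - Real.sin (M.X γ i) - M.X n i * Real.cos (M.X γ i))) +
        (κ - κ1) * ∫ z, f z * th r q z * g z := by ring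
    rw [e]
    refine (abs_add_le _ _).trans ?_
    have t1 : |(κ - κ1) * ∫ z, f z * th r q z * g z| ≤
        2 * (C4 * C1) * r ^ (7 / 8 : ℝ) * ∫ z, |f z * th r q z * g z| := by
      rw [abs_mul]
      exact mul_le_mul hκκ (abs_integral_le_integral_abs) (abs_nonneg _) (mul_nonneg hK2 hp2)
    refine (add_le_add herr' t1).trans (add_le_add ?_ ?_)
    · exact mul_le_mul_of_nonneg_right (by linarith) hp1
    · exact mul_le_mul_of_nonneg_right (mul_le_mul_of_nonneg_right (by linarith) hp2) hI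
  · have hu0 := DC_far R hfs r hr0 hr1 q hc
    have h0 : ∀ z, f z * th r q z = 0 := fun z => congrFun hu0 z
    rw [hu0, DC_lap0]
    simp only [h0, zero_mul, M.X_zero, M.L_zero, integral_zero, mul_zero, add_zero, abs_zero]
    have := mul_nonneg (add_nonneg hK1 hK2) hp1
    linarith

/-- Dyson-Schwinger equation. `κ` is the constant of `g` in `{R < z.2}` for one (hence all, `CC.mono`, `CC.unique`) `R` with `tsupport g ⊆ {z.2 < R}`. Sum `ds_cell` over the cells
(`th_sum`, `cell_count`): the error is at most `C r^(3/2) + C r^(7/8) ∫ |f g|` (`th ≥ 0`, `∑ th = 1` on the support), which tends to `0`. -/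
theorem ds (M : Fld I) {g : Pl → ℝ} (hg : Ne g) : ∃ κ : ℝ, ∀ f : Pl → ℝ, Cc f →
    M.L (fun i => M.X (lap f) i * Real.sin (M.X g i)) = -κ * ∫ z, f z * g z := by
  obtain ⟨Rg, hRg, hgs⟩ := hg.toCc.box
  obtain ⟨κ, hκ⟩ := contact_up M hg Rg fun z hz => (abs_lt.1 (hgs hz).2).2
  refine ⟨κ, fun f hf => ?_⟩
  obtain ⟨Rf, hRf, hfs⟩ := hf.box
  obtain ⟨R, hR1, hRf1, hRg1⟩ : ∃ R : ℝ, 1 ≤ R ∧ Rf ≤ R ∧ Rg ≤ R :=
    ⟨max 1 (max Rf Rg), le_max_left _ _, (le_max_left _ _).trans (le_max_right _ _),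
      (le_max_right _ _).trans (le_max_right _ _)⟩
  have hfs' : tsupport f ⊆ bx 0 R := fun z hz => by
    have h := hfs hz
    simp only [Set.mem_ofPred_eq] at h
    simp only [bx, Set.mem_ofPred_eq, Prod.fst_zero, Prod.snd_zero, sub_zero]
    exact ⟨h.1.trans_le hRf1, h.2.trans_le hRf1⟩
  have hgs' : tsupport g ⊆ bx 0 R := fun z hz => by
    have h := hgs hz
    simp only [Set.mem_ofPred_eq] at h
    simp only [bx, Set.mem_ofPred_eq, Prod.fst_zero, Prod.snd_zero, sub_zero]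
    exact ⟨h.1.trans_le hRg1, h.2.trans_le hRg1⟩
  have hκ' : CC M g {z | R + 1 < z.2} κ := hκ.mono fun z hz => by
    simp only [Set.mem_ofPred_eq] at hz ⊢
    linarith
  obtain ⟨C, hC0, hC⟩ := ds_cell M hf hg R hR1 hfs' hgs' κ hκ'
  obtain ⟨E, hE⟩ : ∃ E, E = M.L (fun i => M.X (lap f) i * Real.sin (M.X g i)) +
      κ * ∫ z, f z * g z := ⟨_, rfl⟩
  suffices h : E = 0 by
    rw [h] at hE
    linarith
  have hmain : ∀ r : ℝ, 0 < r → r < 1 →
      |E| ≤ (2 * R + 7) ^ 2 * C * r ^ (3 / 2 : ℝ) + C * r ^ (7 / 8 : ℝ) * ∫ z, |f z * g z| := by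
    intro r hr hr1
    obtain ⟨N, hN, hcard⟩ := cell_count R r (by linarith) hr hr1.le
    obtain ⟨S, hS⟩ : ∃ S : Finset (ℤ × ℤ), S = (Icc (-(N : ℤ)) N) ×ˢ (Icc (-(N : ℤ)) N) :=
      ⟨_, rfl⟩
    rw [← hS] at hcard
    have hone : ∀ z, f z ≠ 0 → ∑ q ∈ S, th r q z = 1 := by
      intro z hz
      have h := hfs' (subset_tsupport f hz)
      simp only [bx, Set.mem_ofPred_eq, Prod.fst_zero, Prod.snd_zero, sub_zero] at h
      rw [hS]
      exact th_sum R r hr N hN z ⟨h.1.le, h.2.le⟩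
    have hfsum : f = fun z => ∑ q ∈ S, f z * th r q z := by
      funext z
      rw [← Finset.mul_sum]
      by_cases hz : f z = 0
      · rw [hz, zero_mul]
      · rw [hone z hz, mul_one]
    have hcc : ∀ q, Cc (fun z => f z * th r q z) := fun q => hf.mul (th_smooth r q)
    have hlap : lap f = fun z => ∑ q ∈ S, lap (fun z => f z * th r q z) z := by
      funext z
      conv_lhs => rw [hfsum]
      exact lap_sum S (fun q z => f z * th r q z) (fun q _ => (hcc q).smooth) z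
    have hX : ∀ i, M.X (lap f) i = ∑ q ∈ S, M.X (lap (fun z => f z * th r q z)) i := by
      intro i
      rw [hlap]
      exact M.X_sum S (fun q => lap (fun z => f z * th r q z)) (fun q _ => (hcc q).ne_lap) i
    have hok : ∀ q, M.Ok (fun i => M.X (lap (fun z => f z * th r q z)) i *
        Real.sin (M.X g i)) := fun q =>
      M.ok_mul_bdd _ _ (M.ok_X _ (hcc q).ne_lap) 1 fun i => Real.abs_sin_le_one _
    have hL : M.L (fun i => M.X (lap f) i * Real.sin (M.X g i)) =
        ∑ q ∈ S, M.L (fun i => M.X (lap (fun z => f z * th r q z)) i * Real.sin (M.X g i)) := by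
      rw [← M.L_sum S _ fun q _ => hok q]
      congr 1
      funext i
      rw [hX i, Finset.sum_mul]
    have hint : ∀ q, Integrable fun z => f z * th r q z * g z := fun q =>
      ((hcc q).mul hg.smooth).integrable
    have hI : ∫ z, f z * g z = ∑ q ∈ S, ∫ z, f z * th r q z * g z := by
      rw [← integral_finsetSum S fun q _ => hint q]
      congr 1
      funext z
      rw [← Finset.sum_mul]
      conv_lhs => rw [hfsum]
    have hIa : ∫ z, |f z * g z| = ∑ q ∈ S, ∫ z, |f z * th r q z * g z| := by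
      rw [← integral_finsetSum S fun q _ => (hint q).abs]
      congr 1
      funext z
      have h1 : ∀ q, |f z * th r q z * g z| = |f z * g z| * th r q z := by
        intro q
        rw [abs_mul, abs_mul, abs_mul, abs_of_nonneg (th_nonneg r q z)]
        ring
      rw [Finset.sum_congr rfl fun q _ => h1 q, ← Finset.mul_sum]
      by_cases hz : f z = 0
      · simp [hz]
      · rw [hone z hz, mul_one]
    have hsum : E = ∑ q ∈ S, (M.L (fun i => M.X (lap (fun z => f z * th r q z)) i *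
        Real.sin (M.X g i)) + κ * ∫ z, f z * th r q z * g z) := by
      rw [hE, hL, hI, Finset.sum_add_distrib, Finset.mul_sum]
    have hpow : r ^ (7 / 2 : ℝ) / r ^ 2 = r ^ (3 / 2 : ℝ) := by
      rw [div_eq_iff (by positivity), ← Real.rpow_natCast r 2, ← Real.rpow_add hr]
      norm_num
    calc |E| ≤ ∑ q ∈ S, |M.L (fun i => M.X (lap (fun z => f z * th r q z)) i *
          Real.sin (M.X g i)) + κ * ∫ z, f z * th r q z * g z| := by
          rw [hsum]
          exact Finset.abs_sum_le_sum_abs _ _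
      _ ≤ ∑ q ∈ S, (C * r ^ (7 / 2 : ℝ) + C * r ^ (7 / 8 : ℝ) * ∫ z, |f z * th r q z * g z|) :=
          Finset.sum_le_sum fun q _ => hC r hr hr1 q
      _ = S.card * (C * r ^ (7 / 2 : ℝ)) + C * r ^ (7 / 8 : ℝ) * ∫ z, |f z * g z| := by
          rw [Finset.sum_add_distrib, Finset.sum_const, nsmul_eq_mul, ← Finset.mul_sum, ← hIa]
      _ ≤ (2 * R + 7) ^ 2 / r ^ 2 * (C * r ^ (7 / 2 : ℝ)) +
          C * r ^ (7 / 8 : ℝ) * ∫ z, |f z * g z| := by
          have h1 : 0 ≤ C * r ^ (7 / 2 : ℝ) := mul_nonneg hC0 (Real.rpow_nonneg hr.le _)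
          have h2 := mul_le_mul_of_nonneg_right hcard h1
          linarith
      _ = (2 * R + 7) ^ 2 * C * r ^ (3 / 2 : ℝ) + C * r ^ (7 / 8 : ℝ) * ∫ z, |f z * g z| := by
          rw [← hpow]
          ring
  have hlim : Filter.Tendsto (fun r : ℝ => (2 * R + 7) ^ 2 * C * r ^ (3 / 2 : ℝ) +
      C * r ^ (7 / 8 : ℝ) * ∫ z, |f z * g z|) (nhdsWithin 0 (Set.Ioi 0)) (nhds 0) := by
    have h1 : ∀ a : ℝ, 0 < a → Filter.Tendsto (fun r : ℝ => r ^ a) (nhdsWithin 0 (Set.Ioi 0))
        (nhds 0) := by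
      intro a ha
      have h2 := (Real.continuousAt_rpow_const 0 a (Or.inr ha.le)).tendsto
      rw [Real.zero_rpow ha.ne'] at h2
      exact h2.mono_left nhdsWithin_le_nhds
    have h3 := ((h1 (3 / 2) (by norm_num)).const_mul ((2 * R + 7) ^ 2 * C)).add
      (((h1 (7 / 8) (by norm_num)).const_mul C).mul_const (∫ z, |f z * g z|))
    simpa using h3
  have h0 : |E| ≤ 0 := by
    refine ge_of_tendsto hlim ?_
    filter_upwards [Ioo_mem_nhdsGT (zero_lt_one' ℝ)] with r hr
    exact hmain r hr.1 hr.2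
  exact abs_nonpos_iff.1 h0

end GF
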