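import Pool.Agent.Helper27.GF.Cal2
import Pool.Agent.Helper97.EN.Glue

/-!
En (project GF, MP_973bc8_pr).  The energy form: fundamental solution, and the norm of small functions.
-/

open MeasureTheory

namespace GF

/-- `(1 / (2 π)) log |x|` is the fundamental solution of the Laplacian. -/
theorem energy2_lap {g F : Pl → ℝ} (hg : Cc g) (hF : Cc F) : energy2 (lap g) F = -∫ z, g z * F z :=
  energy2_lap_left hg hF

/-- Norm of small functions, from the logarithmic kernel. -/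
theorem nrm_le (R A : ℝ) : ∃ C : ℝ, 0 ≤ C ∧ ∀ F : Pl → ℝ, Cc F → tsupport F ⊆ bx 0 R → (∀ z, |F z| ≤ A) →
    nrm F ≤ C * (∫ z, |F z|) ^ (7 / 8 : ℝ) := by
  obtain ⟨C, hC, h⟩ := nrm_le_l1 R A
  refine ⟨C, hC, fun F hF hs hA => h F hF (fun z hz => ?_) hA⟩
  by_contra hne
  have h1 : z ∈ bx 0 R := hs (subset_tsupport _ hne)
  simp only [bx, Set.mem_ofPred_eq, Prod.fst_zero, Prod.snd_zero, sub_zero] at h1
  exact hz ⟨⟨(abs_lt.1 h1.1).1.le, (abs_lt.1 h1.1).2.le⟩, ⟨(abs_lt.1 h1.2).1.le, (abs_lt.1 h1.2).2.le⟩⟩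

end GF
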