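import Pool.Agent.Helper27.GF.En

/-!
En2 (project GF, MP_973bc8_pr).  Consequences for the norm.
-/

open MeasureTheory

namespace GF

/-- `energy2 (lap u) (lap u) = -∫ u lap u ≤ 4 r² A B` (`energy2_lap`), `∫ |lap u| ≤ 4 r² B` (`int_abs_box`). -/
theorem nrm_lap_le {u : Pl → ℝ} (hu : Cc u) (c : Pl) (r A B : ℝ) (hr : 0 ≤ r) (hA : ∀ z, |u z| ≤ A)
    (hB : ∀ z, |lap u z| ≤ B) (hs : tsupport u ⊆ bx c r) :
    nrm (lap u) ≤ 2 * r * Real.sqrt (A * B) + 4 * r ^ 2 * B := by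
  have hl : Cc (lap u) := hu.ne_lap.toCc
  have hA0 : 0 ≤ A := (abs_nonneg _).trans (hA 0)
  have hB0 : 0 ≤ B := (abs_nonneg _).trans (hB 0)
  have h1 : ∫ z, |lap u z| ≤ 4 * r ^ 2 * B :=
    int_abs_box hl c r B hr hB ((tsupport_lap u).trans hs)
  have hm : Cc (fun z => u z * lap u z) := hu.mul (smooth_lap hu.smooth)
  have h2 : ∫ z, |u z * lap u z| ≤ 4 * r ^ 2 * (A * B) := by
    refine int_abs_box hm c r (A * B) hr (fun z => ?_) ?_
    · rw [abs_mul]
      exact mul_le_mul (hA z) (hB z) (abs_nonneg _) hA0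
    · refine Set.Subset.trans ?_ hs
      refine closure_mono fun z hz h0 => hz ?_
      change u z * lap u z = 0
      rw [h0, zero_mul]
  have h3 : energy2 (lap u) (lap u) ≤ (2 * r * Real.sqrt (A * B)) ^ 2 := by
    rw [energy2_lap hu hl, mul_pow, Real.sq_sqrt (mul_nonneg hA0 hB0)]
    have h4 : |∫ z, u z * lap u z| ≤ ∫ z, |u z * lap u z| := abs_integral_le_integral_abs
    have h5 := neg_abs_le (∫ z, u z * lap u z)
    nlinarith
  unfold nrm
  exact add_le_add (Real.sqrt_le_iff.2 ⟨by positivity, h3⟩) h1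

/-- Neutralised functions: `nrm_le` for `G - (∫ G) k`, whose support is in a fixed box, which is bounded by `A + 4 R² A sup |k|`, and whose `L¹` norm
is at most `(1 + ∫ |k|) ∫ |G|`. -/
theorem nrm_neutral (R A : ℝ) (hR : 0 ≤ R) (hA : 0 ≤ A) (k : Pl → ℝ) (hk : Cc k) (hk1 : ∫ z, k z = 1) :
    ∃ C : ℝ, 0 ≤ C ∧ ∀ G : Pl → ℝ, Cc G → tsupport G ⊆ bx 0 R → (∀ z, |G z| ≤ A) →
      nrm (fun z => G z - (∫ w, G w) * k z) ≤ C * (∫ z, |G z|) ^ (7 / 8 : ℝ) := by
  obtain ⟨Rk, hRk0, hRk⟩ := hk.box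
  obtain ⟨K, hK0, hK⟩ := hk.bdd
  obtain ⟨C1, hC10, hC1⟩ := nrm_le (max R Rk) (A + 4 * R ^ 2 * A * K)
  set κ : ℝ := ∫ z, |k z| with hκ
  have hκ0 : 0 ≤ κ := integral_nonneg fun z => abs_nonneg _
  refine ⟨C1 * (1 + κ) ^ (7 / 8 : ℝ), by positivity, fun G hG hGs hGA => ?_⟩
  set c : ℝ := ∫ w, G w with hc
  have hI : |c| ≤ ∫ z, |G z| := abs_integral_le_integral_abs
  have hI0 : 0 ≤ ∫ z, |G z| := integral_nonneg fun z => abs_nonneg _
  have hI1 : ∫ z, |G z| ≤ 4 * R ^ 2 * A := int_abs_box hG 0 R A hR hGA hGs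
  have hF : Cc (fun z => G z - c * k z) := hG.sub (hk.smul c)
  have hFs : tsupport (fun z => G z - c * k z) ⊆ bx 0 (max R Rk) := by
    have h1 : tsupport (fun z => G z - c * k z) ⊆ tsupport G ∪ tsupport k := by
      refine closure_minimal (fun z hz => ?_) ((isClosed_tsupport _).union (isClosed_tsupport _))
      by_contra h
      rw [Set.mem_union, not_or] at h
      apply hz
      change G z - c * k z = 0
      rw [image_eq_zero_of_notMem_tsupport h.1, image_eq_zero_of_notMem_tsupport h.2]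
      ring
    refine h1.trans (Set.union_subset (fun z hz => ?_) fun z hz => ?_)
    · have h2 := hGs hz
      exact ⟨lt_of_lt_of_le h2.1 (le_max_left _ _), lt_of_lt_of_le h2.2 (le_max_left _ _)⟩
    · have h2 := hRk hz
      refine ⟨?_, ?_⟩
      · rw [show (0 : Pl).1 = 0 from rfl, sub_zero]
        exact lt_of_lt_of_le h2.1 (le_max_right _ _)
      · rw [show (0 : Pl).2 = 0 from rfl, sub_zero]
        exact lt_of_lt_of_le h2.2 (le_max_right _ _)
  have hFA : ∀ z, |G z - c * k z| ≤ A + 4 * R ^ 2 * A * K := by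
    intro z
    refine (abs_sub _ _).trans (add_le_add (hGA z) ?_)
    rw [abs_mul]
    exact mul_le_mul (hI.trans hI1) (hK z) (abs_nonneg _) (by positivity)
  refine (hC1 _ hF hFs hFA).trans ?_
  rw [mul_assoc, ← Real.mul_rpow (by positivity) hI0]
  refine mul_le_mul_of_nonneg_left ?_ hC10
  refine Real.rpow_le_rpow (integral_nonneg fun z => abs_nonneg _) ?_ (by norm_num)
  have h3 : ∫ z, |G z - c * k z| ≤ ∫ z, (|G z| + |c| * |k z|) := by
    refine integral_mono hF.integrable.abs (hG.integrable.abs.add (hk.integrable.abs.const_mul _))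
      fun z => ?_
    change |G z - c * k z| ≤ |G z| + |c| * |k z|
    rw [← abs_mul]
    exact abs_sub _ _
  refine h3.trans ?_
  rw [integral_add hG.integrable.abs (hk.integrable.abs.const_mul _), integral_const_mul, ← hκ]
  nlinarith

private lemma cell_norm {u : Pl → ℝ} (hu : Cc u) (c : Pl) (r s D : ℝ) (hr : 0 < r) (hs : 0 ≤ s)
    (hD : 0 ≤ D) (h1 : ∀ z, |u z| ≤ D * s) (h2 : ∀ z, |lap u z| ≤ D * s / r ^ 2)
    (h3 : tsupport u ⊆ bx c (2 * r)) : nrm (lap u) ≤ 20 * D * s := by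
  have h := nrm_lap_le hu c (2 * r) (D * s) (D * s / r ^ 2) (by positivity) h1 h2 h3
  have e : D * s * (D * s / r ^ 2) = (D * s / r) ^ 2 := by
    field_simp
  rw [e, Real.sqrt_sq (by positivity)] at h
  refine h.trans (le_of_eq ?_)
  field_simp
  ring

private lemma cell_prod {C0 : ℝ} (hC0 : 0 ≤ C0) {g : Pl → ℝ} (hg : Cc g) (r s D : ℝ) (q : ℤ × ℤ)
    (hth : ∀ z : Pl, |dx (th r q) z| ≤ C0 / r ∧ |dy (th r q) z| ≤ C0 / r ∧ |lap (th r q) z| ≤ C0 / r ^ 2)
    (hr : 0 < r) (hr1 : r ≤ 1) (hs : r ≤ s) (hD : 0 ≤ D)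
    (h0 : ∀ z ∈ tsupport (th r q), |g z| ≤ D * s) (h1 : ∀ z, |dx g z| ≤ D) (h2 : ∀ z, |dy g z| ≤ D)
    (h3 : ∀ z, |lap g z| ≤ D) :
    nrm (lap (fun z => g z * th r q z)) ≤ 20 * (D * (1 + 5 * C0)) * s := by
  have hs0 : 0 ≤ s := hr.le.trans hs
  have hu : Cc (fun z => g z * th r q z) := hg.mul (th_smooth r q)
  have hDs : 0 ≤ D * s := mul_nonneg hD hs0
  refine cell_norm hu (ctr r q) r s (D * (1 + 5 * C0)) hr hs0 (by positivity) (fun z => ?_)
    (fun z => ?_) ?_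
  · by_cases hz : z ∈ tsupport (th r q)
    · rw [abs_mul, abs_of_nonneg (th_nonneg r q z)]
      have h4 := h0 z hz
      have h5 := th_le_one r q z
      have h6 := th_nonneg r q z
      have h7 : |g z| * th r q z ≤ D * s * 1 := mul_le_mul h4 h5 h6 hDs
      have h8 : 0 ≤ D * s * C0 := mul_nonneg hDs hC0
      nlinarith
    · rw [image_eq_zero_of_notMem_tsupport hz, mul_zero, abs_zero]
      positivity
  · by_cases hz : z ∈ tsupport (th r q)
    · rw [lap_mul hg.smooth (th_smooth r q)]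
      obtain ⟨t1, t2, t3⟩ := hth z
      have h4 : |g z * lap (th r q) z| ≤ D * s * (C0 / r ^ 2) := by
        rw [abs_mul]
        exact mul_le_mul (h0 z hz) t3 (abs_nonneg _) hDs
      have h5 : |th r q z * lap g z| ≤ 1 * D := by
        rw [abs_mul, abs_of_nonneg (th_nonneg r q z)]
        exact mul_le_mul (th_le_one r q z) (h3 z) (abs_nonneg _) zero_le_one
      have h6 : |dx g z * dx (th r q) z| ≤ D * (C0 / r) := by
        rw [abs_mul]
        exact mul_le_mul (h1 z) t1 (abs_nonneg _) hD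
      have h7 : |dy g z * dy (th r q) z| ≤ D * (C0 / r) := by
        rw [abs_mul]
        exact mul_le_mul (h2 z) t2 (abs_nonneg _) hD
      have h8 : |2 * (dx g z * dx (th r q) z + dy g z * dy (th r q) z)| ≤ 4 * (D * (C0 / r)) := by
        rw [abs_mul, abs_two]
        have := abs_add_le (dx g z * dx (th r q) z) (dy g z * dy (th r q) z)
        linarith
      have h9 : |g z * lap (th r q) z + th r q z * lap g z +
          2 * (dx g z * dx (th r q) z + dy g z * dy (th r q) z)| ≤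
          D * s * (C0 / r ^ 2) + 1 * D + 4 * (D * (C0 / r)) := by
        refine (abs_add_le _ _).trans (add_le_add ((abs_add_le _ _).trans (add_le_add h4 h5)) h8)
      refine h9.trans ?_
      rw [le_div_iff₀ (by positivity)]
      have e : (D * s * (C0 / r ^ 2) + 1 * D + 4 * (D * (C0 / r))) * r ^ 2 =
          D * s * C0 + D * r ^ 2 + 4 * (D * C0) * r := by
        field_simp
      rw [e]
      have h10 : r ^ 2 ≤ s := by nlinarith
      have h11 : D * r ^ 2 ≤ D * s := mul_le_mul_of_nonneg_left h10 hD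
      have h12 : D * C0 * r ≤ D * C0 * s := mul_le_mul_of_nonneg_left hs (mul_nonneg hD hC0)
      nlinarith
    · have h4 : z ∉ tsupport (lap (fun z => g z * th r q z)) := fun h =>
        hz (closure_mono (fun w hw => right_ne_zero_of_mul hw) (tsupport_lap _ h))
      rw [image_eq_zero_of_notMem_tsupport h4, abs_zero]
      positivity
  · exact (closure_mono fun w hw => right_ne_zero_of_mul hw).trans (th_supp r hr q)

/-- Cells: `u = f th_q` satisfies `|u| ≤ C`, `|lap u| ≤ C / r²` (`lap_mul`, `th_bound`, bounds of `f`, `dx f`, `dy f`, `lap f`) and has its support in a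
box of half side `2 r`: `nrm_lap_le`. -/
theorem nrm_cell {f : Pl → ℝ} (hf : Cc f) : ∃ C : ℝ, 0 ≤ C ∧ ∀ r : ℝ, 0 < r → r ≤ 1 → ∀ q : ℤ × ℤ,
    nrm (lap (fun z => f z * th r q z)) ≤ C := by
  obtain ⟨C0, hC0, hth⟩ := th_bound
  obtain ⟨M0, hM0, h0⟩ := hf.bdd
  obtain ⟨M1, hM1, h1⟩ := (hf.ne_dx.toCc).bdd
  obtain ⟨M2, hM2, h2⟩ := (hf.ne_dy.toCc).bdd
  obtain ⟨M3, hM3, h3⟩ := (hf.ne_lap.toCc).bdd
  refine ⟨20 * ((M0 + M1 + M2 + M3) * (1 + 5 * C0)) * 1, by positivity, fun r hr hr1 q => ?_⟩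
  exact cell_prod hC0 hf r 1 (M0 + M1 + M2 + M3) q (fun z => hth r hr q z) hr hr1 hr1 (by positivity)
    (fun z _ => by linarith [h0 z]) (fun z => by linarith [h1 z]) (fun z => by linarith [h2 z])
    (fun z => by linarith [h3 z])

/-- The same for `u = f (F - F (ctr)) th_q`: `h = f (F - F (ctr))` satisfies `|h| ≤ C r` on the support of `th_q`, and `|dx h|, |dy h|, |lap h| ≤ C`
(constants uniform in `q`), so `|u| ≤ C r` and `|lap u| ≤ C / r`, and `nrm (lap u) ≤ C r`. -/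
theorem nrm_cell2 {f F : Pl → ℝ} (hf : Cc f) (hF : Cc F) : ∃ C : ℝ, 0 ≤ C ∧ ∀ r : ℝ, 0 < r → r ≤ 1 → ∀ q : ℤ × ℤ,
    nrm (lap (fun z => f z * (F z - F (ctr r q)) * th r q z)) ≤ C * r := by
  obtain ⟨C0, hC0, hth⟩ := th_bound
  obtain ⟨M0, hM0, h0⟩ := hf.bdd
  obtain ⟨M1, hM1, h1⟩ := (hf.ne_dx.toCc).bdd
  obtain ⟨M2, hM2, h2⟩ := (hf.ne_dy.toCc).bdd
  obtain ⟨M3, hM3, h3⟩ := (hf.ne_lap.toCc).bdd
  obtain ⟨N0, hN0, k0⟩ := hF.bdd
  obtain ⟨N1, hN1, k1⟩ := (hF.ne_dx.toCc).bdd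
  obtain ⟨N2, hN2, k2⟩ := (hF.ne_dy.toCc).bdd
  obtain ⟨N3, hN3, k3⟩ := (hF.ne_lap.toCc).bdd
  obtain ⟨Lp, hLp, hlip⟩ := hF.lip
  set D : ℝ := M0 * (2 * Lp) + (M0 * N1 + 2 * N0 * M1) + (M0 * N2 + 2 * N0 * M2) +
    (M0 * N3 + 2 * N0 * M3 + 2 * (M1 * N1 + M2 * N2)) with hD
  have hD0 : 0 ≤ D := by positivity
  refine ⟨20 * (D * (1 + 5 * C0)), by positivity, fun r hr hr1 q => ?_⟩
  set c : ℝ := F (ctr r q) with hc
  have hG : ContDiff ℝ (⊤ : ℕ∞) (fun z => F z - c) := hF.smooth.sub contDiff_const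
  have hGb : ∀ z, |F z - c| ≤ 2 * N0 := fun z => by
    have := abs_sub (F z) c
    have := k0 z
    have := k0 (ctr r q)
    linarith
  have ex : ∀ z, dx (fun z => F z - c) z = dx F z := fun z => by
    unfold GF.dx
    rw [fderiv_sub_const]
  have ey : ∀ z, dy (fun z => F z - c) z = dy F z := fun z => by
    unfold GF.dy
    rw [fderiv_sub_const]
  have el : ∀ z, lap (fun z => F z - c) z = lap F z := fun z => by
    rw [lap_sub hF.smooth contDiff_const, lap_const, sub_zero]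
  have hg : Cc (fun z => f z * (F z - c)) := hf.mul hG
  refine cell_prod hC0 hg r r D q (fun z => hth r hr q z) hr hr1 le_rfl hD0 (fun z hz => ?_)
    (fun z => ?_) (fun z => ?_) (fun z => ?_)
  · have h4 := th_supp' r hr q hz
    have h5 : |F z - c| ≤ Lp * (2 * r) := by
      refine (hlip z (ctr r q)).trans (mul_le_mul_of_nonneg_left ?_ hLp)
      linarith [h4.1, h4.2]
    rw [abs_mul]
    have h6 : |f z| * |F z - c| ≤ M0 * (Lp * (2 * r)) := mul_le_mul (h0 z) h5 (abs_nonneg _) hM0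
    have h7 : M0 * (2 * Lp) ≤ D := by
      rw [hD]
      have : 0 ≤ (M0 * N1 + 2 * N0 * M1) + (M0 * N2 + 2 * N0 * M2) +
        (M0 * N3 + 2 * N0 * M3 + 2 * (M1 * N1 + M2 * N2)) := by positivity
      linarith
    have h8 : M0 * (2 * Lp) * r ≤ D * r := mul_le_mul_of_nonneg_right h7 hr.le
    linarith
  · rw [dx_mul hf.smooth hG, ex]
    have h4 : |f z * dx F z| ≤ M0 * N1 := by
      rw [abs_mul]
      exact mul_le_mul (h0 z) (k1 z) (abs_nonneg _) hM0
    have h5 : |(F z - c) * dx f z| ≤ 2 * N0 * M1 := by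
      rw [abs_mul]
      exact mul_le_mul (hGb z) (h1 z) (abs_nonneg _) (by positivity)
    have h6 := abs_add_le (f z * dx F z) ((F z - c) * dx f z)
    have h7 : 0 ≤ M0 * (2 * Lp) + (M0 * N2 + 2 * N0 * M2) +
      (M0 * N3 + 2 * N0 * M3 + 2 * (M1 * N1 + M2 * N2)) := by positivity
    rw [hD]
    linarith
  · rw [dy_mul hf.smooth hG, ey]
    have h4 : |f z * dy F z| ≤ M0 * N2 := by
      rw [abs_mul]
      exact mul_le_mul (h0 z) (k2 z) (abs_nonneg _) hM0
    have h5 : |(F z - c) * dy f z| ≤ 2 * N0 * M2 := by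
      rw [abs_mul]
      exact mul_le_mul (hGb z) (h2 z) (abs_nonneg _) (by positivity)
    have h6 := abs_add_le (f z * dy F z) ((F z - c) * dy f z)
    have h7 : 0 ≤ M0 * (2 * Lp) + (M0 * N1 + 2 * N0 * M1) +
      (M0 * N3 + 2 * N0 * M3 + 2 * (M1 * N1 + M2 * N2)) := by positivity
    rw [hD]
    linarith
  · rw [lap_mul hf.smooth hG, ex, ey, el]
    have h4 : |f z * lap F z| ≤ M0 * N3 := by
      rw [abs_mul]
      exact mul_le_mul (h0 z) (k3 z) (abs_nonneg _) hM0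
    have h5 : |(F z - c) * lap f z| ≤ 2 * N0 * M3 := by
      rw [abs_mul]
      exact mul_le_mul (hGb z) (h3 z) (abs_nonneg _) (by positivity)
    have h6 : |dx f z * dx F z| ≤ M1 * N1 := by
      rw [abs_mul]
      exact mul_le_mul (h1 z) (k1 z) (abs_nonneg _) hM1
    have h7 : |dy f z * dy F z| ≤ M2 * N2 := by
      rw [abs_mul]
      exact mul_le_mul (h2 z) (k2 z) (abs_nonneg _) hM2
    have h8 : |2 * (dx f z * dx F z + dy f z * dy F z)| ≤ 2 * (M1 * N1 + M2 * N2) := by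
      rw [abs_mul, abs_two]
      have := abs_add_le (dx f z * dx F z) (dy f z * dy F z)
      linarith
    have h9 : |f z * lap F z + (F z - c) * lap f z + 2 * (dx f z * dx F z + dy f z * dy F z)| ≤
        M0 * N3 + 2 * N0 * M3 + 2 * (M1 * N1 + M2 * N2) :=
      (abs_add_le _ _).trans (add_le_add ((abs_add_le _ _).trans (add_le_add h4 h5)) h8)
    have h10 : 0 ≤ M0 * (2 * Lp) + (M0 * N1 + 2 * N0 * M1) + (M0 * N2 + 2 * N0 * M2) := by positivity
    rw [hD]
    linarith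

private lemma SB_tsupport {b0 : Pl → ℝ} (hb : Cc b0) (c : Pl) (r : ℝ) (hr : 0 < r) :
    tsupport (fun z : Pl => b0 ((z.1 - c.1) / r, (z.2 - c.2) / r)) ⊆
      (fun w : Pl => ((c.1 + r * w.1, c.2 + r * w.2) : Pl)) '' tsupport b0 := by
  have hcomp : IsCompact ((fun w : Pl => ((c.1 + r * w.1, c.2 + r * w.2) : Pl)) '' tsupport b0) :=
    hb.supp.isCompact.image (by fun_prop)
  refine closure_minimal ?_ hcomp.isClosed
  intro z hz
  refine ⟨((z.1 - c.1) / r, (z.2 - c.2) / r), subset_tsupport _ hz, ?_⟩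
  have h1 : c.1 + r * ((z.1 - c.1) / r) = z.1 := by
    field_simp
    ring
  have h2 : c.2 + r * ((z.2 - c.2) / r) = z.2 := by
    field_simp
    ring
  exact Prod.ext h1 h2

private lemma SB_cc {b0 : Pl → ℝ} (hb : Cc b0) (c : Pl) (r : ℝ) (hr : 0 < r) :
    Cc (fun z : Pl => b0 ((z.1 - c.1) / r, (z.2 - c.2) / r)) := by
  refine ⟨?_, ?_⟩
  · have h : ContDiff ℝ (⊤ : ℕ∞) (fun z : Pl => (((z.1 - c.1) / r, (z.2 - c.2) / r) : Pl)) := by
      fun_prop
    exact hb.smooth.comp h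
  · have hcomp : IsCompact ((fun w : Pl => ((c.1 + r * w.1, c.2 + r * w.2) : Pl)) '' tsupport b0) :=
      hb.supp.isCompact.image (by fun_prop)
    exact hcomp.of_isClosed_subset (isClosed_tsupport _) (SB_tsupport hb c r hr)

private lemma SB_int (F : Pl → ℝ) (c : Pl) (r : ℝ) (hr : 0 < r) :
    ∫ z : Pl, F ((z.1 - c.1) / r, (z.2 - c.2) / r) = r ^ 2 * ∫ z, F z := by
  have h1 : (fun z : Pl => F ((z.1 - c.1) / r, (z.2 - c.2) / r)) =
      fun z : Pl => (fun w : Pl => F (r⁻¹ • w)) (z - c) := by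
    funext z
    have : r⁻¹ • (z - c) = (((z.1 - c.1) / r, (z.2 - c.2) / r) : Pl) := by
      refine Prod.ext ?_ ?_
      · simp only [Prod.smul_fst, Prod.fst_sub, smul_eq_mul]
        rw [div_eq_inv_mul]
      · simp only [Prod.smul_snd, Prod.snd_sub, smul_eq_mul]
        rw [div_eq_inv_mul]
    simp only [this]
  rw [h1, integral_sub_right_eq_self (fun w : Pl => F (r⁻¹ • w)) c,
    Measure.integral_comp_inv_smul]
  have hf : Module.finrank ℝ Pl = 2 := by simp [Pl]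
  rw [hf, abs_of_pos (by positivity), smul_eq_mul]

/-- Scaled bump: `b z = b0 ((z - c) / r)`: `∫ b lap b = ∫ b0 lap b0` (`lap_scale`, change of variables) and `nrm (lap b) ≤ C` by `nrm_lap_le`. -/
theorem scaled_bump {b0 : Pl → ℝ} (hb : Cc b0) (hs : tsupport b0 ⊆ bx 0 1) : ∃ C : ℝ, 0 ≤ C ∧ ∀ (c : Pl) (r : ℝ), 0 < r →
    Cc (fun z => b0 ((z.1 - c.1) / r, (z.2 - c.2) / r)) ∧
    tsupport (fun z : Pl => b0 ((z.1 - c.1) / r, (z.2 - c.2) / r)) ⊆ bx c r ∧
    ∫ z : Pl, b0 ((z.1 - c.1) / r, (z.2 - c.2) / r) * lap (fun z => b0 ((z.1 - c.1) / r, (z.2 - c.2) / r)) z =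
      ∫ z, b0 z * lap b0 z ∧
    nrm (lap (fun z => b0 ((z.1 - c.1) / r, (z.2 - c.2) / r))) ≤ C := by
  obtain ⟨A, hA0, hA⟩ := hb.bdd
  obtain ⟨B, hB0, hB⟩ := hb.ne_lap.toCc.bdd
  refine ⟨2 * Real.sqrt (A * B) + 4 * B, by positivity, fun c r hr => ?_⟩
  have hcc := SB_cc hb c r hr
  have hlap : ∀ z : Pl, lap (fun z => b0 ((z.1 - c.1) / r, (z.2 - c.2) / r)) z =
      lap b0 ((z.1 - c.1) / r, (z.2 - c.2) / r) / r ^ 2 :=
    fun z => lap_scale r hr.ne' c hb.smooth z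
  have hsupp : tsupport (fun z : Pl => b0 ((z.1 - c.1) / r, (z.2 - c.2) / r)) ⊆ bx c r := by
    refine (SB_tsupport hb c r hr).trans ?_
    rintro _ ⟨w, hw, rfl⟩
    have h1 := hs hw
    simp only [bx, Set.mem_ofPred_eq, Prod.fst_zero, Prod.snd_zero, sub_zero] at h1
    simp only [bx, Set.mem_ofPred_eq, add_sub_cancel_left, abs_mul, abs_of_pos hr]
    constructor
    · nlinarith [h1.1]
    · nlinarith [h1.2]
  refine ⟨hcc, hsupp, ?_, ?_⟩
  · have h1 : (fun z : Pl => b0 ((z.1 - c.1) / r, (z.2 - c.2) / r) *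
        lap (fun z => b0 ((z.1 - c.1) / r, (z.2 - c.2) / r)) z) =
        fun z : Pl => (fun w : Pl => b0 w * lap b0 w / r ^ 2) ((z.1 - c.1) / r, (z.2 - c.2) / r) := by
      funext z
      rw [hlap z]
      ring
    rw [h1, SB_int (fun w : Pl => b0 w * lap b0 w / r ^ 2) c r hr, integral_div]
    field_simp
  · have h1 := nrm_lap_le hcc c r A (B / r ^ 2) hr.le (fun z => hA _) (fun z => by
      rw [hlap z, abs_div, abs_of_pos (by positivity : (0 : ℝ) < r ^ 2)]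
      exact div_le_div_of_nonneg_right (hB _) (by positivity)) hsupp
    have h2 : Real.sqrt (A * (B / r ^ 2)) = Real.sqrt (A * B) / r := by
      rw [← mul_div_assoc, Real.sqrt_div (by positivity), Real.sqrt_sq hr.le]
    rw [h2] at h1
    have h3 : 2 * r * (Real.sqrt (A * B) / r) + 4 * r ^ 2 * (B / r ^ 2) =
        2 * Real.sqrt (A * B) + 4 * B := by
      field_simp
    rw [h3] at h1
    exact h1

end GF
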