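import Pool.Agent.Helper27.GF.Lm

/-!
Hol (project GF, MP_973bc8_pr).  Elementary lemmas on the structure `Fld`.
-/

open Finset

namespace GF

variable {I : Type}

lemma ne_zero_fun : Ne (fun _ : Pl => (0 : ℝ)) := by
  refine ⟨⟨contDiff_const, HasCompactSupport.zero⟩, ?_⟩
  simp

private lemma Hol_int {f : Pl → ℝ} (hf : Cc f) : MeasureTheory.Integrable f :=
  hf.smooth.continuous.integrable_of_hasCompactSupport hf.supp

private lemma Hol_neg {f : Pl → ℝ} (hf : Ne f) : Ne (fun z => -f z) := by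
  refine ⟨⟨hf.smooth.neg, hf.supp.neg⟩, ?_⟩
  rw [MeasureTheory.integral_neg, hf.zero, neg_zero]

private lemma Hol_add {f g : Pl → ℝ} (hf : Ne f) (hg : Ne g) : Ne (fun z => f z + g z) := by
  refine ⟨⟨hf.smooth.add hg.smooth, hf.supp.add hg.supp⟩, ?_⟩
  rw [MeasureTheory.integral_add (Hol_int hf.toCc) (Hol_int hg.toCc), hf.zero, hg.zero, add_zero]

private lemma Hol_sum {α : Type} (s : Finset α) (f : α → Pl → ℝ) (hf : ∀ a ∈ s, Ne (f a)) :
    Ne (fun z => ∑ a ∈ s, f a z) := by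
  classical
  induction s using Finset.induction_on with
  | empty => simpa using ne_zero_fun
  | insert a s ha ih =>
    simp only [Finset.sum_insert ha]
    exact Hol_add (hf a (Finset.mem_insert_self a s))
      (ih fun b hb => hf b (Finset.mem_insert_of_mem hb))

private lemma Hol_prod_le {n : ℕ} (hn : 0 < n) (a : Fin n → ℝ) (ha : ∀ j, 0 ≤ a j) :
    ∏ j, a j ≤ ∑ j, a j ^ n := by
  have hne : (Finset.univ : Finset (Fin n)).Nonempty := ⟨⟨0, hn⟩, Finset.mem_univ _⟩
  obtain ⟨j₀, -, hj₀⟩ := Finset.exists_max_image Finset.univ a hne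
  calc ∏ j, a j ≤ ∏ _j : Fin n, a j₀ :=
        Finset.prod_le_prod (fun j _ => ha j) (fun j hj => hj₀ j hj)
    _ = a j₀ ^ n := by rw [Finset.prod_const, Finset.card_univ, Fintype.card_fin]
    _ ≤ ∑ j, a j ^ n := Finset.single_le_sum (f := fun j => a j ^ n)
        (fun j _ => pow_nonneg (ha j) n) (Finset.mem_univ j₀)

namespace Fld

variable (M : Fld I)

lemma X_zero (i : I) : M.X (fun _ => 0) i = 0 := by
  have h := M.X_smul 0 (fun _ => 0) ne_zero_fun i
  simpa using h

lemma X_neg (f : Pl → ℝ) (hf : Ne f) (i : I) : M.X (fun z => -f z) i = -M.X f i := by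
  have h := M.X_smul (-1) f hf i
  simpa only [neg_one_mul] using h

lemma X_sub (f g : Pl → ℝ) (hf : Ne f) (hg : Ne g) (i : I) :
    M.X (fun z => f z - g z) i = M.X f i - M.X g i := by
  have h := M.X_add f (fun z => -g z) hf (Hol_neg hg) i
  rw [M.X_neg g hg i] at h
  simpa only [← sub_eq_add_neg] using h

lemma X_sum {α : Type} (s : Finset α) (f : α → Pl → ℝ) (hf : ∀ a ∈ s, Ne (f a)) (i : I) :
    M.X (fun z => ∑ a ∈ s, f a z) i = ∑ a ∈ s, M.X (f a) i := by
  classical
  induction s using Finset.induction_on with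
  | empty => simpa using M.X_zero i
  | insert a s ha ih =>
    simp only [Finset.sum_insert ha]
    rw [M.X_add (f a) (fun z => ∑ b ∈ s, f b z) (hf a (Finset.mem_insert_self a s))
      (Hol_sum s f fun b hb => hf b (Finset.mem_insert_of_mem hb)) i,
      ih fun b hb => hf b (Finset.mem_insert_of_mem hb)]

lemma nrm_nonneg (f : Pl → ℝ) : 0 ≤ nrm f := by
  unfold nrm
  exact add_nonneg (Real.sqrt_nonneg _) (MeasureTheory.integral_nonneg fun z => abs_nonneg _)

/-- Let `C` be the constant of `M.moment n` (`C ≥ 0` may be assumed), `n ≥ 1`. For `ε > 0` let `l j = nrm (F j) + ε`. Pointwise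
`∏ |X j| = ∏ l j * ∏ |X j / l j| ≤ ∏ l j * ∑ j |X j / l j| ^ n` (a product of `n` nonnegative numbers is at most the `n`-th power of the
largest one). So `L ≤ ∏ l j * n * C`; let `ε → 0`. -/
theorem hol (n : ℕ) : ∃ C : ℝ, 0 ≤ C ∧ ∀ F : Fin n → Pl → ℝ, (∀ j, Ne (F j)) →
    M.L (fun i => ∏ j, |M.X (F j) i|) ≤ C * ∏ j, nrm (F j) := by
  rcases Nat.eq_zero_or_pos n with h0 | hn
  · subst h0
    refine ⟨1, zero_le_one, fun F _ => ?_⟩
    simp only [Finset.univ_eq_empty, Finset.prod_empty, mul_one]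
    exact M.L_one.le
  · obtain ⟨C, hC⟩ := M.moment n
    refine ⟨n * max C 0, by positivity, fun F hF => ?_⟩
    have hokX : ∀ j, M.Ok (fun i => |M.X (F j) i|) := fun j => M.ok_abs _ (M.ok_X _ (hF j))
    have hokP : M.Ok (fun i => ∏ j, |M.X (F j) i|) :=
      M.ok_prod Finset.univ (fun j i => |M.X (F j) i|) fun j _ => hokX j
    have hmain : ∀ ε : ℝ, 0 < ε →
        M.L (fun i => ∏ j, |M.X (F j) i|) ≤ n * max C 0 * ∏ j, (nrm (F j) + ε) := by
      intro ε hε
      have hl : ∀ j, 0 < nrm (F j) + ε := fun j => add_pos_of_nonneg_of_pos (nrm_nonneg _) hε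
      set P : ℝ := ∏ j, (nrm (F j) + ε) with hP
      have hP0 : 0 < P := Finset.prod_pos fun j _ => hl j
      have hok2 : ∀ j, M.Ok (fun i => P * ((nrm (F j) + ε) ^ n)⁻¹ * |M.X (F j) i| ^ n) :=
        fun j => M.ok_smul _ _ (M.ok_pow _ (hokX j) n)
      have h1 : M.L (fun i => ∏ j, |M.X (F j) i|) ≤
          M.L (fun i => ∑ j, P * ((nrm (F j) + ε) ^ n)⁻¹ * |M.X (F j) i| ^ n) := by
        refine M.L_mono _ _ hokP
          (M.ok_sum Finset.univ (fun j i => P * ((nrm (F j) + ε) ^ n)⁻¹ * |M.X (F j) i| ^ n)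
            fun j _ => hok2 j) fun i => ?_
        have h2 : ∏ j, |M.X (F j) i| = P * ∏ j, (|M.X (F j) i| / (nrm (F j) + ε)) := by
          rw [Finset.prod_div_distrib, hP, mul_div_cancel₀ _ hP0.ne']
        rw [h2]
        have h3 := Hol_prod_le hn (fun j => |M.X (F j) i| / (nrm (F j) + ε))
          fun j => div_nonneg (abs_nonneg _) (hl j).le
        refine (mul_le_mul_of_nonneg_left h3 hP0.le).trans (le_of_eq ?_)
        rw [Finset.mul_sum]
        refine Finset.sum_congr rfl fun j _ => ?_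
        rw [div_pow, div_eq_mul_inv]
        ring
      refine h1.trans ?_
      rw [M.L_sum Finset.univ (fun j i => P * ((nrm (F j) + ε) ^ n)⁻¹ * |M.X (F j) i| ^ n)
        fun j _ => hok2 j]
      have h4 : ∀ j ∈ (Finset.univ : Finset (Fin n)),
          M.L (fun i => P * ((nrm (F j) + ε) ^ n)⁻¹ * |M.X (F j) i| ^ n) ≤ P * max C 0 := by
        intro j _
        rw [M.L_smul _ _ (M.ok_pow _ (hokX j) n), mul_assoc]
        refine mul_le_mul_of_nonneg_left ?_ hP0.le
        have h5 : M.L (fun i => |M.X (F j) i| ^ n) ≤ max C 0 * (nrm (F j) + ε) ^ n := by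
          refine (hC _ (hF j)).trans ?_
          have h6 : nrm (F j) ^ n ≤ (nrm (F j) + ε) ^ n :=
            pow_le_pow_left₀ (nrm_nonneg _) (by linarith) n
          exact mul_le_mul (le_max_left _ _) h6 (pow_nonneg (nrm_nonneg _) n) (le_max_right _ _)
        rw [inv_mul_le_iff₀ (pow_pos (hl j) n), mul_comm]
        exact h5
      refine (Finset.sum_le_sum h4).trans (le_of_eq ?_)
      rw [Finset.sum_const, Finset.card_univ, Fintype.card_fin, nsmul_eq_mul]
      ring
    have hcont : Filter.Tendsto (fun ε : ℝ => n * max C 0 * ∏ j, (nrm (F j) + ε))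
        (nhdsWithin 0 (Set.Ioi 0)) (nhds (n * max C 0 * ∏ j, nrm (F j))) := by
      have h7 : Continuous (fun ε : ℝ => n * max C 0 * ∏ j, (nrm (F j) + ε)) := by
        refine continuous_const.mul (continuous_finset_prod _ fun j _ => ?_)
        exact continuous_const.add continuous_id
      have h8 := (h7.tendsto 0).mono_left (nhdsWithin_le_nhds (s := Set.Ioi (0 : ℝ)))
      simpa using h8
    refine ge_of_tendsto hcont ?_
    filter_upwards [self_mem_nhdsWithin] with ε hε using hmain ε hε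

/-- two, three and four factors, with an arbitrary factor bounded by `1` -/
theorem hol2 : ∃ C : ℝ, 0 ≤ C ∧ ∀ (f g : Pl → ℝ) (B : I → ℝ), Ne f → Ne g → (∀ i, |B i| ≤ 1) →
    |M.L (fun i => M.X f i * M.X g i * B i)| ≤ C * nrm f * nrm g := by
  obtain ⟨C, hC0, hC⟩ := M.hol 2
  refine ⟨C, hC0, fun f g B hf hg hB => ?_⟩
  have h := hC ![f, g] (by
    intro j
    fin_cases j
    · exact hf
    · exact hg)
  simp only [Fin.prod_univ_two, Matrix.cons_val_zero, Matrix.cons_val_one] at h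
  rw [mul_assoc]
  refine (M.abs_L_le_of_le _ _ (M.ok_mul _ _ (M.ok_abs _ (M.ok_X _ hf))
    (M.ok_abs _ (M.ok_X _ hg))) fun i => ?_).trans h
  rw [abs_mul, abs_mul]
  exact mul_le_of_le_one_right (by positivity) (hB i)

theorem hol3 : ∃ C : ℝ, 0 ≤ C ∧ ∀ (f g h : Pl → ℝ) (B : I → ℝ), Ne f → Ne g → Ne h →
    (∀ i, |B i| ≤ |M.X g i * M.X h i|) →
    |M.L (fun i => M.X f i * B i)| ≤ C * nrm f * nrm g * nrm h := by
  obtain ⟨C, hC0, hC⟩ := M.hol 3
  refine ⟨C, hC0, fun f g h B hf hg hh hB => ?_⟩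
  have hk := hC ![f, g, h] (by
    intro j
    fin_cases j
    · exact hf
    · exact hg
    · exact hh)
  simp only [Fin.prod_univ_three, Matrix.cons_val_zero, Matrix.cons_val_one,
    Matrix.cons_val_two, Matrix.tail_cons, Matrix.head_cons, Matrix.cons_val] at hk
  have e : C * nrm f * nrm g * nrm h = C * (nrm f * nrm g * nrm h) := by ring
  rw [e]
  refine (M.abs_L_le_of_le _ _ (M.ok_mul _ _ (M.ok_mul _ _ (M.ok_abs _ (M.ok_X _ hf))
    (M.ok_abs _ (M.ok_X _ hg))) (M.ok_abs _ (M.ok_X _ hh))) fun i => ?_).trans hk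
  rw [abs_mul, mul_assoc, ← abs_mul (M.X g i)]
  exact mul_le_mul_of_nonneg_left (hB i) (abs_nonneg _)

/-- for the comparison of the constants: `|B| ≤ |X h|` -/
theorem hol3' : ∃ C : ℝ, 0 ≤ C ∧ ∀ (f g h : Pl → ℝ) (B : I → ℝ), Ne f → Ne g → Ne h → (∀ i, |B i| ≤ |M.X h i|) →
    |M.L (fun i => M.X f i * M.X g i * B i)| ≤ C * nrm f * nrm g * nrm h := by
  obtain ⟨C, hC0, hC⟩ := M.hol 3
  refine ⟨C, hC0, fun f g h B hf hg hh hB => ?_⟩
  have hk := hC ![f, g, h] (by
    intro j
    fin_cases j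
    · exact hf
    · exact hg
    · exact hh)
  simp only [Fin.prod_univ_three, Matrix.cons_val_zero, Matrix.cons_val_one,
    Matrix.cons_val_two, Matrix.tail_cons, Matrix.head_cons, Matrix.cons_val] at hk
  have e : C * nrm f * nrm g * nrm h = C * (nrm f * nrm g * nrm h) := by ring
  rw [e]
  refine (M.abs_L_le_of_le _ _ (M.ok_mul _ _ (M.ok_mul _ _ (M.ok_abs _ (M.ok_X _ hf))
    (M.ok_abs _ (M.ok_X _ hg))) (M.ok_abs _ (M.ok_X _ hh))) fun i => ?_).trans hk
  rw [abs_mul, abs_mul]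
  exact mul_le_mul_of_nonneg_left (hB i) (by positivity)

end Fld

end GF
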