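import Mathlib

/-!
M1 (project GF, MP_973bc8_pr).  The staircase coupling on `ℕ` and its entropy.
-/

open Finset Real

namespace GF

/-- `negMulLog` is concave on `[0, ∞)` (`Real.concaveOn_negMulLog`), so increments decrease: with `a = v + p`, `b = r` both between
`v` and `r + p` and `a + b = v + (r + p)`. (If `r + p = v` everything is trivial.) -/
theorem negMulLog_step {v r p : ℝ} (hv : 0 ≤ v) (hr : v ≤ r) (hp : 0 ≤ p) :
    negMulLog (r + p) - negMulLog r ≤ negMulLog (v + p) - negMulLog v := by
  rcases eq_or_lt_of_le (show v ≤ r + p by linarith) with h | h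
  · have h1 : r = v := by linarith
    have h2 : p = 0 := by linarith
    rw [h1, h2]
  · have hD : 0 < r + p - v := by linarith
    have hc := Real.concaveOn_negMulLog
    have hv' : v ∈ Set.Ici (0 : ℝ) := hv
    have hw' : r + p ∈ Set.Ici (0 : ℝ) := by
      show (0 : ℝ) ≤ r + p
      linarith
    have hst : (r - v) / (r + p - v) + p / (r + p - v) = 1 := by
      rw [← add_div, div_eq_one_iff_eq hD.ne']
      ring
    have hs : 0 ≤ (r - v) / (r + p - v) := div_nonneg (by linarith) hD.le
    have ht : 0 ≤ p / (r + p - v) := div_nonneg hp hD.le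
    have h1 := hc.2 hv' hw' hs ht hst
    have h2 := hc.2 hv' hw' ht hs (by rw [add_comm]; exact hst)
    have e1 : ((r - v) / (r + p - v)) • v + (p / (r + p - v)) • (r + p) = v + p := by
      simp only [smul_eq_mul]
      field_simp
      ring
    have e2 : (p / (r + p - v)) • v + ((r - v) / (r + p - v)) • (r + p) = r := by
      simp only [smul_eq_mul]
      field_simp
      ring
    rw [e1] at h1
    rw [e2] at h2
    simp only [smul_eq_mul] at h1 h2
    have h3 : (r - v) / (r + p - v) = 1 - p / (r + p - v) := by linarith
    rw [h3] at h1 h2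
    nlinarith

end GF
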