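import Pool.Agent.Helper27.GF.M1

/-!
M1b (project GF, MP_973bc8_pr).  The staircase coupling on `ℕ` and its entropy.
-/

open Finset Real

namespace GF

/-- State of the coupling: current index `x`, remaining mass `al` of `f x`, remaining mass `be` of `g (s - x)`. -/
structure St where
  x : ℕ
  al : ℝ
  be : ℝ

/-- The rule: at time `s` (so `y = s - x`) the mass `min al be` is placed at `(x, y)`; if `al ≤ be` then `x` moves, otherwise `y` moves. -/
noncomputable def step (f g : ℕ → ℝ) (s : ℕ) (a : St) : St :=
  if a.al ≤ a.be then ⟨a.x + 1, f (a.x + 1), a.be - a.al⟩ else ⟨a.x, a.al - a.be, g (s - a.x + 1)⟩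

/-- The states. -/
noncomputable def run (f g : ℕ → ℝ) : ℕ → St
  | 0 => ⟨0, f 0, g 0⟩
  | s + 1 => step f g s (run f g s)

/-- The placed masses. -/
noncomputable def pm (f g : ℕ → ℝ) (s : ℕ) : ℝ := min (run f g s).al (run f g s).be

/-- By induction on `s` (`y = s - x`). The second and the third statement: `0 ≤ al ≤ f x`, `0 ≤ be ≤ g y`. -/
theorem run_inv (f g : ℕ → ℝ) (hf : ∀ i, 0 ≤ f i) (hg : ∀ i, 0 ≤ g i) (s : ℕ) :
    (run f g s).x ≤ s ∧ (0 ≤ (run f g s).al ∧ (run f g s).al ≤ f (run f g s).x) ∧
      (0 ≤ (run f g s).be ∧ (run f g s).be ≤ g (s - (run f g s).x)) := by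
  induction s with
  | zero => exact ⟨le_rfl, ⟨hf 0, le_rfl⟩, ⟨hg 0, le_rfl⟩⟩
  | succ s ih =>
    obtain ⟨hx, ⟨ha0, ha⟩, ⟨hb0, hb⟩⟩ := ih
    change (step f g s (run f g s)).x ≤ s + 1 ∧ (0 ≤ (step f g s (run f g s)).al ∧
      (step f g s (run f g s)).al ≤ f (step f g s (run f g s)).x) ∧
      (0 ≤ (step f g s (run f g s)).be ∧
        (step f g s (run f g s)).be ≤ g (s + 1 - (step f g s (run f g s)).x))
    by_cases h : (run f g s).al ≤ (run f g s).be
    · simp only [step, if_pos h]
      refine ⟨by omega, ⟨hf _, le_rfl⟩, ⟨by linarith, ?_⟩⟩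
      rw [Nat.add_sub_add_right]
      linarith
    · simp only [step, if_neg h]
      push Not at h
      refine ⟨by omega, ⟨by linarith, by linarith⟩, ⟨hg _, ?_⟩⟩
      rw [show s + 1 - (run f g s).x = s - (run f g s).x + 1 by omega]

private theorem tail_eq (F : ℕ → ℝ) (n : ℕ) (hF : ∀ i, n ≤ i → F i = 0) (x : ℕ) :
    F (x + 1) + ∑ i ∈ range n, (if x + 1 < i then F i else 0) =
      ∑ i ∈ range n, (if x < i then F i else 0) := by
  have h1 : ∀ i ∈ range n, (if x < i then F i else 0) =
      (if x + 1 = i then F i else 0) + (if x + 1 < i then F i else 0) := by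
    intro i _
    rcases lt_trichotomy (x + 1) i with h | h | h
    · rw [if_pos (by omega), if_neg (by omega), if_pos h, zero_add]
    · rw [if_pos (by omega), if_pos h, if_neg (by omega), add_zero]
    · rw [if_neg (by omega), if_neg (by omega), if_neg (by omega), add_zero]
  rw [Finset.sum_congr rfl h1, Finset.sum_add_distrib, Finset.sum_ite_eq]
  congr 1
  by_cases h : x + 1 ∈ range n
  · rw [if_pos h]
  · rw [if_neg h]
    exact hF _ (by simpa using h)

/-- By induction on `s`, for all `A B` : the masses placed before time `s` and the remaining ones. In one step: if `al ≤ be` then the placed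
mass is `al`, the new `al` is `f (x+1)`, which is removed from the tail `∑_{i > x}`. Here `n` is so large that `f, g` vanish from `n` on; the
tails are written as sums over `range n` with the condition `x < i`. (If `x + 1 ≥ n` then `f (x + 1) = 0`.) -/
theorem run_mass (f g : ℕ → ℝ) (n : ℕ) (hf0 : ∀ i, n ≤ i → f i = 0) (hg0 : ∀ i, n ≤ i → g i = 0) (hn : 0 < n)
    (hf : ∀ i, 0 ≤ f i) (hg : ∀ i, 0 ≤ g i) (A B : ℕ → ℝ) (s : ℕ) :
    ∑ t ∈ range s, pm f g t * (A (run f g t).x + B (t - (run f g t).x)) +
      ((run f g s).al * A (run f g s).x + ∑ i ∈ range n, (if (run f g s).x < i then f i * A i else 0)) +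
      ((run f g s).be * B (s - (run f g s).x) +
        ∑ j ∈ range n, (if s - (run f g s).x < j then g j * B j else 0)) =
    ∑ i ∈ range n, f i * A i + ∑ j ∈ range n, g j * B j := by
  induction s with
  | zero =>
    have h1 := fun (F : ℕ → ℝ) => Finset.sum_range_succ' F (n - 1)
    rw [Nat.sub_add_cancel hn] at h1
    have h2 : ∀ F : ℕ → ℝ, F 0 + ∑ i ∈ range n, (if 0 < i then F i else 0) =
        ∑ i ∈ range n, F i := by
      intro F
      rw [h1 F, h1 (fun i => if 0 < i then F i else 0)]
      simp only [lt_irrefl, if_false, add_zero, Nat.succ_pos', if_true]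
      ring
    rw [Finset.range_zero, Finset.sum_empty, zero_add]
    change (f 0 * A 0 + ∑ i ∈ range n, (if 0 < i then f i * A i else 0)) +
      (g 0 * B 0 + ∑ j ∈ range n, (if 0 < j then g j * B j else 0)) = _
    rw [h2 (fun i => f i * A i), h2 (fun j => g j * B j)]
  | succ s ih =>
    have hx := (run_inv f g hf hg s).1
    rw [Finset.sum_range_succ, ← ih]
    have hA := tail_eq (fun i => f i * A i) n (fun i hi => by rw [hf0 i hi, zero_mul])
      (run f g s).x
    have hB := tail_eq (fun j => g j * B j) n (fun j hj => by rw [hg0 j hj, zero_mul])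
      (s - (run f g s).x)
    change _ + ((step f g s (run f g s)).al * A (step f g s (run f g s)).x +
        ∑ i ∈ range n, (if (step f g s (run f g s)).x < i then f i * A i else 0)) +
      ((step f g s (run f g s)).be * B (s + 1 - (step f g s (run f g s)).x) +
        ∑ j ∈ range n, (if s + 1 - (step f g s (run f g s)).x < j then g j * B j else 0)) = _
    by_cases h : (run f g s).al ≤ (run f g s).be
    · simp only [step, if_pos h, pm, min_eq_left h]
      rw [Nat.add_sub_add_right]
      linarith
    · have h' := h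
      push Not at h'
      simp only [step, if_neg h, pm, min_eq_right h'.le]
      rw [show s + 1 - (run f g s).x = s - (run f g s).x + 1 by omega]
      linarith

end GF
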