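import Pool.Agent.Helper27.GF.M1b

/-!
M1c (project GF, MP_973bc8_pr).  The coupling at the end, and the entropy inequality.
-/

open Finset Real

namespace GF

/-- At time `2 n` everything is placed. Let `a = run f g (2n)`, `y = 2n - a.x`; `a.x ≤ 2n`, so `a.x ≥ n` or `y ≥ n`.
Take `run_mass` with `A = 1, B = 0`: `∑_{t < 2n} pm t + al + (f mass beyond x) = 1`, and with `A = 0, B = 1` the same for `g`:
`∑_{t<2n} pm t + be + (g mass beyond y) = 1`. If `a.x ≥ n` then `al ≤ f x = 0` and the `f` mass beyond is `0`, so `∑ pm = 1` and hence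
`be + ... = 0`, all terms `≥ 0`. Same in the other case. So all remaining masses are `0`. -/
theorem run_end (f g : ℕ → ℝ) (n : ℕ) (hf0 : ∀ i, n ≤ i → f i = 0) (hg0 : ∀ i, n ≤ i → g i = 0) (hn : 0 < n)
    (hf : ∀ i, 0 ≤ f i) (hg : ∀ i, 0 ≤ g i) (hf1 : ∑ i ∈ range n, f i = 1) (hg1 : ∑ i ∈ range n, g i = 1) :
    (run f g (2 * n)).al = 0 ∧ (run f g (2 * n)).be = 0 ∧
      (∀ i, (run f g (2 * n)).x < i → f i = 0) ∧ (∀ j, 2 * n - (run f g (2 * n)).x < j → g j = 0) := by
  obtain ⟨hx, ⟨ha0, ha⟩, hb0, hb⟩ := run_inv f g hf hg (2 * n)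
  have hA := run_mass f g n hf0 hg0 hn hf hg (fun _ => 1) (fun _ => 0) (2 * n)
  have hB := run_mass f g n hf0 hg0 hn hf hg (fun _ => 0) (fun _ => 1) (2 * n)
  simp only [mul_one, mul_zero, add_zero, zero_add, ite_self, Finset.sum_const_zero] at hA hB
  rw [hf1] at hA
  rw [hg1] at hB
  obtain ⟨x, hxd⟩ : ∃ x, x = (run f g (2 * n)).x := ⟨_, rfl⟩
  obtain ⟨al, had⟩ : ∃ al, al = (run f g (2 * n)).al := ⟨_, rfl⟩
  obtain ⟨be, hbd⟩ : ∃ be, be = (run f g (2 * n)).be := ⟨_, rfl⟩
  rw [← hxd] at hx ha hb hA hB ⊢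
  rw [← had] at ha0 ha hA ⊢
  rw [← hbd] at hb0 hb hB ⊢
  have hF : ∀ i ∈ range n, 0 ≤ (if x < i then f i else 0) := fun i _ => by
    split_ifs
    · exact hf i
    · exact le_rfl
  have hG : ∀ j ∈ range n, 0 ≤ (if 2 * n - x < j then g j else 0) := fun j _ => by
    split_ifs
    · exact hg j
    · exact le_rfl
  have hF0 := Finset.sum_nonneg hF
  have hG0 := Finset.sum_nonneg hG
  have key : al = 0 ∧ be = 0 ∧ (∑ i ∈ range n, (if x < i then f i else 0)) = 0 ∧
      (∑ j ∈ range n, (if 2 * n - x < j then g j else 0)) = 0 := by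
    rcases Nat.lt_or_ge x n with h | h
    · have h1 : n ≤ 2 * n - x := by omega
      rw [hg0 _ h1] at hb
      have h2 : (∑ j ∈ range n, (if 2 * n - x < j then g j else 0)) = 0 :=
        Finset.sum_eq_zero fun j hj => by
          rw [Finset.mem_range] at hj
          rw [if_neg (by omega)]
      refine ⟨?_, ?_, ?_, h2⟩ <;> linarith
    · rw [hf0 _ h] at ha
      have h2 : (∑ i ∈ range n, (if x < i then f i else 0)) = 0 :=
        Finset.sum_eq_zero fun i hi => by
          rw [Finset.mem_range] at hi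
          rw [if_neg (by omega)]
      refine ⟨?_, ?_, h2, ?_⟩ <;> linarith
  obtain ⟨k1, k2, k3, k4⟩ := key
  refine ⟨k1, k2, fun i hi => ?_, fun j hj => ?_⟩
  · rcases Nat.lt_or_ge i n with h | h
    · have h1 := Finset.single_le_sum hF (Finset.mem_range.2 h)
      rw [if_pos hi, k3] at h1
      exact le_antisymm h1 (hf i)
    · exact hf0 i h
  · rcases Nat.lt_or_ge j n with h | h
    · have h1 := Finset.single_le_sum hG (Finset.mem_range.2 h)
      rw [if_pos hj, k4] at h1
      exact le_antisymm h1 (hg j)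
    · exact hg0 j h

/-- The marginals of the coupling: `run_mass` at time `2 n` and `run_end`. -/
theorem run_marg (f g : ℕ → ℝ) (n : ℕ) (hf0 : ∀ i, n ≤ i → f i = 0) (hg0 : ∀ i, n ≤ i → g i = 0) (hn : 0 < n)
    (hf : ∀ i, 0 ≤ f i) (hg : ∀ i, 0 ≤ g i) (hf1 : ∑ i ∈ range n, f i = 1) (hg1 : ∑ i ∈ range n, g i = 1) (A B : ℕ → ℝ) :
    ∑ t ∈ range (2 * n), pm f g t * (A (run f g t).x + B (t - (run f g t).x)) =
    ∑ i ∈ range n, f i * A i + ∑ j ∈ range n, g j * B j := by
  obtain ⟨h1, h2, h3, h4⟩ := run_end f g n hf0 hg0 hn hf hg hf1 hg1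
  have h := run_mass f g n hf0 hg0 hn hf hg A B (2 * n)
  have e1 : ∑ i ∈ range n, (if (run f g (2 * n)).x < i then f i * A i else 0) = 0 :=
    Finset.sum_eq_zero fun i _ => by
      split_ifs with hi
      · rw [h3 i hi, zero_mul]
      · rfl
  have e2 : ∑ j ∈ range n, (if 2 * n - (run f g (2 * n)).x < j then g j * B j else 0) = 0 :=
    Finset.sum_eq_zero fun j _ => by
      split_ifs with hj
      · rw [h4 j hj, zero_mul]
      · rfl
  rw [h1, h2, e1, e2] at h
  linarith

/-- The entropy of the placed masses. -/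
private noncomputable def Th (f g : ℕ → ℝ) (s : ℕ) : ℝ :=
  ∑ i ∈ range (run f g s).x, negMulLog (f i) + negMulLog (f (run f g s).x - (run f g s).al) +
    (∑ j ∈ range (s - (run f g s).x), negMulLog (g j) +
      negMulLog (g (s - (run f g s).x) - (run f g s).be))

private theorem Th_step (f g : ℕ → ℝ) (hf : ∀ i, 0 ≤ f i) (hg : ∀ i, 0 ≤ g i) (s : ℕ) :
    Th f g (s + 1) = Th f g s +
      (negMulLog (f (run f g s).x - (run f g s).al + pm f g s) -
        negMulLog (f (run f g s).x - (run f g s).al)) +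
      (negMulLog (g (s - (run f g s).x) - (run f g s).be + pm f g s) -
        negMulLog (g (s - (run f g s).x) - (run f g s).be)) := by
  have hx := (run_inv f g hf hg s).1
  by_cases h : (run f g s).al ≤ (run f g s).be
  · have h1 : run f g (s + 1) = ⟨(run f g s).x + 1, f ((run f g s).x + 1),
        (run f g s).be - (run f g s).al⟩ := by
      show step f g s (run f g s) = _
      rw [step, if_pos h]
    have h2 : pm f g s = (run f g s).al := min_eq_left h
    have h3 : s + 1 - ((run f g s).x + 1) = s - (run f g s).x := by omega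
    unfold Th
    rw [h1, h2]
    simp only [h3, sum_range_succ, sub_self, negMulLog_zero]
    have h4 : g (s - (run f g s).x) - ((run f g s).be - (run f g s).al) =
        g (s - (run f g s).x) - (run f g s).be + (run f g s).al := by ring
    have h5 : f (run f g s).x - (run f g s).al + (run f g s).al = f (run f g s).x := by ring
    rw [h4, h5]
    ring
  · have h1 : run f g (s + 1) = ⟨(run f g s).x, (run f g s).al - (run f g s).be,
        g (s - (run f g s).x + 1)⟩ := by
      show step f g s (run f g s) = _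
      rw [step, if_neg h]
    have h2 : pm f g s = (run f g s).be := min_eq_right (not_le.1 h).le
    have h3 : s + 1 - (run f g s).x = s - (run f g s).x + 1 := by omega
    unfold Th
    rw [h1, h2]
    simp only [h3, sum_range_succ, sub_self, negMulLog_zero]
    have h4 : f (run f g s).x - ((run f g s).al - (run f g s).be) =
        f (run f g s).x - (run f g s).al + (run f g s).be := by ring
    have h5 : g (s - (run f g s).x) - (run f g s).be + (run f g s).be =
        g (s - (run f g s).x) := by ring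
    rw [h4, h5]
    ring

private theorem Th_zero (f g : ℕ → ℝ) : Th f g 0 = 0 := by
  simp [Th, run]

private theorem rq (f g : ℕ → ℝ) (hf : ∀ i, 0 ≤ f i) (hg : ∀ i, 0 ≤ g i) (s : ℕ) :
    (f (run f g (s + 1)).x - (run f g (s + 1)).al = 0 ∧
      pm f g s ≤ g (s + 1 - (run f g (s + 1)).x) - (run f g (s + 1)).be) ∨
    (g (s + 1 - (run f g (s + 1)).x) - (run f g (s + 1)).be = 0 ∧
      pm f g s ≤ f (run f g (s + 1)).x - (run f g (s + 1)).al) := by
  obtain ⟨hx, ha, hb⟩ := run_inv f g hf hg s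
  by_cases h : (run f g s).al ≤ (run f g s).be
  · have h1 : run f g (s + 1) = ⟨(run f g s).x + 1, f ((run f g s).x + 1),
        (run f g s).be - (run f g s).al⟩ := by
      show step f g s (run f g s) = _
      rw [step, if_pos h]
    have h2 : pm f g s = (run f g s).al := min_eq_left h
    have h3 : s + 1 - ((run f g s).x + 1) = s - (run f g s).x := by omega
    left
    rw [h1, h2]
    simp only [h3, sub_self, true_and]
    linarith [hb.2]
  · have h1 : run f g (s + 1) = ⟨(run f g s).x, (run f g s).al - (run f g s).be,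
        g (s - (run f g s).x + 1)⟩ := by
      show step f g s (run f g s) = _
      rw [step, if_neg h]
    have h2 : pm f g s = (run f g s).be := min_eq_right (not_le.1 h).le
    have h3 : s + 1 - (run f g s).x = s - (run f g s).x + 1 := by omega
    right
    rw [h1, h2]
    simp only [h3, sub_self, true_and]
    linarith [ha.2]

private theorem pm_nonneg (f g : ℕ → ℝ) (hf : ∀ i, 0 ≤ f i) (hg : ∀ i, 0 ≤ g i) (s : ℕ) :
    0 ≤ pm f g s :=
  le_min (run_inv f g hf hg s).2.1.1 (run_inv f g hf hg s).2.2.1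

private theorem Th_le (f g : ℕ → ℝ) (hf : ∀ i, 0 ≤ f i) (hg : ∀ i, 0 ≤ g i) (s : ℕ) :
    Th f g (s + 1) ≤ negMulLog (pm f g 0) + negMulLog (pm f g s) +
      ∑ t ∈ range s, negMulLog (pm f g t + pm f g (t + 1)) := by
  induction s with
  | zero =>
    rw [Th_step f g hf hg 0, Th_zero]
    simp [run]
  | succ s ih =>
    rw [Th_step f g hf hg (s + 1), sum_range_succ]
    have hp := pm_nonneg f g hf hg (s + 1)
    have hv := pm_nonneg f g hf hg s
    rcases rq f g hf hg s with ⟨h1, h2⟩ | ⟨h1, h2⟩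
    · have h3 := negMulLog_step hv h2 hp
      rw [h1, zero_add, negMulLog_zero]
      linarith
    · have h3 := negMulLog_step hv h2 hp
      rw [h1, zero_add, negMulLog_zero]
      linarith

/-- Entropy along the run. Let `phi = negMulLog`, `r s = f x - al` and `q s = g y - be` (masses already placed in the current column and row;
both `≥ 0`), `Th s = ∑_{i < x} phi (f i) + phi (r s) + ∑_{j < y} phi (g j) + phi (q s)`. One step with placed mass `p = pm s`:
`Th (s+1) - Th s = (phi (r s + p) - phi (r s)) + (phi (q s + p) - phi (q s))` (the completed column has mass `f x = r s + p`, the new one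
starts with `0`, `phi 0 = 0`). For `s ≥ 1` one of `r s, q s` is `0` and the other one is `≥ pm (s - 1)`, so by `negMulLog_step`
`Th (s+1) - Th s ≤ phi p + phi (pm (s-1) + p) - phi (pm (s-1))`; and `Th 1 ≤ 2 phi (pm 0)`. Hence, by induction, for `s ≥ 1`
`Th s ≤ phi (pm 0) + phi (pm (s-1)) + ∑_{t < s-1} phi (pm t + pm (t+1))`.
(State it for `s + 1`.) -/
theorem run_entropy (f g : ℕ → ℝ) (hf : ∀ i, 0 ≤ f i) (hg : ∀ i, 0 ≤ g i) (s : ℕ) :
    ∑ i ∈ range (run f g (s + 1)).x, negMulLog (f i) +
      negMulLog (f (run f g (s + 1)).x - (run f g (s + 1)).al) +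
      (∑ j ∈ range (s + 1 - (run f g (s + 1)).x), negMulLog (g j) +
      negMulLog (g (s + 1 - (run f g (s + 1)).x) - (run f g (s + 1)).be)) ≤
    negMulLog (pm f g 0) + negMulLog (pm f g s) + ∑ t ∈ range s, negMulLog (pm f g t + pm f g (t + 1)) := by
  exact Th_le f g hf hg s

private theorem sum_ext_zero {f : ℕ → ℝ} {x n : ℕ} (hf0 : ∀ i, n ≤ i → f i = 0)
    (hx : ∀ i, x < i → f i = 0) :
    ∑ i ∈ range x, negMulLog (f i) + negMulLog (f x) = ∑ i ∈ range n, negMulLog (f i) := by
  rw [← sum_range_succ (fun i => negMulLog (f i)) x]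
  have h1 : ∑ i ∈ range (x + 1), negMulLog (f i) =
      ∑ i ∈ range (max (x + 1) n), negMulLog (f i) := by
    refine sum_subset (range_subset_range.2 (le_max_left _ _)) fun i _ hi => ?_
    rw [mem_range, not_lt] at hi
    rw [hx i (by omega), negMulLog_zero]
  have h2 : ∑ i ∈ range n, negMulLog (f i) =
      ∑ i ∈ range (max (x + 1) n), negMulLog (f i) := by
    refine sum_subset (range_subset_range.2 (le_max_right _ _)) fun i _ hi => ?_
    rw [mem_range, not_lt] at hi
    rw [hf0 i hi, negMulLog_zero]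
  rw [h1, h2]

/-- `run_entropy` at time `2 n` (`s = 2 n - 1`) with `run_end`: the left hand side is
`∑_{i < n} negMulLog (f i) + ∑_{j < n} negMulLog (g j)` (terms beyond `x` vanish as `f i = 0` there; `f x - al = f x`). -/
theorem entropy_le (f g : ℕ → ℝ) (n : ℕ) (hf0 : ∀ i, n ≤ i → f i = 0) (hg0 : ∀ i, n ≤ i → g i = 0) (hn : 0 < n)
    (hf : ∀ i, 0 ≤ f i) (hg : ∀ i, 0 ≤ g i) (hf1 : ∑ i ∈ range n, f i = 1) (hg1 : ∑ i ∈ range n, g i = 1) :
    ∑ i ∈ range n, negMulLog (f i) + ∑ j ∈ range n, negMulLog (g j) ≤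
    negMulLog (pm f g 0) + negMulLog (pm f g (2 * n - 1)) +
      ∑ t ∈ range (2 * n - 1), negMulLog (pm f g t + pm f g (t + 1)) := by
  obtain ⟨h1, h2, h3, h4⟩ := run_end f g n hf0 hg0 hn hf hg hf1 hg1
  have h5 := run_entropy f g hf hg (2 * n - 1)
  have h6 : 2 * n - 1 + 1 = 2 * n := by omega
  rw [h6, h1, h2, sub_zero, sub_zero, sum_ext_zero hf0 h3, sum_ext_zero hg0 h4] at h5
  exact h5

end GF
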