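import Pool.Agent.Helper27.GF.M1c

/-!
M2 (project GF, MP_973bc8_pr).  The midpoint four functions theorem in dimension one.
-/

open Finset Real

namespace GF

/-- Gibbs inequality: `log t ≤ t - 1` with `t = h j / (m j * H)`, `H = ∑ h`; terms with `m j = 0` vanish. -/
theorem gibbs (n : ℕ) (m h : ℕ → ℝ) (hm : ∀ j, 0 ≤ m j) (hh : ∀ j, 0 ≤ h j) (hpos : ∀ j < n, 0 < m j → 0 < h j)
    (h1 : ∑ j ∈ range n, m j = 1) :
    ∑ j ∈ range n, (m j * log (h j) + negMulLog (m j)) ≤ log (∑ j ∈ range n, h j) := by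
  have hH0 : 0 ≤ ∑ j ∈ range n, h j := Finset.sum_nonneg fun j _ => hh j
  have hH : 0 < ∑ j ∈ range n, h j := by
    rcases hH0.eq_or_lt with h0 | h0
    · exfalso
      have h2 : ∀ j ∈ range n, m j = 0 := by
        intro j hj
        by_contra hne
        have h3 := hpos j (Finset.mem_range.1 hj) (lt_of_le_of_ne (hm j) (Ne.symm hne))
        have h4 := (Finset.sum_eq_zero_iff_of_nonneg (fun i _ => hh i)).1 h0.symm j hj
        linarith
      rw [Finset.sum_eq_zero h2] at h1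
      exact zero_ne_one h1
    · exact h0
  have key : ∀ j ∈ range n, m j * log (h j) + negMulLog (m j) ≤
      m j * log (∑ j ∈ range n, h j) + (h j / (∑ j ∈ range n, h j) - m j) := by
    intro j hj
    rcases (hm j).eq_or_lt with h0 | h0
    · rw [← h0]
      simp only [negMulLog_zero, zero_mul, add_zero, zero_add, sub_zero]
      exact div_nonneg (hh j) hH0
    · have h3 := hpos j (Finset.mem_range.1 hj) h0
      have h4 : 0 < h j / (m j * ∑ j ∈ range n, h j) := div_pos h3 (mul_pos h0 hH)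
      have h5 := log_le_sub_one_of_pos h4
      rw [log_div h3.ne' (mul_pos h0 hH).ne', log_mul h0.ne' hH.ne'] at h5
      have h6 := mul_le_mul_of_nonneg_left h5 h0.le
      have h7 : m j * (h j / (m j * ∑ j ∈ range n, h j) - 1) =
          h j / (∑ j ∈ range n, h j) - m j := by
        field_simp
      rw [h7] at h6
      unfold negMulLog
      linarith
  refine (Finset.sum_le_sum key).trans (le_of_eq ?_)
  rw [Finset.sum_add_distrib, Finset.sum_sub_distrib, ← Finset.sum_mul, ← Finset.sum_div, h1,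
    div_self hH.ne']
  ring

private theorem mid_one_norm_even (F : ℕ → ℝ) (n : ℕ) :
    ∑ t ∈ range (2 * n), F t = ∑ j ∈ range n, (F (2 * j) + F (2 * j + 1)) := by
  induction n with
  | zero => simp
  | succ n ih =>
    rw [show 2 * (n + 1) = 2 * n + 1 + 1 by ring, sum_range_succ, sum_range_succ, ih,
      sum_range_succ]
    ring

private theorem mid_one_norm_odd (F : ℕ → ℝ) (n : ℕ) :
    ∑ t ∈ range (2 * n + 1), F t = F 0 + ∑ j ∈ range n, (F (2 * j + 1) + F (2 * j + 2)) := by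
  rw [sum_range_succ', mid_one_norm_even (fun t => F (t + 1)) n]
  ring

/-- Normalised form. Let `p = pm f g`, `m j = p (2j) + p (2j+1)`, `m' 0 = p 0`, `m' (j+1) = p (2j+1) + p (2j+2)`; `p (2n) = 0` may be used or
`m'` is cut: use `gibbs` for `m` and `h` on `range n` and for `m'` and `k` on `range n` plus the value `m'' n = p (2n-1)`, which vanishes or
note `p (2n - 1) > 0` is impossible: `x, y < n` for `p t > 0` (as `f x > 0`, `g y > 0`), so `t = x + y ≤ 2n - 2`.
`log H + log K ≥ ∑ m j log (h j) + ∑ m' j log (k j) + entropies = ∑_t p t (log (h (t/2)) + log (k ((t+1)/2))) + entropies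
≥ ∑_t p t (log (f x) + log (g y)) + entropies` (for `p t > 0`: `0 < f x g y ≤ h (t/2) k ((t+1)/2)`) `= ∑ f log f + ∑ g log g + entropies ≥ 0`
by `run_marg` and `entropy_le` (entropies: `∑_j negMulLog (m j) + ∑_j negMulLog (m' j) = negMulLog (p 0) + ∑_{t < 2n-1} negMulLog (p t + p (t+1))`,
and `negMulLog (p (2n-1)) = 0`). -/
theorem mid_one_norm (f g h k : ℕ → ℝ) (n : ℕ) (hf0 : ∀ i, n ≤ i → f i = 0) (hg0 : ∀ i, n ≤ i → g i = 0)
    (hf : ∀ i, 0 ≤ f i) (hg : ∀ i, 0 ≤ g i) (hh : ∀ i, 0 ≤ h i) (hk : ∀ i, 0 ≤ k i)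
    (hf1 : ∑ i ∈ range n, f i = 1) (hg1 : ∑ i ∈ range n, g i = 1)
    (H : ∀ i j, f i * g j ≤ h ((i + j) / 2) * k ((i + j + 1) / 2)) :
    1 ≤ (∑ i ∈ range n, h i) * ∑ i ∈ range n, k i := by
  have hn : 0 < n := by
    rcases Nat.eq_zero_or_pos n with h0 | h0
    · subst h0
      simp at hf1
    · exact h0
  obtain ⟨p, hp⟩ : ∃ p : ℕ → ℝ, ∀ t, p t = pm f g t := ⟨_, fun _ => rfl⟩
  obtain ⟨X, hX⟩ : ∃ X : ℕ → ℕ, ∀ t, X t = (run f g t).x := ⟨_, fun _ => rfl⟩
  have hXt : ∀ t, X t ≤ t := fun t => by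
    rw [hX]
    exact (run_inv f g hf hg t).1
  have hp0 : ∀ t, 0 ≤ p t := by
    intro t
    rw [hp]
    have h1 := run_inv f g hf hg t
    exact le_min h1.2.1.1 h1.2.2.1
  have hfg : ∀ t, 0 < p t → 0 < f (X t) ∧ 0 < g (t - X t) := by
    intro t ht
    rw [hp] at ht
    rw [hX]
    have h1 := run_inv f g hf hg t
    have h2 := lt_min_iff.1 ht
    exact ⟨lt_of_lt_of_le h2.1 h1.2.1.2, lt_of_lt_of_le h2.2 h1.2.2.2⟩
  have hlt : ∀ t, 0 < p t → t < 2 * n - 1 := by
    intro t ht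
    obtain ⟨h1, h2⟩ := hfg t ht
    have a1 : X t < n := by
      by_contra hc
      rw [hf0 _ (not_lt.1 hc)] at h1
      exact lt_irrefl _ h1
    have a2 : t - X t < n := by
      by_contra hc
      rw [hg0 _ (not_lt.1 hc)] at h2
      exact lt_irrefl _ h2
    have a3 := hXt t
    omega
  have hpz : p (2 * n - 1) = 0 := by
    by_contra hc
    exact absurd (hlt _ (lt_of_le_of_ne (hp0 _) (Ne.symm hc))) (lt_irrefl _)
  have hhk : ∀ t, 0 < p t → 0 < h (t / 2) ∧ 0 < k ((t + 1) / 2) ∧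
      f (X t) * g (t - X t) ≤ h (t / 2) * k ((t + 1) / 2) := by
    intro t ht
    obtain ⟨h1, h2⟩ := hfg t ht
    have h3 := H (X t) (t - X t)
    rw [Nat.add_sub_cancel' (hXt t)] at h3
    have h4 : 0 < h (t / 2) * k ((t + 1) / 2) := lt_of_lt_of_le (mul_pos h1 h2) h3
    refine ⟨?_, ?_, h3⟩
    · by_contra hc
      rw [le_antisymm (not_lt.1 hc) (hh _), zero_mul] at h4
      exact lt_irrefl _ h4
    · by_contra hc
      rw [le_antisymm (not_lt.1 hc) (hk _), mul_zero] at h4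
      exact lt_irrefl _ h4
  have hsum1 : ∑ t ∈ range (2 * n), p t = 1 := by
    have h1 := run_marg f g n hf0 hg0 hn hf hg hf1 hg1 (fun _ => 1) (fun _ => 0)
    simp only [add_zero, mul_one, mul_zero, sum_const_zero, hf1] at h1
    rw [← h1]
    exact sum_congr rfl fun t _ => hp t
  -- the two marginals
  obtain ⟨m, hm⟩ : ∃ m : ℕ → ℝ, ∀ j, m j = p (2 * j) + p (2 * j + 1) := ⟨_, fun _ => rfl⟩
  obtain ⟨m', hm0, hms⟩ : ∃ m' : ℕ → ℝ, m' 0 = p 0 ∧ ∀ j, m' (j + 1) = p (2 * j + 1) + p (2 * j + 2) :=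
    ⟨fun j => Nat.casesOn j (p 0) (fun j => p (2 * j + 1) + p (2 * j + 2)), rfl, fun _ => rfl⟩
  obtain ⟨N, rfl⟩ : ∃ N, n = N + 1 := ⟨n - 1, by omega⟩
  have e1 : 2 * (N + 1) - 1 = 2 * N + 1 := by omega
  rw [e1] at hpz
  have hmnn : ∀ j, 0 ≤ m j := fun j => by
    rw [hm]
    exact add_nonneg (hp0 _) (hp0 _)
  have hmnn' : ∀ j, 0 ≤ m' j := by
    intro j
    cases j with
    | zero =>
      rw [hm0]
      exact hp0 0
    | succ j =>
      rw [hms]
      exact add_nonneg (hp0 _) (hp0 _)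
  have hm1 : ∑ j ∈ range (N + 1), m j = 1 := by
    rw [← hsum1, mid_one_norm_even]
    exact sum_congr rfl fun j _ => hm j
  have hm1' : ∑ j ∈ range (N + 1), m' j = 1 := by
    rw [← hsum1, show 2 * (N + 1) = 2 * N + 1 + 1 by ring, sum_range_succ _ (2 * N + 1), hpz,
      add_zero, mid_one_norm_odd, sum_range_succ', hm0, add_comm]
    congr 1
    exact sum_congr rfl fun j _ => hms j
  have g1 := gibbs (N + 1) m h hmnn hh (by
    intro j _ hj
    rw [hm] at hj
    rcases (hp0 (2 * j)).eq_or_lt with h0 | h0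
    · rw [← h0, zero_add] at hj
      have h2 := (hhk _ hj).1
      rwa [show (2 * j + 1) / 2 = j by omega] at h2
    · have h2 := (hhk _ h0).1
      rwa [show 2 * j / 2 = j by omega] at h2) hm1
  have g2 := gibbs (N + 1) m' k hmnn' hk (by
    intro j _ hj
    cases j with
    | zero =>
      rw [hm0] at hj
      exact (hhk _ hj).2.1
    | succ j =>
      rw [hms] at hj
      rcases (hp0 (2 * j + 1)).eq_or_lt with h0 | h0
      · rw [← h0, zero_add] at hj
        have h2 := (hhk _ hj).2.1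
        rwa [show (2 * j + 2 + 1) / 2 = j + 1 by omega] at h2
      · have h2 := (hhk _ h0).2.1
        rwa [show (2 * j + 1 + 1) / 2 = j + 1 by omega] at h2) hm1'
  -- the logarithms
  have l1 : ∑ j ∈ range (N + 1), m j * log (h j) =
      ∑ t ∈ range (2 * (N + 1)), p t * log (h (t / 2)) := by
    rw [mid_one_norm_even]
    refine sum_congr rfl fun j _ => ?_
    rw [hm, show 2 * j / 2 = j by omega, show (2 * j + 1) / 2 = j by omega]
    ring
  have l2 : ∑ j ∈ range (N + 1), m' j * log (k j) =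
      ∑ t ∈ range (2 * (N + 1)), p t * log (k ((t + 1) / 2)) := by
    rw [show 2 * (N + 1) = 2 * N + 1 + 1 by ring, sum_range_succ _ (2 * N + 1), hpz, zero_mul,
      add_zero, mid_one_norm_odd, sum_range_succ', hm0, add_comm]
    congr 1
    refine sum_congr rfl fun j _ => ?_
    rw [hms, show (2 * j + 1 + 1) / 2 = j + 1 by omega, show (2 * j + 2 + 1) / 2 = j + 1 by omega]
    ring
  have l3 : ∑ t ∈ range (2 * (N + 1)), p t * (log (f (X t)) + log (g (t - X t))) ≤
      ∑ t ∈ range (2 * (N + 1)), p t * log (h (t / 2)) +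
        ∑ t ∈ range (2 * (N + 1)), p t * log (k ((t + 1) / 2)) := by
    rw [← sum_add_distrib]
    refine sum_le_sum fun t _ => ?_
    rcases (hp0 t).eq_or_lt with h0 | h0
    · rw [← h0]
      simp
    · obtain ⟨a1, a2⟩ := hfg t h0
      obtain ⟨b1, b2, b3⟩ := hhk t h0
      rw [← log_mul a1.ne' a2.ne', ← mul_add, ← log_mul b1.ne' b2.ne']
      exact mul_le_mul_of_nonneg_left (log_le_log (mul_pos a1 a2) b3) h0.le
  have l4 : ∑ t ∈ range (2 * (N + 1)), p t * (log (f (X t)) + log (g (t - X t))) =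
      -(∑ i ∈ range (N + 1), negMulLog (f i)) - ∑ j ∈ range (N + 1), negMulLog (g j) := by
    have h1 := run_marg f g (N + 1) hf0 hg0 hn hf hg hf1 hg1 (fun i => log (f i))
      (fun j => log (g j))
    have h2 : ∑ t ∈ range (2 * (N + 1)), p t * (log (f (X t)) + log (g (t - X t))) =
        ∑ t ∈ range (2 * (N + 1)), pm f g t *
          (log (f (run f g t).x) + log (g (t - (run f g t).x))) :=
      sum_congr rfl fun t _ => by rw [hp, hX]
    rw [h2, h1]
    have h3 : ∀ q : ℕ → ℝ, ∑ i ∈ range (N + 1), q i * log (q i) =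
        -∑ i ∈ range (N + 1), negMulLog (q i) := by
      intro q
      rw [← sum_neg_distrib]
      refine sum_congr rfl fun i _ => ?_
      unfold negMulLog
      ring
    rw [h3 f, h3 g]
    ring
  -- the entropies
  have n1 : ∑ j ∈ range (N + 1), negMulLog (m j) + ∑ j ∈ range (N + 1), negMulLog (m' j) =
      negMulLog (p 0) + ∑ t ∈ range (2 * (N + 1) - 1), negMulLog (p t + p (t + 1)) := by
    rw [e1]
    have h1 : ∑ t ∈ range (2 * N + 1), negMulLog (p t + p (t + 1)) =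
        ∑ j ∈ range (N + 1), negMulLog (m j) + ∑ j ∈ range N, negMulLog (m' (j + 1)) := by
      rw [sum_range_succ, mid_one_norm_even, sum_range_succ _ N, hm N, sum_add_distrib]
      have a1 : ∑ j ∈ range N, negMulLog (p (2 * j) + p (2 * j + 1)) =
          ∑ j ∈ range N, negMulLog (m j) := sum_congr rfl fun j _ => by rw [hm]
      have a2 : ∑ j ∈ range N, negMulLog (p (2 * j + 1) + p (2 * j + 1 + 1)) =
          ∑ j ∈ range N, negMulLog (m' (j + 1)) := sum_congr rfl fun j _ => by rw [hms]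
      rw [a1, a2]
      ring
    rw [h1, sum_range_succ' (fun j => negMulLog (m' j)), hm0]
    ring
  have n2 := entropy_le f g (N + 1) hf0 hg0 hn hf hg hf1 hg1
  have n3 : negMulLog (pm f g 0) + negMulLog (pm f g (2 * (N + 1) - 1)) +
      ∑ t ∈ range (2 * (N + 1) - 1), negMulLog (pm f g t + pm f g (t + 1)) =
      negMulLog (p 0) + ∑ t ∈ range (2 * (N + 1) - 1), negMulLog (p t + p (t + 1)) := by
    have a1 : pm f g (2 * (N + 1) - 1) = 0 := by
      rw [← hp, e1]
      exact hpz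
    rw [a1, negMulLog_zero, add_zero, hp 0]
    congr 1
    exact sum_congr rfl fun t _ => by rw [hp, hp]
  rw [n3, ← n1] at n2
  rw [sum_add_distrib, l1] at g1
  rw [sum_add_distrib, l2] at g2
  have hlog : 0 ≤ log (∑ i ∈ range (N + 1), h i) + log (∑ i ∈ range (N + 1), k i) := by
    linarith
  -- positivity of the sums
  have hposm : ∃ t, 0 < p t ∧ t < 2 * (N + 1) - 1 := by
    by_contra hc
    have h1 : ∀ t ∈ range (2 * (N + 1)), p t = 0 := by
      intro t _
      by_contra h2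
      have h3 : 0 < p t := lt_of_le_of_ne (hp0 t) (Ne.symm h2)
      exact hc ⟨t, h3, hlt t h3⟩
    rw [sum_congr rfl h1] at hsum1
    simp at hsum1
  obtain ⟨t, ht, htn⟩ := hposm
  obtain ⟨b1, b2, -⟩ := hhk t ht
  have hH : 0 < ∑ i ∈ range (N + 1), h i :=
    lt_of_lt_of_le b1 (single_le_sum (fun i _ => hh i) (mem_range.2 (by omega)))
  have hK : 0 < ∑ i ∈ range (N + 1), k i :=
    lt_of_lt_of_le b2 (single_le_sum (fun i _ => hk i) (mem_range.2 (by omega)))
  rw [← log_mul hH.ne' hK.ne'] at hlog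
  by_contra hc
  exact absurd (log_neg (mul_pos hH hK) (not_le.1 hc)) (not_lt.2 hlog)

/-- Scale `f` and `g` by their sums `A, B` (if one of them is `0` the left hand side is `0`) and `h` by `A * B`. -/
theorem mid_one (f g h k : ℕ → ℝ) (n : ℕ) (hf0 : ∀ i, n ≤ i → f i = 0) (hg0 : ∀ i, n ≤ i → g i = 0)
    (hf : ∀ i, 0 ≤ f i) (hg : ∀ i, 0 ≤ g i) (hh : ∀ i, 0 ≤ h i) (hk : ∀ i, 0 ≤ k i)
    (H : ∀ i j, f i * g j ≤ h ((i + j) / 2) * k ((i + j + 1) / 2)) :
    (∑ i ∈ range n, f i) * ∑ i ∈ range n, g i ≤ (∑ i ∈ range n, h i) * ∑ i ∈ range n, k i := by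
  have hA0 : 0 ≤ ∑ i ∈ range n, f i := Finset.sum_nonneg fun i _ => hf i
  have hB0 : 0 ≤ ∑ i ∈ range n, g i := Finset.sum_nonneg fun i _ => hg i
  have hC0 : 0 ≤ (∑ i ∈ range n, h i) * ∑ i ∈ range n, k i :=
    mul_nonneg (Finset.sum_nonneg fun i _ => hh i) (Finset.sum_nonneg fun i _ => hk i)
  rcases hA0.eq_or_lt with hA | hA
  · rw [← hA, zero_mul]
    exact hC0
  rcases hB0.eq_or_lt with hB | hB
  · rw [← hB, mul_zero]
    exact hC0
  obtain ⟨A, hAe⟩ : ∃ A, A = ∑ i ∈ range n, f i := ⟨_, rfl⟩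
  obtain ⟨B, hBe⟩ : ∃ B, B = ∑ i ∈ range n, g i := ⟨_, rfl⟩
  rw [← hAe] at hA
  rw [← hBe] at hB
  rw [← hAe, ← hBe]
  have key := mid_one_norm (fun i => f i / A) (fun i => g i / B) (fun i => h i / (A * B)) k n
    (fun i hi => by simp only [hf0 i hi, zero_div]) (fun i hi => by simp only [hg0 i hi, zero_div])
    (fun i => div_nonneg (hf i) hA.le) (fun i => div_nonneg (hg i) hB.le)
    (fun i => div_nonneg (hh i) (mul_pos hA hB).le) hk
    (by rw [← Finset.sum_div, ← hAe, div_self hA.ne'])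
    (by rw [← Finset.sum_div, ← hBe, div_self hB.ne'])
    (fun i j => by
      rw [div_mul_div_comm, div_mul_eq_mul_div]
      exact div_le_div_of_nonneg_right (H i j) (mul_pos hA hB).le)
  rw [← Finset.sum_div, div_mul_eq_mul_div, le_div_iff₀ (mul_pos hA hB), one_mul] at key
  exact key

end GF
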