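import Pool.Agent.Helper27.GF.M2

/-!
M3 (project GF, MP_973bc8_pr).  The midpoint four functions theorem on `ℤ` and on `ℤ ^ n`.
-/

open Finset Real

namespace GF

private theorem M3_sum (F : ℤ → ℝ) (M : ℕ) :
    ∑ i ∈ Icc (-(M : ℤ)) M, F i = ∑ i ∈ range (2 * M + 1), F ((i : ℤ) - M) := by
  symm
  apply Finset.sum_nbij' (fun i : ℕ => (i : ℤ) - M) (fun j : ℤ => (j + M).toNat)
  · intro i hi
    rw [Finset.mem_range] at hi
    rw [Finset.mem_Icc]
    constructor <;> omega
  · intro j hj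
    rw [Finset.mem_Icc] at hj
    rw [Finset.mem_range]
    omega
  · intro i _
    simp
  · intro j hj
    rw [Finset.mem_Icc] at hj
    show (((j + M).toNat : ℕ) : ℤ) - M = j
    omega
  · intro i _
    rfl

/-- Shift by `M`: apply `mid_one` to `i ↦ f (i - M)` for `i ≤ 2 M` and `0` for `i > 2M`, the same for `g`, and `h (i - M)`, `k (i - M)`
(`n = 2 M + 1`; the midpoints of two points of `Icc (-M) M` stay in it, for pairs outside the left hand side is `0`). -/
theorem mid_int (f g h k : ℤ → ℝ) (M : ℕ) (hf : ∀ i, 0 ≤ f i) (hg : ∀ i, 0 ≤ g i) (hh : ∀ i, 0 ≤ h i)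
    (hk : ∀ i, 0 ≤ k i)
    (H : ∀ i ∈ Icc (-(M : ℤ)) M, ∀ j ∈ Icc (-(M : ℤ)) M, f i * g j ≤ h ((i + j) / 2) * k ((i + j + 1) / 2)) :
    (∑ i ∈ Icc (-(M : ℤ)) M, f i) * ∑ i ∈ Icc (-(M : ℤ)) M, g i ≤
      (∑ i ∈ Icc (-(M : ℤ)) M, h i) * ∑ i ∈ Icc (-(M : ℤ)) M, k i := by
  rw [M3_sum f, M3_sum g, M3_sum h, M3_sum k]
  have key := mid_one (fun i => if i < 2 * M + 1 then f ((i : ℤ) - M) else 0)
    (fun i => if i < 2 * M + 1 then g ((i : ℤ) - M) else 0)
    (fun i => h ((i : ℤ) - M)) (fun i => k ((i : ℤ) - M)) (2 * M + 1)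
    (fun i hi => if_neg (by omega)) (fun i hi => if_neg (by omega))
    (fun i => by
      show 0 ≤ if i < 2 * M + 1 then f ((i : ℤ) - M) else 0
      split_ifs
      · exact hf _
      · exact le_refl _)
    (fun i => by
      show 0 ≤ if i < 2 * M + 1 then g ((i : ℤ) - M) else 0
      split_ifs
      · exact hg _
      · exact le_refl _)
    (fun i => hh _) (fun i => hk _)
    (fun i j => by
      show (if i < 2 * M + 1 then f ((i : ℤ) - M) else 0) *
        (if j < 2 * M + 1 then g ((j : ℤ) - M) else 0) ≤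
        h ((((i + j) / 2 : ℕ) : ℤ) - M) * k ((((i + j + 1) / 2 : ℕ) : ℤ) - M)
      by_cases hi : i < 2 * M + 1
      · by_cases hj : j < 2 * M + 1
        · rw [if_pos hi, if_pos hj]
          have h1 := H ((i : ℤ) - M) (by rw [Finset.mem_Icc]; constructor <;> omega)
            ((j : ℤ) - M) (by rw [Finset.mem_Icc]; constructor <;> omega)
          have h2 : ((i : ℤ) - M + ((j : ℤ) - M)) / 2 = (((i + j) / 2 : ℕ) : ℤ) - M := by omega
          have h3 : ((i : ℤ) - M + ((j : ℤ) - M) + 1) / 2 = (((i + j + 1) / 2 : ℕ) : ℤ) - M := by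
            omega
          rw [h2, h3] at h1
          exact h1
        · rw [if_neg hj, mul_zero]
          exact mul_nonneg (hh _) (hk _)
      · rw [if_neg hi, zero_mul]
        exact mul_nonneg (hh _) (hk _))
  have e1 : ∑ i ∈ range (2 * M + 1), (if i < 2 * M + 1 then f ((i : ℤ) - M) else 0)
      = ∑ i ∈ range (2 * M + 1), f ((i : ℤ) - M) :=
    Finset.sum_congr rfl (fun i hi => if_pos (Finset.mem_range.mp hi))
  have e2 : ∑ i ∈ range (2 * M + 1), (if i < 2 * M + 1 then g ((i : ℤ) - M) else 0)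
      = ∑ i ∈ range (2 * M + 1), g ((i : ℤ) - M) :=
    Finset.sum_congr rfl (fun i hi => if_pos (Finset.mem_range.mp hi))
  rw [e1, e2] at key
  exact key

private theorem M3_cons (n M : ℕ) (F : (Fin (n + 1) → ℤ) → ℝ) :
    ∑ x ∈ Fintype.piFinset (fun _ : Fin (n + 1) => Icc (-(M : ℤ)) M), F x =
      ∑ a ∈ Icc (-(M : ℤ)) M, ∑ x ∈ Fintype.piFinset (fun _ : Fin n => Icc (-(M : ℤ)) M),
        F (Fin.cons a x) := by
  rw [← Finset.sum_product']
  apply Finset.sum_nbij' (fun x : Fin (n + 1) → ℤ => (x 0, Fin.tail x))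
    (fun p : ℤ × (Fin n → ℤ) => (Fin.cons p.1 p.2 : Fin (n + 1) → ℤ))
  · intro x hx
    rw [Fintype.mem_piFinset] at hx
    rw [Finset.mem_product, Fintype.mem_piFinset]
    exact ⟨hx 0, fun i => hx i.succ⟩
  · intro p hp
    rw [Finset.mem_product, Fintype.mem_piFinset] at hp
    rw [Fintype.mem_piFinset]
    intro i
    refine Fin.cases ?_ (fun l => ?_) i
    · exact hp.1
    · exact hp.2 l
  · intro x _
    exact Fin.cons_self_tail x
  · intro p _
    rfl
  · intro x _
    show F x = F (Fin.cons (x 0) (Fin.tail x))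
    rw [Fin.cons_self_tail]

/-- Induction on `n`. For `n + 1` split the sum over the box as `∑_{x0} ∑_{x'} f (Fin.cons x0 x')` (for instance `Fin.consPiProd` or
`Finset.sum_nbij'` with `Fin.cons` and `fun x => (x 0, Fin.tail x)`), put `F x0 = ∑_{x'} f (Fin.cons x0 x')` and so on; the hypothesis of `mid_int` for
`F, G, H, K` at `i, j` is the induction hypothesis for `f (Fin.cons i ·)`, `g (Fin.cons j ·)`, `h (Fin.cons ((i+j)/2) ·)`,
`k (Fin.cons ((i+j+1)/2) ·)`. -/
theorem mid_fin (n M : ℕ) (f g h k : (Fin n → ℤ) → ℝ) (hf : ∀ x, 0 ≤ f x) (hg : ∀ x, 0 ≤ g x)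
    (hh : ∀ x, 0 ≤ h x) (hk : ∀ x, 0 ≤ k x)
    (H : ∀ x ∈ Fintype.piFinset (fun _ : Fin n => Icc (-(M : ℤ)) M),
      ∀ y ∈ Fintype.piFinset (fun _ : Fin n => Icc (-(M : ℤ)) M),
      f x * g y ≤ h (fun i => (x i + y i) / 2) * k (fun i => (x i + y i + 1) / 2)) :
    (∑ x ∈ Fintype.piFinset (fun _ : Fin n => Icc (-(M : ℤ)) M), f x) *
        ∑ x ∈ Fintype.piFinset (fun _ : Fin n => Icc (-(M : ℤ)) M), g x ≤
      (∑ x ∈ Fintype.piFinset (fun _ : Fin n => Icc (-(M : ℤ)) M), h x) *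
        ∑ x ∈ Fintype.piFinset (fun _ : Fin n => Icc (-(M : ℤ)) M), k x := by
  induction n with
  | zero =>
    have hone : ∀ F : (Fin 0 → ℤ) → ℝ,
        ∑ x ∈ Fintype.piFinset (fun _ : Fin 0 => Icc (-(M : ℤ)) M), F x = F default := by
      intro F
      have h1 : Fintype.piFinset (fun _ : Fin 0 => Icc (-(M : ℤ)) M) = {default} := by
        ext x
        rw [Fintype.mem_piFinset, Finset.mem_singleton]
        exact ⟨fun _ => Subsingleton.elim _ _, fun _ i => i.elim0⟩
      rw [h1, Finset.sum_singleton]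
    rw [hone, hone, hone, hone]
    have hmem : (default : Fin 0 → ℤ) ∈ Fintype.piFinset (fun _ : Fin 0 => Icc (-(M : ℤ)) M) := by
      rw [Fintype.mem_piFinset]
      exact fun i => i.elim0
    have h2 := H default hmem default hmem
    rw [Subsingleton.elim (fun i : Fin 0 => ((default : Fin 0 → ℤ) i + (default : Fin 0 → ℤ) i) / 2)
      default, Subsingleton.elim
      (fun i : Fin 0 => ((default : Fin 0 → ℤ) i + (default : Fin 0 → ℤ) i + 1) / 2) default] at h2
    exact h2
  | succ n ih =>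
    rw [M3_cons n M f, M3_cons n M g, M3_cons n M h, M3_cons n M k]
    apply mid_int (fun a => ∑ x ∈ Fintype.piFinset (fun _ : Fin n => Icc (-(M : ℤ)) M),
        f (Fin.cons a x))
      (fun a => ∑ x ∈ Fintype.piFinset (fun _ : Fin n => Icc (-(M : ℤ)) M), g (Fin.cons a x))
      (fun a => ∑ x ∈ Fintype.piFinset (fun _ : Fin n => Icc (-(M : ℤ)) M), h (Fin.cons a x))
      (fun a => ∑ x ∈ Fintype.piFinset (fun _ : Fin n => Icc (-(M : ℤ)) M), k (Fin.cons a x)) M
      (fun a => Finset.sum_nonneg (fun x _ => hf _)) (fun a => Finset.sum_nonneg (fun x _ => hg _))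
      (fun a => Finset.sum_nonneg (fun x _ => hh _)) (fun a => Finset.sum_nonneg (fun x _ => hk _))
    intro i hi j hj
    apply ih (fun x => f (Fin.cons i x)) (fun x => g (Fin.cons j x))
      (fun x => h (Fin.cons ((i + j) / 2) x)) (fun x => k (Fin.cons ((i + j + 1) / 2) x))
      (fun x => hf _) (fun x => hg _) (fun x => hh _) (fun x => hk _)
    intro x hx y hy
    rw [Fintype.mem_piFinset] at hx hy
    have h1 := H (Fin.cons i x) (by
        rw [Fintype.mem_piFinset]
        intro l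
        refine Fin.cases ?_ (fun l => ?_) l
        · exact hi
        · exact hx l) (Fin.cons j y) (by
        rw [Fintype.mem_piFinset]
        intro l
        refine Fin.cases ?_ (fun l => ?_) l
        · exact hj
        · exact hy l)
    have h2 : (fun l : Fin (n + 1) => ((Fin.cons i x : Fin (n + 1) → ℤ) l +
        (Fin.cons j y : Fin (n + 1) → ℤ) l) / 2) =
        (Fin.cons ((i + j) / 2) (fun l => (x l + y l) / 2) : Fin (n + 1) → ℤ) := by
      funext l
      refine Fin.cases ?_ (fun l => ?_) l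
      · rfl
      · rfl
    have h3 : (fun l : Fin (n + 1) => ((Fin.cons i x : Fin (n + 1) → ℤ) l +
        (Fin.cons j y : Fin (n + 1) → ℤ) l + 1) / 2) =
        (Fin.cons ((i + j + 1) / 2) (fun l => (x l + y l + 1) / 2) : Fin (n + 1) → ℤ) := by
      funext l
      refine Fin.cases ?_ (fun l => ?_) l
      · rfl
      · rfl
    rw [h2, h3] at h1
    exact h1

private theorem M3_equiv {α : Type} [Fintype α] [DecidableEq α] (M n : ℕ) (e : α ≃ Fin n)
    (F : (α → ℤ) → ℝ) :
    ∑ x ∈ Fintype.piFinset (fun _ : α => Icc (-(M : ℤ)) M), F x =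
      ∑ x ∈ Fintype.piFinset (fun _ : Fin n => Icc (-(M : ℤ)) M), F (fun a => x (e a)) := by
  apply Finset.sum_nbij' (fun (x : α → ℤ) (i : Fin n) => x (e.symm i))
    (fun (x : Fin n → ℤ) (a : α) => x (e a))
  · intro x hx
    rw [Fintype.mem_piFinset] at hx ⊢
    exact fun i => hx _
  · intro x hx
    rw [Fintype.mem_piFinset] at hx ⊢
    exact fun i => hx _
  · intro x _
    funext a
    simp
  · intro x _
    funext a
    simp
  · intro x _
    congr 1
    funext a
    simp

/-- Transport `mid_fin` along an equivalence `α ≃ Fin (card α)`. -/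
theorem mid_fintype {α : Type} [Fintype α] [DecidableEq α] (M : ℕ) (f g h k : (α → ℤ) → ℝ) (hf : ∀ x, 0 ≤ f x)
    (hg : ∀ x, 0 ≤ g x) (hh : ∀ x, 0 ≤ h x) (hk : ∀ x, 0 ≤ k x)
    (H : ∀ x ∈ Fintype.piFinset (fun _ : α => Icc (-(M : ℤ)) M),
      ∀ y ∈ Fintype.piFinset (fun _ : α => Icc (-(M : ℤ)) M),
      f x * g y ≤ h (fun i => (x i + y i) / 2) * k (fun i => (x i + y i + 1) / 2)) :
    (∑ x ∈ Fintype.piFinset (fun _ : α => Icc (-(M : ℤ)) M), f x) *
        ∑ x ∈ Fintype.piFinset (fun _ : α => Icc (-(M : ℤ)) M), g x ≤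
      (∑ x ∈ Fintype.piFinset (fun _ : α => Icc (-(M : ℤ)) M), h x) *
        ∑ x ∈ Fintype.piFinset (fun _ : α => Icc (-(M : ℤ)) M), k x := by
  set e := Fintype.equivFin α with he
  rw [M3_equiv M _ e f, M3_equiv M _ e g, M3_equiv M _ e h, M3_equiv M _ e k]
  apply mid_fin (Fintype.card α) M (fun x => f (fun a => x (e a))) (fun x => g (fun a => x (e a)))
    (fun x => h (fun a => x (e a))) (fun x => k (fun a => x (e a)))
    (fun x => hf _) (fun x => hg _) (fun x => hh _) (fun x => hk _)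
  intro x hx y hy
  rw [Fintype.mem_piFinset] at hx hy
  exact H (fun a => x (e a)) (by rw [Fintype.mem_piFinset]; exact fun a => hx _)
    (fun a => y (e a)) (by rw [Fintype.mem_piFinset]; exact fun a => hy _)

end GF
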