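import Pool.Agent.Helper27.GF.Hol
import Pool.Agent.Helper27.GF.En2

/-!
Mv1 (project GF, MP_973bc8_pr).  Orthogonality of `X (lap f)` and the field in a region: base case and tools.
-/

open MeasureTheory

namespace GF

variable {I : Type}

/-- `X (lap f)` is orthogonal to the sines of the field in `W` -/
def PP (M : Fld I) (f : Pl → ℝ) (W : Set Pl) : Prop :=
  ∀ g : Pl → ℝ, Ne g → tsupport g ⊆ W → M.L (fun i => M.X (lap f) i * Real.sin (M.X g i)) = 0

lemma PP.mono {M : Fld I} {f : Pl → ℝ} {W W' : Set Pl} (h : PP M f W') (hW : W ⊆ W') : PP M f W :=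
  fun g hg hs => h g hg (hs.trans hW)

/-- Derivative: `deriv_sin` with `A = X (lap f)`, `B = X G`, `C = X F`, `B + t C = X (G + t F)`. -/
theorem PP.cos {M : Fld I} {f : Pl → ℝ} (hf : Cc f) {W : Set Pl} (h : PP M f W) {F G : Pl → ℝ} (hF : Ne F) (hG : Ne G)
    (hFs : tsupport F ⊆ W) (hGs : tsupport G ⊆ W) :
    M.L (fun i => M.X (lap f) i * M.X F i * Real.cos (M.X G i)) = 0 := by
  refine M.deriv_sin (M.X (lap f)) (M.X G) (M.X F) (M.ok_X _ hf.ne_lap) (M.ok_X _ hF) fun t => ?_
  have h1 : Ne (fun z => G z + t * F z) := hG.add (hF.smul t)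
  have h2 : tsupport (fun z => G z + t * F z) ⊆ W := by
    have h3 : tsupport (fun z => G z + t * F z) ⊆ tsupport G ∪ tsupport F := by
      refine closure_minimal (fun z hz => ?_) ((isClosed_tsupport _).union (isClosed_tsupport _))
      by_contra h4
      rw [Set.mem_union, not_or] at h4
      apply hz
      change G z + t * F z = 0
      rw [image_eq_zero_of_notMem_tsupport h4.1, image_eq_zero_of_notMem_tsupport h4.2]
      ring
    exact h3.trans (Set.union_subset hGs hFs)
  have h5 := h _ h1 h2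
  have h6 : (fun i => M.X (lap f) i * Real.sin (M.X (fun z => G z + t * F z) i)) =
      fun i => M.X (lap f) i * Real.sin (M.X G i + t * M.X F i) := by
    funext i
    rw [M.X_add G (fun z => t * F z) hG (hF.smul t) i, M.X_smul t F hF i]
  rw [h6] at h5
  exact h5

/-- Base case: `rp1` with `gm = 0`, `gp = g`: the right hand side is `L (X (lap f) X (rf d s (lap f)) cos (X 0)) = K * energy2 (lap f) (rf d s (lap f))
= -K ∫ f * rf d s (lap f) = 0` by `two`, `energy2_lap`: for every `z` one of the factors vanishes (`f z ≠ 0` gives `ell d z < s`, and `lap f (refl d s z) ≠ 0`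
gives `ell d (refl d s z) = 2 s - ell d z < s`). -/
theorem PP_base (M : Fld I) {f : Pl → ℝ} (hf : Cc f) {d : Pl} (hd : Dir d) (s : ℝ)
    (hfs : tsupport f ⊆ {z | ell d z < s}) : PP M f {z | s < ell d z} := by
  intro g hg hgs
  have h0 : (∫ z : Pl, (fun _ : Pl => (0 : ℝ)) z) + (∫ z, g z) = 0 := by
    rw [hg.zero]
    simp
  have h1 := M.rp1 d s f (fun _ => 0) g hd hf Cc.zero hg.toCc h0 hfs (by
    have h2 : tsupport (fun _ : Pl => (0 : ℝ)) = ∅ := by simp [tsupport, Function.support]
    rw [h2]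
    exact Set.empty_subset _) hgs
  have e1 : (fun z : Pl => (0 : ℝ) + g z) = g := by
    funext z
    rw [zero_add]
  have e2 : (fun z : Pl => (0 : ℝ) - rf d s (fun _ => (0 : ℝ)) z) = fun _ => 0 := by
    funext z
    show (0 : ℝ) - 0 = 0
    rw [sub_zero]
  have e3 : (fun i => M.X (lap f) i * M.X (rf d s (lap f)) i *
      Real.cos (M.X (fun z : Pl => (0 : ℝ) - rf d s (fun _ => (0 : ℝ)) z) i)) =
      fun i => M.X (lap f) i * M.X (rf d s (lap f)) i := by
    funext i
    rw [e2, M.X_zero, Real.cos_zero, mul_one]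
  have hr : Ne (rf d s (lap f)) := by
    refine ⟨hf.lap.rf hd s, ?_⟩
    rw [int_rf _ hd s]
    exact hf.ne_lap.zero
  have e4 : (∫ z, f z * rf d s (lap f) z) = 0 := by
    have e5 : (fun z => f z * rf d s (lap f) z) = fun _ => 0 := by
      funext z
      by_contra h3
      have h4 : f z ≠ 0 := fun h5 => h3 (by rw [h5, zero_mul])
      have h5 : lap f (refl d s z) ≠ 0 := fun h6 => h3 (by
        show f z * lap f (refl d s z) = 0
        rw [h6, mul_zero])
      have h6 : ell d z < s := hfs (subset_tsupport f h4)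
      have h7 : ell d (refl d s z) < s := hfs (tsupport_lap f (subset_tsupport (lap f) h5))
      rw [ell_refl hd] at h7
      linarith
    rw [e5]
    simp
  rw [e1, e3, M.two _ _ hf.ne_lap hr, energy2_lap hf hr.toCc, e4, neg_zero, mul_zero] at h1
  exact pow_eq_zero_iff (two_ne_zero) |>.1 (le_antisymm h1 (sq_nonneg _))

/-- Zero propagation: `t 0 = c`, `t (n+1) = 2 t n - s0`, so `t n - s0 = 2^n (c - s0)` tends to infinity and `a (t n)² ≤ a s0 * a (t (n+1))`. -/
theorem zero_prop (a : ℝ → ℝ) (s0 T : ℝ) (h : ∀ s t, s0 ≤ s → s ≤ t → a ((s + t) / 2) ^ 2 ≤ a s * a t)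
    (hT : ∀ t, T ≤ t → a t = 0) (c : ℝ) (hc : s0 < c) : a c = 0 := by
  have key : ∀ n : ℕ, ∀ x : ℝ, s0 < x → a (s0 + 2 ^ n * (x - s0)) = 0 → a x = 0 := by
    intro n
    induction n with
    | zero =>
      intro x _ h1
      simpa using h1
    | succ n ih =>
      intro x hx h1
      have h2 : a (2 * x - s0) = 0 := by
        refine ih (2 * x - s0) (by linarith) ?_
        rw [show s0 + 2 ^ n * (2 * x - s0 - s0) = s0 + 2 ^ (n + 1) * (x - s0) by ring]
        exact h1
      have h3 := h s0 (2 * x - s0) le_rfl (by linarith)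
      rw [show (s0 + (2 * x - s0)) / 2 = x by ring, h2, mul_zero] at h3
      exact pow_eq_zero_iff (two_ne_zero) |>.1 (le_antisymm h3 (sq_nonneg _))
  obtain ⟨n, hn⟩ := pow_unbounded_of_one_lt ((T - s0) / (c - s0)) (one_lt_two)
  refine key n c hc (hT _ ?_)
  rw [div_lt_iff₀ (by linarith)] at hn
  linarith

private lemma cut_ell_cont (d : Pl) : Continuous (fun z : Pl => ell d z) := by
  unfold ell
  fun_prop

private lemma cut_ell_smooth (d : Pl) : ContDiff ℝ (⊤ : ℕ∞) (fun z : Pl => ell d z) := by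
  unfold ell
  exact (contDiff_const.mul contDiff_fst).add (contDiff_const.mul contDiff_snd)

private lemma cut_tsupport_union {f g h : Pl → ℝ} (H : ∀ z, f z = 0 → g z = 0 → h z = 0) :
    tsupport h ⊆ tsupport f ∪ tsupport g := by
  refine closure_minimal (fun z hz => ?_) ((isClosed_tsupport _).union (isClosed_tsupport _))
  by_contra h4
  rw [Set.mem_union, not_or] at h4
  exact hz (H z (image_eq_zero_of_notMem_tsupport h4.1) (image_eq_zero_of_notMem_tsupport h4.2))

/-- Cutting a neutral function along a line. Let `al z = stp ((ell d z - c - η/4) / (η/2))` (`0` for `ell d z ≤ c + η/4`, `1` for `ell d z ≥ c + 3η/4`),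
`be z = stp ((c - η/4 - ell d z) / (η/2))`, `k` a bump in `{ell d z > c + 1}` (`exists_bump`, fixed, independent of `η`), `gs = g (1 - al - be)`,
`q = ∫ gs`, `gm = g be`, `gp = g al + q k`, `e = gs - q k`. `|gs| ≤ |g|`, and `gs = 0` off `|ell d z - c| < η`: `strip_mass`. -/
theorem cut {g : Pl → ℝ} (hg : Ne g) {d : Pl} (hd : Dir d) (c : ℝ) : ∃ R A C : ℝ, 0 ≤ R ∧ 0 ≤ A ∧ 0 ≤ C ∧
    ∀ η : ℝ, 0 < η → η < 1 → ∃ gm gp e : Pl → ℝ, Cc gm ∧ Cc gp ∧ Ne e ∧ (∀ z, g z = gm z + gp z + e z) ∧
      (∫ z, gm z) + (∫ z, gp z) = 0 ∧ tsupport gm ⊆ tsupport g ∧ tsupport gm ⊆ {z | ell d z ≤ c - η / 4} ∧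
      tsupport gp ⊆ {z | c + η / 4 ≤ ell d z} ∧ tsupport e ⊆ bx 0 R ∧ (∀ z, |e z| ≤ A) ∧ ∫ z, |e z| ≤ C * η := by
  have hU : IsOpen {z : Pl | c + 1 < ell d z} := isOpen_lt continuous_const (cut_ell_cont d)
  have hne : {z : Pl | c + 1 < ell d z}.Nonempty := by
    refine ⟨((|c| + 2) * d.1, (|c| + 2) * d.2), ?_⟩
    show c + 1 < d.1 * ((|c| + 2) * d.1) + d.2 * ((|c| + 2) * d.2)
    have h1 : 1 ≤ d.1 ^ 2 + d.2 ^ 2 := by
      rcases hd with rfl | rfl | rfl | rfl | rfl | rfl | rfl | rfl <;> norm_num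
    have h2 := le_abs_self c
    have h3 := abs_nonneg c
    nlinarith
  obtain ⟨k, hk, hk0, hk1, hks⟩ := exists_bump _ hU hne
  obtain ⟨Bg, hBg0, hBg⟩ := hg.toCc.bdd
  obtain ⟨Bk, hBk0, hBk⟩ := hk.bdd
  obtain ⟨Rg, hRg, hRgs⟩ := hg.toCc.box
  obtain ⟨Rk, hRk, hRks⟩ := hk.box
  obtain ⟨C0, hC0, hC⟩ := strip_mass hg.toCc hd c
  have hgi : Integrable g := hg.toCc.integrable
  have hM0 : 0 ≤ ∫ z, |g z| := integral_nonneg fun _ => abs_nonneg _
  refine ⟨max Rg Rk, Bg + (∫ z, |g z|) * Bk, 2 * C0, le_max_of_le_left hRg.le, by positivity,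
    by positivity, ?_⟩
  intro η hη hη1
  set al : Pl → ℝ := fun z => stp ((ell d z - c - η / 4) / (η / 2)) with hal
  set be : Pl → ℝ := fun z => stp ((c - η / 4 - ell d z) / (η / 2)) with hbe
  have hals : ContDiff ℝ (⊤ : ℕ∞) al := by
    refine Real.smoothTransition.contDiff.comp ?_
    exact ((cut_ell_smooth d).sub contDiff_const |>.sub contDiff_const).div_const _
  have hbes : ContDiff ℝ (⊤ : ℕ∞) be := by
    refine Real.smoothTransition.contDiff.comp ?_
    exact (contDiff_const.sub (cut_ell_smooth d)).div_const _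
  have hη2 : 0 < η / 2 := by positivity
  have hal0 : ∀ z, 0 ≤ al z := fun z => Real.smoothTransition.nonneg _
  have hbe0 : ∀ z, 0 ≤ be z := fun z => Real.smoothTransition.nonneg _
  have hal1 : ∀ z, al z ≤ 1 := fun z => Real.smoothTransition.le_one _
  have hbe1 : ∀ z, be z ≤ 1 := fun z => Real.smoothTransition.le_one _
  have halz : ∀ z, ell d z ≤ c + η / 4 → al z = 0 := by
    intro z hz
    apply Real.smoothTransition.zero_of_nonpos
    exact div_nonpos_of_nonpos_of_nonneg (by linarith) hη2.le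
  have hbez : ∀ z, c - η / 4 ≤ ell d z → be z = 0 := by
    intro z hz
    apply Real.smoothTransition.zero_of_nonpos
    exact div_nonpos_of_nonpos_of_nonneg (by linarith) hη2.le
  have halo : ∀ z, c + η ≤ ell d z → al z = 1 := by
    intro z hz
    apply Real.smoothTransition.one_of_one_le
    rw [one_le_div hη2]
    linarith
  have hbeo : ∀ z, ell d z ≤ c - η → be z = 1 := by
    intro z hz
    apply Real.smoothTransition.one_of_one_le
    rw [one_le_div hη2]
    linarith
  have hw0 : ∀ z, 0 ≤ 1 - al z - be z := by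
    intro z
    rcases le_total (ell d z) c with h | h
    · rw [halz z (by linarith)]
      linarith [hbe1 z]
    · rw [hbez z (by linarith)]
      linarith [hal1 z]
  have hw1 : ∀ z, 1 - al z - be z ≤ 1 := fun z => by linarith [hal0 z, hbe0 z]
  have hwz : ∀ z, ¬ |ell d z - c| < η → 1 - al z - be z = 0 := by
    intro z hz
    rw [not_lt, le_abs] at hz
    rcases hz with h | h
    · rw [halo z (by linarith), hbez z (by linarith)]
      ring
    · rw [halz z (by linarith), hbeo z (by linarith)]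
      ring
  have hws : ContDiff ℝ (⊤ : ℕ∞) (fun z => 1 - al z - be z) := (contDiff_const.sub hals).sub hbes
  set gs : Pl → ℝ := fun z => g z * (1 - al z - be z) with hgs
  have hgsC : Cc gs := hg.toCc.mul hws
  have hgmC : Cc (fun z => g z * be z) := hg.toCc.mul hbes
  have hgaC : Cc (fun z => g z * al z) := hg.toCc.mul hals
  set q : ℝ := ∫ z, gs z with hq
  have hgsle : ∀ z, |gs z| ≤ |g z| := by
    intro z
    show |g z * (1 - al z - be z)| ≤ |g z|
    rw [abs_mul, abs_of_nonneg (hw0 z)]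
    exact mul_le_of_le_one_right (abs_nonneg _) (hw1 z)
  have hqle : |q| ≤ ∫ z, |gs z| := by
    rw [hq]
    exact abs_integral_le_integral_abs
  have hgsint : ∫ z, |gs z| ≤ C0 * η := by
    refine le_trans (le_of_eq ?_) (le_trans (?_ : ∫ z in {z : Pl | |ell d z - c| < η}, |gs z| ≤ _)
      (hC η hη))
    · symm
      apply setIntegral_eq_integral_of_forall_compl_eq_zero
      intro z hz
      show |g z * (1 - al z - be z)| = 0
      rw [hwz z hz, mul_zero, abs_zero]
    · refine setIntegral_mono hgsC.integrable.abs.integrableOn hgi.abs.integrableOn ?_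
      exact hgsle
  have hgsM : ∫ z, |gs z| ≤ ∫ z, |g z| := integral_mono hgsC.integrable.abs hgi.abs hgsle
  refine ⟨fun z => g z * be z, fun z => g z * al z + q * k z, fun z => gs z - q * k z, hgmC,
    hgaC.add (hk.smul q), hgsC.neutral hk hk1, ?_, ?_, ?_, ?_, ?_, ?_, ?_, ?_⟩
  · intro z
    show g z = g z * be z + (g z * al z + q * k z) + (g z * (1 - al z - be z) - q * k z)
    ring
  · have e1 : (∫ z, (g z * al z + q * k z)) = (∫ z, g z * al z) + q := by
      rw [integral_add hgaC.integrable (hk.smul q).integrable, integral_const_mul, hk1, mul_one]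
    have e2 : (∫ z, g z * be z) + (∫ z, g z * al z) + q = ∫ z, g z := by
      have e3 : (∫ z, (g z * be z + g z * al z)) = (∫ z, g z * be z) + (∫ z, g z * al z) :=
        integral_add hgmC.integrable hgaC.integrable
      have e4 : (∫ z, (g z * be z + g z * al z + gs z)) =
          (∫ z, (g z * be z + g z * al z)) + ∫ z, gs z :=
        integral_add (hgmC.add hgaC).integrable hgsC.integrable
      rw [hq, ← e3, ← e4]
      apply integral_congr_ae
      refine Filter.Eventually.of_forall fun z => ?_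
      show g z * be z + g z * al z + g z * (1 - al z - be z) = g z
      ring
    rw [e1, ← add_assoc, e2, hg.zero]
  · exact closure_mono (Function.support_mul_subset_left _ _)
  · refine closure_minimal (fun z hz => ?_) (isClosed_le (cut_ell_cont d) continuous_const)
    by_contra h
    rw [Set.mem_ofPred_eq, not_le] at h
    apply hz
    show g z * be z = 0
    rw [hbez z h.le, mul_zero]
  · refine closure_minimal (fun z hz => ?_) (isClosed_le continuous_const (cut_ell_cont d))
    by_contra h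
    rw [Set.mem_ofPred_eq, not_le] at h
    apply hz
    show g z * al z + q * k z = 0
    have h1 : k z = 0 := by
      by_contra h2
      have h3 : c + 1 < ell d z := hks (subset_tsupport k h2)
      linarith
    rw [halz z h.le, h1, mul_zero, mul_zero, add_zero]
  · have h1 : tsupport (fun z => gs z - q * k z) ⊆ tsupport g ∪ tsupport k := by
      apply cut_tsupport_union
      intro z h2 h3
      show g z * (1 - al z - be z) - q * k z = 0
      rw [h2, h3]
      ring
    refine h1.trans ?_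
    intro z hz
    show |z.1 - 0| < max Rg Rk ∧ |z.2 - 0| < max Rg Rk
    rw [sub_zero, sub_zero]
    rcases hz with hz | hz
    · exact ⟨lt_max_of_lt_left (hRgs hz).1, lt_max_of_lt_left (hRgs hz).2⟩
    · exact ⟨lt_max_of_lt_right (hRks hz).1, lt_max_of_lt_right (hRks hz).2⟩
  · intro z
    show |gs z - q * k z| ≤ Bg + (∫ z, |g z|) * Bk
    have h1 : |q * k z| ≤ (∫ z, |g z|) * Bk := by
      rw [abs_mul]
      exact mul_le_mul (hqle.trans hgsM) (hBk z) (abs_nonneg _) hM0
    exact (abs_sub _ _).trans (add_le_add ((hgsle z).trans (hBg z)) h1)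
  · have h1 : ∫ z, |gs z - q * k z| ≤ (∫ z, |gs z|) + |q| * ∫ z, |k z| := by
      rw [← integral_const_mul, ← integral_add hgsC.integrable.abs (hk.integrable.abs.const_mul _)]
      refine integral_mono (hgsC.integrable.sub (hk.smul q).integrable).abs
        (hgsC.integrable.abs.add (hk.integrable.abs.const_mul _)) fun z => ?_
      show |gs z - q * k z| ≤ |gs z| + |q| * |k z|
      rw [← abs_mul]
      exact abs_sub _ _
    have h2 : ∫ z, |k z| = 1 := by
      rw [← hk1]
      apply integral_congr_ae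
      exact Filter.Eventually.of_forall fun z => abs_of_nonneg (hk0 z)
    rw [h2, mul_one] at h1
    linarith

/-- `|L (X f B)| ≤ C nrm f nrm h` for `|B| ≤ |X h|` (from `hol 2` and monotonicity) -/
theorem Fld.hol1 (M : Fld I) : ∃ C : ℝ, 0 ≤ C ∧ ∀ (f h : Pl → ℝ) (B : I → ℝ), Ne f → Ne h → (∀ i, |B i| ≤ |M.X h i|) →
    |M.L (fun i => M.X f i * B i)| ≤ C * nrm f * nrm h := by
  obtain ⟨C, hC0, hC⟩ := M.hol 2
  refine ⟨C, hC0, fun f h B hf hh hB => ?_⟩
  have hk := hC ![f, h] (by
    intro j
    fin_cases j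
    · exact hf
    · exact hh)
  simp only [Fin.prod_univ_two, Matrix.cons_val_zero, Matrix.cons_val_one] at hk
  rw [mul_assoc]
  refine (M.abs_L_le_of_le _ _ (M.ok_mul _ _ (M.ok_abs _ (M.ok_X _ hf))
    (M.ok_abs _ (M.ok_X _ hh))) fun i => ?_).trans hk
  rw [abs_mul]
  exact mul_le_mul_of_nonneg_left (hB i) (abs_nonneg _)

end GF
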