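import Pool.Agent.Helper27.GF.Mv1

/-!
Mv2 (project GF, MP_973bc8_pr).  The move lemma.
-/

open MeasureTheory

namespace GF

variable {I : Type}

/-- The far reflection: `refl d t z = (2t/|d|²) d + (z - (2 ell d z / |d|²) d)`, and `2 t / |d|² ∈ {2t, t}`. -/
theorem refl_far {d : Pl} (hd : Dir d) (R t : ℝ) (hR : 0 ≤ R) (ht : 0 ≤ t) :
    ∃ u : ℝ, t ≤ u ∧ ∀ z ∈ bx 0 R, refl d t z ∈ bx (u * d.1, u * d.2) (6 * R) := by
  have key : ∀ u : ℝ, t ≤ u → (∀ z : Pl, |z.1| < R → |z.2| < R →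
      |(refl d t z).1 - u * d.1| < 6 * R ∧ |(refl d t z).2 - u * d.2| < 6 * R) →
      ∃ u : ℝ, t ≤ u ∧ ∀ z ∈ bx 0 R, refl d t z ∈ bx (u * d.1, u * d.2) (6 * R) := by
    intro u hu h
    refine ⟨u, hu, fun z hz => ?_⟩
    have h1 : |z.1 - (0 : Pl).1| < R ∧ |z.2 - (0 : Pl).2| < R := hz
    simp only [Prod.fst_zero, Prod.snd_zero, sub_zero] at h1
    exact h z h1.1 h1.2
  rcases hd with rfl | rfl | rfl | rfl | rfl | rfl | rfl | rfl
  · refine key (2 * t) (by linarith) fun z h1 h2 => ?_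
    have e1 : (refl ((1 : ℝ), (0 : ℝ)) t z).1 - 2 * t * (1 : ℝ) = -z.1 := by
      simp only [refl, ell]
      ring
    have e2 : (refl ((1 : ℝ), (0 : ℝ)) t z).2 - 2 * t * (0 : ℝ) = z.2 := by
      simp only [refl, ell]
      ring
    have h0 := abs_nonneg z.1
    refine ⟨?_, ?_⟩
    · change |(refl ((1 : ℝ), (0 : ℝ)) t z).1 - 2 * t * (1 : ℝ)| < 6 * R
      rw [e1, abs_neg]
      linarith
    · change |(refl ((1 : ℝ), (0 : ℝ)) t z).2 - 2 * t * (0 : ℝ)| < 6 * R
      rw [e2]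
      linarith
  · refine key (2 * t) (by linarith) fun z h1 h2 => ?_
    have e1 : (refl ((-1 : ℝ), (0 : ℝ)) t z).1 - 2 * t * (-1 : ℝ) = -z.1 := by
      simp only [refl, ell]
      ring
    have e2 : (refl ((-1 : ℝ), (0 : ℝ)) t z).2 - 2 * t * (0 : ℝ) = z.2 := by
      simp only [refl, ell]
      ring
    have h0 := abs_nonneg z.1
    refine ⟨?_, ?_⟩
    · change |(refl ((-1 : ℝ), (0 : ℝ)) t z).1 - 2 * t * (-1 : ℝ)| < 6 * R
      rw [e1, abs_neg]
      linarith
    · change |(refl ((-1 : ℝ), (0 : ℝ)) t z).2 - 2 * t * (0 : ℝ)| < 6 * R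
      rw [e2]
      linarith
  · refine key (2 * t) (by linarith) fun z h1 h2 => ?_
    have e1 : (refl ((0 : ℝ), (1 : ℝ)) t z).1 - 2 * t * (0 : ℝ) = z.1 := by
      simp only [refl, ell]
      ring
    have e2 : (refl ((0 : ℝ), (1 : ℝ)) t z).2 - 2 * t * (1 : ℝ) = -z.2 := by
      simp only [refl, ell]
      ring
    have h0 := abs_nonneg z.1
    refine ⟨?_, ?_⟩
    · change |(refl ((0 : ℝ), (1 : ℝ)) t z).1 - 2 * t * (0 : ℝ)| < 6 * R
      rw [e1]
      linarith
    · change |(refl ((0 : ℝ), (1 : ℝ)) t z).2 - 2 * t * (1 : ℝ)| < 6 * R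
      rw [e2, abs_neg]
      linarith
  · refine key (2 * t) (by linarith) fun z h1 h2 => ?_
    have e1 : (refl ((0 : ℝ), (-1 : ℝ)) t z).1 - 2 * t * (0 : ℝ) = z.1 := by
      simp only [refl, ell]
      ring
    have e2 : (refl ((0 : ℝ), (-1 : ℝ)) t z).2 - 2 * t * (-1 : ℝ) = -z.2 := by
      simp only [refl, ell]
      ring
    have h0 := abs_nonneg z.1
    refine ⟨?_, ?_⟩
    · change |(refl ((0 : ℝ), (-1 : ℝ)) t z).1 - 2 * t * (0 : ℝ)| < 6 * R
      rw [e1]
      linarith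
    · change |(refl ((0 : ℝ), (-1 : ℝ)) t z).2 - 2 * t * (-1 : ℝ)| < 6 * R
      rw [e2, abs_neg]
      linarith
  · refine key t le_rfl fun z h1 h2 => ?_
    have e1 : (refl ((1 : ℝ), (1 : ℝ)) t z).1 - t * (1 : ℝ) = -z.2 := by
      simp only [refl, ell]
      ring
    have e2 : (refl ((1 : ℝ), (1 : ℝ)) t z).2 - t * (1 : ℝ) = -z.1 := by
      simp only [refl, ell]
      ring
    have h0 := abs_nonneg z.1
    refine ⟨?_, ?_⟩
    · change |(refl ((1 : ℝ), (1 : ℝ)) t z).1 - t * (1 : ℝ)| < 6 * R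
      rw [e1, abs_neg]
      linarith
    · change |(refl ((1 : ℝ), (1 : ℝ)) t z).2 - t * (1 : ℝ)| < 6 * R
      rw [e2, abs_neg]
      linarith
  · refine key t le_rfl fun z h1 h2 => ?_
    have e1 : (refl ((-1 : ℝ), (-1 : ℝ)) t z).1 - t * (-1 : ℝ) = -z.2 := by
      simp only [refl, ell]
      ring
    have e2 : (refl ((-1 : ℝ), (-1 : ℝ)) t z).2 - t * (-1 : ℝ) = -z.1 := by
      simp only [refl, ell]
      ring
    have h0 := abs_nonneg z.1
    refine ⟨?_, ?_⟩
    · change |(refl ((-1 : ℝ), (-1 : ℝ)) t z).1 - t * (-1 : ℝ)| < 6 * R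
      rw [e1, abs_neg]
      linarith
    · change |(refl ((-1 : ℝ), (-1 : ℝ)) t z).2 - t * (-1 : ℝ)| < 6 * R
      rw [e2, abs_neg]
      linarith
  · refine key t le_rfl fun z h1 h2 => ?_
    have e1 : (refl ((1 : ℝ), (-1 : ℝ)) t z).1 - t * (1 : ℝ) = z.2 := by
      simp only [refl, ell]
      ring
    have e2 : (refl ((1 : ℝ), (-1 : ℝ)) t z).2 - t * (-1 : ℝ) = z.1 := by
      simp only [refl, ell]
      ring
    have h0 := abs_nonneg z.1
    refine ⟨?_, ?_⟩
    · change |(refl ((1 : ℝ), (-1 : ℝ)) t z).1 - t * (1 : ℝ)| < 6 * R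
      rw [e1]
      linarith
    · change |(refl ((1 : ℝ), (-1 : ℝ)) t z).2 - t * (-1 : ℝ)| < 6 * R
      rw [e2]
      linarith
  · refine key t le_rfl fun z h1 h2 => ?_
    have e1 : (refl ((-1 : ℝ), (1 : ℝ)) t z).1 - t * (-1 : ℝ) = z.2 := by
      simp only [refl, ell]
      ring
    have e2 : (refl ((-1 : ℝ), (1 : ℝ)) t z).2 - t * (1 : ℝ) = z.1 := by
      simp only [refl, ell]
      ring
    have h0 := abs_nonneg z.1
    refine ⟨?_, ?_⟩
    · change |(refl ((-1 : ℝ), (1 : ℝ)) t z).1 - t * (-1 : ℝ)| < 6 * R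
      rw [e1]
      linarith
    · change |(refl ((-1 : ℝ), (1 : ℝ)) t z).2 - t * (1 : ℝ)| < 6 * R
      rw [e2]
      linarith

/-- The function `a t` of the move vanishes for large `t`: by `H` with `6 R`, `R` so large that the supports of `f` and `gm` are in `bx 0 R`, and `PP.cos`
with `F = rf d t (lap f)`, `G = gm - rf d t gm` (both neutral; `tsupport_rf`, `refl_refl`, `refl_far`). -/
theorem move_zero (M : Fld I) {f gm : Pl → ℝ} (hf : Cc f) (hg : Cc gm) {d : Pl} (hd : Dir d) (W : Set Pl)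
    (hgW : tsupport gm ⊆ W)
    (H : ∀ R : ℝ, ∃ T : ℝ, ∀ t : ℝ, T ≤ t → PP M f (W ∪ bx (t * d.1, t * d.2) R)) :
    ∃ T : ℝ, ∀ t : ℝ, T ≤ t →
      M.L (fun i => M.X (lap f) i * M.X (rf d t (lap f)) i * Real.cos (M.X (fun z => gm z - rf d t gm z) i)) = 0 := by
  obtain ⟨R₁, hR₁, hs₁⟩ := hf.box
  obtain ⟨R₂, hR₂, hs₂⟩ := hg.box
  obtain ⟨R, hRd⟩ : ∃ R, R = max R₁ R₂ := ⟨_, rfl⟩
  have hR1 : R₁ ≤ R := hRd ▸ le_max_left _ _
  have hR2 : R₂ ≤ R := hRd ▸ le_max_right _ _
  have hR0 : 0 ≤ R := hR₁.le.trans hR1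
  have hbx : ∀ z : Pl, |z.1| < R → |z.2| < R → z ∈ bx 0 R := fun z h1 h2 => by
    change |z.1 - (0 : Pl).1| < R ∧ |z.2 - (0 : Pl).2| < R
    simpa only [Prod.fst_zero, Prod.snd_zero, sub_zero] using ⟨h1, h2⟩
  obtain ⟨T, hT⟩ := H (6 * R)
  refine ⟨max T 0, fun t ht => ?_⟩
  have hTt : T ≤ t := (le_max_left _ _).trans ht
  have ht0 : 0 ≤ t := (le_max_right _ _).trans ht
  obtain ⟨u, hu, hfar⟩ := refl_far hd R t hR0 ht0
  have hP := hT u (hTt.trans hu)
  have hlap : Ne (lap f) := hf.ne_lap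
  have hF : Ne (rf d t (lap f)) := ⟨hlap.toCc.rf hd t, by rw [int_rf _ hd t, hlap.zero]⟩
  have hG : Ne (fun z => gm z - rf d t gm z) := by
    refine ⟨hg.sub (hg.rf hd t), ?_⟩
    rw [integral_sub hg.integrable (hg.rf hd t).integrable, int_rf _ hd t, sub_self]
  have hmove : ∀ z : Pl, refl d t z ∈ bx 0 R → z ∈ bx (u * d.1, u * d.2) (6 * R) := by
    intro z hz
    have h1 := hfar _ hz
    rwa [refl_refl hd t z] at h1
  have hFs : tsupport (rf d t (lap f)) ⊆ W ∪ bx (u * d.1, u * d.2) (6 * R) := by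
    intro z hz
    have h1 := tsupport_lap f (tsupport_rf (lap f) hd t hz)
    have h2 := hs₁ h1
    exact Or.inr (hmove z (hbx _ (h2.1.trans_le hR1) (h2.2.trans_le hR1)))
  have hGs : tsupport (fun z => gm z - rf d t gm z) ⊆ W ∪ bx (u * d.1, u * d.2) (6 * R) := by
    have h0 : tsupport (fun z => gm z - rf d t gm z) ⊆ tsupport gm ∪ tsupport (rf d t gm) := by
      unfold tsupport
      rw [← closure_union]
      refine closure_mono fun z hz => ?_
      by_contra hcon
      rw [Set.mem_union, not_or, Function.mem_support, Function.mem_support, not_not,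
        not_not] at hcon
      apply hz
      simp only [hcon.1, hcon.2, sub_zero]
    intro z hz
    rcases h0 hz with h1 | h1
    · exact Or.inl (hgW h1)
    · have h2 := hs₂ (tsupport_rf gm hd t h1)
      exact Or.inr (hmove z (hbx _ (h2.1.trans_le hR2) (h2.2.trans_le hR2)))
  exact hP.cos hf hF hG hFs hGs

private lemma Mv2_sin (x y : ℝ) : |Real.sin x - Real.sin y| ≤ |x - y| := by
  rw [Real.sin_sub_sin, abs_mul, abs_mul, abs_two]
  have h1 : |Real.sin ((x - y) / 2)| ≤ |(x - y) / 2| := Real.abs_sin_le_abs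
  have h2 : |Real.cos ((x + y) / 2)| ≤ 1 := Real.abs_cos_le_one _
  rw [abs_div, abs_two] at h1
  calc 2 * |Real.sin ((x - y) / 2)| * |Real.cos ((x + y) / 2)|
      ≤ 2 * (|x - y| / 2) * 1 := by
        refine mul_le_mul (mul_le_mul_of_nonneg_left h1 zero_le_two) h2 (abs_nonneg _) ?_
        positivity
    _ = |x - y| := by ring

/-- Move lemma. Given `g` neutral with support in `W`, let `c = (s + s') / 2`. For small `η` take `gm, gp, e` from `cut`; by `move_zero` (for the set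
`W ∩ {ell d z < s'}`), `rp2` and `zero_prop` (with `s0 = max s (c - η/8)`, so that the supports of `f` and of `gm` are in `{ell d z < s0}`,
and `c > s0`) the right hand side of `rp1` at the line `c` vanishes, so `L (X (lap f) sin (X (gm + gp))) = 0`.
`|L (X (lap f) sin (X g))| = |L (X (lap f) (sin (X g) - sin (X (gm + gp))))| ≤ C nrm (lap f) nrm e ≤ C' η^(7/8)` by `Fld.hol1` and `nrm_le`; `η → 0`. -/
theorem move (M : Fld I) {f : Pl → ℝ} (hf : Cc f) {d : Pl} (hd : Dir d) (s s' : ℝ) (hss : s < s')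
    (hfs : tsupport f ⊆ {z | ell d z < s}) (W : Set Pl)
    (H : ∀ R : ℝ, ∃ T : ℝ, ∀ t : ℝ, T ≤ t → PP M f ((W ∩ {z | ell d z < s'}) ∪ bx (t * d.1, t * d.2) R)) :
    PP M f W := by
  intro g hg hgW
  obtain ⟨R, A, C, hR, hA, hC, hcut⟩ := cut hg hd ((s + s') / 2)
  obtain ⟨C₁, hC₁, hhol⟩ := M.hol1
  obtain ⟨C₂, hC₂, hnrm⟩ := nrm_le R A
  obtain ⟨c, hc⟩ : ∃ c, c = (s + s') / 2 := ⟨_, rfl⟩
  rw [← hc] at hcut
  have hsc : s < c := by linarith
  have hcs : c < s' := by linarith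
  have hnf : 0 ≤ nrm (lap f) := Fld.nrm_nonneg _
  have hbound : ∀ η : ℝ, 0 < η → η < 1 →
      |M.L (fun i => M.X (lap f) i * Real.sin (M.X g i))| ≤
        C₁ * nrm (lap f) * (C₂ * (C * η) ^ (7 / 8 : ℝ)) := by
    intro η h0 h1
    obtain ⟨gm, gp, e, hgm, hgp, he, hsum, hint, ht1, ht2, ht3, ht4, hbd, hL1⟩ := hcut η h0 h1
    have ht2' : ∀ z ∈ tsupport gm, ell d z ≤ c - η / 4 := fun z hz => ht2 hz
    have ht3' : ∀ z ∈ tsupport gp, c + η / 4 ≤ ell d z := fun z hz => ht3 hz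
    have hfs' : ∀ z ∈ tsupport f, ell d z < s := fun z hz => hfs hz
    obtain ⟨T, hT⟩ := move_zero M hf hgm hd (W ∩ {z | ell d z < s'})
      (fun z hz => ⟨hgW (ht1 hz), by
        change ell d z < s'
        have := ht2' z hz
        linarith⟩) H
    have hac : (fun t => M.L (fun i => M.X (lap f) i * M.X (rf d t (lap f)) i *
        Real.cos (M.X (fun z => gm z - rf d t gm z) i))) c = 0 := by
      refine zero_prop (fun t => M.L (fun i => M.X (lap f) i * M.X (rf d t (lap f)) i *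
        Real.cos (M.X (fun z => gm z - rf d t gm z) i))) (max s (c - η / 8)) T ?_
        (fun t ht => hT t ht) c (max_lt hsc (by linarith))
      intro σ t hσ hσt
      have hσ1 := (le_max_left s (c - η / 8)).trans hσ
      have hσ2 := (le_max_right s (c - η / 8)).trans hσ
      refine M.rp2 d σ t f gm hd hf hgm hσt (fun z hz => ?_) (fun z hz => ?_)
      · exact lt_of_lt_of_le (hfs' z hz) hσ1
      · have := ht2' z hz
        change ell d z < σ
        linarith
    have hrp := M.rp1 d c f gm gp hd hf hgm hgp hint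
      (fun z hz => (hfs' z hz).trans hsc)
      (fun z hz => by
        have := ht2' z hz
        change ell d z < c
        linarith)
      (fun z hz => by
        have := ht3' z hz
        change c < ell d z
        linarith)
    have hz : M.L (fun i => M.X (lap f) i * Real.sin (M.X (fun z => gm z + gp z) i)) = 0 := by
      have h3 := hrp.trans (le_of_eq hac)
      exact (pow_eq_zero_iff two_ne_zero).1 (le_antisymm h3 (sq_nonneg _))
    have hne : Ne (fun z => gm z + gp z) :=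
      ⟨hgm.add hgp, by rw [integral_add hgm.integrable hgp.integrable]; exact hint⟩
    have hX : ∀ i, M.X g i = M.X (fun z => gm z + gp z) i + M.X e i := by
      intro i
      have h2 : g = fun z => (gm z + gp z) + e z := funext hsum
      conv_lhs => rw [h2]
      exact M.X_add _ _ hne he i
    have hok : ∀ u : Pl → ℝ, M.Ok (fun i => M.X (lap f) i * Real.sin (M.X u i)) := fun u =>
      M.ok_mul_bdd _ _ (M.ok_X _ hf.ne_lap) 1 (fun i => Real.abs_sin_le_one _)
    have hLs : M.L (fun i => M.X (lap f) i *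
        (Real.sin (M.X g i) - Real.sin (M.X (fun z => gm z + gp z) i))) =
        M.L (fun i => M.X (lap f) i * Real.sin (M.X g i)) := by
      have h4 := M.L_sub _ _ (hok g) (hok (fun z => gm z + gp z))
      rw [hz, sub_zero] at h4
      rw [← h4]
      congr 1
      funext i
      ring
    rw [← hLs]
    have h5 := hhol (lap f) e
      (fun i => Real.sin (M.X g i) - Real.sin (M.X (fun z => gm z + gp z) i)) hf.ne_lap he
      (fun i => by
        refine (Mv2_sin _ _).trans (le_of_eq ?_)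
        rw [hX i, add_sub_cancel_left])
    refine h5.trans ?_
    have h6 : nrm e ≤ C₂ * (C * η) ^ (7 / 8 : ℝ) :=
      (hnrm e he.toCc ht4 hbd).trans (mul_le_mul_of_nonneg_left
        (Real.rpow_le_rpow (integral_nonneg fun z => abs_nonneg _) hL1 (by norm_num)) hC₂)
    exact mul_le_mul_of_nonneg_left h6 (mul_nonneg hC₁ hnf)
  have hlim : Filter.Tendsto (fun η : ℝ => C₁ * nrm (lap f) * (C₂ * (C * η) ^ (7 / 8 : ℝ)))
      (nhdsWithin 0 (Set.Ioi 0)) (nhds 0) := by
    have h1 : ContinuousAt (fun η : ℝ => C₁ * nrm (lap f) * (C₂ * (C * η) ^ (7 / 8 : ℝ))) 0 := by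
      have h2 : ContinuousAt (fun η : ℝ => (C * η) ^ (7 / 8 : ℝ)) 0 :=
        (continuousAt_const.mul continuousAt_id).rpow_const (Or.inr (by norm_num))
      exact continuousAt_const.mul (continuousAt_const.mul h2)
    have h3 := h1.tendsto.mono_left (nhdsWithin_le_nhds (s := Set.Ioi (0 : ℝ)))
    have h4 : C₁ * nrm (lap f) * (C₂ * (C * 0) ^ (7 / 8 : ℝ)) = 0 := by
      rw [mul_zero, Real.zero_rpow (by norm_num), mul_zero, mul_zero]
    rwa [h4] at h3
  have hle : |M.L (fun i => M.X (lap f) i * Real.sin (M.X g i))| ≤ 0 := by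
    refine ge_of_tendsto hlim ?_
    have h1 : Set.Ioo (0 : ℝ) 1 ∈ nhdsWithin (0 : ℝ) (Set.Ioi 0) :=
      Ioo_mem_nhdsGT zero_lt_one
    filter_upwards [h1] with η hη
    exact hbound η hη.1 hη.2
  exact abs_eq_zero.1 (le_antisymm hle (abs_nonneg _))

end GF
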