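import Pool.Agent.Helper27.GF.Mv2

/-!
Mv3 (project GF, MP_973bc8_pr).  Five moves: orthogonality to the field outside a box, and for disjoint supports.
-/

open MeasureTheory

namespace GF

variable {I : Type}

private lemma PPbox_dir {d : Pl} (hd : Dir d) : |d.1| ≤ 1 ∧ |d.2| ≤ 1 := by
  rcases hd with rfl | rfl | rfl | rfl | rfl | rfl | rfl | rfl <;> simp

private lemma PPbox_sub {d z w : Pl} {q : ℝ} (hd : Dir d) (h1 : |z.1 - w.1| < q)
    (h2 : |z.2 - w.2| < q) : |ell d z - ell d w| < 2 * q := by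
  obtain ⟨a1, a2⟩ := PPbox_dir hd
  have e : ell d z - ell d w = d.1 * (z.1 - w.1) + d.2 * (z.2 - w.2) := by
    unfold ell
    ring
  have b1 : |d.1 * (z.1 - w.1)| ≤ |z.1 - w.1| := by
    rw [abs_mul]
    exact mul_le_of_le_one_left (abs_nonneg _) a1
  have b2 : |d.2 * (z.2 - w.2)| ≤ |z.2 - w.2| := by
    rw [abs_mul]
    exact mul_le_of_le_one_left (abs_nonneg _) a2
  rw [e]
  have b3 := abs_add_le (d.1 * (z.1 - w.1)) (d.2 * (z.2 - w.2))
  linarith

private lemma PPbox_far {d e : Pl} (hd : Dir d) (he : 1 ≤ ell d e) (R s' : ℝ) : ∃ T : ℝ,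
    ∀ t : ℝ, T ≤ t → ∀ z ∈ bx (t * e.1, t * e.2) R, s' < ell d z := by
  refine ⟨|s'| + 2 * |R|, fun t ht z hz => ?_⟩
  obtain ⟨h1, h2⟩ := hz
  have h3 := abs_lt.1 (PPbox_sub (w := (t * e.1, t * e.2)) hd h1 h2)
  have h4 : ell d (t * e.1, t * e.2) = t * ell d e := by
    unfold ell
    ring
  have h5 : 0 ≤ t := le_trans (by positivity) ht
  have h6 : t ≤ t * ell d e := le_mul_of_one_le_right h5 he
  have h7 := le_abs_self R
  have h8 := le_abs_self s'
  rw [h4] at h3
  linarith [h3.1]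

private lemma PPbox_supp {f : Pl → ℝ} {c : Pl} {r : ℝ} (hfs : tsupport f ⊆ bx c r) {d : Pl}
    (hd : Dir d) : tsupport f ⊆ {z | ell d z < ell d c + 2 * r} := by
  intro z hz
  obtain ⟨h1, h2⟩ := hfs hz
  have h3 := abs_lt.1 (PPbox_sub hd h1 h2)
  show ell d z < ell d c + 2 * r
  linarith [h3.2]

private lemma PPbox_step (M : Fld I) {f : Pl → ℝ} (hf : Cc f) {c : Pl} {r : ℝ} (hr : 0 < r)
    (hfs : tsupport f ⊆ bx c r) {d e : Pl} (hd : Dir d) (he : 1 ≤ ell d e) (S : Set Pl)
    (H : ∀ R : ℝ, ∃ T : ℝ, ∀ t : ℝ, T ≤ t →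
      PP M f ((S ∩ {z | ell d z < ell d c + 3 * r}) ∪ bx (t * d.1, t * d.2) R)) :
    ∀ R : ℝ, ∃ T : ℝ, ∀ t : ℝ, T ≤ t → PP M f (S ∪ bx (t * e.1, t * e.2) R) := by
  intro R
  obtain ⟨T, hT⟩ := PPbox_far hd he R (ell d c + 3 * r)
  refine ⟨T, fun t ht => ?_⟩
  refine move M hf hd (ell d c + 2 * r) (ell d c + 3 * r) (by linarith) (PPbox_supp hfs hd) _ ?_
  intro R'
  obtain ⟨T', hT'⟩ := H R'
  refine ⟨T', fun t' ht' => (hT' t' ht').mono ?_⟩
  rintro z (⟨hz | hz, hz2⟩ | hz)
  · exact Or.inl ⟨hz, hz2⟩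
  · exact absurd hz2 (not_lt.2 (hT t ht z hz).le)
  · exact Or.inr hz

/-- Let `U` be the set and `A d = {z | ell d z < ell d c + 3 r}`. Going backwards:
(5) for all `R` and all large `t`: `PP` for `(U ∩ A(1,0) ∩ A(1,1) ∩ A(0,1) ∩ A(-1,1) ∩ A(-1,0)) ∪ bx (-t, 0) R`, by `PP_base` with `d = (-1,-1)`,
`s = ell d c + 2 r`: in the first set `|z.1 - c.1| < 3 r`, hence `8 r < |z.2 - c.2|`, hence `z.2 - c.2 < -8 r`.
(4) `PP` for `(U ∩ A(1,0) ∩ A(1,1) ∩ A(0,1) ∩ A(-1,1)) ∪ bx (-t, t) R` for all large `t`, by `move` with `d = (-1,0)`, `s = ell d c + 2 r`, `s' = ell d c + 3 r`: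
the box does not meet `A(-1,0)` for large `t`. (3) `(U ∩ A(1,0) ∩ A(1,1) ∩ A(0,1)) ∪ bx (0, t) R` by `move` with `d = (-1,1)`.
(2) `(U ∩ A(1,0) ∩ A(1,1)) ∪ bx (t, t) R` by `move` with `d = (0,1)`. (1) `(U ∩ A(1,0)) ∪ bx (t, 0) R` by `move` with `d = (1,1)`. (0) `U` by `move` with
`d = (1,0)`. (Put the repeated argument in a private lemma: if `PP` for `(S ∩ A d) ∪ bx (t d) R` for all large `t` and `bx c' R ∩ A d = ∅` then `PP` for `S ∪ bx c' R`.) -/
theorem PP_box (M : Fld I) {f : Pl → ℝ} (hf : Cc f) (c : Pl) (r : ℝ) (hr : 0 < r) (hfs : tsupport f ⊆ bx c r) :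
    PP M f {z | 8 * r < |z.1 - c.1| ∨ 8 * r < |z.2 - c.2|} := by
  have d1 : Dir (1, 0) := Or.inl rfl
  have d2 : Dir (1, 1) := by simp [Dir]
  have d3 : Dir (0, 1) := by simp [Dir]
  have d4 : Dir (-1, 1) := by simp [Dir]
  have d5 : Dir (-1, 0) := by simp [Dir]
  have d6 : Dir (-1, -1) := by simp [Dir]
  refine move M hf d1 (ell (1, 0) c + 2 * r) (ell (1, 0) c + 3 * r) (by linarith)
    (PPbox_supp hfs d1) _ ?_
  refine PPbox_step M hf hr hfs (d := (1, 1)) (e := (1, 0)) d2 (by norm_num [ell]) _ ?_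
  refine PPbox_step M hf hr hfs (d := (0, 1)) (e := (1, 1)) d3 (by norm_num [ell]) _ ?_
  refine PPbox_step M hf hr hfs (d := (-1, 1)) (e := (0, 1)) d4 (by norm_num [ell]) _ ?_
  refine PPbox_step M hf hr hfs (d := (-1, 0)) (e := (-1, 1)) d5 (by norm_num [ell]) _ ?_
  intro R
  obtain ⟨T, hT⟩ := PPbox_far (e := (-1, 0)) d6 (by norm_num [ell]) R (ell (-1, -1) c + 2 * r)
  refine ⟨T, fun t ht => ?_⟩
  refine (PP_base M hf d6 (ell (-1, -1) c + 2 * r) (PPbox_supp hfs d6)).mono ?_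
  rintro z (⟨⟨⟨⟨⟨hz, h1⟩, h2⟩, h3⟩, h4⟩, h5⟩ | hz)
  · have k1 : z.1 - c.1 < 3 * r := by
      have : ell (1, 0) z < ell (1, 0) c + 3 * r := h1
      simp only [ell] at this
      linarith
    have k3 : z.2 - c.2 < 3 * r := by
      have : ell (0, 1) z < ell (0, 1) c + 3 * r := h3
      simp only [ell] at this
      linarith
    have k5 : -(z.1 - c.1) < 3 * r := by
      have : ell (-1, 0) z < ell (-1, 0) c + 3 * r := h5
      simp only [ell] at this
      linarith
    have k6 : z.2 - c.2 < -(8 * r) := by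
      rcases hz with hz | hz
      · have := abs_lt.2 (show -(3 * r) < z.1 - c.1 ∧ z.1 - c.1 < 3 * r from ⟨by linarith, k1⟩)
        linarith
      · rcases lt_abs.1 hz with h | h
        · linarith
        · linarith
    show ell (-1, -1) c + 2 * r < ell (-1, -1) z
    simp only [ell]
    linarith
  · exact hT t ht z hz

/-- Disjoint supports. The two compact sets have a positive distance `δ` (sup metric of `ℝ × ℝ`). Take `r < δ / 20`, `N` large (`Cc.box`, `th_sum`): `f = ∑_q f th_q`,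
`lap f = ∑_q lap (f th_q)`, `X (lap f) = ∑ X (lap (f th_q))`, and each term vanishes by `PP_box` with `c = ctr r q` and `2 r` (if `f th_q` is not identically
`0` then `ctr r q` is at distance `≤ 2 r` from the support of `f`, so `tsupport g` is at distance `≥ 18 r` from it). -/
theorem loc_zero (M : Fld I) {f g : Pl → ℝ} (hf : Cc f) (hg : Ne g) (h : Disjoint (tsupport f) (tsupport g)) :
    M.L (fun i => M.X (lap f) i * Real.sin (M.X g i)) = 0 := by
  obtain ⟨δ, hδ, hdis⟩ := h.exists_thickenings hf.supp (isClosed_tsupport g)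
  have hdist : ∀ z ∈ tsupport f, ∀ w ∈ tsupport g, δ ≤ dist z w := by
    intro z hz w hw
    by_contra hlt
    push Not at hlt
    refine Set.disjoint_left.1 hdis (?_ : w ∈ _) ?_
    · rw [Metric.mem_thickening_iff]
      exact ⟨z, hz, by rwa [dist_comm]⟩
    · rw [Metric.mem_thickening_iff]
      exact ⟨w, hw, by rwa [dist_self]⟩
  obtain ⟨R, hR, hbox⟩ := hf.box
  have hr : 0 < δ / 40 := by positivity
  obtain ⟨N, hN⟩ := exists_nat_ge (R / (δ / 40) + 1)
  set r : ℝ := δ / 40 with hrdef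
  set S : Finset (ℤ × ℤ) := (Finset.Icc (-(N : ℤ)) N) ×ˢ (Finset.Icc (-(N : ℤ)) N) with hS
  have hu : ∀ q : ℤ × ℤ, Cc (fun z => f z * th r q z) := fun q => hf.mul (th_smooth r q)
  have hsum : f = fun z => ∑ q ∈ S, f z * th r q z := by
    funext z
    rw [← Finset.mul_sum]
    by_cases hz : z ∈ tsupport f
    · have h1 := hbox hz
      rw [hS, th_sum R r hr N hN z ⟨h1.1.le, h1.2.le⟩, mul_one]
    · rw [image_eq_zero_of_notMem_tsupport hz, zero_mul]
  have hlap : lap f = fun z => ∑ q ∈ S, lap (fun z => f z * th r q z) z := by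
    funext z
    conv_lhs => rw [hsum]
    exact lap_sum S (fun q z => f z * th r q z) (fun q _ => (hu q).smooth) z
  have hX : ∀ i, M.X (lap f) i = ∑ q ∈ S, M.X (lap (fun z => f z * th r q z)) i := by
    intro i
    rw [hlap]
    exact M.X_sum S (fun q => lap (fun z => f z * th r q z)) (fun q _ => (hu q).ne_lap) i
  have hterm : ∀ q : ℤ × ℤ,
      M.L (fun i => M.X (lap (fun z => f z * th r q z)) i * Real.sin (M.X g i)) = 0 := by
    intro q
    by_cases h0 : ∃ z, f z * th r q z ≠ 0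
    · obtain ⟨z, hz⟩ := h0
      have hz1 : z ∈ tsupport f := subset_tsupport f (left_ne_zero_of_mul hz)
      have hz2 : z ∈ bx (ctr r q) (2 * r) :=
        th_supp r hr q (subset_tsupport _ (right_ne_zero_of_mul hz))
      have hsub : tsupport (fun z => f z * th r q z) ⊆ bx (ctr r q) (2 * r) :=
        (closure_mono (Function.support_mul_subset_right f (th r q))).trans (th_supp r hr q)
      refine PP_box M (hu q) (ctr r q) (2 * r) (by positivity) hsub g hg ?_
      intro w hw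
      have h1 := hdist z hz1 w hw
      rw [Prod.dist_eq, Real.dist_eq, Real.dist_eq, le_max_iff] at h1
      obtain ⟨h2, h3⟩ := hz2
      have h4 : δ = 40 * r := by rw [hrdef]; ring
      rcases h1 with h1 | h1
      · left
        have h5 : |z.1 - w.1| ≤ |z.1 - (ctr r q).1| + |w.1 - (ctr r q).1| := by
          have := abs_sub (z.1 - (ctr r q).1) (w.1 - (ctr r q).1)
          rwa [sub_sub_sub_cancel_right] at this
        linarith
      · right
        have h5 : |z.2 - w.2| ≤ |z.2 - (ctr r q).2| + |w.2 - (ctr r q).2| := by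
          have := abs_sub (z.2 - (ctr r q).2) (w.2 - (ctr r q).2)
          rwa [sub_sub_sub_cancel_right] at this
        linarith
    · push Not at h0
      have h1 : (fun z => f z * th r q z) = fun z => 0 * f z := by
        funext z
        rw [h0 z, zero_mul]
      have h2 : lap (fun z => f z * th r q z) = fun _ => 0 := by
        funext z
        rw [h1, lap_smul 0 hf.smooth z, zero_mul]
      rw [h2]
      have h3 : (fun i => M.X (fun _ => 0) i * Real.sin (M.X g i)) = fun _ : I => (0 : ℝ) := by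
        funext i
        rw [M.X_zero i, zero_mul]
      rw [h3]
      exact M.L_zero
  have hok : ∀ q ∈ S, M.Ok (fun i => M.X (lap (fun z => f z * th r q z)) i * Real.sin (M.X g i)) :=
    fun q _ => M.ok_mul_bdd _ _ (M.ok_X _ (hu q).ne_lap) 1 fun i => Real.abs_sin_le_one _
  have hfin := M.L_sum S
    (fun q i => M.X (lap (fun z => f z * th r q z)) i * Real.sin (M.X g i)) hok
  have hfun : (fun i => M.X (lap f) i * Real.sin (M.X g i)) =
      fun i => ∑ q ∈ S, M.X (lap (fun z => f z * th r q z)) i * Real.sin (M.X g i) := by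
    funext i
    rw [hX i, Finset.sum_mul]
  rw [hfun, hfin]
  exact Finset.sum_eq_zero fun q _ => hterm q

end GF
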